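import Pool.Agent.D0H53.AP.Gen

set_option autoImplicit false

/-!
# Consequences of the Poisson law
-/

open Finset Filter Topology

namespace Pool.Agent.D0H53.AP

open Pool.Agent.D0H53.PL

theorem lang_thr {Z : ℕ → Set ℝ → ℝ} {I : Set ℝ} (hZ : LawZ Z I) (a c z : ℝ) (ha : 0 < a) (hac : a < c)
    (hc : c < 1) (hz : 0 ≤ z) (ε : ℝ) (hε : 0 < ε) : ∃ H₀ : ℕ, ∀ H : ℕ, H₀ ≤ H → ∀ A : Set ℕ,
    |Z H (I ∩ XA ⌊(H : ℝ) ^ a⌋₊ ⌊(H : ℝ) ^ c⌋₊ (fun n => z / Real.log n) A) -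
      (ProbabilityTheory.poissonMeasure (12 / Real.pi ^ 2 * z * Real.log (c / a)).toNNReal).real A * Z H I| ≤
      ε * Z H I := by
  set y : ℝ := 12 / Real.pi ^ 2 * z * Real.log (c / a) with hy
  have hlog0 : 0 ≤ Real.log (c / a) := Real.log_nonneg (by rw [le_div_iff₀ ha]; linarith)
  have hy0 : 0 ≤ y := by positivity
  obtain ⟨δ₀, hδ₀, N₁, hN₁, hlaw⟩ := hZ c hc (y + 1) (by linarith) ε hε
  set s : ℕ → ℝ := fun N => Mn ⌊(N : ℝ) ^ c⌋₊ (fun n => z / Real.log n) ⌊(N : ℝ) ^ a⌋₊ with hs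
  have hs1 : Tendsto s atTop (𝓝 y) := by
    have h1 := (lang_mean a c ha hac).const_mul (12 / Real.pi ^ 2 * z)
    refine h1.congr fun N => ?_
    simp only [hs]
    unfold Mn
    rw [mul_assoc, Finset.mul_sum]
    congr 1
    refine Finset.sum_congr rfl fun n _ => ?_
    rw [div_div, mul_one_div, mul_comm (n : ℝ)]
  have hev : ∀ᶠ N : ℕ in atTop, N₁ ≤ N ∧ 2 ≤ ⌊(N : ℝ) ^ a⌋₊ ∧ |s N - y| ≤ min δ₀ 1 ∧
      z ≤ δ₀ * Real.log (⌊(N : ℝ) ^ a⌋₊ : ℝ) := by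
    have h1 : Tendsto (fun N : ℕ => |s N - y|) atTop (𝓝 0) := by
      have := tendsto_iff_norm_sub_tendsto_zero.1 hs1
      simpa using this
    have h2 : Tendsto (fun N : ℕ => δ₀ * Real.log (⌊(N : ℝ) ^ a⌋₊ : ℝ)) atTop atTop :=
      ((Real.tendsto_log_atTop.comp tendsto_natCast_atTop_atTop).comp (floor_atTop a ha)).const_mul_atTop hδ₀
    filter_upwards [eventually_ge_atTop N₁, (floor_atTop a ha).eventually_ge_atTop 2,
      h1.eventually (gt_mem_nhds (by positivity : (0 : ℝ) < min δ₀ 1)), h2.eventually_ge_atTop z] with N h3 h4 h5 h6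
    exact ⟨h3, h4, le_of_lt h5, h6⟩
  obtain ⟨N₀, hN₀⟩ := Filter.eventually_atTop.1 hev
  refine ⟨N₀, fun H hH A => ?_⟩
  obtain ⟨h1, h2, h3, h4⟩ := hN₀ H hH
  have hpos : ∀ n, ⌊(H : ℝ) ^ a⌋₊ < n → 0 < Real.log (n : ℝ) := by
    intro n hn
    apply Real.log_pos
    exact_mod_cast (by omega : 1 < n)
  have habs := abs_le.1 h3
  have hm1 : min δ₀ 1 ≤ 1 := min_le_right _ _
  refine hlaw H h1 _ _ (by omega) (Nat.floor_le (by positivity)) (fun n => z / Real.log n) ?_ ?_ ?_ ?_ y hy0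
    (by linarith) (h3.trans (min_le_left _ _)) A
  · intro p q hp hpq _
    have hp0 := hpos p hp
    have hle : Real.log (p : ℝ) ≤ Real.log (q : ℝ) :=
      Real.log_le_log (by exact_mod_cast (by omega : 0 < p)) (by exact_mod_cast hpq)
    exact div_le_div_of_nonneg_left hz hp0 hle
  · intro q hq _
    exact div_nonneg hz (hpos q hq).le
  · intro q hq _
    rw [div_le_iff₀ (hpos q hq)]
    refine h4.trans (mul_le_mul_of_nonneg_left ?_ hδ₀.le)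
    exact Real.log_le_log (by exact_mod_cast (by omega : 0 < ⌊(H : ℝ) ^ a⌋₊)) (by exact_mod_cast hq.le)
  · have := habs.2
    simp only [hs] at this
    linarith

/-- if the series is large then there are almost no exceptions -/
theorem khin_d {Z : ℕ → Set ℝ → ℝ} {I : Set ℝ} (hZ : LawZ Z I) (hmono : ∀ H T T', T ⊆ T' → Z H T ≤ Z H T')
    (hnnZ : ∀ H T, 0 ≤ Z H T) (κ : ℝ) (hκ : κ < 1) (η : ℝ) (hη : 0 < η) :
    ∃ L : ℝ, 0 < L ∧ ∃ H₀ : ℕ, 1 ≤ H₀ ∧ ∀ H : ℕ, H₀ ≤ H →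
    ∀ (Q1 Q2 : ℕ), 1 ≤ Q1 → (Q2 : ℝ) ≤ (H : ℝ) ^ κ → ∀ δ : ℕ → ℝ,
    (∀ p q, Q1 < p → p ≤ q → q ≤ Q2 → δ q ≤ δ p) → (∀ q, Q1 < q → q ≤ Q2 → 0 ≤ δ q) →
    (∀ q, Q1 < q → q ≤ Q2 → δ q ≤ 1) → L ≤ ∑ q ∈ Ioc Q1 Q2, δ q / q →
    Z H (I ∩ {x | ∀ (p : ℤ) (q : ℕ), Q1 < q → q ≤ Q2 → δ q / (q : ℝ) ^ 2 < |x - (p : ℝ) / q|}) ≤ η * Z H I := by
  set L1 : ℝ := |Real.log (2 / η)| with hL1
  have hL10 : 0 ≤ L1 := abs_nonneg _
  have hexp : ∀ y, L1 ≤ y → Real.exp (-y) ≤ η / 2 := by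
    intro y hy
    have h1 : -y ≤ Real.log (η / 2) := by
      have h2 : Real.log (η / 2) = -Real.log (2 / η) := by
        rw [← Real.log_inv, inv_div]
      rw [h2]
      have := le_abs_self (Real.log (2 / η))
      linarith
    calc Real.exp (-y) ≤ Real.exp (Real.log (η / 2)) := Real.exp_le_exp.2 h1
      _ = η / 2 := Real.exp_log (by positivity)
  obtain ⟨δ₀, hδ₀, N₀, hN₀, hlaw⟩ := hZ κ hκ (L1 + 2) (by linarith) (η / 2) (by positivity)
  set δ₁ : ℝ := min δ₀ 1 with hδ₁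
  have hδ₁0 : 0 < δ₁ := by positivity
  have hδ₁1 : δ₁ ≤ 1 := min_le_right _ _
  have hpi : 0 < 12 / Real.pi ^ 2 := by positivity
  refine ⟨(L1 + 1) / (12 / Real.pi ^ 2 * δ₁), by positivity, N₀, hN₀, ?_⟩
  intro H hH Q1 Q2 hQ1 hQ2 δ hanti hnn hone hsum
  set δ' : ℕ → ℝ := fun q => min (δ q) δ₁ with hδ'
  have hge : ∀ q, Q1 < q → q ≤ Q2 → δ₁ * δ q ≤ δ' q := by
    intro q h1 h2
    have h3 := hnn q h1 h2
    have h4 := hone q h1 h2
    simp only [hδ']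
    apply le_min
    · nlinarith
    · nlinarith
  have hQ12 : Q1 ≤ Q2 := by
    by_contra hcon
    rw [Finset.Ioc_eq_empty (by omega)] at hsum
    simp only [Finset.sum_empty] at hsum
    have : 0 < (L1 + 1) / (12 / Real.pi ^ 2 * δ₁) := by positivity
    linarith
  have hbig : L1 ≤ Mn Q2 δ' Q1 := by
    unfold Mn
    have h1 : δ₁ * ∑ q ∈ Ioc Q1 Q2, δ q / q ≤ ∑ n ∈ Ioc Q1 Q2, δ' n / n := by
      rw [Finset.mul_sum]
      refine Finset.sum_le_sum fun q hq => ?_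
      rw [mem_Ioc] at hq
      rw [mul_div_assoc']
      apply div_le_div_of_nonneg_right _ (Nat.cast_nonneg _)
      exact hge q hq.1 hq.2
    have h2 : L1 + 1 ≤ (12 / Real.pi ^ 2 * δ₁) * ∑ q ∈ Ioc Q1 Q2, δ q / q := by
      rw [div_le_iff₀ (by positivity)] at hsum
      linarith
    have h3 := mul_le_mul_of_nonneg_left h1 hpi.le
    linarith
  -- the first index
  have hex : ∃ n : ℕ, Q1 ≤ n ∧ L1 ≤ Mn n δ' Q1 := ⟨Q2, hQ12, hbig⟩
  classical
  set Q' : ℕ := Nat.find hex with hQ'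
  obtain ⟨hQ'1, hQ'2⟩ := Nat.find_spec hex
  have hQ'3 : Q' ≤ Q2 := Nat.find_le ⟨hQ12, hbig⟩
  have hup : Mn Q' δ' Q1 ≤ L1 + 2 := by
    rcases Nat.lt_or_ge Q1 Q' with h | h
    · obtain ⟨n, hn⟩ : ∃ n, Q' = n + 1 := ⟨Q' - 1, by omega⟩
      have h1 : ¬ (Q1 ≤ n ∧ L1 ≤ Mn n δ' Q1) := Nat.find_min hex (by omega)
      have h2 : Mn n δ' Q1 < L1 := by
        by_contra hcon
        exact h1 ⟨by omega, not_lt.1 hcon⟩
      have h3 : Mn Q' δ' Q1 = Mn n δ' Q1 + 12 / Real.pi ^ 2 * (δ' (n + 1) / ((n + 1 : ℕ) : ℝ)) := by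
        unfold Mn
        rw [hn, Finset.sum_Ioc_succ_top (by omega)]
        ring
      have h4 : δ' (n + 1) / ((n + 1 : ℕ) : ℝ) ≤ 1 := by
        have h5 : δ' (n + 1) ≤ 1 := (min_le_right _ _).trans hδ₁1
        have h6 : (1 : ℝ) ≤ ((n + 1 : ℕ) : ℝ) := by exact_mod_cast (by omega : 1 ≤ n + 1)
        rw [div_le_one (by linarith)]
        linarith
      have h5 : 12 / Real.pi ^ 2 * (δ' (n + 1) / ((n + 1 : ℕ) : ℝ)) ≤ 2 := by
        have := mul_le_mul_of_nonneg_left h4 hpi.le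
        have := pi_le
        linarith
      linarith
    · have h1 : Q' = Q1 := by omega
      have h2 : Mn Q' δ' Q1 = 0 := by
        unfold Mn
        rw [h1]
        simp
      rw [h2]
      linarith
  have hy0 : 0 ≤ Mn Q' δ' Q1 := hL10.trans hQ'2
  have h1 := hlaw H hH Q1 Q' hQ1 (by
      refine le_trans ?_ hQ2
      exact_mod_cast hQ'3) δ' (by
      intro p q hp hpq hq
      exact min_le_min_right _ (hanti p q hp hpq (hq.trans hQ'3))) (by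
      intro q hq hq'
      exact le_min (hnn q hq (hq'.trans hQ'3)) hδ₁0.le) (by
      intro q hq hq'
      exact (min_le_right _ _).trans (min_le_left _ _)) hup (Mn Q' δ' Q1) hy0 hup (by
      rw [sub_self, abs_zero]; exact hδ₀.le) {0}
  have h2 : (ProbabilityTheory.poissonMeasure (Mn Q' δ' Q1).toNNReal).real {0} ≤ η / 2 := by
    rw [ProbabilityTheory.poissonMeasure_real_singleton, Real.coe_toNNReal _ hy0]
    simp only [pow_zero, mul_one, Nat.factorial_zero, Nat.cast_one, div_one]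
    exact hexp _ hQ'2
  have h3 := (abs_le.1 h1).2
  have h4 := mul_le_mul_of_nonneg_right h2 (hnnZ H I)
  have hsub : I ∩ {x | ∀ (p : ℤ) (q : ℕ), Q1 < q → q ≤ Q2 → δ q / (q : ℝ) ^ 2 < |x - (p : ℝ) / q|} ⊆
      I ∩ XA Q1 Q' δ' {0} := by
    rintro x ⟨hx1, hx2⟩
    refine ⟨hx1, ?_⟩
    unfold XA
    rw [Set.mem_setOf_eq, Set.mem_singleton_iff]
    have : Pr Q1 Q' δ' x = ∅ := by
      rw [Set.eq_empty_iff_forall_notMem]
      rintro ⟨p, q⟩ ⟨h5, h6, -, h7⟩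
      have h8 := hx2 p q h5 (h6.trans hQ'3)
      have h9 : δ' q / (q : ℝ) ^ 2 ≤ δ q / (q : ℝ) ^ 2 :=
        div_le_div_of_nonneg_right (min_le_left _ _) (by positivity)
      simp only at h7
      linarith
    rw [this, Set.ncard_empty]
  have h5 := hmono H _ _ hsub
  linarith

/-- Lang's inequality with the exponent one fails for almost all members -/
theorem lang_z {Z : ℕ → Set ℝ → ℝ} {I : Set ℝ} (hZ : LawZ Z I) (hmono : ∀ H T T', T ⊆ T' → Z H T ≤ Z H T')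
    (hnnZ : ∀ H T, 0 ≤ Z H T) (κ : ℝ) (hκ : 0 < κ) (c η : ℝ) (hc : 0 < c)
    (hη : 0 < η) : ∃ H₀ : ℕ, ∀ H : ℕ, H₀ ≤ H →
    Z H (I ∩ {x | ∀ (p : ℤ) (q : ℕ), 2 ≤ q → (q : ℝ) ≤ (H : ℝ) ^ κ →
      c / ((q : ℝ) ^ 2 * Real.log q) < |x - (p : ℝ) / q|}) ≤ η * Z H I := by
  set κ' : ℝ := min κ (1 / 3) with hκ'
  have hκ'0 : 0 < κ' := by positivity
  have hκ'1 : κ' < 1 := (min_le_right _ _).trans_lt (by norm_num)
  obtain ⟨L, hL, N₁, hN₁, hdiv⟩ := khin_d hZ hmono hnnZ κ' hκ'1 η hη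
  set Q1 : ℕ := max 2 ⌈Real.exp c⌉₊ with hQ1
  have hQ12 : 2 ≤ Q1 := le_max_left _ _
  have hQ1c : Real.exp c ≤ Q1 := by
    refine (Nat.le_ceil _).trans ?_
    exact_mod_cast le_max_right _ _
  have hev : ∀ᶠ N : ℕ in atTop, N₁ ≤ N ∧ 1 ≤ N ∧ Q1 ≤ ⌊(N : ℝ) ^ κ'⌋₊ ∧
      L ≤ c * (Real.log (Real.log ((⌊(N : ℝ) ^ κ'⌋₊ : ℝ) + 1)) - Real.log (Real.log ((Q1 : ℝ) + 1))) := by
    have h1 : Tendsto (fun N : ℕ => c * (Real.log (Real.log ((⌊(N : ℝ) ^ κ'⌋₊ : ℝ) + 1)) -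
        Real.log (Real.log ((Q1 : ℝ) + 1)))) atTop atTop := by
      apply Tendsto.const_mul_atTop hc
      apply tendsto_atTop_add_const_right
      apply Real.tendsto_log_atTop.comp
      apply Real.tendsto_log_atTop.comp
      apply tendsto_atTop_add_const_right
      exact tendsto_natCast_atTop_atTop.comp (floor_atTop κ' hκ'0)
    filter_upwards [eventually_ge_atTop N₁, eventually_ge_atTop 1, (floor_atTop κ' hκ'0).eventually_ge_atTop Q1,
      h1.eventually_ge_atTop L] with N h2 h3 h4 h5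
    exact ⟨h2, h3, h4, h5⟩
  obtain ⟨N₀, hN₀⟩ := Filter.eventually_atTop.1 hev
  refine ⟨N₀, fun H hH => ?_⟩
  obtain ⟨h1, h2, h3, h4⟩ := hN₀ H hH
  have hNR : (1 : ℝ) ≤ H := by exact_mod_cast h2
  have hlogc : ∀ n, Q1 < n → c ≤ Real.log (n : ℝ) := by
    intro n hn
    rw [Real.le_log_iff_exp_le (by exact_mod_cast (by omega : 0 < n))]
    exact hQ1c.trans (by exact_mod_cast hn.le)
  have h5 := hdiv H h1 Q1 ⌊(H : ℝ) ^ κ'⌋₊ (by omega) (Nat.floor_le (by positivity)) (fun n => c / Real.log n) (by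
      intro p q hp hpq _
      have hp0 := hlogc p hp
      have hle : Real.log (p : ℝ) ≤ Real.log (q : ℝ) :=
        Real.log_le_log (by exact_mod_cast (by omega : 0 < p)) (by exact_mod_cast hpq)
      exact div_le_div_of_nonneg_left hc.le (by linarith) hle) (by
      intro q hq _
      have := hlogc q hq
      exact div_nonneg hc.le (by linarith)) (by
      intro q hq _
      have := hlogc q hq
      rw [div_le_one (by linarith)]
      exact this) (by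
      refine h4.trans ?_
      refine (mul_le_mul_of_nonneg_left (ll_sum Q1 _ hQ12 h3).1 hc.le).trans (le_of_eq ?_)
      rw [Finset.mul_sum]
      refine Finset.sum_congr rfl fun n _ => ?_
      rw [div_div, mul_one_div, mul_comm (n : ℝ)])
  refine le_trans (hmono H _ _ ?_) h5
  rintro x ⟨hx1, hx2⟩
  refine ⟨hx1, fun p q hq hq' => ?_⟩
  have h6 : (q : ℝ) ≤ (H : ℝ) ^ κ := by
    have h7 : (q : ℝ) ≤ (H : ℝ) ^ κ' := (Nat.le_floor_iff (by positivity)).1 hq'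
    exact h7.trans (Real.rpow_le_rpow_of_exponent_le hNR (min_le_left _ _))
  have h7 := hx2 p q (by omega) h6
  rw [div_div, mul_comm (Real.log (q : ℝ))]
  exact h7

end Pool.Agent.D0H53.AP
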