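import Pool.Agent.D0H53.AP.Irr
import Pool.Agent.D0H53.AP.Conseq

set_option autoImplicit false

/-!
# The Poisson law for the real algebraic numbers of a given degree
-/

open Finset Filter Topology

namespace Pool.Agent.D0H53.AP

open Pool.Agent.D0H53.PL

/-- there are few reducible polynomials -/
theorem bad_small (n : ℕ) (η : ℝ) (hη : 0 < η) : ∃ H₁ : ℕ, 1 ≤ H₁ ∧ ∀ H : ℕ, H₁ ≤ H →
    (((n + 1) * (BadP n H).ncard : ℕ) : ℝ) ≤ η * (H : ℝ) ^ (n + 2) := by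
  set a : ℕ := (n + 2) * (n + 1) ^ (n + 1) with ha
  have ha1 : 1 ≤ a := Nat.mul_pos (by omega) (Nat.one_le_pow _ _ (by omega))
  set θ : ℝ := 1 / (2 * (n + 1)) with hθ
  have hθ0 : 0 < θ := by positivity
  set Y : ℝ := (4 * (1 + 1 / θ)) ^ (n + 1) * ((a : ℝ) ^ (n + 1) * (a : ℝ) ^ (1 / 2 : ℝ)) with hY
  have hY0 : 0 ≤ Y := by positivity
  set K : ℝ := (n + 1) * ((n + 1) * 3 ^ (n + 1) + Y) with hK
  have hK0 : 0 < K := by positivity
  obtain ⟨H₂, hH₂⟩ := Filter.eventually_atTop.1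
    ((pow_tendsto (1 / 2) (by norm_num)).eventually_ge_atTop (K / η))
  refine ⟨max 1 H₂, le_max_left _ _, fun H hH => ?_⟩
  have hH1 : 1 ≤ H := (le_max_left _ _).trans hH
  have hHR : (1 : ℝ) ≤ H := by exact_mod_cast hH1
  have hH0 : (0 : ℝ) < H := by linarith
  have h1 := hH₂ H ((le_max_right _ _).trans hH)
  have hs : (1 : ℝ) ≤ (H : ℝ) ^ (1 / 2 : ℝ) := Real.one_le_rpow hHR (by norm_num)
  have h2 : ((BadP n H).ncard : ℝ) ≤
      (n + 1) * (2 * H + 1) ^ (n + 1) + (4 * ((Dn (a * H)).card : ℝ)) ^ (n + 1) := by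
    exact_mod_cast bad_card n H
  have h3 : ((Dn (a * H)).card : ℝ) ≤ (1 + 1 / θ) * (((a : ℝ) * H) * ((a : ℝ) * H) ^ θ) := by
    have e1 := Dn_card (a * H)
    have e2 := log_le (a * H) (Nat.mul_pos ha1 hH1) θ hθ0
    push_cast at e1 e2
    have e3 : (0 : ℝ) ≤ (a : ℝ) * H := by positivity
    calc ((Dn (a * H)).card : ℝ) ≤ ((a : ℝ) * H) * (1 + Real.log ((a : ℝ) * H)) := e1
      _ ≤ ((a : ℝ) * H) * ((1 + 1 / θ) * ((a : ℝ) * H) ^ θ) := mul_le_mul_of_nonneg_left e2 e3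
      _ = _ := by ring
  have h4 : (4 * ((Dn (a * H)).card : ℝ)) ^ (n + 1) ≤ Y * ((H : ℝ) ^ (n + 1) * (H : ℝ) ^ (1 / 2 : ℝ)) := by
    calc (4 * ((Dn (a * H)).card : ℝ)) ^ (n + 1)
        ≤ (4 * ((1 + 1 / θ) * (((a : ℝ) * H) * ((a : ℝ) * H) ^ θ))) ^ (n + 1) :=
          pow_le_pow_left₀ (by positivity) (by linarith) _
      _ = (4 * (1 + 1 / θ)) ^ (n + 1) * (((a : ℝ) * H) ^ (n + 1) * (((a : ℝ) * H) ^ θ) ^ (n + 1)) := by
          rw [← mul_pow, ← mul_pow]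
          congr 1
          ring
      _ = Y * ((H : ℝ) ^ (n + 1) * (H : ℝ) ^ (1 / 2 : ℝ)) := by
          have e : (((a : ℝ) * H) ^ θ) ^ (n + 1) = ((a : ℝ) * H) ^ (1 / 2 : ℝ) := by
            rw [← Real.rpow_natCast, ← Real.rpow_mul (by positivity)]
            congr 1
            rw [hθ]
            push_cast
            field_simp
          rw [e, Real.mul_rpow (by positivity) (by positivity), mul_pow (a : ℝ) (H : ℝ), hY]
          ring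
  have h5 : ((n : ℝ) + 1) * (2 * H + 1) ^ (n + 1) ≤
      (n + 1) * 3 ^ (n + 1) * ((H : ℝ) ^ (n + 1) * (H : ℝ) ^ (1 / 2 : ℝ)) := by
    have e1 := two_pow n H hH1 (n + 1)
    have e2 : (H : ℝ) ^ (n + 1) ≤ (H : ℝ) ^ (n + 1) * (H : ℝ) ^ (1 / 2 : ℝ) :=
      le_mul_of_one_le_right (by positivity) hs
    calc ((n : ℝ) + 1) * (2 * H + 1) ^ (n + 1) ≤ (n + 1) * (3 ^ (n + 1) * (H : ℝ) ^ (n + 1)) :=
          mul_le_mul_of_nonneg_left e1 (by positivity)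
      _ ≤ (n + 1) * (3 ^ (n + 1) * ((H : ℝ) ^ (n + 1) * (H : ℝ) ^ (1 / 2 : ℝ))) := by
          apply mul_le_mul_of_nonneg_left _ (by positivity)
          exact mul_le_mul_of_nonneg_left e2 (by positivity)
      _ = _ := by ring
  have h6 : ((n : ℝ) + 1) * ((BadP n H).ncard : ℝ) ≤ K * ((H : ℝ) ^ (n + 1) * (H : ℝ) ^ (1 / 2 : ℝ)) := by
    have e1 : ((BadP n H).ncard : ℝ) ≤
        ((n + 1) * 3 ^ (n + 1) + Y) * ((H : ℝ) ^ (n + 1) * (H : ℝ) ^ (1 / 2 : ℝ)) := by linarith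
    calc ((n : ℝ) + 1) * ((BadP n H).ncard : ℝ)
        ≤ (n + 1) * (((n + 1) * 3 ^ (n + 1) + Y) * ((H : ℝ) ^ (n + 1) * (H : ℝ) ^ (1 / 2 : ℝ))) :=
          mul_le_mul_of_nonneg_left e1 (by positivity)
      _ = _ := by rw [hK]; ring
  have h7 : K ≤ η * (H : ℝ) ^ (1 / 2 : ℝ) := by
    rw [div_le_iff₀ hη] at h1
    linarith
  have h8 : (H : ℝ) ^ (1 / 2 : ℝ) * (H : ℝ) ^ (1 / 2 : ℝ) = H := by
    rw [← Real.rpow_add hH0]
    norm_num
  push_cast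
  refine h6.trans ?_
  calc K * ((H : ℝ) ^ (n + 1) * (H : ℝ) ^ (1 / 2 : ℝ))
      ≤ (η * (H : ℝ) ^ (1 / 2 : ℝ)) * ((H : ℝ) ^ (n + 1) * (H : ℝ) ^ (1 / 2 : ℝ)) :=
        mul_le_mul_of_nonneg_right h7 (by positivity)
    _ = η * ((H : ℝ) ^ (n + 1) * ((H : ℝ) ^ (1 / 2 : ℝ) * (H : ℝ) ^ (1 / 2 : ℝ))) := by ring
    _ = η * (H : ℝ) ^ (n + 2) := by
        rw [h8]
        ring

/-- the law for a close counting function -/
theorem law_close {Z Z' : ℕ → Set ℝ → ℝ} {I : Set ℝ} (hZ : LawZ Z I) (G : ℕ → ℝ) (C c : ℝ) (hC : 0 < C)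
    (hc : 0 < c) (hup : ∀ H, 1 ≤ H → Z H I ≤ C * G H)
    (hlo : ∃ H₁ : ℕ, ∀ H, H₁ ≤ H → c * G H ≤ Z' H I)
    (hclose : ∀ η : ℝ, 0 < η → ∃ H₁ : ℕ, ∀ H, H₁ ≤ H → ∀ T, |Z' H T - Z H T| ≤ η * G H) : LawZ Z' I := by
  intro κ hκ L hL ε hε
  obtain ⟨δ₀, hδ₀, H₁, hH₁, hlaw⟩ := hZ κ hκ L hL (ε * c / (2 * C)) (by positivity)
  obtain ⟨H₂, hlo⟩ := hlo
  obtain ⟨H₃, hcl⟩ := hclose (ε * c / 4) (by positivity)
  refine ⟨δ₀, hδ₀, max H₁ (max H₂ H₃), le_max_of_le_left hH₁, ?_⟩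
  intro H hH Q1 Q2 hQ1 hQ2 δ hanti hnn hsmall hmean y hy0 hyL hyM A
  have hHa : H₁ ≤ H := (le_max_left _ _).trans hH
  have hHb : H₂ ≤ H := (le_max_left _ _).trans ((le_max_right _ _).trans hH)
  have hHc : H₃ ≤ H := (le_max_right _ _).trans ((le_max_right _ _).trans hH)
  have h1 := hlaw H hHa Q1 Q2 hQ1 hQ2 δ hanti hnn hsmall hmean y hy0 hyL hyM A
  set X : Set ℝ := XA Q1 Q2 δ A with hX
  set po' : ℝ := (ProbabilityTheory.poissonMeasure y.toNNReal).real A with hpo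
  have hpo0 : 0 ≤ po' := MeasureTheory.measureReal_nonneg
  have hpo1 : po' ≤ 1 := MeasureTheory.measureReal_le_one
  have h2 := hcl H hHc (I ∩ X)
  have h3 := hcl H hHc I
  have h4 := hup H (hH₁.trans hHa)
  have h5 := hlo H hHb
  have h6 : |po' * (Z' H I - Z H I)| ≤ ε * c / 4 * G H := by
    rw [abs_mul, abs_of_nonneg hpo0]
    exact (mul_le_of_le_one_left (abs_nonneg _) hpo1).trans h3
  have h7 : ε * c / (2 * C) * Z H I ≤ ε * c / 2 * G H := by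
    calc ε * c / (2 * C) * Z H I ≤ ε * c / (2 * C) * (C * G H) := mul_le_mul_of_nonneg_left h4 (by positivity)
      _ = ε * c / 2 * G H := by field_simp
  have h8 : ε * (c * G H) ≤ ε * Z' H I := mul_le_mul_of_nonneg_left h5 hε.le
  have e : Z' H (I ∩ X) - po' * Z' H I =
      (Z' H (I ∩ X) - Z H (I ∩ X)) + (Z H (I ∩ X) - po' * Z H I) - po' * (Z' H I - Z H I) := by ring
  rw [e]
  have h9 := abs_le.1 h1
  have h10 := abs_le.1 h2
  have h11 := abs_le.1 h6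
  rw [abs_le]
  constructor <;> linarith [h9.1, h9.2, h10.1, h10.2, h11.1, h11.2]

theorem law_half {Z : ℕ → Set ℝ → ℝ} {I : Set ℝ} (hZ : LawZ (fun H T => 2 * Z H T) I) : LawZ Z I := by
  intro κ hκ L hL ε hε
  obtain ⟨δ₀, hδ₀, H₁, hH₁, hlaw⟩ := hZ κ hκ L hL ε hε
  refine ⟨δ₀, hδ₀, H₁, hH₁, ?_⟩
  intro H hH Q1 Q2 hQ1 hQ2 δ hanti hnn hsmall hmean y hy0 hyL hyM A
  have h1 := abs_le.1 (hlaw H hH Q1 Q2 hQ1 hQ2 δ hanti hnn hsmall hmean y hy0 hyL hyM A)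
  rw [abs_le]
  constructor <;> linarith [h1.1, h1.2]

theorem IP_close (n : ℕ) (η : ℝ) (hη : 0 < η) : ∃ H₁ : ℕ, ∀ H : ℕ, H₁ ≤ H → ∀ T : Set ℝ,
    |((IP n H T).ncard : ℝ) - ((PQ n H T).ncard : ℝ)| ≤ η * (H : ℝ) ^ (n + 2) := by
  obtain ⟨H₁, -, h⟩ := bad_small n η hη
  refine ⟨H₁, fun H hH T => ?_⟩
  have h1 := h H hH
  obtain ⟨h2, h3⟩ := IP_PQ n H T
  have h2' : ((IP n H T).ncard : ℝ) ≤ ((PQ n H T).ncard : ℝ) := by exact_mod_cast h2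
  have h3' : ((PQ n H T).ncard : ℝ) ≤ ((IP n H T).ncard : ℝ) + (((n + 1) * (BadP n H).ncard : ℕ) : ℝ) := by
    exact_mod_cast h3
  rw [abs_le]
  constructor <;> linarith

theorem PQ_up (n : ℕ) (k : ℤ) : ∃ C : ℝ, 0 < C ∧ ∀ H : ℕ, 1 ≤ H →
    ((PQ n H (Set.Ico (k : ℝ) (k + 1))).ncard : ℝ) ≤ C * (H : ℝ) ^ (n + 2) := by
  obtain ⟨C, hC, hup⟩ := Zc_up n k
  refine ⟨C, hC, fun H hH => ?_⟩
  refine le_trans ?_ (hup H hH _ (le_refl _))
  rw [← PP_ncard]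
  have hsub : PQ n H (Set.Ico (k : ℝ) (k + 1)) ⊆ PP n H (Set.Ico (k : ℝ) (k + 1)) := fun _ hp => hp.1
  exact_mod_cast Set.ncard_le_ncard hsub (PP_finite n H _)

theorem IP_ge (n : ℕ) (k : ℤ) : ∃ c : ℝ, 0 < c ∧ ∃ H₀ : ℕ, 1 ≤ H₀ ∧ ∀ H : ℕ, H₀ ≤ H →
    c * (H : ℝ) ^ (n + 2) ≤ ((IP n H (Set.Ico (k : ℝ) (k + 1))).ncard : ℝ) := by
  obtain ⟨c, hc, H₀, hH₀, hge⟩ := PQ_ge n k
  obtain ⟨H₁, h⟩ := IP_close n (c / 2) (by positivity)
  refine ⟨c / 2, by positivity, max H₀ H₁, le_max_of_le_left hH₀, fun H hH => ?_⟩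
  have h1 := hge H ((le_max_left _ _).trans hH)
  have h2 := (abs_le.1 (h H ((le_max_right _ _).trans hH) (Set.Ico (k : ℝ) (k + 1)))).1
  linarith

theorem IP_law (n : ℕ) (k : ℤ) : LawZ (fun H T => ((IP n H T).ncard : ℝ)) (Set.Ico (k : ℝ) (k + 1)) := by
  obtain ⟨C, hC, hup⟩ := PQ_up n k
  obtain ⟨c, hc, H₀, hH₀, hge⟩ := IP_ge n k
  exact law_close (prim_law n k) (fun H => (H : ℝ) ^ (n + 2)) C c hC hc hup
    ⟨H₀, hge⟩ (IP_close n)

/-! ## algebraic numbers -/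

/-- the real algebraic numbers of degree `d` and height at most `H` in a set -/
def AlgR (d H : ℕ) (T : Set ℝ) : Set ℝ :=
  {x | x ∈ T ∧ ∃ P : Polynomial ℤ, Irreducible P ∧ P.natDegree = d ∧ (∀ i, |P.coeff i| ≤ (H : ℤ)) ∧
    Polynomial.aeval x P = 0}

theorem assoc_of_root (P Q : Polynomial ℤ) (hP : Irreducible P) (hQ : Irreducible Q) (hPd : P.natDegree ≠ 0)
    (x : ℝ) (h1 : Polynomial.aeval x P = 0) (h2 : Polynomial.aeval x Q = 0) : Q = P ∨ Q = -P := by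
  have hPp := hP.isPrimitive hPd
  have hP' := (Polynomial.IsPrimitive.Int.irreducible_iff_irreducible_map_cast hPp).1 hP
  have hmap : ∀ R : Polynomial ℤ, Polynomial.aeval x R = 0 →
      Polynomial.aeval x (R.map (Int.castRingHom ℚ)) = 0 := by
    intro R hR
    have h := Polynomial.aeval_map_algebraMap ℚ x R
    rw [algebraMap_int_eq] at h
    rw [h, hR]
  have hdvd : P ∣ Q := by
    rw [Polynomial.IsPrimitive.Int.dvd_iff_map_cast_dvd_map_cast P Q hPp]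
    by_contra hcon
    obtain ⟨a, b, hab⟩ := (hP'.coprime_iff_not_dvd).2 hcon
    have h3 := congrArg (Polynomial.aeval x) hab
    rw [map_add, map_mul, map_mul, hmap P h1, hmap Q h2, mul_zero, mul_zero, map_one] at h3
    norm_num at h3
  obtain ⟨R, hR⟩ := hdvd
  rcases hQ.isUnit_or_isUnit hR with h | h
  · exact absurd h hP.not_isUnit
  · rw [Polynomial.isUnit_iff] at h
    obtain ⟨r, hr, rfl⟩ := h
    rcases Int.isUnit_iff.1 hr with rfl | rfl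
    · left; rw [hR]; simp
    · right; rw [hR]; simp

theorem two_to_one (n H : ℕ) (T : Set ℝ) : (IP n H T).ncard = 2 * (AlgR (n + 1) H T).ncard := by
  classical
  set F := (IP_finite n H T).toFinset with hF
  have himg : AlgR (n + 1) H T = ((F.image Prod.snd : Finset ℝ) : Set ℝ) := by
    ext x
    rw [Finset.mem_coe, mem_image]
    constructor
    · rintro ⟨h1, P, h2, h3, h4, h5⟩
      refine ⟨(P, x), ?_, rfl⟩
      rw [hF, Set.Finite.mem_toFinset]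
      exact ⟨⟨h2.ne_zero, h3.le, h4, h1, h5⟩, h2, h3⟩
    · rintro ⟨⟨P, y⟩, h1, rfl⟩
      rw [hF, Set.Finite.mem_toFinset] at h1
      obtain ⟨⟨-, -, h4, h5, h6⟩, h2, h3⟩ := h1
      exact ⟨h5, P, h2, h3, h4, h6⟩
  rw [Set.ncard_eq_toFinset_card _ (IP_finite n H T), ← hF, himg, Set.ncard_coe_finset]
  rw [Finset.card_eq_sum_card_image Prod.snd F, Finset.sum_const_nat (m := 2), mul_comm]
  intro x hx
  rw [mem_image] at hx
  obtain ⟨⟨P, y⟩, h1, rfl⟩ := hx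
  rw [hF, Set.Finite.mem_toFinset] at h1
  obtain ⟨⟨h4, h5, h6, h7, h8⟩, h2, h3⟩ := h1
  simp only at h4 h5 h6 h7 h8 h2 h3
  have hne : P ≠ -P := by
    intro h
    have h9 : P + P = 0 := by
      nth_rewrite 2 [h]
      exact add_neg_cancel P
    have h10 : (2 : Polynomial ℤ) * P = 0 := by rw [two_mul]; exact h9
    rcases mul_eq_zero.1 h10 with h11 | h11
    · exact absurd h11 two_ne_zero
    · exact h4 h11
  have hset : F.filter (fun p => p.2 = y) = {(P, y), (-P, y)} := by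
    ext ⟨Q, z⟩
    rw [mem_filter, hF, Set.Finite.mem_toFinset, mem_insert, mem_singleton, Prod.mk.injEq, Prod.mk.injEq]
    constructor
    · rintro ⟨⟨⟨-, -, -, -, e2⟩, e3, -⟩, e5⟩
      simp only at e2 e3 e5
      subst e5
      rcases assoc_of_root P Q h2 e3 (by omega) z h8 e2 with h | h
      · exact Or.inl ⟨h, rfl⟩
      · exact Or.inr ⟨h, rfl⟩
    · rintro (⟨rfl, rfl⟩ | ⟨rfl, rfl⟩)
      · exact ⟨⟨⟨h4, h5, h6, h7, h8⟩, h2, h3⟩, rfl⟩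
      · refine ⟨⟨⟨neg_ne_zero.2 h4, ?_, ?_, h7, ?_⟩, (Associated.refl P).neg_right.irreducible h2, ?_⟩, rfl⟩
        · simp only [Polynomial.natDegree_neg]; exact h5
        · intro i
          simp only [Polynomial.coeff_neg, abs_neg]
          exact h6 i
        · simp only [map_neg, h8, neg_zero]
        · simp only [Polynomial.natDegree_neg]; exact h3
  rw [hset, Finset.card_pair]
  intro h
  exact hne (Prod.mk.inj h).1

theorem AlgR_finite (d H : ℕ) (hd : 1 ≤ d) (T : Set ℝ) : (AlgR d H T).Finite := by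
  obtain ⟨n, rfl⟩ : ∃ n, d = n + 1 := ⟨d - 1, by omega⟩
  apply ((IP_finite n H T).image Prod.snd).subset
  rintro x ⟨h1, P, h2, h3, h4, h5⟩
  exact ⟨(P, x), ⟨⟨h2.ne_zero, h3.le, h4, h1, h5⟩, h2, h3⟩, rfl⟩

theorem Alg_law (d : ℕ) (hd : 1 ≤ d) (k : ℤ) :
    LawZ (fun H T => ((AlgR d H T).ncard : ℝ)) (Set.Ico (k : ℝ) (k + 1)) := by
  obtain ⟨n, rfl⟩ : ∃ n, d = n + 1 := ⟨d - 1, by omega⟩
  apply law_half
  have h := IP_law n k
  have e : (fun (H : ℕ) (T : Set ℝ) => ((IP n H T).ncard : ℝ)) =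
      (fun H T => 2 * ((AlgR (n + 1) H T).ncard : ℝ)) := by
    funext H T
    rw [two_to_one]
    push_cast
    ring
  rw [e] at h
  exact h

theorem Alg_ge (d : ℕ) (hd : 1 ≤ d) (k : ℤ) : ∃ c : ℝ, 0 < c ∧ ∃ H₀ : ℕ, 1 ≤ H₀ ∧ ∀ H : ℕ, H₀ ≤ H →
    c * (H : ℝ) ^ (d + 1) ≤ ((AlgR d H (Set.Ico (k : ℝ) (k + 1))).ncard : ℝ) := by
  obtain ⟨n, rfl⟩ : ∃ n, d = n + 1 := ⟨d - 1, by omega⟩
  obtain ⟨c, hc, H₀, hH₀, h⟩ := IP_ge n k
  refine ⟨c / 2, by positivity, H₀, hH₀, fun H hH => ?_⟩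
  have h1 := h H hH
  rw [two_to_one] at h1
  push_cast at h1
  have e : (H : ℝ) ^ (n + 1 + 1) = (H : ℝ) ^ (n + 2) := rfl
  rw [e]
  linarith

end Pool.Agent.D0H53.AP
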