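import Pool.Agent.D0H53.AP.Den

set_option autoImplicit false

/-!
# Counting integers near the multiples of a fraction
-/

open Finset Filter Topology

namespace Pool.Agent.D0H53.AP

/-- the number of the integers `a` with `|a + z| ≤ R` -/
noncomputable def ic (z R : ℝ) : ℕ := (Icc ⌈-z - R⌉ ⌊-z + R⌋).card

theorem mem_ic (z R : ℝ) (a : ℤ) : a ∈ Icc ⌈-z - R⌉ ⌊-z + R⌋ ↔ |(a : ℝ) + z| ≤ R := by
  rw [Finset.mem_Icc, Int.ceil_le, Int.le_floor, abs_le]
  constructor <;> rintro ⟨h1, h2⟩ <;> constructor <;> linarith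

theorem ic_mono (z : ℝ) {R R' : ℝ} (h : R ≤ R') : ic z R ≤ ic z R' := by
  unfold ic
  apply Finset.card_le_card
  intro a ha
  rw [mem_ic] at ha ⊢
  exact ha.trans h

theorem ic_near (z R : ℝ) (hR : 0 ≤ R) : |(ic z R : ℝ) - 2 * R| ≤ 1 := by
  have h := int_count (-z - R) (-z + R) (by linarith)
  unfold ic
  have e : -z + R - (-z - R) = 2 * R := by ring
  rw [e] at h
  exact h

theorem ic_le (z R : ℝ) (hR : 0 ≤ R) : (ic z R : ℝ) ≤ 2 * R + 1 := by
  have := (abs_le.1 (ic_near z R hR)).2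
  linarith

theorem ic_block (q : ℕ) (hq : 1 ≤ q) (P : ℤ) (hP : IsCoprime P (q : ℤ)) (h R : ℝ) (s : ℤ) :
    ∑ a ∈ Ico s (s + q), ic ((a : ℝ) * ((P : ℝ) / q) + h) R = ic (h * q) (R * q) := by
  classical
  have hq0 : (0 : ℝ) < q := by exact_mod_cast hq
  have hqZ : (0 : ℤ) < q := by exact_mod_cast hq
  have hmem : ∀ a b : ℤ, |(b : ℝ) + ((a : ℝ) * ((P : ℝ) / q) + h)| ≤ R ↔
      |((b * q + a * P : ℤ) : ℝ) + h * q| ≤ R * q := by
    intro a b
    have e : ((b * q + a * P : ℤ) : ℝ) + h * q = ((b : ℝ) + ((a : ℝ) * ((P : ℝ) / q) + h)) * q := by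
      push_cast
      field_simp
      ring
    rw [e, abs_mul, abs_of_pos hq0, mul_le_mul_iff_left₀ hq0]
  unfold ic
  rw [← Finset.card_sigma]
  refine Finset.card_bij (fun x _ => x.2 * q + x.1 * P) ?_ ?_ ?_
  · rintro ⟨a, b⟩ hx
    rw [Finset.mem_sigma] at hx
    simp only at hx
    rw [mem_ic] at hx
    rw [mem_ic]
    exact (hmem a b).1 hx.2
  · rintro ⟨a, b⟩ hx ⟨a', b'⟩ hx' heq
    rw [Finset.mem_sigma, Finset.mem_Ico] at hx hx'
    simp only at hx hx' heq
    have h1 : (q : ℤ) ∣ (a - a') * P := ⟨b' - b, by linarith⟩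
    have h2 : (q : ℤ) ∣ a - a' := hP.symm.dvd_of_dvd_mul_right h1
    have h3 : |a - a'| < (q : ℤ) := by
      rw [abs_lt]
      constructor <;> linarith [hx.1.1, hx.1.2, hx'.1.1, hx'.1.2]
    have h4 := Int.eq_zero_of_abs_lt_dvd h2 h3
    have h5 : a = a' := by omega
    subst h5
    have h6 : b * q = b' * q := by linarith
    have h7 : b = b' := mul_right_cancel₀ hqZ.ne' h6
    rw [h7]
  · intro M hM
    rw [mem_ic] at hM
    obtain ⟨u, v, huv⟩ := hP
    set a : ℤ := s + (M * u - s) % q with ha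
    have h1 := Int.emod_nonneg (M * u - s) hqZ.ne'
    have h2 := Int.emod_lt_of_pos (M * u - s) hqZ
    have h3 := Int.emod_add_mul_ediv (M * u - s) q
    have h4 : a = M * u - q * ((M * u - s) / q) := by rw [ha]; linarith
    set b : ℤ := M * v + (M * u - s) / q * P with hb
    have h5 : b * q + a * P = M := by
      rw [h4, hb]
      have : M = M * (u * P + v * q) := by rw [huv, mul_one]
      conv_rhs => rw [this]
      ring
    refine ⟨⟨a, b⟩, ?_, h5⟩
    rw [Finset.mem_sigma, Finset.mem_Ico]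
    refine ⟨⟨by rw [ha]; simp only; linarith, by rw [ha]; simp only; linarith⟩, ?_⟩
    simp only
    rw [mem_ic, hmem, h5]
    exact hM

theorem blk_up (q : ℕ) (hq : 1 ≤ q) (P : ℤ) (hP : IsCoprime P (q : ℤ)) (h : ℝ) (Rf : ℤ → ℝ) (ρ S : ℝ)
    (hρ0 : 0 ≤ ρ) (hρ : ρ * (q : ℝ) ^ 2 ≤ 1) (h0 : ∀ a, 0 ≤ Rf a)
    (hlip : ∀ a b : ℤ, |Rf a - Rf b| ≤ ρ * |(a : ℝ) - b|) : ∀ (m : ℕ) (s : ℤ), (∀ a ∈ Ico s (s + m), Rf a ≤ S) → 0 ≤ S →
    ∑ a ∈ Ico s (s + m), (ic ((a : ℝ) * ((P : ℝ) / q) + h) (Rf a) : ℝ) ≤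
      ∑ a ∈ Ico s (s + m), 2 * Rf a + 5 * ((m : ℝ) / q) + (2 * q * S + 1) := by
  have hq0 : (0 : ℝ) < q := by exact_mod_cast hq
  intro m
  induction m using Nat.strong_induction_on with
  | _ m ih =>
    intro s hS hS0
    rcases Nat.lt_or_ge m q with hm | hm
    · have h1 : ∑ a ∈ Ico s (s + m), (ic ((a : ℝ) * ((P : ℝ) / q) + h) (Rf a) : ℝ) ≤ 2 * q * S + 1 := by
        have h2 : ∑ a ∈ Ico s (s + m), (ic ((a : ℝ) * ((P : ℝ) / q) + h) (Rf a) : ℝ) ≤
            ∑ a ∈ Ico s (s + q), (ic ((a : ℝ) * ((P : ℝ) / q) + h) S : ℝ) := by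
          refine (Finset.sum_le_sum fun a ha => ?_).trans
            (Finset.sum_le_sum_of_subset_of_nonneg (s := Ico s (s + m)) ?_ fun _ _ _ => Nat.cast_nonneg _)
          · exact_mod_cast ic_mono _ (hS a ha)
          · apply Finset.Ico_subset_Ico_right
            have : (m : ℤ) ≤ q := by exact_mod_cast hm.le
            linarith
        have h3 : ∑ a ∈ Ico s (s + q), (ic ((a : ℝ) * ((P : ℝ) / q) + h) S : ℝ) = (ic (h * q) (S * q) : ℝ) := by
          exact_mod_cast ic_block q hq P hP h S s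
        have h4 := ic_le (h * q) (S * q) (by positivity)
        rw [h3] at h2
        linarith
      have h2 : 0 ≤ ∑ a ∈ Ico s (s + m), 2 * Rf a := Finset.sum_nonneg fun a _ => by linarith [h0 a]
      have h3 : 0 ≤ 5 * ((m : ℝ) / q) := by positivity
      linarith
    · obtain ⟨k, rfl⟩ : ∃ k, m = q + k := ⟨m - q, by omega⟩
      have hsplit : Ico s (s + ((q + k : ℕ) : ℤ)) = Ico s (s + q) ∪ Ico (s + q) (s + q + k) := by
        rw [Finset.Ico_union_Ico_eq_Ico (by linarith [Int.natCast_nonneg q]) (by linarith [Int.natCast_nonneg k])]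
        congr 1
        push_cast
        ring
      have hdis : Disjoint (Ico s (s + (q : ℤ))) (Ico (s + q) (s + q + k)) := Finset.Ico_disjoint_Ico_consecutive _ _ _
      rw [hsplit] at hS ⊢
      rw [Finset.sum_union hdis, Finset.sum_union hdis]
      have h1 := ih k (by omega) (s + q) (fun a ha => hS a (mem_union_right _ ha)) hS0
      have hnear : ∀ a ∈ Ico s (s + (q : ℤ)), |Rf a - Rf s| ≤ ρ * q := by
        intro a ha
        rw [mem_Ico] at ha
        refine (hlip a s).trans (mul_le_mul_of_nonneg_left ?_ hρ0)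
        have h2 : (s : ℝ) ≤ a := by exact_mod_cast ha.1
        have h3 : (a : ℝ) ≤ s + q := by exact_mod_cast ha.2.le
        rw [abs_of_nonneg (by linarith)]
        linarith
      have h2 : ∑ a ∈ Ico s (s + (q : ℤ)), (ic ((a : ℝ) * ((P : ℝ) / q) + h) (Rf a) : ℝ) ≤
          2 * ((Rf s + ρ * q) * q) + 1 := by
        have h3 : ∑ a ∈ Ico s (s + (q : ℤ)), (ic ((a : ℝ) * ((P : ℝ) / q) + h) (Rf a) : ℝ) ≤
            ∑ a ∈ Ico s (s + (q : ℤ)), (ic ((a : ℝ) * ((P : ℝ) / q) + h) (Rf s + ρ * q) : ℝ) := by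
          refine Finset.sum_le_sum fun a ha => ?_
          have := (abs_le.1 (hnear a ha)).2
          exact_mod_cast ic_mono _ (by linarith : Rf a ≤ Rf s + ρ * q)
        have h4 : ∑ a ∈ Ico s (s + (q : ℤ)), (ic ((a : ℝ) * ((P : ℝ) / q) + h) (Rf s + ρ * q) : ℝ) =
            (ic (h * q) ((Rf s + ρ * q) * q) : ℝ) := by
          exact_mod_cast ic_block q hq P hP h (Rf s + ρ * q) s
        have h5 := ic_le (h * q) ((Rf s + ρ * q) * q) (by
          have := h0 s
          positivity)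
        rw [h4] at h3
        exact h3.trans h5
      have h3 : 2 * ((Rf s - ρ * q) * q) ≤ ∑ a ∈ Ico s (s + (q : ℤ)), 2 * Rf a := by
        have h4 : ∀ a ∈ Ico s (s + (q : ℤ)), 2 * (Rf s - ρ * q) ≤ 2 * Rf a := by
          intro a ha
          have := (abs_le.1 (hnear a ha)).1
          linarith
        have h5 := Finset.card_nsmul_le_sum _ _ _ h4
        rw [Int.card_Ico, nsmul_eq_mul] at h5
        have h6 : (s + (q : ℤ) - s).toNat = q := by omega
        rw [h6] at h5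
        linarith
      have h4 : ρ * q * q = ρ * (q : ℝ) ^ 2 := by ring
      have h5 : (((q + k : ℕ) : ℝ) / q) = 1 + (k : ℝ) / q := by
        push_cast
        field_simp
      rw [h5]
      nlinarith

theorem blk_lo (q : ℕ) (hq : 1 ≤ q) (P : ℤ) (hP : IsCoprime P (q : ℤ)) (h : ℝ) (Rf : ℤ → ℝ) (ρ S : ℝ)
    (hρ0 : 0 ≤ ρ) (hρ : ρ * (q : ℝ) ^ 2 ≤ 1)
    (hlip : ∀ a b : ℤ, |Rf a - Rf b| ≤ ρ * |(a : ℝ) - b|) : ∀ (m : ℕ) (s : ℤ), (∀ a ∈ Ico s (s + m), Rf a ≤ S) → 0 ≤ S →
    ∑ a ∈ Ico s (s + m), 2 * Rf a ≤ ∑ a ∈ Ico s (s + m), (ic ((a : ℝ) * ((P : ℝ) / q) + h) (Rf a) : ℝ) +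
      5 * ((m : ℝ) / q) + (2 * q * S + 1) := by
  have hq0 : (0 : ℝ) < q := by exact_mod_cast hq
  intro m
  induction m using Nat.strong_induction_on with
  | _ m ih =>
    intro s hS hS0
    rcases Nat.lt_or_ge m q with hm | hm
    · have h1 : ∑ a ∈ Ico s (s + m), 2 * Rf a ≤ 2 * q * S := by
        have h4 : ∀ a ∈ Ico s (s + (m : ℤ)), 2 * Rf a ≤ 2 * S := by
          intro a ha
          linarith [hS a ha]
        have h5 := Finset.sum_le_card_nsmul _ _ _ h4
        rw [Int.card_Ico, nsmul_eq_mul] at h5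
        have h6 : (s + (m : ℤ) - s).toNat = m := by omega
        rw [h6] at h5
        have h7 : (m : ℝ) ≤ q := by exact_mod_cast hm.le
        nlinarith
      have h2 : 0 ≤ ∑ a ∈ Ico s (s + m), (ic ((a : ℝ) * ((P : ℝ) / q) + h) (Rf a) : ℝ) :=
        Finset.sum_nonneg fun a _ => Nat.cast_nonneg _
      have h3 : 0 ≤ 5 * ((m : ℝ) / q) := by positivity
      linarith
    · obtain ⟨k, rfl⟩ : ∃ k, m = q + k := ⟨m - q, by omega⟩
      have hsplit : Ico s (s + ((q + k : ℕ) : ℤ)) = Ico s (s + q) ∪ Ico (s + q) (s + q + k) := by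
        rw [Finset.Ico_union_Ico_eq_Ico (by linarith [Int.natCast_nonneg q]) (by linarith [Int.natCast_nonneg k])]
        congr 1
        push_cast
        ring
      have hdis : Disjoint (Ico s (s + (q : ℤ))) (Ico (s + q) (s + q + k)) := Finset.Ico_disjoint_Ico_consecutive _ _ _
      rw [hsplit] at hS ⊢
      rw [Finset.sum_union hdis, Finset.sum_union hdis]
      have h1 := ih k (by omega) (s + q) (fun a ha => hS a (mem_union_right _ ha)) hS0
      have hnear : ∀ a ∈ Ico s (s + (q : ℤ)), |Rf a - Rf s| ≤ ρ * q := by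
        intro a ha
        rw [mem_Ico] at ha
        refine (hlip a s).trans (mul_le_mul_of_nonneg_left ?_ hρ0)
        have h2 : (s : ℝ) ≤ a := by exact_mod_cast ha.1
        have h3 : (a : ℝ) ≤ s + q := by exact_mod_cast ha.2.le
        rw [abs_of_nonneg (by linarith)]
        linarith
      have h4 : ρ * q * q = ρ * (q : ℝ) ^ 2 := by ring
      have h3 : ∑ a ∈ Ico s (s + (q : ℤ)), 2 * Rf a ≤ 2 * ((Rf s + ρ * q) * q) := by
        have h4 : ∀ a ∈ Ico s (s + (q : ℤ)), 2 * Rf a ≤ 2 * (Rf s + ρ * q) := by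
          intro a ha
          have := (abs_le.1 (hnear a ha)).2
          linarith
        have h5 := Finset.sum_le_card_nsmul _ _ _ h4
        rw [Int.card_Ico, nsmul_eq_mul] at h5
        have h6 : (s + (q : ℤ) - s).toNat = q := by omega
        rw [h6] at h5
        linarith
      have h2 : 2 * ((Rf s - ρ * q) * q) - 1 ≤ ∑ a ∈ Ico s (s + (q : ℤ)), (ic ((a : ℝ) * ((P : ℝ) / q) + h) (Rf a) : ℝ) := by
        rcases lt_or_ge (Rf s - ρ * q) 0 with hneg | hpos
        · have h5 : 0 ≤ ∑ a ∈ Ico s (s + (q : ℤ)), (ic ((a : ℝ) * ((P : ℝ) / q) + h) (Rf a) : ℝ) :=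
            Finset.sum_nonneg fun a _ => Nat.cast_nonneg _
          have h6 : (Rf s - ρ * q) * q ≤ 0 := mul_nonpos_of_nonpos_of_nonneg hneg.le hq0.le
          linarith
        · have h5 : ∑ a ∈ Ico s (s + (q : ℤ)), (ic ((a : ℝ) * ((P : ℝ) / q) + h) (Rf s - ρ * q) : ℝ) ≤
              ∑ a ∈ Ico s (s + (q : ℤ)), (ic ((a : ℝ) * ((P : ℝ) / q) + h) (Rf a) : ℝ) := by
            refine Finset.sum_le_sum fun a ha => ?_
            have := (abs_le.1 (hnear a ha)).1
            exact_mod_cast ic_mono _ (by linarith : Rf s - ρ * q ≤ Rf a)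
          have h6 : ∑ a ∈ Ico s (s + (q : ℤ)), (ic ((a : ℝ) * ((P : ℝ) / q) + h) (Rf s - ρ * q) : ℝ) =
              (ic (h * q) ((Rf s - ρ * q) * q) : ℝ) := by
            exact_mod_cast ic_block q hq P hP h (Rf s - ρ * q) s
          have h7 := (abs_le.1 (ic_near (h * q) ((Rf s - ρ * q) * q) (by positivity))).1
          rw [h6] at h5
          linarith
      have h5 : (((q + k : ℕ) : ℝ) / q) = 1 + (k : ℝ) / q := by
        push_cast
        field_simp
      rw [h5]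
      nlinarith

/-- a convex set of integers -/
theorem conv_Ico (J : Finset ℤ) (hJ : ∀ a ∈ J, ∀ b ∈ J, ∀ m, a ≤ m → m ≤ b → m ∈ J) :
    ∃ (s : ℤ) (m : ℕ), J = Ico s (s + m) ∧ m = J.card := by
  rcases J.eq_empty_or_nonempty with h | h
  · subst h
    exact ⟨0, 0, by simp, by simp⟩
  · have h1 : J = Ico (J.min' h) (J.max' h + 1) := by
      ext a
      rw [mem_Ico]
      constructor
      · intro ha
        have h2 := J.min'_le a ha
        have h3 := J.le_max' a ha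
        omega
      · rintro ⟨h2, h3⟩
        exact hJ _ (J.min'_mem h) _ (J.max'_mem h) a h2 (by omega)
    have h2 : J.min' h ≤ J.max' h := J.min'_le _ (J.max'_mem h)
    have h3 : J.min' h + ((J.max' h + 1 - J.min' h).toNat : ℤ) = J.max' h + 1 := by omega
    refine ⟨J.min' h, (J.max' h + 1 - J.min' h).toNat, ?_, ?_⟩
    · rw [h3]
      exact h1
    · conv_rhs => rw [h1]
      rw [Int.card_Ico]

end Pool.Agent.D0H53.AP
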