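import Pool.Agent.D0H53.AP.Per

set_option autoImplicit false

/-!
# The density of the real roots
-/

open Finset Filter Topology

namespace Pool.Agent.D0H53.AP

/-- the number of the pairs (vector, root in `T`) -/
noncomputable def Zc (n H : ℕ) (T : Set ℝ) : ℕ := ∑ c ∈ (cbox n H).erase 0, (Rc H c T).ncard

/-- the density -/
noncomputable def RR (n H : ℕ) (y : ℝ) : ℝ := ∑ c ∈ cbox n H, rr H c y

theorem RR_nonneg (n H : ℕ) (y : ℝ) : 0 ≤ RR n H y := Finset.sum_nonneg fun c _ => rr_nonneg H c y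

theorem rr_zero (n H : ℕ) (y : ℝ) : rr H (0 : ℤ × (Fin n → ℤ)) y = 0 := by
  unfold rr g'
  simp

theorem zero_mem (n H : ℕ) : (0 : ℤ × (Fin n → ℤ)) ∈ cbox n H := by
  rw [mem_cbox]
  simp

theorem two_pow (n H : ℕ) (hH : 1 ≤ H) (k : ℕ) : (2 * (H : ℝ) + 1) ^ k ≤ 3 ^ k * (H : ℝ) ^ k := by
  have : (1 : ℝ) ≤ H := by exact_mod_cast hH
  rw [← mul_pow]
  exact pow_le_pow_left₀ (by positivity) (by linarith) k

theorem count_int (n : ℕ) (B : ℝ) (hB : 1 ≤ B) : ∃ C : ℝ, 0 < C ∧ ∀ H : ℕ, 1 ≤ H → ∀ y ρ : ℝ, 0 ≤ ρ → ρ ≤ 1 →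
    |y| + ρ ≤ B → |(Zc n H (Set.Icc (y - ρ) (y + ρ)) : ℝ) - 2 * ρ * RR n H y| ≤
      C * ((H : ℝ) ^ (n + 2) * ρ ^ 2 + (H : ℝ) ^ (n + 1)) := by
  classical
  have hKB : 1 ≤ KB n B := KB_ge B hB
  set K : ℝ := KB n B with hK
  have hn : (0 : ℝ) ≤ n := Nat.cast_nonneg _
  set C1 : ℝ := 3 ^ (n + 1) * (8 * ((n : ℝ) + 1) * K + 2 * K) + 32 * 3 ^ n * ((n : ℝ) + 1) * K ^ 2 with hC1
  set C2 : ℝ := 3 ^ (n + 1) * ((n : ℝ) + 1) + 8 * 3 ^ n * K with hC2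
  have hC10 : 0 < C1 := by positivity
  have hC20 : 0 < C2 := by positivity
  refine ⟨C1 + C2, by positivity, ?_⟩
  intro H hH y ρ hρ0 hρ1 hy
  have hH1 : (1 : ℝ) ≤ H := by exact_mod_cast hH
  have hH0 : (0 : ℝ) < H := by linarith
  have hyB := abs_le.1 (by linarith [hρ0] : |y| ≤ B - ρ)
  -- one vector
  have hone : ∀ c ∈ cbox n H, c ≠ 0 → |((Rc H c (Set.Icc (y - ρ) (y + ρ))).ncard : ℝ) - 2 * ρ * rr H c y| ≤
      ((n : ℝ) + 1) * (2 * (K * H * (2 * ρ) ^ 2) + 1) + 2 * (K * H * ρ ^ 2) +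
      if |(|g c y| - (H : ℝ))| ≤ K * H * ρ then 4 * (K * H * ρ) else 0 := by
    intro c hc hc0
    have h1 := per_c H c hc hc0 B (y - ρ) (y + ρ) hB (by linarith) (by linarith) (by linarith)
    have h2 := lin_approx H c hc B y ρ hB hρ0 hy
    have h3 : y + ρ - (y - ρ) = 2 * ρ := by ring
    rw [h3] at h1
    have h4 := abs_sub_le ((Rc H c (Set.Icc (y - ρ) (y + ρ))).ncard : ℝ)
      (abs (clamp H (g c (y + ρ)) - clamp H (g c (y - ρ)))) (2 * ρ * rr H c y)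
    rw [add_assoc]
    exact h4.trans (add_le_add h1 h2)
  have hsum : (Zc n H (Set.Icc (y - ρ) (y + ρ)) : ℝ) - 2 * ρ * RR n H y =
      ∑ c ∈ (cbox n H).erase 0, (((Rc H c (Set.Icc (y - ρ) (y + ρ))).ncard : ℝ) - 2 * ρ * rr H c y) := by
    unfold Zc RR
    rw [← Finset.add_sum_erase _ _ (zero_mem n H), rr_zero, zero_add, Finset.sum_sub_distrib, Finset.mul_sum]
    push_cast
    rfl
  rw [hsum]
  refine (Finset.abs_sum_le_sum_abs _ _).trans ?_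
  have hnn : ∀ c, 0 ≤ ((n : ℝ) + 1) * (2 * (K * H * (2 * ρ) ^ 2) + 1) + 2 * (K * H * ρ ^ 2) +
      if |(|g (c : ℤ × (Fin n → ℤ)) y| - (H : ℝ))| ≤ K * H * ρ then 4 * (K * H * ρ) else 0 := by
    intro c
    split_ifs <;> positivity
  have h1 : ∑ c ∈ (cbox n H).erase 0, |((Rc H c (Set.Icc (y - ρ) (y + ρ))).ncard : ℝ) - 2 * ρ * rr H c y| ≤
      ∑ c ∈ cbox n H, (((n : ℝ) + 1) * (2 * (K * H * (2 * ρ) ^ 2) + 1) + 2 * (K * H * ρ ^ 2) +
      if |(|g c y| - (H : ℝ))| ≤ K * H * ρ then 4 * (K * H * ρ) else 0) := by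
    refine (Finset.sum_le_sum fun c hc => ?_).trans
      (Finset.sum_le_sum_of_subset_of_nonneg (Finset.erase_subset _ _) fun c _ _ => hnn c)
    rw [Finset.mem_erase] at hc
    exact hone c hc.2 hc.1
  refine h1.trans ?_
  rw [Finset.sum_add_distrib, Finset.sum_const, ← Finset.sum_filter, Finset.sum_const, nsmul_eq_mul, nsmul_eq_mul,
    card_cbox]
  have h2 := layer (n := n) H y (K * H * ρ) (by positivity)
  have h3 := two_pow n H hH (n + 1)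
  have h4 := two_pow n H hH n
  have e1 : (((2 * H + 1) ^ (n + 1) : ℕ) : ℝ) * (((n : ℝ) + 1) * (2 * (K * H * (2 * ρ) ^ 2) + 1) + 2 * (K * H * ρ ^ 2)) ≤
      3 ^ (n + 1) * (H : ℝ) ^ (n + 1) * (((n : ℝ) + 1) * (2 * (K * H * (2 * ρ) ^ 2) + 1) + 2 * (K * H * ρ ^ 2)) := by
    apply mul_le_mul_of_nonneg_right _ (by positivity)
    push_cast
    exact h3
  have e2 : (((cbox n H).filter fun c => |(|g c y| - (H : ℝ))| ≤ K * H * ρ).card : ℝ) * (4 * (K * H * ρ)) ≤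
      3 ^ n * (H : ℝ) ^ n * (8 * ((n : ℝ) + 1) * (K * H * ρ) + 2) * (4 * (K * H * ρ)) := by
    apply mul_le_mul_of_nonneg_right _ (by positivity)
    refine h2.trans ?_
    exact mul_le_mul_of_nonneg_right h4 (by positivity)
  refine (add_le_add e1 e2).trans ?_
  have f1 : 3 ^ (n + 1) * (H : ℝ) ^ (n + 1) * (((n : ℝ) + 1) * (2 * (K * H * (2 * ρ) ^ 2) + 1) + 2 * (K * H * ρ ^ 2)) +
      3 ^ n * (H : ℝ) ^ n * (8 * ((n : ℝ) + 1) * (K * H * ρ) + 2) * (4 * (K * H * ρ)) =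
      C1 * ((H : ℝ) ^ (n + 2) * ρ ^ 2) + (3 ^ (n + 1) * ((n : ℝ) + 1) * (H : ℝ) ^ (n + 1) +
        8 * 3 ^ n * K * (H : ℝ) ^ (n + 1) * ρ) := by
    rw [hC1, show n + 2 = (n + 1) + 1 by omega, pow_succ (H : ℝ) (n + 1), pow_succ (H : ℝ) n]
    ring
  rw [f1]
  have f2 : 8 * 3 ^ n * K * (H : ℝ) ^ (n + 1) * ρ ≤ 8 * 3 ^ n * K * (H : ℝ) ^ (n + 1) :=
    mul_le_of_le_one_right (by positivity) hρ1
  have f3 : 3 ^ (n + 1) * ((n : ℝ) + 1) * (H : ℝ) ^ (n + 1) + 8 * 3 ^ n * K * (H : ℝ) ^ (n + 1) =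
      C2 * (H : ℝ) ^ (n + 1) := by rw [hC2]; ring
  have f4 : 0 ≤ C1 * (H : ℝ) ^ (n + 1) := by positivity
  have f5 : 0 ≤ C2 * ((H : ℝ) ^ (n + 2) * ρ ^ 2) := by positivity
  have f6 : (C1 + C2) * ((H : ℝ) ^ (n + 2) * ρ ^ 2 + (H : ℝ) ^ (n + 1)) = C1 * ((H : ℝ) ^ (n + 2) * ρ ^ 2) +
      C2 * (H : ℝ) ^ (n + 1) + C1 * (H : ℝ) ^ (n + 1) + C2 * ((H : ℝ) ^ (n + 2) * ρ ^ 2) := by ring
  rw [f6]
  linarith

theorem rr_diff {n : ℕ} (H : ℕ) (c : ℤ × (Fin n → ℤ)) (hc : c ∈ cbox n H) (B x y : ℝ) (hB : 1 ≤ B) (hx : |x| ≤ B)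
    (hy : |y| ≤ B) : |rr H c x - rr H c y| ≤ KB n B * H * |x - y| +
      if |(|g c y| - (H : ℝ))| ≤ KB n B * H * |x - y| then KB n B * H else 0 := by
  have hH : (0 : ℝ) ≤ H := Nat.cast_nonneg _
  have hKB : 1 ≤ KB n B := KB_ge B hB
  have h1 := g_diff H c hc B x y hB hx hy
  have h2 := g'_diff H c hc B x y hB hx hy
  have hs : 0 ≤ KB n B * H * |x - y| := by positivity
  have h3 := rr_nonneg H c x
  have h4 := rr_nonneg H c y
  have h5 := rr_le H c hc B x hB hx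
  have h6 := rr_le H c hc B y hB hy
  split_ifs with hb
  · rw [abs_le]
    constructor <;> linarith
  · rw [add_zero]
    have h7 : |g c x| - |g c y| ≤ KB n B * H * |x - y| := (abs_sub_abs_le_abs_sub _ _).trans h1
    have h8 : |g c y| - |g c x| ≤ KB n B * H * |x - y| := by
      refine (abs_sub_abs_le_abs_sub _ _).trans ?_
      rw [abs_sub_comm]
      exact h1
    rw [not_le, lt_abs] at hb
    unfold rr
    rcases hb with hb | hb
    · rw [if_neg (by rw [not_le]; linarith), if_neg (by rw [not_le]; linarith), sub_zero, abs_zero]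
      exact hs
    · rw [if_pos (by linarith), if_pos (by linarith)]
      exact (abs_abs_sub_abs_le_abs_sub _ _).trans h2

theorem RR_diff (n : ℕ) (B : ℝ) (hB : 1 ≤ B) : ∃ C : ℝ, 0 < C ∧ ∀ H : ℕ, 1 ≤ H → ∀ x y : ℝ, |x| ≤ B → |y| ≤ B →
    |RR n H x - RR n H y| ≤ C * ((H : ℝ) ^ (n + 2) * |x - y| + (H : ℝ) ^ (n + 1)) := by
  classical
  have hKB : 1 ≤ KB n B := KB_ge B hB
  set K : ℝ := KB n B with hK
  have hn : (0 : ℝ) ≤ n := Nat.cast_nonneg _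
  set C1 : ℝ := 3 ^ (n + 1) * K + 8 * 3 ^ n * ((n : ℝ) + 1) * K ^ 2 with hC1
  set C2 : ℝ := 2 * 3 ^ n * K with hC2
  have hC10 : 0 < C1 := by positivity
  have hC20 : 0 < C2 := by positivity
  refine ⟨C1 + C2, by positivity, ?_⟩
  intro H hH x y hx hy
  have hH1 : (1 : ℝ) ≤ H := by exact_mod_cast hH
  have hH0 : (0 : ℝ) < H := by linarith
  unfold RR
  rw [← Finset.sum_sub_distrib]
  refine (Finset.abs_sum_le_sum_abs _ _).trans ?_
  refine (Finset.sum_le_sum fun c hc => rr_diff H c hc B x y hB hx hy).trans ?_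
  rw [Finset.sum_add_distrib, Finset.sum_const, ← Finset.sum_filter, Finset.sum_const, nsmul_eq_mul, nsmul_eq_mul,
    card_cbox, ← hK]
  have h2 := layer (n := n) H y (K * H * |x - y|) (by positivity)
  have h3 := two_pow n H hH (n + 1)
  have h4 := two_pow n H hH n
  have e1 : (((2 * H + 1) ^ (n + 1) : ℕ) : ℝ) * (K * H * |x - y|) ≤
      3 ^ (n + 1) * (H : ℝ) ^ (n + 1) * (K * H * |x - y|) := by
    apply mul_le_mul_of_nonneg_right _ (by positivity)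
    push_cast
    exact h3
  have e2 : (((cbox n H).filter fun c => |(|g c y| - (H : ℝ))| ≤ K * H * |x - y|).card : ℝ) * (K * H) ≤
      3 ^ n * (H : ℝ) ^ n * (8 * ((n : ℝ) + 1) * (K * H * |x - y|) + 2) * (K * H) := by
    apply mul_le_mul_of_nonneg_right _ (by positivity)
    refine h2.trans ?_
    exact mul_le_mul_of_nonneg_right h4 (by positivity)
  refine (add_le_add e1 e2).trans ?_
  have f1 : 3 ^ (n + 1) * (H : ℝ) ^ (n + 1) * (K * H * |x - y|) +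
      3 ^ n * (H : ℝ) ^ n * (8 * ((n : ℝ) + 1) * (K * H * |x - y|) + 2) * (K * H) =
      C1 * ((H : ℝ) ^ (n + 2) * |x - y|) + C2 * (H : ℝ) ^ (n + 1) := by
    rw [hC1, hC2, show n + 2 = (n + 1) + 1 by omega, pow_succ (H : ℝ) (n + 1), pow_succ (H : ℝ) n]
    ring
  rw [f1]
  have f4 : 0 ≤ C1 * (H : ℝ) ^ (n + 1) := by positivity
  have f5 : 0 ≤ C2 * ((H : ℝ) ^ (n + 2) * |x - y|) := by positivity
  have f6 : (C1 + C2) * ((H : ℝ) ^ (n + 2) * |x - y| + (H : ℝ) ^ (n + 1)) = C1 * ((H : ℝ) ^ (n + 2) * |x - y|) +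
      C2 * (H : ℝ) ^ (n + 1) + C1 * (H : ℝ) ^ (n + 1) + C2 * ((H : ℝ) ^ (n + 2) * |x - y|) := by ring
  rw [f6]
  linarith

theorem RR_le (n : ℕ) (B : ℝ) (hB : 1 ≤ B) : ∃ C : ℝ, 0 < C ∧ ∀ H : ℕ, 1 ≤ H → ∀ y : ℝ, |y| ≤ B →
    RR n H y ≤ C * (H : ℝ) ^ (n + 2) := by
  have hKB : 1 ≤ KB n B := KB_ge B hB
  refine ⟨3 ^ (n + 1) * KB n B, by positivity, ?_⟩
  intro H hH y hy
  have hH1 : (1 : ℝ) ≤ H := by exact_mod_cast hH
  unfold RR
  refine (Finset.sum_le_sum fun c hc => rr_le H c hc B y hB hy).trans ?_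
  rw [Finset.sum_const, nsmul_eq_mul, card_cbox]
  have h3 := two_pow n H hH (n + 1)
  calc (((2 * H + 1) ^ (n + 1) : ℕ) : ℝ) * (KB n B * H) ≤ (3 ^ (n + 1) * (H : ℝ) ^ (n + 1)) * (KB n B * H) := by
        apply mul_le_mul_of_nonneg_right _ (by positivity)
        push_cast
        exact h3
    _ = _ := by
        rw [show n + 2 = (n + 1) + 1 by omega, pow_succ (H : ℝ) (n + 1)]
        ring

theorem sum_abs_shift (h : ℕ) (s : ℝ) : (h : ℝ) * (h + 1) ≤ ∑ a ∈ Icc (-(h : ℤ)) h, |(a : ℝ) + s| := by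
  have h1 : ∀ N : ℕ, ∑ a ∈ Icc (-(N : ℤ)) N, |(a : ℝ) + s| = |s| + ∑ k ∈ range N, (|((k : ℝ) + 1) + s| + |-((k : ℝ) + 1) + s|) := by
    intro N
    induction N with
    | zero => simp
    | succ N ih =>
      have h : Icc (-((N + 1 : ℕ) : ℤ)) ((N + 1 : ℕ) : ℤ) =
          insert ((N : ℤ) + 1) (insert (-((N : ℤ) + 1)) (Icc (-(N : ℤ)) N)) := by
        ext a
        simp only [Finset.mem_insert, Finset.mem_Icc]
        push_cast
        omega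
      rw [h, Finset.sum_insert, Finset.sum_insert, ih, Finset.sum_range_succ]
      · push_cast
        ring
      · simp only [Finset.mem_Icc]
        omega
      · simp only [Finset.mem_insert, Finset.mem_Icc]
        omega
  rw [h1]
  have h2 : ∀ k ∈ range h, 2 * ((k : ℝ) + 1) ≤ |((k : ℝ) + 1) + s| + |-((k : ℝ) + 1) + s| := by
    intro k _
    have h3 := le_abs_self (((k : ℝ) + 1) + s)
    have h4 := neg_abs_le (-((k : ℝ) + 1) + s)
    linarith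
  have h3 : (h : ℝ) * (h + 1) = ∑ k ∈ range h, 2 * ((k : ℝ) + 1) := by
    clear h1 h2
    induction h with
    | zero => simp
    | succ N ih => rw [Finset.sum_range_succ, ← ih]; push_cast; ring
  rw [h3]
  have := Finset.sum_le_sum h2
  linarith [abs_nonneg s]

theorem RR_ge (n : ℕ) (B : ℝ) (hB : 1 ≤ B) : ∃ c : ℝ, 0 < c ∧ ∃ H₀ : ℕ, 1 ≤ H₀ ∧ ∀ H : ℕ, H₀ ≤ H → ∀ y : ℝ, |y| ≤ B →
    c * (H : ℝ) ^ (n + 2) ≤ RR n H y := by
  classical
  set D : ℝ := ((n : ℝ) + 1) * B ^ (n + 1) with hD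
  have hn : (0 : ℝ) ≤ n := Nat.cast_nonneg _
  have hBn : 1 ≤ B ^ (n + 1) := one_le_pow₀ hB
  have hD1 : 1 ≤ D := by rw [hD]; nlinarith
  refine ⟨(1 / (2 * D)) ^ (n + 2), by positivity, ⌈2 * D⌉₊, ?_, ?_⟩
  · exact Nat.one_le_iff_ne_zero.2 (Nat.ceil_pos.2 (by linarith)).ne'
  intro H hH y hy
  have hH2 : 2 * D ≤ H := (Nat.ceil_le.1 hH)
  have hH0 : (0 : ℝ) < H := by linarith
  set h : ℕ := ⌊(H : ℝ) / D⌋₊ with hh
  have hh1 : (h : ℝ) ≤ H / D := Nat.floor_le (by positivity)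
  have hh2 : (H : ℝ) / D < h + 1 := Nat.lt_floor_add_one _
  have hh3 : (H : ℝ) / (2 * D) ≤ h := by
    have e1 : (H : ℝ) / D = 2 * (H / (2 * D)) := by field_simp
    have e2 : 1 ≤ (H : ℝ) / (2 * D) := by rw [le_div_iff₀ (by positivity)]; linarith
    linarith
  have hhH : (h : ℤ) ≤ H := by
    have : (h : ℝ) ≤ H := hh1.trans (div_le_self hH0.le hD1)
    exact_mod_cast this
  have hsub : cbox n h ⊆ cbox n H := by
    intro c hc
    rw [mem_cbox] at hc ⊢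
    exact ⟨hc.1.trans hhH, fun i => (hc.2 i).trans hhH⟩
  -- on the smaller box the truncation does not matter
  have hin : ∀ c ∈ cbox n h, rr H c y = |g' c y| := by
    intro c hc
    unfold rr
    rw [if_pos]
    obtain ⟨h1, h2⟩ := cbox_real hc
    unfold g
    refine (abs_add_le _ _).trans ?_
    have hh0 : (0 : ℝ) ≤ h := Nat.cast_nonneg _
    have h3 : |(c.1 : ℝ) * y| ≤ h * B ^ (n + 1) := by
      rw [abs_mul]
      apply mul_le_mul h1 _ (abs_nonneg _) hh0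
      exact hy.trans (le_self_pow₀ hB (by omega))
    have h4 : |∑ i : Fin n, (c.2 i : ℝ) * y ^ ((i : ℕ) + 2)| ≤ n * (h * B ^ (n + 1)) := by
      refine (Finset.abs_sum_le_sum_abs _ _).trans ?_
      have h5 : ∀ i ∈ (Finset.univ : Finset (Fin n)), |(c.2 i : ℝ) * y ^ ((i : ℕ) + 2)| ≤ h * B ^ (n + 1) := by
        intro i _
        rw [abs_mul, abs_pow]
        apply mul_le_mul (h2 i) _ (by positivity) hh0
        refine (pow_le_pow_left₀ (abs_nonneg _) hy _).trans ?_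
        exact pow_le_pow_right₀ hB (by have := i.2; omega)
      refine (Finset.sum_le_sum h5).trans (le_of_eq ?_)
      rw [Finset.sum_const, Finset.card_univ, Fintype.card_fin, nsmul_eq_mul]
    have h5 : (h : ℝ) * D ≤ H := by
      have := mul_le_mul_of_nonneg_right hh1 (by linarith : 0 ≤ D)
      refine this.trans (le_of_eq ?_)
      field_simp
    have h6 : h * B ^ (n + 1) + n * (h * B ^ (n + 1)) = (h : ℝ) * D := by rw [hD]; ring
    linarith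
  have h1 : ∑ c ∈ cbox n h, |g' c y| ≤ RR n H y := by
    unfold RR
    rw [← Finset.sum_congr rfl hin]
    exact Finset.sum_le_sum_of_subset_of_nonneg hsub fun c _ _ => rr_nonneg H c y
  refine le_trans ?_ h1
  have h2 : ∑ c ∈ cbox n h, |g' c y| = ∑ c' ∈ (Fintype.piFinset fun _ : Fin n => Icc (-(h : ℤ)) (h : ℤ)),
      ∑ a ∈ Icc (-(h : ℤ)) h, |(a : ℝ) + ∑ i : Fin n, (c' i : ℝ) * ((((i : ℕ) + 2 : ℕ) : ℝ) * y ^ ((i : ℕ) + 1))| := by
    unfold cbox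
    rw [Finset.sum_product_right]
    rfl
  rw [h2]
  have h3 : ∑ c' ∈ (Fintype.piFinset fun _ : Fin n => Icc (-(h : ℤ)) (h : ℤ)), (h : ℝ) * (h + 1) ≤
      ∑ c' ∈ (Fintype.piFinset fun _ : Fin n => Icc (-(h : ℤ)) (h : ℤ)),
      ∑ a ∈ Icc (-(h : ℤ)) h, |(a : ℝ) + ∑ i : Fin n, (c' i : ℝ) * ((((i : ℕ) + 2 : ℕ) : ℝ) * y ^ ((i : ℕ) + 1))| :=
    Finset.sum_le_sum fun c' _ => sum_abs_shift h _
  refine le_trans ?_ h3
  rw [Finset.sum_const, Fintype.card_piFinset_const, Int.card_Icc, nsmul_eq_mul]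
  have e1 : ((h : ℤ) + 1 - -(h : ℤ)).toNat = 2 * h + 1 := by omega
  rw [e1]
  push_cast
  have hh0 : (0 : ℝ) ≤ h := Nat.cast_nonneg _
  have hx0 : (0 : ℝ) ≤ H / (2 * D) := by positivity
  calc (1 / (2 * D)) ^ (n + 2) * (H : ℝ) ^ (n + 2) = (H / (2 * D)) ^ (n + 2) := by
        rw [← mul_pow]
        congr 1
        ring
    _ = (H / (2 * D)) ^ n * ((H / (2 * D)) * (H / (2 * D))) := by rw [pow_add, sq]
    _ ≤ (2 * (h : ℝ) + 1) ^ n * ((h : ℝ) * (h + 1)) := by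
        apply mul_le_mul _ _ (by positivity) (by positivity)
        · exact pow_le_pow_left₀ hx0 (by linarith) n
        · exact mul_le_mul hh3 (by linarith) hx0 hh0

end Pool.Agent.D0H53.AP
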