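import Pool.Agent.D0H53.AP.Frac

set_option autoImplicit false

/-!
# The number of the roots close to a rational number: the parts
-/

open Finset Filter Topology

namespace Pool.Agent.D0H53.AP

variable {n : ℕ}

/-- the vectors without the first coefficient -/
noncomputable def pbox (n H : ℕ) : Finset (Fin n → ℤ) := Fintype.piFinset fun _ : Fin n => Icc (-(H : ℤ)) H

theorem pbox_card (n H : ℕ) : (pbox n H).card = (2 * H + 1) ^ n := by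
  unfold pbox
  rw [Fintype.card_piFinset_const, Int.card_Icc]
  have : ((H : ℤ) + 1 - -(H : ℤ)).toNat = 2 * H + 1 := by omega
  rw [this]

theorem sum_cbox (n H : ℕ) (f : ℤ × (Fin n → ℤ) → ℝ) :
    ∑ c ∈ cbox n H, f c = ∑ c' ∈ pbox n H, ∑ a ∈ Icc (-(H : ℤ)) H, f (a, c') := by
  unfold cbox pbox
  rw [Finset.sum_product_right]

theorem pair_mem (H : ℕ) (a : ℤ) (c' : Fin n → ℤ) (ha : a ∈ Icc (-(H : ℤ)) H) (hc' : c' ∈ pbox n H) :
    (a, c') ∈ cbox n H := by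
  unfold cbox
  exact Finset.mem_product.2 ⟨ha, hc'⟩

theorem J_conv (H : ℕ) (y h X : ℝ) : ∃ (s : ℤ) (m : ℕ),
    ((Icc (-(H : ℤ)) H).filter fun a : ℤ => |(a : ℝ) * y + h| ≤ X) = Ico s (s + m) ∧ m ≤ 2 * H + 1 := by
  obtain ⟨s, m, h1, h2⟩ := conv_Ico ((Icc (-(H : ℤ)) H).filter fun a : ℤ => |(a : ℝ) * y + h| ≤ X) (by
    intro a ha b hb m h1 h2
    rw [mem_filter, mem_Icc] at ha hb ⊢
    refine ⟨⟨by linarith [ha.1.1], by linarith [hb.1.2]⟩, ?_⟩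
    have h1' : (a : ℝ) ≤ m := by exact_mod_cast h1
    have h2' : (m : ℝ) ≤ b := by exact_mod_cast h2
    have ha' := abs_le.1 ha.2
    have hb' := abs_le.1 hb.2
    rw [abs_le]
    rcases le_total 0 y with hy | hy
    · have e1 := mul_le_mul_of_nonneg_right h1' hy
      have e2 := mul_le_mul_of_nonneg_right h2' hy
      constructor <;> linarith [ha'.1, hb'.2]
    · have e1 := mul_le_mul_of_nonpos_right h1' hy
      have e2 := mul_le_mul_of_nonpos_right h2' hy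
      constructor <;> linarith [ha'.2, hb'.1])
  refine ⟨s, m, h1, ?_⟩
  rw [h2]
  refine (Finset.card_filter_le _ _).trans ?_
  rw [Int.card_Icc]
  have : ((H : ℤ) + 1 - -(H : ℤ)).toNat = 2 * H + 1 := by omega
  rw [this]

/-- the derivative as a function of the first coefficient -/
theorem g'_pair (a b : ℤ) (c' : Fin n → ℤ) (y : ℝ) : g' (a, c') y - g' (b, c') y = (a : ℝ) - b := by
  unfold g'
  simp only
  ring

theorem rad_lip (ρ D y : ℝ) (hρ : 0 ≤ ρ) (c' : Fin n → ℤ) (a b : ℤ) :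
    |(ρ * |g' (a, c') y| + D) - (ρ * |g' (b, c') y| + D)| ≤ ρ * |(a : ℝ) - b| := by
  have h1 : (ρ * |g' (a, c') y| + D) - (ρ * |g' (b, c') y| + D) = ρ * (|g' (a, c') y| - |g' (b, c') y|) := by ring
  rw [h1, abs_mul, abs_of_nonneg hρ]
  apply mul_le_mul_of_nonneg_left _ hρ
  refine (abs_abs_sub_abs_le_abs_sub _ _).trans ?_
  rw [g'_pair]

/-- the vectors which are far away from the box have no root -/
theorem far_empty (H : ℕ) (c : ℤ × (Fin n → ℤ)) (hc : c ∈ cbox n H) (B y ρ : ℝ) (hB : 1 ≤ B) (hρ0 : 0 ≤ ρ)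
    (hρ2 : ρ ^ 2 ≤ ρ) (hy : |y| + ρ ≤ B) (h : ¬ |g c y| ≤ H + 2 * (KB n B * H * ρ)) :
    Rc H c (Set.Icc (y - ρ) (y + ρ)) = ∅ := by
  have hKB : 1 ≤ KB n B := KB_ge B hB
  have hyB : |y| ≤ B := by linarith
  have hg' := g'_le H c hc B y hB hyB
  have hKH : 0 ≤ KB n B * H := by positivity
  rw [Set.eq_empty_iff_forall_notMem]
  rintro x ⟨hx, a, ha, hax⟩
  have h3 := taylor H c hc B y ρ x hB hρ0 hy hx
  have h4 : |x - y| ≤ ρ := by
    rw [abs_le]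
    constructor <;> linarith [hx.1, hx.2]
  have h5 : |(x - y) * g' c y| ≤ ρ * (KB n B * H) := by
    rw [abs_mul]
    exact mul_le_mul h4 hg' (abs_nonneg _) hρ0
  have h6 : |g c x| ≤ H := by
    have h7 : g c x = ((-a : ℤ) : ℝ) := by push_cast; linarith
    rw [h7, ← Int.cast_abs, abs_neg]
    exact_mod_cast ha
  have h7 : |g c y| ≤ |g c x| + (KB n B * H * ρ ^ 2 + ρ * (KB n B * H)) := by
    have h8 : g c y = g c x - (g c x - g c y - (x - y) * g' c y) - (x - y) * g' c y := by ring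
    rw [h8]
    refine (abs_sub _ _).trans ?_
    have h9 := abs_sub (g c x) (g c x - g c y - (x - y) * g' c y)
    linarith
  have h8 : KB n B * H * ρ ^ 2 ≤ KB n B * H * ρ := mul_le_mul_of_nonneg_left hρ2 hKH
  apply h
  linarith

theorem rr_up (H : ℕ) (c : ℤ × (Fin n → ℤ)) (y ρ A X S : ℝ) (hρ : 0 ≤ ρ) (hg : ρ * |g' c y| ≤ ρ * A)
    (hA : 0 ≤ ρ * A) (hX : 0 ≤ X) :
    (if |g c y| ≤ H + S then 2 * (ρ * |g' c y| + X) else 0) ≤
      2 * ρ * rr H c y + (if |(|g c y| - (H : ℝ))| ≤ S then 2 * (ρ * A) else 0) + 2 * X := by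
  have h8 : 0 ≤ 2 * ρ * rr H c y := mul_nonneg (by positivity) (rr_nonneg H c y)
  by_cases h9 : |g c y| ≤ H + S
  · rw [if_pos h9]
    by_cases h10 : |g c y| ≤ H
    · have h11 : rr H c y = |g' c y| := by unfold rr; rw [if_pos h10]
      rw [h11]
      split_ifs <;> linarith
    · have hS : 0 ≤ S := by linarith
      rw [if_pos (by rw [abs_le]; constructor <;> linarith)]
      linarith
  · rw [if_neg h9]
    split_ifs <;> linarith

theorem rr_lo (H : ℕ) (c : ℤ × (Fin n → ℤ)) (y ρ A X S : ℝ) (hg : ρ * |g' c y| ≤ ρ * A)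
    (hA : 0 ≤ ρ * A) (hX : 0 ≤ X) (hS : 0 ≤ S) :
    2 * ρ * rr H c y ≤ (if |g c y| ≤ H - S then 2 * (ρ * |g' c y| - X) else 0) +
          (if |(|g c y| - (H : ℝ))| ≤ S then 2 * (ρ * A) else 0) + 2 * X := by
  by_cases h9 : |g c y| ≤ H - S
  · rw [if_pos h9]
    have h11 : rr H c y = |g' c y| := by unfold rr; rw [if_pos (by linarith)]
    rw [h11]
    split_ifs <;> linarith
  · rw [if_neg h9]
    by_cases h10 : |g c y| ≤ H
    · have h11 : rr H c y = |g' c y| := by unfold rr; rw [if_pos h10]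
      rw [h11, if_pos (by rw [abs_le]; constructor <;> linarith)]
      linarith
    · have h11 : rr H c y = 0 := by unfold rr; rw [if_neg h10]
      rw [h11]
      split_ifs <;> linarith

/-- the blocks in one line, from above -/
theorem line_up (H : ℕ) (c' : Fin n → ℤ) (hc' : c' ∈ pbox n H) (q : ℕ) (hq : 1 ≤ q) (P : ℤ)
    (hP : IsCoprime P (q : ℤ)) (ρ A X S T : ℝ) (hρ0 : 0 ≤ ρ) (hρ : ρ * (q : ℝ) ^ 2 ≤ 1)
    (hg : ∀ c ∈ cbox n H, ρ * |g' c ((P : ℝ) / q)| ≤ ρ * A) (hX : 0 ≤ X) (hS : ρ * A + X ≤ S) (hS0 : 0 ≤ S) :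
    ∑ a ∈ Icc (-(H : ℤ)) H, (if |g (a, c') ((P : ℝ) / q)| ≤ T then
      (ic (g (a, c') ((P : ℝ) / q)) (ρ * |g' (a, c') ((P : ℝ) / q)| + X) : ℝ) else 0) ≤
    ∑ a ∈ Icc (-(H : ℤ)) H, (if |g (a, c') ((P : ℝ) / q)| ≤ T then
      2 * (ρ * |g' (a, c') ((P : ℝ) / q)| + X) else 0) + (5 * ((2 * (H : ℝ) + 1) / q) + (2 * q * S + 1)) := by
  have hq0 : (0 : ℝ) < q := by exact_mod_cast hq
  obtain ⟨s, m, hJ, hm⟩ := J_conv H ((P : ℝ) / q) (∑ i : Fin n, (c' i : ℝ) * ((P : ℝ) / q) ^ ((i : ℕ) + 2)) T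
  rw [← Finset.sum_filter, ← Finset.sum_filter]
  have hJ' : ((Icc (-(H : ℤ)) H).filter fun a : ℤ => |g (a, c') ((P : ℝ) / q)| ≤ T) = Ico s (s + m) := hJ
  rw [hJ']
  have h3 := blk_up q hq P hP (∑ i : Fin n, (c' i : ℝ) * ((P : ℝ) / q) ^ ((i : ℕ) + 2))
    (fun a => ρ * |g' (a, c') ((P : ℝ) / q)| + X) ρ S hρ0 hρ (fun a => by positivity)
    (fun a b => rad_lip ρ X ((P : ℝ) / q) hρ0 c' a b) m s (by
      intro a ha
      rw [← hJ', mem_filter] at ha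
      have h5 := hg _ (pair_mem H a c' ha.1 hc')
      linarith) hS0
  refine h3.trans ?_
  have h4 : (m : ℝ) / q ≤ (2 * (H : ℝ) + 1) / q := by
    apply div_le_div_of_nonneg_right _ hq0.le
    exact_mod_cast hm
  linarith

/-- the blocks in one line, from below -/
theorem line_lo (H : ℕ) (c' : Fin n → ℤ) (hc' : c' ∈ pbox n H) (q : ℕ) (hq : 1 ≤ q) (P : ℤ)
    (hP : IsCoprime P (q : ℤ)) (ρ A X S T : ℝ) (hρ0 : 0 ≤ ρ) (hρ : ρ * (q : ℝ) ^ 2 ≤ 1)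
    (hg : ∀ c ∈ cbox n H, ρ * |g' c ((P : ℝ) / q)| ≤ ρ * A) (hX : 0 ≤ X) (hS : ρ * A + X ≤ S) (hS0 : 0 ≤ S) :
    ∑ a ∈ Icc (-(H : ℤ)) H, (if |g (a, c') ((P : ℝ) / q)| ≤ T then
      2 * (ρ * |g' (a, c') ((P : ℝ) / q)| - X) else 0) ≤
    ∑ a ∈ Icc (-(H : ℤ)) H, (if |g (a, c') ((P : ℝ) / q)| ≤ T then
      (ic (g (a, c') ((P : ℝ) / q)) (ρ * |g' (a, c') ((P : ℝ) / q)| - X) : ℝ) else 0) +
      (5 * ((2 * (H : ℝ) + 1) / q) + (2 * q * S + 1)) := by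
  have hq0 : (0 : ℝ) < q := by exact_mod_cast hq
  obtain ⟨s, m, hJ, hm⟩ := J_conv H ((P : ℝ) / q) (∑ i : Fin n, (c' i : ℝ) * ((P : ℝ) / q) ^ ((i : ℕ) + 2)) T
  rw [← Finset.sum_filter, ← Finset.sum_filter]
  have hJ' : ((Icc (-(H : ℤ)) H).filter fun a : ℤ => |g (a, c') ((P : ℝ) / q)| ≤ T) = Ico s (s + m) := hJ
  rw [hJ']
  have h3 := blk_lo q hq P hP (∑ i : Fin n, (c' i : ℝ) * ((P : ℝ) / q) ^ ((i : ℕ) + 2))
    (fun a => ρ * |g' (a, c') ((P : ℝ) / q)| + -X) ρ S hρ0 hρ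
    (fun a b => rad_lip ρ (-X) ((P : ℝ) / q) hρ0 c' a b) m s (by
      intro a ha
      rw [← hJ', mem_filter] at ha
      have h5 := hg _ (pair_mem H a c' ha.1 hc')
      linarith) hS0
  simp only [← sub_eq_add_neg] at h3
  refine h3.trans ?_
  have h4 : (m : ℝ) / q ≤ (2 * (H : ℝ) + 1) / q := by
    apply div_le_div_of_nonneg_right _ hq0.le
    exact_mod_cast hm
  have h5 : ∑ a ∈ Ico s (s + (m : ℤ)), (ic (g (a, c') ((P : ℝ) / q)) (ρ * |g' (a, c') ((P : ℝ) / q)| - X) : ℝ) =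
      ∑ a ∈ Ico s (s + (m : ℤ)), (ic ((a : ℝ) * ((P : ℝ) / q) + (∑ i : Fin n, (c' i : ℝ) *
        ((P : ℝ) / q) ^ ((i : ℕ) + 2))) (ρ * |g' (a, c') ((P : ℝ) / q)| - X) : ℝ) := rfl
  rw [h5]
  linarith

/-- the vectors with a small derivative -/
theorem flat_sum (H : ℕ) (y T X : ℝ) (hT : 0 ≤ T) (hX : 0 ≤ X) :
    ∑ c ∈ cbox n H, ((n : ℝ) + 1) * (if |g' c y| ≤ T then (ic (g c y) X : ℝ) else 0) ≤
      ((n : ℝ) + 1) * ((2 * (H : ℝ) + 1) ^ n * ((2 * T + 1) * (2 * X + 1))) := by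
  have hpc : ((pbox n H).card : ℝ) = (2 * (H : ℝ) + 1) ^ n := by
    rw [pbox_card]
    push_cast
    ring
  rw [← Finset.mul_sum]
  apply mul_le_mul_of_nonneg_left _ (by positivity)
  rw [sum_cbox, ← hpc, ← nsmul_eq_mul, ← Finset.sum_const]
  refine Finset.sum_le_sum fun c' _ => ?_
  rw [← Finset.sum_filter]
  have h5 : ∀ a ∈ (Icc (-(H : ℤ)) H).filter (fun a : ℤ => |g' (a, c') y| ≤ T),
      (ic (g (a, c') y) X : ℝ) ≤ 2 * X + 1 :=
    fun a _ => ic_le _ _ hX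
  refine (Finset.sum_le_card_nsmul _ _ _ h5).trans ?_
  rw [nsmul_eq_mul]
  apply mul_le_mul_of_nonneg_right _ (by positivity)
  have h6 := int_lin H 1 (∑ i : Fin n, (c' i : ℝ) * ((((i : ℕ) + 2 : ℕ) : ℝ) * y ^ ((i : ℕ) + 1))) 0 T
    one_ne_zero hT
  rw [abs_one, div_one] at h6
  have h7 : ((Icc (-(H : ℤ)) H).filter (fun a : ℤ => |g' (a, c') y| ≤ T)) =
      ((Icc (-(H : ℤ)) H).filter fun a : ℤ => |(a : ℝ) * 1 + (∑ i : Fin n, (c' i : ℝ) *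
        ((((i : ℕ) + 2 : ℕ) : ℝ) * y ^ ((i : ℕ) + 1))) - 0| ≤ T) := by
    refine Finset.filter_congr fun a _ => ?_
    rw [mul_one, sub_zero]
    rfl
  rw [h7]
  exact h6

theorem zero_term (y X T ρ : ℝ) (hX : 0 ≤ X) :
    (if |g (0 : ℤ × (Fin n → ℤ)) y| ≤ T then
      (ic (g (0 : ℤ × (Fin n → ℤ)) y) (ρ * |g' (0 : ℤ × (Fin n → ℤ)) y| - X) : ℝ) else 0) ≤ 1 := by
  have h3 : g' (0 : ℤ × (Fin n → ℤ)) y = 0 := by unfold g'; simp
  rw [h3, abs_zero, mul_zero, zero_sub]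
  split_ifs
  · have h4 : (ic (g (0 : ℤ × (Fin n → ℤ)) y) (-X) : ℝ) ≤ (ic (g (0 : ℤ × (Fin n → ℤ)) y) 0 : ℝ) := by
      exact_mod_cast ic_mono _ (by linarith : -X ≤ 0)
    have h5 := ic_le (g (0 : ℤ × (Fin n → ℤ)) y) 0 le_rfl
    linarith
  · norm_num

end Pool.Agent.D0H53.AP
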