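import Pool.Agent.D0H53.AP.Blk

set_option autoImplicit false

/-!
# Roots close to a rational number
-/

open Finset Filter Topology

namespace Pool.Agent.D0H53.AP

variable {n : ℕ}

theorem taylor (H : ℕ) (c : ℤ × (Fin n → ℤ)) (hc : c ∈ cbox n H) (B y ρ x : ℝ) (hB : 1 ≤ B) (hρ : 0 ≤ ρ)
    (hy : |y| + ρ ≤ B) (hx : x ∈ Set.Icc (y - ρ) (y + ρ)) :
    |g c x - g c y - (x - y) * g' c y| ≤ KB n B * H * ρ ^ 2 := by
  have hKB : 1 ≤ KB n B := KB_ge B hB
  have hyB : |y| ≤ B := by linarith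
  have hder : ∀ x ∈ Set.Icc (y - ρ) (y + ρ), HasDerivWithinAt (fun x => g c x - g' c y * x) (g' c x - g' c y)
      (Set.Icc (y - ρ) (y + ρ)) x := by
    intro x _
    have h6 : HasDerivAt (fun x => g c x - g' c y * x) (g' c x - g' c y) x := by
      have h7 : HasDerivAt (fun x : ℝ => g' c y * x) (g' c y) x := by
        simpa using (hasDerivAt_id x).const_mul (g' c y)
      exact (hasDeriv c x).sub h7
    exact h6.hasDerivWithinAt
  have hbd : ∀ x ∈ Set.Icc (y - ρ) (y + ρ), ‖g' c x - g' c y‖ ≤ KB n B * H * ρ := by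
    intro x hx
    have hxy : |x - y| ≤ ρ := by
      rw [abs_le]
      constructor <;> linarith [hx.1, hx.2]
    have hxB : |x| ≤ B := by
      have h8 : x = (x - y) + y := by ring
      rw [h8]
      refine (abs_add_le _ _).trans ?_
      linarith
    refine (g'_diff H c hc B x y hB hxB hyB).trans ?_
    exact mul_le_mul_of_nonneg_left hxy (by positivity)
  have h6 := Convex.norm_image_sub_le_of_norm_hasDerivWithin_le hder hbd (convex_Icc (y - ρ) (y + ρ))
    (x := y) (y := x) ⟨by linarith, by linarith⟩ hx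
  have e3 : (g c x - g' c y * x) - (g c y - g' c y * y) = g c x - g c y - (x - y) * g' c y := by ring
  rw [e3, Real.norm_eq_abs, Real.norm_eq_abs] at h6
  refine h6.trans ?_
  have hxy : |x - y| ≤ ρ := by
    rw [abs_le]
    constructor <;> linarith [hx.1, hx.2]
  calc KB n B * H * ρ * |x - y| ≤ KB n B * H * ρ * ρ := mul_le_mul_of_nonneg_left hxy (by positivity)
    _ = _ := by ring

theorem vec_up (H : ℕ) (c : ℤ × (Fin n → ℤ)) (hc : c ∈ cbox n H) (hc0 : c ≠ 0) (B y ρ : ℝ) (hB : 1 ≤ B)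
    (hρ : 0 ≤ ρ) (hy : |y| + ρ ≤ B) :
    ((Rc H c (Set.Icc (y - ρ) (y + ρ))).ncard : ℝ) ≤ (ic (g c y) (ρ * |g' c y| + KB n B * H * ρ ^ 2) : ℝ) +
      ((n : ℝ) + 1) * (if |g' c y| ≤ KB n B * H * ρ then (ic (g c y) (2 * (KB n B * H * ρ ^ 2)) : ℝ) else 0) := by
  classical
  have hKB : 1 ≤ KB n B := KB_ge B hB
  have hH : (0 : ℝ) ≤ H := Nat.cast_nonneg _
  have hyB : |y| ≤ B := by linarith
  have hyb := abs_le.1 (by linarith : |y| ≤ B - ρ)
  have hxy : ∀ x ∈ Set.Icc (y - ρ) (y + ρ), |x - y| ≤ ρ := by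
    intro x hx
    rw [abs_le]
    constructor <;> linarith [hx.1, hx.2]
  have habs : ∀ x ∈ Set.Icc (y - ρ) (y + ρ), |x| ≤ B := fun x hx =>
    abs_le.2 ⟨by linarith [hx.1, hyb.1], by linarith [hx.2, hyb.2]⟩
  have htay : ∀ x ∈ Set.Icc (y - ρ) (y + ρ), |g c x - g c y| ≤ ρ * |g' c y| + KB n B * H * ρ ^ 2 := by
    intro x hx
    have h1 := taylor H c hc B y ρ x hB hρ hy hx
    have h2 : g c x - g c y = (g c x - g c y - (x - y) * g' c y) + (x - y) * g' c y := by ring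
    rw [h2]
    refine (abs_add_le _ _).trans ?_
    rw [abs_mul]
    have h3 : |x - y| * |g' c y| ≤ ρ * |g' c y| := mul_le_mul_of_nonneg_right (hxy x hx) (abs_nonneg _)
    linarith
  by_cases hz : ∃ z ∈ Set.Ioo (y - ρ) (y + ρ), g' c z = 0
  · obtain ⟨z, hz, hz0⟩ := hz
    have hzI : z ∈ Set.Icc (y - ρ) (y + ρ) := Set.Ioo_subset_Icc_self hz
    have h1 : |g' c y| ≤ KB n B * H * ρ := by
      have h2 := g'_diff H c hc B y z hB hyB (habs z hzI)
      rw [hz0, sub_zero] at h2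
      refine h2.trans ?_
      apply mul_le_mul_of_nonneg_left _ (by positivity)
      rw [abs_sub_comm]
      exact hxy z hzI
    rw [if_pos h1]
    have h2 : ∀ x ∈ Set.Icc (y - ρ) (y + ρ), |g c x - g c y| ≤ 2 * (KB n B * H * ρ ^ 2) := by
      intro x hx
      refine (htay x hx).trans ?_
      have h3 := mul_le_mul_of_nonneg_left h1 hρ
      have h4 : ρ * (KB n B * H * ρ) = KB n B * H * ρ ^ 2 := by ring
      linarith
    set A : Finset ℤ := Icc ⌈-g c y - 2 * (KB n B * H * ρ ^ 2)⌉ ⌊-g c y + 2 * (KB n B * H * ρ ^ 2)⌋ with hA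
    have h3 : Rc H c (Set.Icc (y - ρ) (y + ρ)) ⊆ ⋃ a ∈ A, {x : ℝ | (a : ℝ) + g c x = 0} := by
      rintro x ⟨hx, a, -, hax⟩
      simp only [Set.mem_iUnion]
      refine ⟨a, ?_, hax⟩
      rw [hA, mem_ic]
      have h4 : (a : ℝ) + g c y = -(g c x - g c y) := by linarith
      rw [h4, abs_neg]
      exact h2 x hx
    have hfin : (⋃ a ∈ A, {x : ℝ | (a : ℝ) + g c x = 0}).Finite :=
      Set.Finite.biUnion (Finset.finite_toSet _) fun a _ => (roots_le a c hc0).1
    have h4 : (Rc H c (Set.Icc (y - ρ) (y + ρ))).ncard ≤ ∑ a ∈ A, {x : ℝ | (a : ℝ) + g c x = 0}.ncard :=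
      (Set.ncard_le_ncard h3 hfin).trans (Finset.set_ncard_biUnion_le _ _)
    have h5 : ∑ a ∈ A, {x : ℝ | (a : ℝ) + g c x = 0}.ncard ≤ A.card * (n + 1) := by
      refine (Finset.sum_le_sum fun a _ => (roots_le a c hc0).2).trans ?_
      rw [Finset.sum_const, smul_eq_mul]
    have h6 : ((Rc H c (Set.Icc (y - ρ) (y + ρ))).ncard : ℝ) ≤ (A.card : ℝ) * (n + 1) := by
      exact_mod_cast h4.trans h5
    have h7 : (A.card : ℝ) = (ic (g c y) (2 * (KB n B * H * ρ ^ 2)) : ℝ) := rfl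
    rw [h7] at h6
    have h8 : (0 : ℝ) ≤ (ic (g c y) (ρ * |g' c y| + KB n B * H * ρ ^ 2) : ℝ) := Nat.cast_nonneg _
    linarith
  · push Not at hz
    have h0 : 0 ≤ ((n : ℝ) + 1) * (if |g' c y| ≤ KB n B * H * ρ then (ic (g c y) (2 * (KB n B * H * ρ ^ 2)) : ℝ) else 0) := by
      split_ifs <;> positivity
    have hinj : Set.InjOn (g c) (Set.Icc (y - ρ) (y + ρ)) := by
      have hsign : (∀ z ∈ Set.Ioo (y - ρ) (y + ρ), 0 < g' c z) ∨ (∀ z ∈ Set.Ioo (y - ρ) (y + ρ), g' c z < 0) := by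
        by_contra hcon
        rw [not_or] at hcon
        push Not at hcon
        obtain ⟨⟨z1, hz1, h1⟩, ⟨z2, hz2, h2⟩⟩ := hcon
        have h3 : (0 : ℝ) ∈ Set.uIcc (g' c z1) (g' c z2) := by
          rw [Set.mem_uIcc]
          left
          exact ⟨h1, h2⟩
        obtain ⟨z, hzz, hz0⟩ := intermediate_value_uIcc (cont_g' c).continuousOn h3
        refine hz z ?_ hz0
        have h4 : Set.uIcc z1 z2 ⊆ Set.Ioo (y - ρ) (y + ρ) := by
          intro w hw
          rw [Set.mem_uIcc] at hw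
          rcases hw with hw | hw
          · exact ⟨hz1.1.trans_le hw.1, hw.2.trans_lt hz2.2⟩
          · exact ⟨hz2.1.trans_le hw.1, hw.2.trans_lt hz1.2⟩
        exact h4 hzz
      rcases hsign with hs1 | hs1
      · have h1 : StrictMonoOn (g c) (Set.Icc (y - ρ) (y + ρ)) := by
          apply strictMonoOn_of_deriv_pos (convex_Icc _ _) (cont_g c).continuousOn
          intro x hx
          rw [interior_Icc] at hx
          rw [(hasDeriv c x).deriv]
          exact hs1 x hx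
        exact h1.injOn
      · have h1 : StrictAntiOn (g c) (Set.Icc (y - ρ) (y + ρ)) := by
          apply strictAntiOn_of_deriv_neg (convex_Icc _ _) (cont_g c).continuousOn
          intro x hx
          rw [interior_Icc] at hx
          rw [(hasDeriv c x).deriv]
          exact hs1 x hx
        exact h1.injOn
    have h1 : (Rc H c (Set.Icc (y - ρ) (y + ρ))).ncard ≤ ic (g c y) (ρ * |g' c y| + KB n B * H * ρ ^ 2) := by
      unfold ic
      rw [← Set.ncard_coe_finset]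
      refine Set.ncard_le_ncard_of_injOn (fun x => ⌊-g c x⌋) ?_ ?_ (Finset.finite_toSet _)
      · rintro x ⟨hx, a, -, hax⟩
        have h2 : -g c x = ((a : ℤ) : ℝ) := by linarith
        rw [h2, Int.floor_intCast, Finset.mem_coe, mem_ic]
        have h4 : (a : ℝ) + g c y = -(g c x - g c y) := by linarith
        rw [h4, abs_neg]
        exact htay x hx
      · rintro x ⟨hx, a, -, hax⟩ x' ⟨hx', a', -, hax'⟩ h
        have h2 : -g c x = ((a : ℤ) : ℝ) := by linarith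
        have h3 : -g c x' = ((a' : ℤ) : ℝ) := by linarith
        change ⌊-g c x⌋ = ⌊-g c x'⌋ at h
        rw [h2, h3, Int.floor_intCast, Int.floor_intCast] at h
        apply hinj hx hx'
        have h4 : (a : ℝ) = (a' : ℝ) := by exact_mod_cast h
        linarith
    have h2 : ((Rc H c (Set.Icc (y - ρ) (y + ρ))).ncard : ℝ) ≤
        (ic (g c y) (ρ * |g' c y| + KB n B * H * ρ ^ 2) : ℝ) := by exact_mod_cast h1
    linarith

theorem vec_lo (H : ℕ) (c : ℤ × (Fin n → ℤ)) (hc : c ∈ cbox n H) (hc0 : c ≠ 0) (B y ρ : ℝ) (hB : 1 ≤ B)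
    (hρ : 0 ≤ ρ) (hy : |y| + ρ ≤ B) (hin : |g c y| + ρ * |g' c y| ≤ H) :
    (ic (g c y) (ρ * |g' c y| - KB n B * H * ρ ^ 2) : ℝ) ≤ ((Rc H c (Set.Icc (y - ρ) (y + ρ))).ncard : ℝ) := by
  classical
  have hKB : 1 ≤ KB n B := KB_ge B hB
  have hH : (0 : ℝ) ≤ H := Nat.cast_nonneg _
  have hK0 : 0 ≤ KB n B * H * ρ ^ 2 := by positivity
  have huv : y - ρ ≤ y + ρ := by linarith
  have t1 := abs_le.1 (taylor H c hc B y ρ (y + ρ) hB hρ hy ⟨by linarith, le_rfl⟩)
  have t2 := abs_le.1 (taylor H c hc B y ρ (y - ρ) hB hρ hy ⟨le_rfl, by linarith⟩)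
  have e1 : y + ρ - y = ρ := by ring
  have e2 : y - ρ - y = -ρ := by ring
  rw [e1] at t1
  rw [e2] at t2
  have hex : ∀ a : ℤ, |(a : ℝ) + g c y| ≤ ρ * |g' c y| - KB n B * H * ρ ^ 2 →
      ∃ x ∈ Set.Icc (y - ρ) (y + ρ), g c x = -(a : ℝ) := by
    intro a ha
    have h1 := abs_le.1 ha
    rcases le_total 0 (g' c y) with h2 | h2
    · rw [abs_of_nonneg h2] at h1
      have h3 : -(a : ℝ) ∈ Set.Icc (g c (y - ρ)) (g c (y + ρ)) := ⟨by linarith [t2.2, h1.2], by linarith [t1.1, h1.1]⟩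
      obtain ⟨x, hx, h4⟩ := intermediate_value_Icc huv (cont_g c).continuousOn h3
      exact ⟨x, hx, h4⟩
    · rw [abs_of_nonpos h2] at h1
      have h3 : -(a : ℝ) ∈ Set.Icc (g c (y + ρ)) (g c (y - ρ)) := ⟨by linarith [t1.2, h1.2], by linarith [t2.1, h1.1]⟩
      obtain ⟨x, hx, h4⟩ := intermediate_value_Icc' huv (cont_g c).continuousOn h3
      exact ⟨x, hx, h4⟩
  have hch : ∀ a : ℤ, ∃ x : ℝ, |(a : ℝ) + g c y| ≤ ρ * |g' c y| - KB n B * H * ρ ^ 2 →
      x ∈ Set.Icc (y - ρ) (y + ρ) ∧ g c x = -(a : ℝ) := by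
    intro a
    by_cases h : |(a : ℝ) + g c y| ≤ ρ * |g' c y| - KB n B * H * ρ ^ 2
    · obtain ⟨x, h1, h2⟩ := hex a h
      exact ⟨x, fun _ => ⟨h1, h2⟩⟩
    · exact ⟨0, fun h' => absurd h' h⟩
  choose X hX using hch
  have h1 : ic (g c y) (ρ * |g' c y| - KB n B * H * ρ ^ 2) ≤ (Rc H c (Set.Icc (y - ρ) (y + ρ))).ncard := by
    unfold ic
    rw [← Set.ncard_coe_finset]
    refine Set.ncard_le_ncard_of_injOn X ?_ ?_ (Rc_finite H c hc0 _)
    · intro a ha
      rw [Finset.mem_coe, mem_ic] at ha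
      obtain ⟨h2, h3⟩ := hX a ha
      refine ⟨h2, a, ?_, by rw [h3]; ring⟩
      have h4 : |(a : ℝ)| ≤ H := by
        have h5 : (a : ℝ) = ((a : ℝ) + g c y) - g c y := by ring
        rw [h5]
        refine (abs_sub _ _).trans ?_
        linarith
      rw [← Int.cast_abs] at h4
      exact_mod_cast h4
    · intro a ha a' ha' h
      rw [Finset.mem_coe, mem_ic] at ha ha'
      have h2 := (hX a ha).2
      have h3 := (hX a' ha').2
      rw [h, h3] at h2
      have h4 : (a : ℝ) = (a' : ℝ) := by linarith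
      exact_mod_cast h4
  exact_mod_cast h1

end Pool.Agent.D0H53.AP
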