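import Pool.Agent.D0H53.AP.Fra

set_option autoImplicit false

/-!
# The number of the roots close to a rational number
-/

open Finset Filter Topology

namespace Pool.Agent.D0H53.AP

variable {n : ℕ}

/-- the upper bound -/
theorem cnt_up (B : ℝ) (hB : 1 ≤ B) (H q : ℕ) (hq : 1 ≤ q) (P : ℤ) (hP : IsCoprime P (q : ℤ)) (ρ A X S : ℝ)
    (hA : A = KB n B * H) (hX : X = KB n B * H * ρ ^ 2) (hS : S = 2 * (KB n B * H * ρ)) (hρ0 : 0 ≤ ρ)
    (hρ2 : ρ ^ 2 ≤ ρ) (hρq : ρ * (q : ℝ) ^ 2 ≤ 1) (hy : |(P : ℝ) / q| + ρ ≤ B) :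
    (Zc n H (Set.Icc ((P : ℝ) / q - ρ) ((P : ℝ) / q + ρ)) : ℝ) ≤ 2 * ρ * RR n H ((P : ℝ) / q) +
      (((cbox n H).filter fun c => |(|g c ((P : ℝ) / q)| - (H : ℝ))| ≤ S).card : ℝ) * (2 * (ρ * A)) +
      (2 * (H : ℝ) + 1) ^ (n + 1) * (2 * X) +
      (2 * (H : ℝ) + 1) ^ n * (5 * ((2 * (H : ℝ) + 1) / q) + (2 * q * S + 1)) +
      ((n : ℝ) + 1) * ((2 * (H : ℝ) + 1) ^ n * ((2 * (S / 2) + 1) * (2 * (2 * X) + 1))) := by
  classical
  have hKB : 1 ≤ KB n B := KB_ge B hB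
  have hA0 : 0 ≤ A := by rw [hA]; positivity
  have hX0 : 0 ≤ X := by rw [hX]; positivity
  have hS0 : 0 ≤ S := by rw [hS]; positivity
  have hρA : 0 ≤ ρ * A := by positivity
  set y : ℝ := (P : ℝ) / q with hyd
  have hyB : |y| ≤ B := by linarith
  have hg'le : ∀ c ∈ cbox n H, ρ * |g' c y| ≤ ρ * A := fun c hc => by
    rw [hA]
    exact mul_le_mul_of_nonneg_left (g'_le H c hc B y hB hyB) hρ0
  have hAX : ρ * A + X ≤ S := by
    have h1 : KB n B * H * ρ ^ 2 ≤ KB n B * H * ρ := mul_le_mul_of_nonneg_left hρ2 (by positivity)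
    rw [hA, hX, hS]
    linarith
  have hS2 : S / 2 = KB n B * H * ρ := by rw [hS]; ring
  have hcard : ((cbox n H).card : ℝ) = (2 * (H : ℝ) + 1) ^ (n + 1) := by
    rw [card_cbox]
    push_cast
    ring
  have hpc : ((pbox n H).card : ℝ) = (2 * (H : ℝ) + 1) ^ n := by
    rw [pbox_card]
    push_cast
    ring
  have h1 : (Zc n H (Set.Icc (y - ρ) (y + ρ)) : ℝ) ≤ ∑ c ∈ cbox n H,
      ((if |g c y| ≤ H + S then (ic (g c y) (ρ * |g' c y| + X) : ℝ) else 0) +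
      ((n : ℝ) + 1) * (if |g' c y| ≤ S / 2 then (ic (g c y) (2 * X) : ℝ) else 0)) := by
    unfold Zc
    push_cast
    refine (Finset.sum_le_sum fun c hc => ?_).trans
      (Finset.sum_le_sum_of_subset_of_nonneg (Finset.erase_subset 0 _) fun c _ _ => ?_)
    · rw [Finset.mem_erase] at hc
      by_cases h : |g c y| ≤ H + S
      · rw [if_pos h, hS2, hX]
        exact vec_up H c hc.2 hc.1 B y ρ hB hρ0 hy
      · rw [if_neg h]
        rw [hS] at h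
        rw [far_empty H c hc.2 B y ρ hB hρ0 hρ2 hy h, Set.ncard_empty, Nat.cast_zero, zero_add]
        split_ifs <;> positivity
    · split_ifs <;> positivity
  rw [Finset.sum_add_distrib] at h1
  have h2 : ∑ c ∈ cbox n H, (if |g c y| ≤ H + S then (ic (g c y) (ρ * |g' c y| + X) : ℝ) else 0) ≤
      ∑ c ∈ cbox n H, (if |g c y| ≤ H + S then 2 * (ρ * |g' c y| + X) else 0) +
      (2 * (H : ℝ) + 1) ^ n * (5 * ((2 * (H : ℝ) + 1) / q) + (2 * q * S + 1)) := by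
    rw [sum_cbox, sum_cbox, ← hpc, ← nsmul_eq_mul, ← Finset.sum_const, ← Finset.sum_add_distrib]
    exact Finset.sum_le_sum fun c' hc' => line_up H c' hc' q hq P hP ρ A X S (H + S) hρ0 hρq hg'le hX0 hAX hS0
  have h3 : ∑ c ∈ cbox n H, (if |g c y| ≤ H + S then 2 * (ρ * |g' c y| + X) else 0) ≤
      2 * ρ * RR n H y + (((cbox n H).filter fun c => |(|g c y| - (H : ℝ))| ≤ S).card : ℝ) * (2 * (ρ * A)) +
      (2 * (H : ℝ) + 1) ^ (n + 1) * (2 * X) := by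
    refine (Finset.sum_le_sum fun c hc => rr_up H c y ρ A X S hρ0 (hg'le c hc) hρA hX0).trans (le_of_eq ?_)
    unfold RR
    rw [Finset.sum_add_distrib, Finset.sum_add_distrib, Finset.mul_sum, ← Finset.sum_filter, Finset.sum_const,
      Finset.sum_const, nsmul_eq_mul, nsmul_eq_mul, hcard]
  have h4 := flat_sum (n := n) H y (S / 2) (2 * X) (by positivity) (by positivity)
  linarith

/-- the lower bound -/
theorem cnt_lo (B : ℝ) (hB : 1 ≤ B) (H q : ℕ) (hq : 1 ≤ q) (P : ℤ) (hP : IsCoprime P (q : ℤ)) (ρ A X S : ℝ)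
    (hA : A = KB n B * H) (hX : X = KB n B * H * ρ ^ 2) (hS : S = 2 * (KB n B * H * ρ)) (hρ0 : 0 ≤ ρ)
    (hρ2 : ρ ^ 2 ≤ ρ) (hρq : ρ * (q : ℝ) ^ 2 ≤ 1) (hy : |(P : ℝ) / q| + ρ ≤ B) :
    2 * ρ * RR n H ((P : ℝ) / q) ≤ (Zc n H (Set.Icc ((P : ℝ) / q - ρ) ((P : ℝ) / q + ρ)) : ℝ) +
      (((cbox n H).filter fun c => |(|g c ((P : ℝ) / q)| - (H : ℝ))| ≤ S).card : ℝ) * (2 * (ρ * A)) +
      (2 * (H : ℝ) + 1) ^ (n + 1) * (2 * X) +
      (2 * (H : ℝ) + 1) ^ n * (5 * ((2 * (H : ℝ) + 1) / q) + (2 * q * S + 1)) + 1 := by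
  classical
  have hKB : 1 ≤ KB n B := KB_ge B hB
  have hA0 : 0 ≤ A := by rw [hA]; positivity
  have hX0 : 0 ≤ X := by rw [hX]; positivity
  have hS0 : 0 ≤ S := by rw [hS]; positivity
  have hρA : 0 ≤ ρ * A := by positivity
  set y : ℝ := (P : ℝ) / q with hyd
  have hyB : |y| ≤ B := by linarith
  have hg'le : ∀ c ∈ cbox n H, ρ * |g' c y| ≤ ρ * A := fun c hc => by
    rw [hA]
    exact mul_le_mul_of_nonneg_left (g'_le H c hc B y hB hyB) hρ0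
  have hAX : ρ * A + X ≤ S := by
    have h1 : KB n B * H * ρ ^ 2 ≤ KB n B * H * ρ := mul_le_mul_of_nonneg_left hρ2 (by positivity)
    rw [hA, hX, hS]
    linarith
  have hcard : ((cbox n H).card : ℝ) = (2 * (H : ℝ) + 1) ^ (n + 1) := by
    rw [card_cbox]
    push_cast
    ring
  have hpc : ((pbox n H).card : ℝ) = (2 * (H : ℝ) + 1) ^ n := by
    rw [pbox_card]
    push_cast
    ring
  have h1 : ∑ c ∈ cbox n H, (if |g c y| ≤ H - S then (ic (g c y) (ρ * |g' c y| - X) : ℝ) else 0) ≤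
      (Zc n H (Set.Icc (y - ρ) (y + ρ)) : ℝ) + 1 := by
    rw [← Finset.add_sum_erase _ _ (zero_mem n H)]
    have h2 := zero_term (n := n) y X (H - S) ρ hX0
    have h3 : ∑ c ∈ (cbox n H).erase 0, (if |g c y| ≤ H - S then (ic (g c y) (ρ * |g' c y| - X) : ℝ) else 0) ≤
        (Zc n H (Set.Icc (y - ρ) (y + ρ)) : ℝ) := by
      unfold Zc
      push_cast
      refine Finset.sum_le_sum fun c hc => ?_
      rw [Finset.mem_erase] at hc
      split_ifs with h4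
      · rw [hX]
        apply vec_lo H c hc.2 hc.1 B y ρ hB hρ0 hy
        have h5 := hg'le c hc.2
        linarith
      · exact Nat.cast_nonneg _
    linarith
  have h2 : ∑ c ∈ cbox n H, (if |g c y| ≤ H - S then 2 * (ρ * |g' c y| - X) else 0) ≤
      ∑ c ∈ cbox n H, (if |g c y| ≤ H - S then (ic (g c y) (ρ * |g' c y| - X) : ℝ) else 0) +
      (2 * (H : ℝ) + 1) ^ n * (5 * ((2 * (H : ℝ) + 1) / q) + (2 * q * S + 1)) := by
    rw [sum_cbox, sum_cbox, ← hpc, ← nsmul_eq_mul, ← Finset.sum_const, ← Finset.sum_add_distrib]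
    exact Finset.sum_le_sum fun c' hc' => line_lo H c' hc' q hq P hP ρ A X S (H - S) hρ0 hρq hg'le hX0 hAX hS0
  have h3 : 2 * ρ * RR n H y ≤ ∑ c ∈ cbox n H, (if |g c y| ≤ H - S then 2 * (ρ * |g' c y| - X) else 0) +
      (((cbox n H).filter fun c => |(|g c y| - (H : ℝ))| ≤ S).card : ℝ) * (2 * (ρ * A)) +
      (2 * (H : ℝ) + 1) ^ (n + 1) * (2 * X) := by
    unfold RR
    rw [Finset.mul_sum]
    refine (Finset.sum_le_sum fun c hc => rr_lo H c y ρ A X S (hg'le c hc) hρA hX0 hS0).trans (le_of_eq ?_)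
    rw [Finset.sum_add_distrib, Finset.sum_add_distrib, ← Finset.sum_filter, ← Finset.sum_filter, Finset.sum_const,
      Finset.sum_const, nsmul_eq_mul, nsmul_eq_mul, hcard]
  linarith

/-- the size of the errors -/
theorem err_size (N K G u v A2 : ℝ) (H q ρ S A X Ly P1 P0 : ℝ) (hN : 0 ≤ N) (hK : 1 ≤ K) (hG : 1 ≤ G) (hH : 1 ≤ H)
    (hq : 1 ≤ q) (hρ0 : 0 ≤ ρ) (hρ1 : ρ ≤ 1) (hu : u = H ^ 2 * ρ ^ 2) (hv : v = H / q) (hv1 : 1 ≤ v)
    (f1 : H * ρ ≤ v) (f2 : H * ρ * q ≤ v) (f3 : H * ρ ^ 2 ≤ v) (hA : A = K * H) (hX : X = K * H * ρ ^ 2)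
    (hS : S = 2 * (K * H * ρ)) (hP0 : P0 ≤ G) (hP1 : P1 ≤ 3 * G * H)
    (hLy : Ly ≤ P0 * (8 * N * S + 2)) (hA2 : A2 = 4 * K + (16 + 4 * K) + N * (6 * K + 1) + 1) :
    Ly * (2 * (ρ * A)) + P1 * (2 * X) + P0 * (5 * ((2 * H + 1) / q) + (2 * q * S + 1)) +
      N * (P0 * ((2 * (S / 2) + 1) * (2 * (2 * X) + 1))) + 1 ≤
      G * ((32 * N * K ^ 2 + 6 * K + 8 * N * K ^ 2) * u + A2 * v) := by
  have hG0 : 0 ≤ G := by linarith
  have hH0 : 0 < H := by linarith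
  have hq0 : 0 < q := by linarith
  have hu0 : 0 ≤ u := by rw [hu]; positivity
  have hS0 : 0 ≤ S := by rw [hS]; positivity
  have hX0 : 0 ≤ X := by rw [hX]; positivity
  have hA0 : 0 ≤ A := by rw [hA]; positivity
  have b1 : Ly * (2 * (ρ * A)) ≤ G * ((32 * N * K ^ 2) * u + 4 * K * v) := by
    have h1 : Ly * (2 * (ρ * A)) ≤ (G * (8 * N * S + 2)) * (2 * (ρ * A)) := by
      apply mul_le_mul_of_nonneg_right _ (by positivity)
      refine hLy.trans ?_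
      exact mul_le_mul_of_nonneg_right hP0 (by positivity)
    refine h1.trans ?_
    have h2 : (G * (8 * N * S + 2)) * (2 * (ρ * A)) = G * ((32 * N * K ^ 2) * u + 4 * K * (H * ρ)) := by
      rw [hS, hu, hA]
      ring
    rw [h2]
    apply mul_le_mul_of_nonneg_left _ hG0
    have := mul_le_mul_of_nonneg_left f1 (by positivity : 0 ≤ 4 * K)
    linarith
  have b2 : P1 * (2 * X) ≤ G * ((6 * K) * u) := by
    refine (mul_le_mul_of_nonneg_right hP1 (by positivity : 0 ≤ 2 * X)).trans (le_of_eq ?_)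
    rw [hX, hu]
    ring
  have b3 : P0 * (5 * ((2 * H + 1) / q) + (2 * q * S + 1)) ≤ G * ((16 + 4 * K) * v) := by
    have h1 : P0 * (5 * ((2 * H + 1) / q) + (2 * q * S + 1)) ≤ G * (5 * ((2 * H + 1) / q) + (2 * q * S + 1)) :=
      mul_le_mul_of_nonneg_right hP0 (by positivity)
    refine h1.trans (mul_le_mul_of_nonneg_left ?_ hG0)
    have h2 : (2 * H + 1) / q ≤ 3 * v := by
      rw [hv, mul_div_assoc', div_le_div_iff_of_pos_right hq0]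
      linarith
    have h3 : 2 * q * S = 4 * K * (H * ρ * q) := by rw [hS]; ring
    rw [h3]
    have := mul_le_mul_of_nonneg_left f2 (by positivity : 0 ≤ 4 * K)
    linarith
  have b4 : N * (P0 * ((2 * (S / 2) + 1) * (2 * (2 * X) + 1))) ≤
      G * ((8 * N * K ^ 2) * u + (N * (6 * K + 1)) * v) := by
    have h1 : N * (P0 * ((2 * (S / 2) + 1) * (2 * (2 * X) + 1))) ≤
        N * (G * ((2 * (S / 2) + 1) * (2 * (2 * X) + 1))) := by
      apply mul_le_mul_of_nonneg_left _ hN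
      exact mul_le_mul_of_nonneg_right hP0 (by positivity)
    refine h1.trans ?_
    have h2 : (2 * (S / 2) + 1) * (2 * (2 * X) + 1) ≤ 8 * K ^ 2 * u + (6 * K + 1) * v := by
      have h3 : (2 * (S / 2) + 1) * (2 * (2 * X) + 1) =
          8 * K ^ 2 * (u * ρ) + 2 * K * (H * ρ) + 4 * K * (H * ρ ^ 2) + 1 := by
        rw [hu, hS, hX]
        ring
      rw [h3]
      have e1 : u * ρ ≤ u := mul_le_of_le_one_right hu0 hρ1
      have e2 := mul_le_mul_of_nonneg_left e1 (by positivity : 0 ≤ 8 * K ^ 2)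
      have e3 := mul_le_mul_of_nonneg_left f1 (by positivity : 0 ≤ 2 * K)
      have e4 := mul_le_mul_of_nonneg_left f3 (by positivity : 0 ≤ 4 * K)
      linarith
    have h3 := mul_le_mul_of_nonneg_left h2 (by positivity : 0 ≤ N * G)
    refine le_trans (le_of_eq ?_) (h3.trans (le_of_eq ?_)) <;> ring
  have b5 : (1 : ℝ) ≤ G * (1 * v) := by nlinarith
  have h1 : G * ((32 * N * K ^ 2 + 6 * K + 8 * N * K ^ 2) * u + A2 * v) =
      G * ((32 * N * K ^ 2) * u + 4 * K * v) + G * ((6 * K) * u) +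
      G * ((16 + 4 * K) * v) + G * ((8 * N * K ^ 2) * u + (N * (6 * K + 1)) * v) +
      G * (1 * v) := by
    rw [hA2]
    ring
  rw [h1]
  linarith

/-- the number of the roots close to a rational number -/
theorem frac_count (n : ℕ) (B : ℝ) (hB : 1 ≤ B) : ∃ C : ℝ, 0 < C ∧ ∀ H : ℕ, 1 ≤ H → ∀ q : ℕ, 1 ≤ q → q ≤ H →
    ∀ P : ℤ, IsCoprime P (q : ℤ) → ∀ ρ : ℝ, 0 ≤ ρ → ρ * (q : ℝ) ^ 2 ≤ 1 → |(P : ℝ) / q| + ρ ≤ B →
    |(Zc n H (Set.Icc ((P : ℝ) / q - ρ) ((P : ℝ) / q + ρ)) : ℝ) - 2 * ρ * RR n H ((P : ℝ) / q)| ≤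
      C * ((H : ℝ) ^ (n + 2) * ρ ^ 2 + (H : ℝ) ^ (n + 1) / q) := by
  classical
  have hKB : 1 ≤ KB n B := KB_ge B hB
  have hn : (0 : ℝ) ≤ (n : ℝ) + 1 := by positivity
  set A1 : ℝ := 32 * ((n : ℝ) + 1) * KB n B ^ 2 + 6 * KB n B + 8 * ((n : ℝ) + 1) * KB n B ^ 2 with hA1
  set A2 : ℝ := 4 * KB n B + (16 + 4 * KB n B) + ((n : ℝ) + 1) * (6 * KB n B + 1) + 1 with hA2
  have hA10 : 0 < A1 := by positivity
  have hA20 : 0 < A2 := by positivity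
  refine ⟨3 ^ n * (A1 + A2), by positivity, ?_⟩
  intro H hH q hq hqH P hP ρ hρ0 hρq hy
  have hH1 : (1 : ℝ) ≤ H := by exact_mod_cast hH
  have hH0 : (0 : ℝ) < H := by linarith
  have hq1 : (1 : ℝ) ≤ q := by exact_mod_cast hq
  have hq0 : (0 : ℝ) < q := by linarith
  have hqHR : (q : ℝ) ≤ H := by exact_mod_cast hqH
  have hρ1 : ρ ≤ 1 := by
    have hq2 : (1 : ℝ) ≤ (q : ℝ) ^ 2 := one_le_pow₀ hq1
    have := mul_le_mul_of_nonneg_left hq2 hρ0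
    linarith
  have hρ2 : ρ ^ 2 ≤ ρ := by
    rw [sq]
    exact mul_le_of_le_one_right hρ0 hρ1
  have hρq1 : ρ * q ≤ 1 / q := by
    rw [le_div_iff₀ hq0]
    linarith
  have hρqq : ρ ≤ 1 / q := by
    refine le_trans ?_ hρq1
    exact le_mul_of_one_le_right hρ0 hq1
  have hv1 : 1 ≤ (H : ℝ) / q := by rw [le_div_iff₀ hq0]; linarith
  have f1 : (H : ℝ) * ρ ≤ (H : ℝ) / q := by
    have := mul_le_mul_of_nonneg_left hρqq hH0.le
    rw [mul_one_div] at this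
    exact this
  have f2 : (H : ℝ) * ρ * q ≤ (H : ℝ) / q := by
    have := mul_le_mul_of_nonneg_left hρq1 hH0.le
    rw [mul_one_div] at this
    linarith
  have f3 : (H : ℝ) * ρ ^ 2 ≤ (H : ℝ) / q := (mul_le_mul_of_nonneg_left hρ2 hH0.le).trans f1
  have hS0 : 0 ≤ 2 * (KB n B * H * ρ) := by positivity
  have hX0 : 0 ≤ KB n B * H * ρ ^ 2 := by positivity
  have hlayer := layer (n := n) H ((P : ℝ) / q) (2 * (KB n B * H * ρ)) hS0
  have hup := cnt_up (n := n) B hB H q hq P hP ρ _ _ _ rfl rfl rfl hρ0 hρ2 hρq hy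
  have hlo := cnt_lo (n := n) B hB H q hq P hP ρ _ _ _ rfl rfl rfl hρ0 hρ2 hρq hy
  have hP3 := two_pow n H hH n
  have hP3' := two_pow n H hH (n + 1)
  have hG1 : (1 : ℝ) ≤ 3 ^ n * (H : ℝ) ^ n := by
    have h1 : (1 : ℝ) ≤ 3 ^ n := one_le_pow₀ (by norm_num)
    have h2 : (1 : ℝ) ≤ (H : ℝ) ^ n := one_le_pow₀ hH1
    exact one_le_mul_of_one_le_of_one_le h1 h2
  have herr := err_size ((n : ℝ) + 1) (KB n B) (3 ^ n * (H : ℝ) ^ n) ((H : ℝ) ^ 2 * ρ ^ 2) ((H : ℝ) / q) A2 H q ρ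
    (2 * (KB n B * H * ρ)) (KB n B * H) (KB n B * H * ρ ^ 2)
    (((cbox n H).filter fun c => |(|g c ((P : ℝ) / q)| - (H : ℝ))| ≤ 2 * (KB n B * H * ρ)).card : ℝ)
    ((2 * (H : ℝ) + 1) ^ (n + 1)) ((2 * (H : ℝ) + 1) ^ n) hn hKB hG1 hH1 hq1 hρ0 hρ1 rfl rfl hv1 f1 f2 f3
    rfl rfl rfl hP3 (by
      refine hP3'.trans (le_of_eq ?_)
      rw [pow_succ, pow_succ]
      ring) hlayer hA2
  rw [← hA1] at herr
  have hE4 : 0 ≤ ((n : ℝ) + 1) * ((2 * (H : ℝ) + 1) ^ n * ((2 * ((2 * (KB n B * H * ρ)) / 2) + 1) *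
      (2 * (2 * (KB n B * H * ρ ^ 2)) + 1))) := by positivity
  have htot : |(Zc n H (Set.Icc ((P : ℝ) / q - ρ) ((P : ℝ) / q + ρ)) : ℝ) - 2 * ρ * RR n H ((P : ℝ) / q)| ≤
      3 ^ n * (H : ℝ) ^ n * (A1 * ((H : ℝ) ^ 2 * ρ ^ 2) + A2 * ((H : ℝ) / q)) := by
    rw [abs_le]
    constructor <;> linarith
  refine htot.trans ?_
  have h1 : 3 ^ n * (A1 + A2) * ((H : ℝ) ^ (n + 2) * ρ ^ 2 + (H : ℝ) ^ (n + 1) / q) =
      3 ^ n * (H : ℝ) ^ n * (A1 * ((H : ℝ) ^ 2 * ρ ^ 2) + A2 * ((H : ℝ) / q)) +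
      3 ^ n * (H : ℝ) ^ n * (A2 * ((H : ℝ) ^ 2 * ρ ^ 2) + A1 * ((H : ℝ) / q)) := by
    rw [show n + 2 = n + 1 + 1 by omega, pow_succ (H : ℝ) (n + 1), pow_succ (H : ℝ) n]
    ring
  rw [h1]
  have h2 : 0 ≤ 3 ^ n * (H : ℝ) ^ n * (A2 * ((H : ℝ) ^ 2 * ρ ^ 2) + A1 * ((H : ℝ) / q)) := by positivity
  linarith

end Pool.Agent.D0H53.AP
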