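import Pool.Agent.D0H53.AP.Mom
import Pool.Agent.D0H53.PL.Lng

set_option autoImplicit false

/-!
# The Poisson law for a sequence of counting functions; its consequences
-/

open Finset Filter Topology

namespace Pool.Agent.D0H53.AP

open Pool.Agent.N965.LN (dn)
open Pool.Agent.D0H53.PL

/-- the reals with the number of approximations in a set -/
def XA (Q1 Q2 : ℕ) (δ : ℕ → ℝ) (A : Set ℕ) : Set ℝ := {x | (Pr Q1 Q2 δ x).ncard ∈ A}

/-- the Poisson law -/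
def LawZ (Z : ℕ → Set ℝ → ℝ) (I : Set ℝ) : Prop :=
  ∀ κ : ℝ, κ < 1 → ∀ L : ℝ, 0 ≤ L → ∀ ε : ℝ, 0 < ε → ∃ δ₀ : ℝ, 0 < δ₀ ∧ ∃ H₀ : ℕ, 1 ≤ H₀ ∧
    ∀ H : ℕ, H₀ ≤ H → ∀ Q1 Q2 : ℕ, 1 ≤ Q1 → (Q2 : ℝ) ≤ (H : ℝ) ^ κ → ∀ δ : ℕ → ℝ,
    (∀ p q, Q1 < p → p ≤ q → q ≤ Q2 → δ q ≤ δ p) → (∀ q, Q1 < q → q ≤ Q2 → 0 ≤ δ q) →
    (∀ q, Q1 < q → q ≤ Q2 → δ q ≤ δ₀) → Mn Q2 δ Q1 ≤ L → ∀ y : ℝ, 0 ≤ y → y ≤ L → |Mn Q2 δ Q1 - y| ≤ δ₀ →
    ∀ A : Set ℕ, |Z H (I ∩ XA Q1 Q2 δ A) - (ProbabilityTheory.poissonMeasure y.toNNReal).real A * Z H I| ≤ ε * Z H I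

theorem alg_law (n : ℕ) (k : ℤ) : LawZ (fun H T => (Zc n H T : ℝ)) (Set.Ico (k : ℝ) (k + 1)) := by
  classical
  intro κ hκ L hL ε hε
  obtain ⟨η, hη, K, hK⟩ := poisson_tv L hL ε hε
  choose Kc hKc0 Hc hHc1 hKc using fun j : ℕ => alg_moments_q n k j L hL
  set Km : ℝ := ∑ j ∈ range K, Kc j with hKm
  have hKm0 : 0 ≤ Km := Finset.sum_nonneg fun j _ => hKc0 j
  set G : ℝ := K * (L + 1) ^ K with hG
  have hG0 : 0 ≤ G := by positivity
  set t : ℝ := min (1 / 2) (min (η / (4 * (Km + 1))) (η / (4 * (G + 1)))) with ht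
  have ht0 : 0 < t := by positivity
  have ht1 : t ≤ 1 / 2 := min_le_left _ _
  have ht2 : Km * t ≤ η / 4 := by
    have e1 : t ≤ η / (4 * (Km + 1)) := (min_le_right _ _).trans (min_le_left _ _)
    calc Km * t ≤ Km * (η / (4 * (Km + 1))) := mul_le_mul_of_nonneg_left e1 hKm0
      _ ≤ η / 4 := by
          rw [mul_div_assoc', div_le_div_iff₀ (by positivity) (by positivity)]
          nlinarith
  have ht3 : G * t ^ 2 ≤ η / 4 := by
    have e1 : t ≤ η / (4 * (G + 1)) := (min_le_right _ _).trans (min_le_right _ _)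
    have e2 : t ^ 2 ≤ t := by nlinarith
    calc G * t ^ 2 ≤ G * (η / (4 * (G + 1))) := mul_le_mul_of_nonneg_left (e2.trans e1) hG0
      _ ≤ η / 4 := by
          rw [mul_div_assoc', div_le_div_iff₀ (by positivity) (by positivity)]
          nlinarith
  set κ' : ℝ := max κ 0 with hκ'
  have hκ'0 : 0 ≤ κ' := le_max_right _ _
  have hκ'1 : κ' < 1 := max_lt hκ (by norm_num)
  set τ : ℝ := (1 - κ') / 2 with hτ
  have hτ0 : 0 < τ := by rw [hτ]; linarith
  obtain ⟨N₀, hN₀⟩ := err_small1 (3 * (Km + 1)) τ κ' (η / 4) (by positivity) hκ'0 (by linarith) hτ0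
    (by rw [hτ]; linarith) (by positivity) K
  obtain ⟨c, hc, H₁, hH₁, hge⟩ := total_ge n k
  refine ⟨t ^ 2, by positivity, max (max N₀ H₁) (∑ j ∈ range K, Hc j), le_max_of_le_left (le_max_of_le_right hH₁), ?_⟩
  intro H hH Q1 Q2 hQ1 hQ2 δ hanti hnn hsmall hmean y hy0 hyL hyM A
  have hHN : N₀ ≤ H := (le_max_left _ _).trans ((le_max_left _ _).trans hH)
  have hHH : H₁ ≤ H := (le_max_right _ _).trans ((le_max_left _ _).trans hH)
  have hHc : ∀ j < K, Hc j ≤ H := fun j hj =>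
    (Finset.single_le_sum (f := Hc) (fun _ _ => Nat.zero_le _) (mem_range.2 hj)).trans ((le_max_right _ _).trans hH)
  have hH1 : 1 ≤ H := hH₁.trans hHH
  have hHR : (1 : ℝ) ≤ H := by exact_mod_cast hH1
  have hH0 : (0 : ℝ) < H := by linarith
  set S := (Fam_finite n H (Set.Ico (k : ℝ) (k + 1))).toFinset with hS
  have hcard : S.card = Zc n H (Set.Ico (k : ℝ) (k + 1)) := by
    rw [hS, ← Set.ncard_eq_toFinset_card _ (Fam_finite n H (Set.Ico (k : ℝ) (k + 1))), Fam_ncard]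
  have hN0 : (0 : ℝ) < (Zc n H (Set.Ico (k : ℝ) (k + 1)) : ℝ) :=
    lt_of_lt_of_le (by positivity) (hge H hHH)
  have hS0 : 0 < S.card := by
    rw [hcard]; exact_mod_cast hN0
  have hyp : Hyp Q1 Q2 δ t L := ⟨hanti, hnn, hsmall, hmean, hL, ht0.le, ht1⟩
  have hQ2' : (Q2 : ℝ) ≤ (H : ℝ) ^ κ' :=
    hQ2.trans (Real.rpow_le_rpow_of_exponent_le hHR (le_max_left _ _))
  have hQ2H : Q2 ≤ H := by
    have e1 : (Q2 : ℝ) ≤ (H : ℝ) ^ (1 : ℝ) := hQ2'.trans (Real.rpow_le_rpow_of_exponent_le hHR hκ'1.le)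
    rw [Real.rpow_one] at e1
    exact_mod_cast e1
  have hMn0 := Mn_nonneg hyp Q1 le_rfl
  have hone : (1 : ℝ) ≤ (H : ℝ) ^ κ' := Real.one_le_rpow hHR hκ'0
  have htau : (1 : ℝ) ≤ (H : ℝ) ^ τ := Real.one_le_rpow hHR hτ0.le
  have key : ∀ m ≤ K, |(∑ x ∈ S, (((Hs Q1 Q2 δ x.2).card.choose m : ℕ) : ℝ)) / S.card - y ^ m / m.factorial| ≤ η := by
    intro m hm
    rcases Nat.eq_zero_or_pos m with h0 | h0
    · subst h0
      simp only [Nat.choose_zero_right, Nat.cast_one, Finset.sum_const, nsmul_eq_mul, mul_one, pow_zero,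
        Nat.factorial_zero, div_one]
      rw [div_self (by exact_mod_cast hS0.ne'), sub_self, abs_zero]
      exact hη.le
    · obtain ⟨j, rfl⟩ : ∃ j, m = j + 1 := ⟨m - 1, by omega⟩
      have h1 := hKc j H (hHc j (by omega)) Q1 Q2 hQ1 hQ2H δ t hyp
      rw [← hS] at h1
      have hKj : Kc j ≤ Km := Finset.single_le_sum (f := Kc) (fun j _ => hKc0 j) (mem_range.2 (by omega))
      -- the second error
      set Q : ℕ := max Q2 1 with hQ
      have hQ1' : (1 : ℝ) ≤ Q := by exact_mod_cast le_max_right Q2 1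
      have hQle : (Q2 : ℝ) ≤ Q := by exact_mod_cast le_max_left Q2 1
      have hQκ : (Q : ℝ) ≤ (H : ℝ) ^ κ' := by
        rw [hQ]
        push_cast
        exact max_le hQ2' hone
      have h2 := hN₀ H hHN hH1 Q hQκ j (by omega)
      have hlog : Real.log Q2 ≤ Real.log Q := by
        rcases Nat.eq_zero_or_pos Q2 with h | h
        · rw [h, Nat.cast_zero, Real.log_zero]
          exact Real.log_nonneg hQ1'
        · exact Real.log_le_log (by exact_mod_cast h) hQle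
      have hlog0 : 0 ≤ Real.log Q2 := Real.log_natCast_nonneg Q2
      have hlogQ0 : 0 ≤ Real.log Q := Real.log_natCast_nonneg Q
      set Y : ℝ := (Q : ℝ) * (139 * (1 + Real.log Q)) ^ (j + 1) with hY
      have hP1 : (1 : ℝ) ≤ (139 * (1 + Real.log Q)) ^ (j + 1) := one_le_pow₀ (by linarith)
      have hY1 : (Q : ℝ) ≤ Y := by
        rw [hY]
        exact le_mul_of_one_le_right (by positivity) hP1
      have hX : (1 + (Q2 : ℝ)) + (Q2 : ℝ) * (139 * (1 + Real.log Q2)) ^ (j + 1) ≤ 3 * Y := by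
        have e1 : (Q2 : ℝ) * (139 * (1 + Real.log Q2)) ^ (j + 1) ≤ Y := by
          rw [hY]
          apply mul_le_mul hQle _ (by positivity) (by positivity)
          apply pow_le_pow_left₀ (by positivity)
          linarith
        linarith
      have h3 : Kc j / H * ((1 + (Q2 : ℝ)) + (Q2 : ℝ) * (139 * (1 + Real.log Q2)) ^ (j + 1)) ≤ η / 4 := by
        have hY0 : 0 ≤ Y := by positivity
        calc Kc j / H * ((1 + (Q2 : ℝ)) + (Q2 : ℝ) * (139 * (1 + Real.log Q2)) ^ (j + 1))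
            ≤ Kc j / H * (3 * Y) := mul_le_mul_of_nonneg_left hX (div_nonneg (hKc0 j) hH0.le)
          _ ≤ (Km + 1) / H * (3 * Y) := by
              apply mul_le_mul_of_nonneg_right _ (by positivity)
              exact div_le_div_of_nonneg_right (by linarith) hH0.le
          _ = 3 * (Km + 1) * 1 / H * Y := by ring
          _ ≤ 3 * (Km + 1) * (H : ℝ) ^ τ / H * Y := by
              apply mul_le_mul_of_nonneg_right _ hY0
              apply div_le_div_of_nonneg_right _ hH0.le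
              exact mul_le_mul_of_nonneg_left htau (by positivity)
          _ ≤ η / 4 := h2
      have h4 : Kc j * t ≤ η / 4 := (mul_le_mul_of_nonneg_right hKj ht0.le).trans ht2
      have h5 := pow_close (j + 1) L (Mn Q2 δ Q1) y hL hMn0 hmean hy0 hyL
      have h6 : ((j + 1 : ℕ) : ℝ) * (L + 1) ^ (j + 1) * |Mn Q2 δ Q1 - y| ≤ η / 4 := by
        refine le_trans ?_ ht3
        apply mul_le_mul _ hyM (abs_nonneg _) hG0
        rw [hG]
        apply mul_le_mul _ _ (by positivity) (by positivity)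
        · exact_mod_cast hm
        · exact pow_le_pow_right₀ (by linarith) hm
      have h7 := abs_le.1 (h5.trans h6)
      rw [← hcard] at h1
      have h8 := abs_le.1 h1
      rw [abs_le]
      constructor <;> linarith [h7.1, h7.2, h8.1, h8.2]
  have h1 := hK _ S (fun x => (Hs Q1 Q2 δ x.2).card) y hS0 hy0 hyL key A
  have h2 : {x ∈ (S : Set ((ℤ × (Fin n → ℤ)) × ℝ)) | (Hs Q1 Q2 δ x.2).card ∈ A}.ncard =
      Zc n H (Set.Ico (k : ℝ) (k + 1) ∩ XA Q1 Q2 δ A) := by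
    rw [← Fam_ncard]
    congr 1
    ext p
    rw [hS]
    have h3 : (Pr Q1 Q2 δ p.2).ncard = (Hs Q1 Q2 δ p.2).card := pr_card Q1 Q2 δ p.2 fun q hq hq' => by
      have := hsmall q hq hq'
      nlinarith
    simp only [Set.mem_setOf_eq, Finset.mem_coe, Set.Finite.mem_toFinset]
    constructor
    · rintro ⟨⟨e1, e2, e3⟩, e4⟩
      refine ⟨e1, e2, ⟨e3.1, ?_⟩, e3.2⟩
      unfold XA
      rw [Set.mem_setOf_eq, h3]
      exact e4
    · rintro ⟨e1, e2, ⟨e3, e4⟩, e5⟩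
      unfold XA at e4
      rw [Set.mem_setOf_eq, h3] at e4
      exact ⟨⟨e1, e2, e3, e5⟩, e4⟩
  rw [h2, hcard] at h1
  have h3 : ((Zc n H (Set.Ico (k : ℝ) (k + 1) ∩ XA Q1 Q2 δ A) : ℕ) : ℝ) / (Zc n H (Set.Ico (k : ℝ) (k + 1)) : ℝ) -
      (ProbabilityTheory.poissonMeasure y.toNNReal).real A =
      ((Zc n H (Set.Ico (k : ℝ) (k + 1) ∩ XA Q1 Q2 δ A) : ℕ) -
      (ProbabilityTheory.poissonMeasure y.toNNReal).real A * (Zc n H (Set.Ico (k : ℝ) (k + 1)) : ℝ)) /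
      (Zc n H (Set.Ico (k : ℝ) (k + 1)) : ℝ) := by
    field_simp
  rw [h3, abs_div, abs_of_pos hN0, div_le_iff₀ hN0] at h1
  exact h1

end Pool.Agent.D0H53.AP
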