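import Pool.Agent.D0H53.AP.Prm

set_option autoImplicit false

/-!
# Almost all polynomials are irreducible
-/

open Finset Filter Topology

namespace Pool.Agent.D0H53.AP

open Pool.Agent.D0H53.PL

/-- the pairs of positive naturals with bounded product -/
def Dn (X : ℕ) : Finset (ℕ × ℕ) := ((Icc 1 X) ×ˢ (Icc 1 X)).filter (fun p => p.1 * p.2 ≤ X)

theorem Dn_card (X : ℕ) : ((Dn X).card : ℝ) ≤ X * (1 + Real.log X) := by
  classical
  have h1 : (Dn X).card ≤ ∑ a ∈ Icc 1 X, X / a := by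
    unfold Dn
    rw [Finset.card_filter, Finset.sum_product]
    refine Finset.sum_le_sum fun a ha => ?_
    rw [mem_Icc] at ha
    rw [← Finset.card_filter]
    calc ((Icc 1 X).filter (fun b => a * b ≤ X)).card ≤ (Icc 1 (X / a)).card := by
          apply Finset.card_le_card
          intro b hb
          rw [mem_filter, mem_Icc] at hb
          rw [mem_Icc]
          refine ⟨hb.1.1, ?_⟩
          rw [Nat.le_div_iff_mul_le ha.1, mul_comm]
          exact hb.2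
      _ = X / a := by rw [Nat.card_Icc, Nat.add_sub_cancel]
  have h2 : ((∑ a ∈ Icc 1 X, X / a : ℕ) : ℝ) ≤ X * (harmonic X : ℝ) := by
    rw [harmonic_eq_sum_Icc]
    push_cast
    rw [Finset.mul_sum]
    refine Finset.sum_le_sum fun a _ => ?_
    rw [← div_eq_mul_inv]
    exact Nat.cast_div_le
  have h3 := harmonic_le_one_add_log X
  calc ((Dn X).card : ℝ) ≤ ((∑ a ∈ Icc 1 X, X / a : ℕ) : ℝ) := by exact_mod_cast h1
    _ ≤ X * (harmonic X : ℝ) := h2
    _ ≤ X * (1 + Real.log X) := mul_le_mul_of_nonneg_left h3 (Nat.cast_nonneg _)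

/-- the pairs of nonzero integers with bounded product -/
def Dz (X : ℕ) : Finset (ℤ × ℤ) :=
  ((Dn X) ×ˢ (({1, -1} : Finset ℤ) ×ˢ ({1, -1} : Finset ℤ))).image (fun p => (p.2.1 * p.1.1, p.2.2 * p.1.2))

theorem Dz_card (X : ℕ) : (Dz X).card ≤ 4 * (Dn X).card := by
  unfold Dz
  refine Finset.card_image_le.trans (le_of_eq ?_)
  have h : ({1, -1} : Finset ℤ).card = 2 := by decide
  rw [card_product, card_product, h]
  ring

theorem sign_mem (u : ℤ) (hu : u ≠ 0) : u.sign ∈ ({1, -1} : Finset ℤ) := by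
  rcases lt_or_gt_of_ne hu with h | h
  · rw [Int.sign_eq_neg_one_of_neg h]; simp
  · rw [Int.sign_eq_one_of_pos h]; simp

theorem mem_Dz (X : ℕ) (u v : ℤ) (hu : u ≠ 0) (hv : v ≠ 0) (h : |u * v| ≤ (X : ℤ)) : (u, v) ∈ Dz X := by
  unfold Dz
  rw [mem_image]
  refine ⟨((u.natAbs, v.natAbs), (u.sign, v.sign)), ?_, ?_⟩
  · rw [mem_product, mem_product]
    refine ⟨?_, sign_mem u hu, sign_mem v hv⟩
    unfold Dn
    rw [mem_filter, mem_product, mem_Icc, mem_Icc]
    simp only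
    have h1 := Int.natAbs_pos.2 hu
    have h2 := Int.natAbs_pos.2 hv
    have h3 : u.natAbs * v.natAbs ≤ X := by
      rw [← Int.natAbs_mul]
      rw [← Int.natCast_natAbs] at h
      exact_mod_cast h
    refine ⟨⟨⟨h1, ?_⟩, h2, ?_⟩, h3⟩
    · exact (Nat.le_mul_of_pos_right _ h2).trans h3
    · exact (Nat.le_mul_of_pos_left _ h1).trans h3
  · simp only [Int.sign_mul_natAbs]

/-- the polynomials of bounded height -/
def PolyB (n H : ℕ) : Set (Polynomial ℤ) := {P | P.natDegree ≤ n + 1 ∧ ∀ i, |P.coeff i| ≤ (H : ℤ)}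

theorem PolyB_finite (n H : ℕ) : (PolyB n H).Finite := by
  classical
  apply Set.Finite.of_finite_image (f := fun P : Polynomial ℤ => fun i : Fin (n + 2) => P.coeff i)
  · apply (Finset.finite_toSet (Fintype.piFinset fun _ : Fin (n + 2) => Icc (-(H : ℤ)) H)).subset
    rintro _ ⟨P, hP, rfl⟩
    rw [Finset.mem_coe, Fintype.mem_piFinset]
    intro i
    rw [mem_Icc, ← abs_le]
    exact hP.2 i
  · intro P hP P' hP' h
    ext i
    rcases Nat.lt_or_ge i (n + 2) with hi | hi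
    · exact congrFun h ⟨i, hi⟩
    · have h1 := hP.1
      have h2 := hP'.1
      rw [Polynomial.coeff_eq_zero_of_natDegree_lt (by omega), Polynomial.coeff_eq_zero_of_natDegree_lt (by omega)]

/-- the reducible polynomials -/
def BadP (n H : ℕ) : Set (Polynomial ℤ) :=
  {P | P ≠ 0 ∧ P ∈ PolyB n H ∧ ∃ A B : Polynomial ℤ, P = A * B ∧ A.natDegree ≤ n ∧ B.natDegree ≤ n}

theorem BadP_finite (n H : ℕ) : (BadP n H).Finite := (PolyB_finite n H).subset fun _ h => h.2.1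

theorem eval_bound (n H : ℕ) (P : Polynomial ℤ) (hP : P ∈ PolyB n H) (i : Fin (n + 1)) :
    |P.eval ((i : ℕ) : ℤ)| ≤ (((n + 2) * (n + 1) ^ (n + 1) * H : ℕ) : ℤ) := by
  rw [Polynomial.eval_eq_sum_range' (Nat.lt_succ_of_le hP.1)]
  refine (Finset.abs_sum_le_sum_abs _ _).trans ?_
  have h1 : ∀ j ∈ range (n + 1 + 1), |P.coeff j * ((i : ℕ) : ℤ) ^ j| ≤ (H : ℤ) * ((n : ℤ) + 1) ^ (n + 1) := by
    intro j hj
    rw [mem_range] at hj
    rw [abs_mul, abs_pow, Nat.abs_cast]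
    have h2 : ((i : ℕ) : ℤ) ≤ (n : ℤ) + 1 := by
      have := i.2
      omega
    have h3 : ((i : ℕ) : ℤ) ^ j ≤ ((n : ℤ) + 1) ^ (n + 1) :=
      (pow_le_pow_left₀ (by positivity) h2 j).trans (pow_le_pow_right₀ (by omega) (by omega))
    exact mul_le_mul (hP.2 j) h3 (by positivity) (by positivity)
  refine (Finset.sum_le_sum h1).trans (le_of_eq ?_)
  rw [Finset.sum_const, card_range]
  push_cast
  simp only [nsmul_eq_mul]
  push_cast
  ring

theorem eq_of_vals (n : ℕ) (A B : Polynomial ℤ) (hA : A.natDegree ≤ n) (hB : B.natDegree ≤ n)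
    (h : ∀ i : Fin (n + 1), A.eval ((i : ℕ) : ℤ) = B.eval ((i : ℕ) : ℤ)) : A = B := by
  have hd : ∀ P : Polynomial ℤ, P.natDegree ≤ n → P.degree < ((Finset.univ : Finset (Fin (n + 1))).card : ℕ) := by
    intro P hP
    rw [Finset.card_univ, Fintype.card_fin]
    exact Polynomial.degree_le_natDegree.trans_lt (by exact_mod_cast Nat.lt_succ_of_le hP)
  refine Polynomial.eq_of_degrees_lt_of_eval_index_eq (v := fun i : Fin (n + 1) => ((i : ℕ) : ℤ))
    (Finset.univ : Finset (Fin (n + 1))) ?_ (hd A hA) (hd B hB) (fun i _ => h i)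
  intro i _ j _ hij
  simp only [Nat.cast_inj] at hij
  exact Fin.ext hij

theorem bad1 (n H : ℕ) : {P ∈ BadP n H | ∀ i : Fin (n + 1), P.eval ((i : ℕ) : ℤ) ≠ 0}.ncard ≤
    (Dz ((n + 2) * (n + 1) ^ (n + 1) * H)).card ^ (n + 1) := by
  classical
  set X : ℕ := (n + 2) * (n + 1) ^ (n + 1) * H with hX
  have hch : ∀ P : Polynomial ℤ, ∃ AB : Polynomial ℤ × Polynomial ℤ, P ∈ BadP n H →
      (P = AB.1 * AB.2 ∧ AB.1.natDegree ≤ n ∧ AB.2.natDegree ≤ n) := by
    intro P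
    by_cases h : P ∈ BadP n H
    · obtain ⟨-, -, A, B, h1, h2, h3⟩ := h
      exact ⟨(A, B), fun _ => ⟨h1, h2, h3⟩⟩
    · exact ⟨(0, 0), fun h' => absurd h' h⟩
  choose F hF using hch
  have h1 : (Fintype.piFinset fun _ : Fin (n + 1) => Dz X).card = (Dz X).card ^ (n + 1) := by
    rw [Fintype.card_piFinset]
    simp
  rw [← h1, ← Set.ncard_coe_finset]
  refine Set.ncard_le_ncard_of_injOn (fun P => fun i : Fin (n + 1) =>
    ((F P).1.eval ((i : ℕ) : ℤ), (F P).2.eval ((i : ℕ) : ℤ))) ?_ ?_ (Finset.finite_toSet _)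
  · rintro P ⟨hP, hne⟩
    rw [Finset.mem_coe, Fintype.mem_piFinset]
    intro i
    have h2 := (hF P hP).1
    have h3 := hne i
    have h4 := eval_bound n H P hP.2.1 i
    rw [← hX] at h4
    have h5 : P.eval ((i : ℕ) : ℤ) = (F P).1.eval ((i : ℕ) : ℤ) * (F P).2.eval ((i : ℕ) : ℤ) := by
      conv_lhs => rw [h2]
      rw [Polynomial.eval_mul]
    rw [h5] at h3 h4
    exact mem_Dz X _ _ (left_ne_zero_of_mul h3) (right_ne_zero_of_mul h3) h4
  · rintro P ⟨hP, -⟩ P' ⟨hP', -⟩ h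
    have h2 : (F P).1 = (F P').1 := eq_of_vals n _ _ (hF P hP).2.1 (hF P' hP').2.1 fun i =>
      (Prod.mk.inj (congrFun h i)).1
    have h3 : (F P).2 = (F P').2 := eq_of_vals n _ _ (hF P hP).2.2 (hF P' hP').2.2 fun i =>
      (Prod.mk.inj (congrFun h i)).2
    rw [(hF P hP).1, (hF P' hP').1, h2, h3]

theorem bad0 (n H : ℕ) : {P ∈ BadP n H | ∃ i : Fin (n + 1), P.eval ((i : ℕ) : ℤ) = 0}.ncard ≤
    (n + 1) * (2 * H + 1) ^ (n + 1) := by
  classical
  have hsub : {P ∈ BadP n H | ∃ i : Fin (n + 1), P.eval ((i : ℕ) : ℤ) = 0} ⊆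
      ⋃ i ∈ (Finset.univ : Finset (Fin (n + 1))), Prod.fst '' (PP n H {((i : ℕ) : ℝ)}) := by
    rintro P ⟨⟨h1, h2, -⟩, i, h3⟩
    simp only [Set.mem_iUnion]
    refine ⟨i, Finset.mem_univ i, (P, ((i : ℕ) : ℝ)), ⟨h1, h2.1, h2.2, rfl, ?_⟩, rfl⟩
    simp only
    have h4 : ((i : ℕ) : ℝ) = algebraMap ℤ ℝ ((i : ℕ) : ℤ) := by simp
    rw [h4, Polynomial.aeval_algebraMap_apply, Polynomial.coe_aeval_eq_eval, h3, map_zero]
  have hfin : (⋃ i ∈ (Finset.univ : Finset (Fin (n + 1))), Prod.fst '' (PP n H {((i : ℕ) : ℝ)})).Finite :=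
    Set.Finite.biUnion (Finset.finite_toSet _) fun i _ => (PP_finite n H _).image _
  refine (Set.ncard_le_ncard hsub hfin).trans ?_
  refine (Finset.set_ncard_biUnion_le _ _).trans ?_
  refine (Finset.sum_le_card_nsmul _ _ ((2 * H + 1) ^ (n + 1)) ?_).trans (le_of_eq ?_)
  · intro i _
    refine (Set.ncard_image_le (PP_finite n H _)).trans ?_
    rw [PP_ncard]
    exact Zc_point n H _
  · rw [Finset.card_univ, Fintype.card_fin, smul_eq_mul]

theorem bad_card (n H : ℕ) : (BadP n H).ncard ≤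
    (n + 1) * (2 * H + 1) ^ (n + 1) + (4 * (Dn ((n + 2) * (n + 1) ^ (n + 1) * H)).card) ^ (n + 1) := by
  have h1 : BadP n H ⊆ {P ∈ BadP n H | ∃ i : Fin (n + 1), P.eval ((i : ℕ) : ℤ) = 0} ∪
      {P ∈ BadP n H | ∀ i : Fin (n + 1), P.eval ((i : ℕ) : ℤ) ≠ 0} := by
    intro P hP
    by_cases h : ∃ i : Fin (n + 1), P.eval ((i : ℕ) : ℤ) = 0
    · exact Or.inl ⟨hP, h⟩
    · push Not at h
      exact Or.inr ⟨hP, h⟩
  have h2 : (BadP n H).ncard ≤ _ := Set.ncard_le_ncard h1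
    (((BadP_finite n H).subset fun _ h => h.1).union ((BadP_finite n H).subset fun _ h => h.1))
  refine h2.trans ((Set.ncard_union_le _ _).trans ?_)
  refine add_le_add (bad0 n H) ((bad1 n H).trans ?_)
  exact Nat.pow_le_pow_left (Dz_card _) _

/-- the pairs (irreducible polynomial of exact degree, root) -/
def IP (n H : ℕ) (T : Set ℝ) : Set (Polynomial ℤ × ℝ) :=
  {p | p ∈ PP n H T ∧ Irreducible p.1 ∧ p.1.natDegree = n + 1}

theorem IP_finite (n H : ℕ) (T : Set ℝ) : (IP n H T).Finite := (PP_finite n H T).subset fun _ h => h.1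

theorem IP_sub (n H : ℕ) (T : Set ℝ) : IP n H T ⊆ PQ n H T := by
  rintro p ⟨h1, h2, h3⟩
  exact ⟨h1, h2.isPrimitive (by omega)⟩

theorem PQ_sub (n H : ℕ) (T : Set ℝ) : PQ n H T ⊆ IP n H T ∪ {p ∈ PP n H T | p.1 ∈ BadP n H} := by
  rintro ⟨P, x⟩ ⟨h1, h2⟩
  simp only at h2
  have hPP := h1
  obtain ⟨h3, h4, h5, h6, h7⟩ := h1
  simp only at h3 h4 h5 h6 h7
  rcases Nat.lt_or_ge P.natDegree (n + 1) with h | h
  · right
    exact ⟨hPP, h3, ⟨h4, h5⟩, P, 1, (mul_one P).symm, by omega, by simp⟩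
  have hdeg : P.natDegree = n + 1 := by omega
  by_cases hirr : Irreducible P
  · left
    exact ⟨hPP, hirr, hdeg⟩
  · right
    refine ⟨hPP, h3, ⟨h4, h5⟩, ?_⟩
    have hnu : ¬ IsUnit P := by
      intro hu
      have := Polynomial.natDegree_eq_zero_of_isUnit hu
      omega
    rw [irreducible_iff] at hirr
    push Not at hirr
    obtain ⟨A, B, hAB, hA, hB⟩ := hirr hnu
    have hprim : ∀ D : Polynomial ℤ, D ∣ P → ¬ IsUnit D → 1 ≤ D.natDegree := by
      intro D hD hu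
      by_contra hcon
      have h0 : D.natDegree = 0 := by omega
      rw [Polynomial.eq_C_of_natDegree_eq_zero h0] at hD hu
      exact hu (Polynomial.isUnit_C.2 (h2 _ hD))
    have hA1 := hprim A ⟨B, hAB⟩ hA
    have hB1 := hprim B ⟨A, by rw [hAB]; ring⟩ hB
    have hA0 : A ≠ 0 := by rintro rfl; simp at hAB; exact h3 hAB
    have hB0 : B ≠ 0 := by rintro rfl; simp at hAB; exact h3 hAB
    have hsum : A.natDegree + B.natDegree = n + 1 := by
      rw [← hdeg, hAB, Polynomial.natDegree_mul hA0 hB0]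
    exact ⟨A, B, hAB, by omega, by omega⟩

theorem bad_pairs (n H : ℕ) (T : Set ℝ) :
    {p ∈ PP n H T | p.1 ∈ BadP n H}.ncard ≤ (n + 1) * (BadP n H).ncard := by
  classical
  have hfin : {p ∈ PP n H T | p.1 ∈ BadP n H}.Finite := (PP_finite n H T).subset fun _ h => h.1
  rw [Set.ncard_eq_toFinset_card _ hfin]
  refine (Finset.card_le_mul_card_image (f := Prod.fst) hfin.toFinset (n + 1) ?_).trans ?_
  · intro P hP
    rw [mem_image] at hP
    obtain ⟨p, hp, rfl⟩ := hP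
    rw [Set.Finite.mem_toFinset] at hp
    obtain ⟨⟨h1, h2, -, -, -⟩, -⟩ := hp
    have h3 := Polynomial.ncard_rootSet_le p.1 ℝ
    refine le_trans ?_ (h3.trans h2)
    rw [← Set.ncard_coe_finset]
    refine Set.ncard_le_ncard_of_injOn (fun x => x.2) ?_ ?_ (p.1.rootSet_finite ℝ)
    · intro x hx
      rw [Finset.mem_coe, Finset.mem_filter, Set.Finite.mem_toFinset] at hx
      obtain ⟨⟨⟨h4, -, -, -, h5⟩, -⟩, h6⟩ := hx
      rw [Polynomial.mem_rootSet, ← h6]
      exact ⟨h4, h5⟩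
    · rintro x hx x' hx' h
      rw [Finset.mem_coe, Finset.mem_filter] at hx hx'
      exact Prod.ext (hx.2.trans hx'.2.symm) h
  · apply Nat.mul_le_mul_left
    rw [← Set.ncard_coe_finset]
    apply Set.ncard_le_ncard _ (BadP_finite n H)
    intro P hP
    rw [Finset.mem_coe, mem_image] at hP
    obtain ⟨p, hp, rfl⟩ := hP
    rw [Set.Finite.mem_toFinset] at hp
    exact hp.2

theorem IP_PQ (n H : ℕ) (T : Set ℝ) : (IP n H T).ncard ≤ (PQ n H T).ncard ∧
    (PQ n H T).ncard ≤ (IP n H T).ncard + (n + 1) * (BadP n H).ncard := by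
  refine ⟨Set.ncard_le_ncard (IP_sub n H T) (PQ_finite n H T), ?_⟩
  have hfin : {p ∈ PP n H T | p.1 ∈ BadP n H}.Finite := (PP_finite n H T).subset fun _ h => h.1
  refine (Set.ncard_le_ncard (PQ_sub n H T) ((IP_finite n H T).union hfin)).trans ?_
  refine (Set.ncard_union_le _ _).trans ?_
  exact Nat.add_le_add_left (bad_pairs n H T) _

end Pool.Agent.D0H53.AP
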