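import Pool.Agent.D0H53.AP.Conseq

set_option autoImplicit false

/-!
# The dichotomy of Khintchine
-/

open Finset Filter Topology

namespace Pool.Agent.D0H53.AP

open Pool.Agent.D0H53.PL

theorem Pr_finite (Q1 Q2 : ℕ) (δ : ℕ → ℝ) (α : ℝ) : (Pr Q1 Q2 δ α).Finite := by
  classical
  set D : ℝ := ∑ q ∈ Finset.range (Q2 + 1), |δ q| with hD
  set B : ℤ := ⌈(|α| + D) * Q2⌉ with hB
  refine (Finset.finite_toSet ((Icc (-B) B : Finset ℤ) ×ˢ (Finset.range (Q2 + 1)))).subset ?_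
  rintro ⟨p, q⟩ ⟨h1, h2, -, h3⟩
  simp only at h1 h2 h3
  rw [Finset.mem_coe, mem_product, mem_Icc, mem_range]
  simp only
  have hq0 : (0 : ℝ) < q := by exact_mod_cast (by omega : 0 < q)
  have hq1 : (1 : ℝ) ≤ q := by exact_mod_cast (by omega : 1 ≤ q)
  have hqQ : (q : ℝ) ≤ Q2 := by exact_mod_cast h2
  have h4 : δ q / (q : ℝ) ^ 2 ≤ D := by
    have h5 : |δ q| ≤ D := Finset.single_le_sum (f := fun q => |δ q|) (fun _ _ => abs_nonneg _)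
      (mem_range.2 (by omega))
    have h6 : δ q / (q : ℝ) ^ 2 ≤ |δ q| := by
      rw [div_le_iff₀ (by positivity)]
      have h7 : (1 : ℝ) ≤ (q : ℝ) ^ 2 := one_le_pow₀ hq1
      have h8 := le_abs_self (δ q)
      nlinarith [abs_nonneg (δ q)]
    exact h6.trans h5
  have h5 : |(p : ℝ) / q| ≤ |α| + D := by
    have e : (p : ℝ) / q = α - (α - (p : ℝ) / q) := by ring
    rw [e]
    exact (abs_sub _ _).trans (add_le_add le_rfl (h3.trans h4))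
  have h6 : |(p : ℝ)| ≤ (|α| + D) * Q2 := by
    rw [abs_div, abs_of_pos hq0, div_le_iff₀ hq0] at h5
    refine h5.trans ?_
    apply mul_le_mul_of_nonneg_left hqQ
    have : 0 ≤ D := Finset.sum_nonneg fun _ _ => abs_nonneg _
    have := abs_nonneg α
    linarith
  have h7 : |(p : ℝ)| ≤ (B : ℝ) := h6.trans (Int.le_ceil _)
  have h8 := abs_le.1 h7
  refine ⟨⟨?_, ?_⟩, by omega⟩
  · exact_mod_cast h8.1
  · exact_mod_cast h8.2

/-- if the series is large then there are almost no exceptions -/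
theorem khin_e {Z : ℕ → Set ℝ → ℝ} {I : Set ℝ} (hZ : LawZ Z I) (hmono : ∀ H T T', T ⊆ T' → Z H T ≤ Z H T')
    (hnnZ : ∀ H T, 0 ≤ Z H T) (κ : ℝ) (hκ : κ < 1) (η : ℝ) (hη : 0 < η) :
    ∃ L : ℝ, 0 < L ∧ ∃ H₀ : ℕ, 1 ≤ H₀ ∧ ∀ H : ℕ, H₀ ≤ H →
    ∀ (Q1 Q2 : ℕ), 1 ≤ Q1 → (Q2 : ℝ) ≤ (H : ℝ) ^ κ → ∀ δ : ℕ → ℝ,
    (∀ p q, Q1 < p → p ≤ q → q ≤ Q2 → δ q ≤ δ p) → (∀ q, Q1 < q → q ≤ Q2 → 0 ≤ δ q) →
    (∀ q, Q1 < q → q ≤ Q2 → δ q ≤ 1) → L ≤ ∑ q ∈ Ioc Q1 Q2, δ q / q →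
    Z H (I ∩ {x | Pr Q1 Q2 δ x = ∅}) ≤ η * Z H I := by
  set L1 : ℝ := |Real.log (2 / η)| with hL1
  have hL10 : 0 ≤ L1 := abs_nonneg _
  have hexp : ∀ y, L1 ≤ y → Real.exp (-y) ≤ η / 2 := by
    intro y hy
    have h1 : -y ≤ Real.log (η / 2) := by
      have h2 : Real.log (η / 2) = -Real.log (2 / η) := by
        rw [← Real.log_inv, inv_div]
      rw [h2]
      have := le_abs_self (Real.log (2 / η))
      linarith
    calc Real.exp (-y) ≤ Real.exp (Real.log (η / 2)) := Real.exp_le_exp.2 h1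
      _ = η / 2 := Real.exp_log (by positivity)
  obtain ⟨δ₀, hδ₀, N₀, hN₀, hlaw⟩ := hZ κ hκ (L1 + 2) (by linarith) (η / 2) (by positivity)
  set δ₁ : ℝ := min δ₀ 1 with hδ₁
  have hδ₁0 : 0 < δ₁ := by positivity
  have hδ₁1 : δ₁ ≤ 1 := min_le_right _ _
  have hpi : 0 < 12 / Real.pi ^ 2 := by positivity
  refine ⟨(L1 + 1) / (12 / Real.pi ^ 2 * δ₁), by positivity, N₀, hN₀, ?_⟩
  intro H hH Q1 Q2 hQ1 hQ2 δ hanti hnn hone hsum
  set δ' : ℕ → ℝ := fun q => min (δ q) δ₁ with hδ'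
  have hge : ∀ q, Q1 < q → q ≤ Q2 → δ₁ * δ q ≤ δ' q := by
    intro q h1 h2
    have h3 := hnn q h1 h2
    have h4 := hone q h1 h2
    simp only [hδ']
    apply le_min
    · nlinarith
    · nlinarith
  have hQ12 : Q1 ≤ Q2 := by
    by_contra hcon
    rw [Finset.Ioc_eq_empty (by omega)] at hsum
    simp only [Finset.sum_empty] at hsum
    have : 0 < (L1 + 1) / (12 / Real.pi ^ 2 * δ₁) := by positivity
    linarith
  have hbig : L1 ≤ Mn Q2 δ' Q1 := by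
    unfold Mn
    have h1 : δ₁ * ∑ q ∈ Ioc Q1 Q2, δ q / q ≤ ∑ n ∈ Ioc Q1 Q2, δ' n / n := by
      rw [Finset.mul_sum]
      refine Finset.sum_le_sum fun q hq => ?_
      rw [mem_Ioc] at hq
      rw [mul_div_assoc']
      apply div_le_div_of_nonneg_right _ (Nat.cast_nonneg _)
      exact hge q hq.1 hq.2
    have h2 : L1 + 1 ≤ (12 / Real.pi ^ 2 * δ₁) * ∑ q ∈ Ioc Q1 Q2, δ q / q := by
      rw [div_le_iff₀ (by positivity)] at hsum
      linarith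
    have h3 := mul_le_mul_of_nonneg_left h1 hpi.le
    linarith
  have hex : ∃ n : ℕ, Q1 ≤ n ∧ L1 ≤ Mn n δ' Q1 := ⟨Q2, hQ12, hbig⟩
  classical
  set Q' : ℕ := Nat.find hex with hQ'
  obtain ⟨hQ'1, hQ'2⟩ := Nat.find_spec hex
  have hQ'3 : Q' ≤ Q2 := Nat.find_le ⟨hQ12, hbig⟩
  have hup : Mn Q' δ' Q1 ≤ L1 + 2 := by
    rcases Nat.lt_or_ge Q1 Q' with h | h
    · obtain ⟨n, hn⟩ : ∃ n, Q' = n + 1 := ⟨Q' - 1, by omega⟩
      have h1 : ¬ (Q1 ≤ n ∧ L1 ≤ Mn n δ' Q1) := Nat.find_min hex (by omega)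
      have h2 : Mn n δ' Q1 < L1 := by
        by_contra hcon
        exact h1 ⟨by omega, not_lt.1 hcon⟩
      have h3 : Mn Q' δ' Q1 = Mn n δ' Q1 + 12 / Real.pi ^ 2 * (δ' (n + 1) / ((n + 1 : ℕ) : ℝ)) := by
        unfold Mn
        rw [hn, Finset.sum_Ioc_succ_top (by omega)]
        ring
      have h4 : δ' (n + 1) / ((n + 1 : ℕ) : ℝ) ≤ 1 := by
        have h5 : δ' (n + 1) ≤ 1 := (min_le_right _ _).trans hδ₁1
        have h6 : (1 : ℝ) ≤ ((n + 1 : ℕ) : ℝ) := by exact_mod_cast (by omega : 1 ≤ n + 1)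
        rw [div_le_one (by linarith)]
        linarith
      have h5 : 12 / Real.pi ^ 2 * (δ' (n + 1) / ((n + 1 : ℕ) : ℝ)) ≤ 2 := by
        have := mul_le_mul_of_nonneg_left h4 hpi.le
        have := pi_le
        linarith
      linarith
    · have h1 : Q' = Q1 := by omega
      have h2 : Mn Q' δ' Q1 = 0 := by
        unfold Mn
        rw [h1]
        simp
      rw [h2]
      linarith
  have hy0 : 0 ≤ Mn Q' δ' Q1 := hL10.trans hQ'2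
  have h1 := hlaw H hH Q1 Q' hQ1 (by
      refine le_trans ?_ hQ2
      exact_mod_cast hQ'3) δ' (by
      intro p q hp hpq hq
      exact min_le_min_right _ (hanti p q hp hpq (hq.trans hQ'3))) (by
      intro q hq hq'
      exact le_min (hnn q hq (hq'.trans hQ'3)) hδ₁0.le) (by
      intro q hq hq'
      exact (min_le_right _ _).trans (min_le_left _ _)) hup (Mn Q' δ' Q1) hy0 hup (by
      rw [sub_self, abs_zero]; exact hδ₀.le) {0}
  have h2 : (ProbabilityTheory.poissonMeasure (Mn Q' δ' Q1).toNNReal).real {0} ≤ η / 2 := by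
    rw [ProbabilityTheory.poissonMeasure_real_singleton, Real.coe_toNNReal _ hy0]
    simp only [pow_zero, mul_one, Nat.factorial_zero, Nat.cast_one, div_one]
    exact hexp _ hQ'2
  have h3 := (abs_le.1 h1).2
  have h4 := mul_le_mul_of_nonneg_right h2 (hnnZ H I)
  have hsub : I ∩ {x | Pr Q1 Q2 δ x = ∅} ⊆ I ∩ XA Q1 Q' δ' {0} := by
    rintro x ⟨hx1, hx2⟩
    refine ⟨hx1, ?_⟩
    have hx2' : Pr Q1 Q2 δ x = ∅ := hx2
    have : Pr Q1 Q' δ' x = ∅ := by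
      rw [Set.eq_empty_iff_forall_notMem]
      rintro ⟨p, q⟩ ⟨h5, h6, h6', h7⟩
      have h9 : δ' q / (q : ℝ) ^ 2 ≤ δ q / (q : ℝ) ^ 2 :=
        div_le_div_of_nonneg_right (min_le_left _ _) (by positivity)
      have h10 : ((p, q) : ℤ × ℕ) ∈ Pr Q1 Q2 δ x := ⟨h5, le_trans h6 hQ'3, h6', le_trans h7 h9⟩
      rw [hx2'] at h10
      exact h10
    change (Pr Q1 Q' δ' x).ncard ∈ ({0} : Set ℕ)
    rw [this, Set.ncard_empty]
    exact rfl
  have h5 := hmono H _ _ hsub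
  linarith

/-- a nonincreasing function with a convergent series is eventually small -/
theorem small_of_summable (δ : ℕ → ℝ) (hanti : ∀ p q, 1 ≤ p → p ≤ q → δ q ≤ δ p)
    (hsum : Summable fun q : ℕ => δ q / q) (ε : ℝ) (hε : 0 < ε) : ∃ q₁ : ℕ, 1 ≤ q₁ ∧ ∀ q, q₁ ≤ q → δ q ≤ ε := by
  by_contra hcon
  push Not at hcon
  have h1 : ∀ q, 1 ≤ q → ε < δ q := by
    intro q hq
    obtain ⟨q', h2, h3⟩ := hcon q hq
    exact lt_of_lt_of_le h3 (hanti q q' hq h2)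
  apply Real.not_summable_one_div_natCast
  refine Summable.of_nonneg_of_le (fun q => by positivity) ?_ (hsum.mul_left (1 / ε))
  intro q
  rcases Nat.eq_zero_or_pos q with h | h
  · subst h
    simp
  · have hq0 : (0 : ℝ) < q := by exact_mod_cast h
    have h2 := h1 q h
    rw [mul_div_assoc', div_le_div_iff_of_pos_right hq0, one_div, ← div_eq_inv_mul, le_div_iff₀ hε]
    linarith

theorem tail_of_summable (f : ℕ → ℝ) (hf : ∀ q, 0 ≤ f q) (hsum : Summable f) (ε : ℝ) (hε : 0 < ε) :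
    ∃ q₂ : ℕ, ∀ q₀ Q, q₂ ≤ q₀ → ∑ q ∈ Ioc q₀ Q, f q ≤ ε := by
  have h1 := hsum.hasSum.tendsto_sum_nat
  obtain ⟨q₂, h2⟩ := Filter.eventually_atTop.1 (h1.eventually (lt_mem_nhds (by linarith : ∑' q, f q - ε < ∑' q, f q)))
  refine ⟨q₂, fun q₀ Q hq => ?_⟩
  have h3 := h2 (q₀ + 1) (by omega)
  have h4 : ∑ q ∈ range (q₀ + 1), f q + ∑ q ∈ Ioc q₀ Q, f q ≤ ∑' q, f q := by
    rw [← Finset.sum_union (by
      rw [Finset.disjoint_left]
      intro m hm hm'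
      rw [mem_range] at hm
      rw [mem_Ioc] at hm'
      omega)]
    exact hsum.sum_le_tsum _ fun i _ => hf i
  linarith

/-- the convergence case -/
theorem khin_conv {Z : ℕ → Set ℝ → ℝ} {I : Set ℝ} (hZ : LawZ Z I) (hmono : ∀ H T T', T ⊆ T' → Z H T ≤ Z H T')
    (hnnZ : ∀ H T, 0 ≤ Z H T) (δ : ℕ → ℝ) (hanti : ∀ p q, 1 ≤ p → p ≤ q → δ q ≤ δ p) (hnn : ∀ q, 1 ≤ q → 0 ≤ δ q)
    (hsum : Summable fun q : ℕ => δ q / q) (κ : ℝ) (hκ : κ < 1) (η : ℝ) (hη : 0 < η) :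
    ∃ q₀ H₀ : ℕ, ∀ H : ℕ, H₀ ≤ H → Z H (I ∩ {x | (Pr q₀ ⌊(H : ℝ) ^ κ⌋₊ δ x).Nonempty}) ≤ η * Z H I := by
  obtain ⟨δ₀, hδ₀, H₀, hH₀, hlaw⟩ := hZ κ hκ 1 (by norm_num) (η / 2) (by positivity)
  obtain ⟨q₁, hq₁, hs⟩ := small_of_summable δ hanti hsum δ₀ hδ₀
  obtain ⟨q₂, ht⟩ := tail_of_summable (fun q : ℕ => δ q / q) (fun q => by
    rcases Nat.eq_zero_or_pos q with h | h
    · subst h; simp
    · exact div_nonneg (hnn q h) (Nat.cast_nonneg _)) hsum (min (1 / 2) (η / 4)) (by positivity)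
  refine ⟨max q₁ q₂, H₀, fun H hH => ?_⟩
  set q₀ : ℕ := max q₁ q₂ with hq₀
  have hq01 : q₁ ≤ q₀ := le_max_left _ _
  have hq02 : q₂ ≤ q₀ := le_max_right _ _
  set Q2 : ℕ := ⌊(H : ℝ) ^ κ⌋₊ with hQ2
  have hsum0 := ht q₀ Q2 hq02
  set y : ℝ := Mn Q2 δ q₀ with hy
  have hsn : 0 ≤ ∑ q ∈ Ioc q₀ Q2, δ q / q := Finset.sum_nonneg fun q hq => by
    rw [mem_Ioc] at hq
    exact div_nonneg (hnn q (by omega)) (Nat.cast_nonneg _)
  have hyle : y ≤ 2 * (∑ q ∈ Ioc q₀ Q2, δ q / q) := by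
    rw [hy]
    unfold Mn
    exact mul_le_mul_of_nonneg_right pi_le hsn
  have hy0 : 0 ≤ y := by
    rw [hy]
    unfold Mn
    positivity
  have hm1 : min (1 / 2 : ℝ) (η / 4) ≤ 1 / 2 := min_le_left _ _
  have hm2 : min (1 / 2 : ℝ) (η / 4) ≤ η / 4 := min_le_right _ _
  have h1 := hlaw H hH q₀ Q2 (hq₁.trans hq01) (Nat.floor_le (by positivity)) δ
    (fun p q hp hpq _ => hanti p q (by omega) hpq) (fun q hq _ => hnn q (by omega))
    (fun q hq _ => hs q (by omega)) (by linarith) y hy0 (by linarith) (by rw [sub_self, abs_zero]; exact hδ₀.le)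
    ({0}ᶜ)
  have h2 : (ProbabilityTheory.poissonMeasure y.toNNReal).real ({0}ᶜ) ≤ η / 2 := by
    rw [MeasureTheory.probReal_compl_eq_one_sub (MeasurableSet.of_discrete),
      ProbabilityTheory.poissonMeasure_real_singleton, Real.coe_toNNReal _ hy0]
    simp only [pow_zero, mul_one, Nat.factorial_zero, Nat.cast_one, div_one]
    have := Real.one_sub_le_exp_neg y
    linarith
  have h3 := (abs_le.1 h1).2
  have h4 := mul_le_mul_of_nonneg_right h2 (hnnZ H I)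
  have hsub : I ∩ {x | (Pr q₀ Q2 δ x).Nonempty} ⊆ I ∩ XA q₀ Q2 δ ({0}ᶜ) := by
    rintro x ⟨hx1, hx2⟩
    refine ⟨hx1, ?_⟩
    change (Pr q₀ Q2 δ x).ncard ∈ ({0}ᶜ : Set ℕ)
    rw [Set.mem_compl_iff, Set.mem_singleton_iff]
    exact ((Set.ncard_pos (Pr_finite q₀ Q2 δ x)).2 hx2).ne'
  have h5 := hmono H _ _ hsub
  linarith

/-- the divergence case -/
theorem khin_dv {Z : ℕ → Set ℝ → ℝ} {I : Set ℝ} (hZ : LawZ Z I) (hmono : ∀ H T T', T ⊆ T' → Z H T ≤ Z H T')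
    (hnnZ : ∀ H T, 0 ≤ Z H T) (δ : ℕ → ℝ) (hanti : ∀ p q, 1 ≤ p → p ≤ q → δ q ≤ δ p) (hnn : ∀ q, 1 ≤ q → 0 ≤ δ q)
    (hsum : ¬ Summable fun q : ℕ => δ q / q) (κ : ℝ) (hκ : 0 < κ) (q₀ : ℕ) (η : ℝ) (hη : 0 < η) :
    ∃ H₀ : ℕ, ∀ H : ℕ, H₀ ≤ H → Z H (I ∩ {x | Pr q₀ ⌊(H : ℝ) ^ κ⌋₊ δ x = ∅}) ≤ η * Z H I := by
  set κ' : ℝ := min κ (1 / 3) with hκ'
  have hκ'0 : 0 < κ' := by positivity
  have hκ'1 : κ' < 1 := (min_le_right _ _).trans_lt (by norm_num)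
  obtain ⟨L, hL, N₁, hN₁, hdiv⟩ := khin_e hZ hmono hnnZ κ' hκ'1 η hη
  set q₁ : ℕ := max q₀ 1 with hq₁
  have hq₁1 : 1 ≤ q₁ := le_max_right _ _
  have hq₁0 : q₀ ≤ q₁ := le_max_left _ _
  set δ' : ℕ → ℝ := fun q => min (δ q) 1 with hδ'
  have hf0 : ∀ q : ℕ, 0 ≤ δ' q / q := by
    intro q
    rcases Nat.eq_zero_or_pos q with h | h
    · subst h; simp
    · exact div_nonneg (le_min (hnn q h) zero_le_one) (Nat.cast_nonneg _)
  have hsum' : ¬ Summable fun q : ℕ => δ' q / q := by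
    intro hs
    by_cases hcase : ∃ m : ℕ, 1 ≤ m ∧ δ m ≤ 1
    · obtain ⟨m, hm1, hm⟩ := hcase
      apply hsum
      rw [← summable_nat_add_iff m] at hs ⊢
      refine hs.congr fun q => ?_
      have h1 : δ (q + m) ≤ 1 := (hanti m (q + m) hm1 (by omega)).trans hm
      simp only [hδ']
      rw [min_eq_left h1]
    · push Not at hcase
      apply Real.not_summable_one_div_natCast
      refine hs.congr fun q => ?_
      rcases Nat.eq_zero_or_pos q with h | h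
      · subst h; simp
      · simp only [hδ']
        rw [min_eq_right (hcase q h).le]
  have htend := (not_summable_iff_tendsto_nat_atTop_of_nonneg hf0).1 hsum'
  have hev : ∀ᶠ N : ℕ in atTop, N₁ ≤ N ∧ 1 ≤ N ∧ q₁ ≤ ⌊(N : ℝ) ^ κ'⌋₊ ∧
      L + ∑ q ∈ range (q₁ + 1), δ' q / q ≤ ∑ q ∈ range (⌊(N : ℝ) ^ κ'⌋₊ + 1), δ' q / q := by
    have h1 : Tendsto (fun N : ℕ => ∑ q ∈ range (⌊(N : ℝ) ^ κ'⌋₊ + 1), δ' q / q) atTop atTop :=
      htend.comp ((tendsto_add_atTop_nat 1).comp (floor_atTop κ' hκ'0))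
    filter_upwards [eventually_ge_atTop N₁, eventually_ge_atTop 1, (floor_atTop κ' hκ'0).eventually_ge_atTop q₁,
      h1.eventually_ge_atTop (L + ∑ q ∈ range (q₁ + 1), δ' q / q)] with N h2 h3 h4 h5
    exact ⟨h2, h3, h4, h5⟩
  obtain ⟨N₀, hN₀⟩ := Filter.eventually_atTop.1 hev
  refine ⟨N₀, fun H hH => ?_⟩
  obtain ⟨h1, h2, h3, h4⟩ := hN₀ H hH
  have hNR : (1 : ℝ) ≤ H := by exact_mod_cast h2
  have h5 := hdiv H h1 q₁ ⌊(H : ℝ) ^ κ'⌋₊ hq₁1 (Nat.floor_le (by positivity)) δ' (by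
      intro p q hp hpq _
      exact min_le_min_right _ (hanti p q (by omega) hpq)) (by
      intro q hq _
      exact le_min (hnn q (by omega)) zero_le_one) (by
      intro q _ _
      exact min_le_right _ _) (by
      have h6 : ∑ q ∈ range (⌊(H : ℝ) ^ κ'⌋₊ + 1), δ' q / q =
          ∑ q ∈ range (q₁ + 1), δ' q / q + ∑ q ∈ Ioc q₁ ⌊(H : ℝ) ^ κ'⌋₊, δ' q / q := by
        rw [← Finset.sum_union (by
          rw [Finset.disjoint_left]
          intro m hm hm'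
          rw [mem_range] at hm
          rw [mem_Ioc] at hm'
          omega)]
        congr 1
        ext m
        simp only [mem_union, mem_range, mem_Ioc]
        omega
      rw [h6] at h4
      linarith)
  refine le_trans (hmono H _ _ ?_) h5
  rintro x ⟨hx1, hx2⟩
  refine ⟨hx1, ?_⟩
  have hx2' : Pr q₀ ⌊(H : ℝ) ^ κ⌋₊ δ x = ∅ := hx2
  change Pr q₁ ⌊(H : ℝ) ^ κ'⌋₊ δ' x = ∅
  rw [Set.eq_empty_iff_forall_notMem]
  rintro ⟨p, q⟩ ⟨e1, e2, e3, e4⟩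
  have e5 : δ' q / (q : ℝ) ^ 2 ≤ δ q / (q : ℝ) ^ 2 :=
    div_le_div_of_nonneg_right (min_le_left _ _) (by positivity)
  have e6 : ⌊(H : ℝ) ^ κ'⌋₊ ≤ ⌊(H : ℝ) ^ κ⌋₊ := by
    apply Nat.floor_le_floor
    exact Real.rpow_le_rpow_of_exponent_le hNR (min_le_left _ _)
  have e7 : ((p, q) : ℤ × ℕ) ∈ Pr q₀ ⌊(H : ℝ) ^ κ⌋₊ δ x :=
    ⟨lt_of_le_of_lt hq₁0 e1, le_trans e2 e6, e3, le_trans e4 e5⟩
  rw [hx2'] at e7
  exact e7

end Pool.Agent.D0H53.AP
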