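import Pool.Agent.D0H53.AP.Den
import Pool.Agent.D0H53.PL.Loc
import Pool.Agent.H510R2.Div

set_option autoImplicit false

/-!
# Sums of the density over the fractions with a given denominator
-/

open Finset Filter Topology

namespace Pool.Agent.D0H53.AP

open Pool.Agent.D0H53.PL (mu totient_eq sum_moebius sum_inv_sq abs_mu_le)

variable {n : ℕ}

theorem Rc_mono (H : ℕ) (c : ℤ × (Fin n → ℤ)) {T T' : Set ℝ} (h : T ⊆ T') : Rc H c T ⊆ Rc H c T' :=
  fun _ hx => ⟨h hx.1, hx.2⟩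

theorem Zc_add (n H : ℕ) (T T' : Set ℝ) (h : Disjoint T T') : Zc n H (T ∪ T') = Zc n H T + Zc n H T' := by
  unfold Zc
  rw [← Finset.sum_add_distrib]
  refine Finset.sum_congr rfl fun c hc => ?_
  rw [Finset.mem_erase] at hc
  have h1 : Rc H c (T ∪ T') = Rc H c T ∪ Rc H c T' := by
    ext x
    unfold Rc Rf
    constructor
    · rintro ⟨h2 | h2, h3⟩
      · exact Or.inl ⟨h2, h3⟩
      · exact Or.inr ⟨h2, h3⟩
    · rintro (⟨h2, h3⟩ | ⟨h2, h3⟩)
      · exact ⟨Or.inl h2, h3⟩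
      · exact ⟨Or.inr h2, h3⟩
  rw [h1, Set.ncard_union_eq _ (Rc_finite H c hc.1 T) (Rc_finite H c hc.1 T')]
  rw [Set.disjoint_left] at h ⊢
  intro x hx hx'
  exact h hx.1 hx'.1

theorem Zc_point (n H : ℕ) (v : ℝ) : Zc n H {v} ≤ (2 * H + 1) ^ (n + 1) := by
  classical
  unfold Zc
  rw [← card_cbox]
  calc ∑ c ∈ (cbox n H).erase 0, (Rc H c {v}).ncard ≤ ∑ c ∈ (cbox n H).erase 0, 1 := by
        refine Finset.sum_le_sum fun c _ => ?_
        have h1 : Rc H c {v} ⊆ {v} := fun x hx => hx.1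
        refine (Set.ncard_le_ncard h1 (Set.finite_singleton v)).trans ?_
        rw [Set.ncard_singleton]
    _ ≤ (cbox n H).card := by
        rw [Finset.sum_const, smul_eq_mul, mul_one]
        exact Finset.card_le_card (Finset.erase_subset _ _)

theorem Zc_mono (n H : ℕ) {T T' : Set ℝ} (h : T ⊆ T') : Zc n H T ≤ Zc n H T' := by
  unfold Zc
  refine Finset.sum_le_sum fun c hc => ?_
  rw [Finset.mem_erase] at hc
  exact Set.ncard_le_ncard (Rc_mono H c h) (Rc_finite H c hc.1 T')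

/-- a closed interval and a half-open one -/
theorem Zc_Icc (n H : ℕ) (u v : ℝ) (huv : u ≤ v) :
    |(Zc n H (Set.Icc u v) : ℝ) - Zc n H (Set.Ico u v)| ≤ (((2 * H + 1) ^ (n + 1) : ℕ) : ℝ) := by
  have h1 : Set.Icc u v = Set.Ico u v ∪ {v} := by
    rw [Set.Ico_union_right huv]
  rw [h1, Zc_add n H _ _ (by
    rw [Set.disjoint_singleton_right]
    intro h
    exact lt_irrefl _ h.2)]
  push_cast
  rw [add_sub_cancel_left, abs_of_nonneg (Nat.cast_nonneg _)]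
  exact_mod_cast Zc_point n H v

/-- partition of the unit interval -/
theorem Zc_arcs (n H : ℕ) (k : ℝ) (m : ℕ) (hm : 1 ≤ m) : ∀ s : ℕ, Zc n H (Set.Ico k (k + (s : ℝ) / m)) =
    ∑ a ∈ range s, Zc n H (Set.Ico (k + (a : ℝ) / m) (k + ((a : ℝ) + 1) / m)) := by
  intro s
  have hm0 : (0 : ℝ) < m := by exact_mod_cast hm
  induction s with
  | zero =>
    simp only [Nat.cast_zero, zero_div, add_zero, Set.Ico_self, Finset.range_zero, Finset.sum_empty]
    unfold Zc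
    apply Finset.sum_eq_zero
    intro c _
    have : Rc H c (∅ : Set ℝ) = ∅ := by
      rw [Set.eq_empty_iff_forall_notMem]
      intro x hx
      exact hx.1
    rw [this, Set.ncard_empty]
  | succ s ih =>
    rw [Finset.sum_range_succ, ← ih, ← Zc_add]
    · congr 1
      rw [Set.Ico_union_Ico_eq_Ico]
      · push_cast; rfl
      · have : 0 ≤ (s : ℝ) / m := by positivity
        linarith
      · push_cast
        have : (s : ℝ) / m ≤ ((s : ℝ) + 1) / m := by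
          apply div_le_div_of_nonneg_right _ hm0.le
          linarith
        linarith
    · rw [Set.disjoint_left]
      intro x hx hx'
      exact absurd hx.2 (not_lt.2 hx'.1)

/-- the sum over all fractions with denominator `m` -/
theorem arc_sum (n : ℕ) (k : ℤ) : ∃ C : ℝ, 0 < C ∧ ∀ H : ℕ, 1 ≤ H → ∀ m : ℕ, 1 ≤ m →
    |∑ a ∈ range m, RR n H (k + (a : ℝ) / m) - m * (Zc n H (Set.Ico (k : ℝ) (k + 1)) : ℝ)| ≤
      C * ((H : ℝ) ^ (n + 2) + (m : ℝ) ^ 2 * (H : ℝ) ^ (n + 1)) := by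
  set B : ℝ := |(k : ℝ)| + 2 with hB
  have hB1 : 1 ≤ B := by rw [hB]; linarith [abs_nonneg (k : ℝ)]
  obtain ⟨C1, hC1, hcount⟩ := count_int n B hB1
  obtain ⟨C2, hC2, hdiff⟩ := RR_diff n B hB1
  refine ⟨2 * C1 + 3 ^ (n + 1) + C2, by positivity, ?_⟩
  intro H hH m hm
  have hm0 : (0 : ℝ) < m := by exact_mod_cast hm
  have hm1 : (1 : ℝ) ≤ m := by exact_mod_cast hm
  have hH1 : (1 : ℝ) ≤ H := by exact_mod_cast hH
  have hH0 : (0 : ℝ) < H := by linarith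
  have hpt : (((2 * H + 1) ^ (n + 1) : ℕ) : ℝ) ≤ 3 ^ (n + 1) * (H : ℝ) ^ (n + 1) := by
    push_cast
    exact two_pow n H hH (n + 1)
  have harc : ∀ a ∈ range m, |1 / (m : ℝ) * RR n H (k + (a : ℝ) / m) -
      (Zc n H (Set.Ico ((k : ℝ) + (a : ℝ) / m) (k + ((a : ℝ) + 1) / m)) : ℝ)| ≤
      (2 * C1 + 3 ^ (n + 1) + C2) * ((H : ℝ) ^ (n + 2) / (m : ℝ) ^ 2 + (H : ℝ) ^ (n + 1)) := by
    intro a ha
    rw [mem_range] at ha
    have ha1 : (a : ℝ) + 1 ≤ m := by exact_mod_cast ha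
    have ha0 : (0 : ℝ) ≤ a := Nat.cast_nonneg _
    set u : ℝ := k + (a : ℝ) / m with hu
    set v : ℝ := k + ((a : ℝ) + 1) / m with hv
    set y : ℝ := (u + v) / 2 with hy
    set ρ : ℝ := 1 / (2 * (m : ℝ)) with hρ
    have hρ0 : 0 < ρ := by positivity
    have hρ1 : ρ ≤ 1 / 2 := by
      rw [hρ, div_le_div_iff₀ (by positivity) (by norm_num)]
      linarith
    have hvu : v - u = 1 / m := by rw [hu, hv]; ring
    have h2ρ : 2 * ρ = 1 / m := by rw [hρ]; field_simp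
    have hu' : y - ρ = u := by linarith
    have hv' : y + ρ = v := by linarith
    have hyu : y - u = ρ := by linarith
    have hau : (a : ℝ) / m ≤ 1 := by rw [div_le_one hm0]; linarith
    have hau0 : 0 ≤ (a : ℝ) / m := by positivity
    have huB : |u| ≤ |(k : ℝ)| + 1 := by
      rw [hu]
      refine (abs_add_le _ _).trans ?_
      rw [abs_of_nonneg hau0]
      linarith
    have hyB : |y| ≤ |(k : ℝ)| + 3 / 2 := by
      have : y = u + ρ := by linarith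
      rw [this]
      refine (abs_add_le _ _).trans ?_
      rw [abs_of_pos hρ0]
      linarith
    have h1 := hcount H hH y ρ hρ0.le (by linarith) (by rw [hB]; linarith)
    rw [hu', hv', h2ρ] at h1
    have h2 := Zc_Icc n H u v (by linarith [hvu, (by positivity : (0:ℝ) < 1 / m)])
    have h3 := hdiff H hH u y (by rw [hB]; linarith) (by rw [hB]; linarith)
    have h4 : |u - y| = ρ := by
      rw [abs_sub_comm, hyu, abs_of_pos hρ0]
    rw [h4] at h3
    have hinv : 1 / (m : ℝ) ≤ 1 := by rw [div_le_one hm0]; exact hm1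
    have hinv0 : 0 < 1 / (m : ℝ) := by positivity
    have e1 : C1 * ((H : ℝ) ^ (n + 2) * ρ ^ 2 + (H : ℝ) ^ (n + 1)) ≤
        2 * C1 * ((H : ℝ) ^ (n + 2) / (m : ℝ) ^ 2 + (H : ℝ) ^ (n + 1)) := by
      have f1 : (H : ℝ) ^ (n + 2) * ρ ^ 2 ≤ (H : ℝ) ^ (n + 2) / (m : ℝ) ^ 2 := by
        rw [hρ, div_pow, one_pow, mul_pow, mul_one_div]
        apply div_le_div_of_nonneg_left (by positivity) (by positivity)
        nlinarith [sq_nonneg (m : ℝ)]
      have f2 : 0 ≤ (H : ℝ) ^ (n + 2) / (m : ℝ) ^ 2 + (H : ℝ) ^ (n + 1) := by positivity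
      calc C1 * ((H : ℝ) ^ (n + 2) * ρ ^ 2 + (H : ℝ) ^ (n + 1)) ≤
          C1 * ((H : ℝ) ^ (n + 2) / (m : ℝ) ^ 2 + (H : ℝ) ^ (n + 1)) :=
            mul_le_mul_of_nonneg_left (by linarith) hC1.le
        _ ≤ _ := by nlinarith
    have e2 : 1 / (m : ℝ) * (C2 * ((H : ℝ) ^ (n + 2) * ρ + (H : ℝ) ^ (n + 1))) ≤
        C2 * ((H : ℝ) ^ (n + 2) / (m : ℝ) ^ 2 + (H : ℝ) ^ (n + 1)) := by
      have f1 : 1 / (m : ℝ) * ((H : ℝ) ^ (n + 2) * ρ) ≤ (H : ℝ) ^ (n + 2) / (m : ℝ) ^ 2 := by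
        have : 1 / (m : ℝ) * ((H : ℝ) ^ (n + 2) * ρ) = (H : ℝ) ^ (n + 2) / (m : ℝ) ^ 2 * (1 / 2) := by
          rw [hρ]
          field_simp
        rw [this]
        have : 0 ≤ (H : ℝ) ^ (n + 2) / (m : ℝ) ^ 2 := by positivity
        linarith
      have f2 : 1 / (m : ℝ) * (H : ℝ) ^ (n + 1) ≤ (H : ℝ) ^ (n + 1) := mul_le_of_le_one_left (by positivity) hinv
      calc 1 / (m : ℝ) * (C2 * ((H : ℝ) ^ (n + 2) * ρ + (H : ℝ) ^ (n + 1))) =
          C2 * (1 / (m : ℝ) * ((H : ℝ) ^ (n + 2) * ρ) + 1 / (m : ℝ) * (H : ℝ) ^ (n + 1)) := by ring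
        _ ≤ _ := mul_le_mul_of_nonneg_left (by linarith) hC2.le
    have e3 : 3 ^ (n + 1) * (H : ℝ) ^ (n + 1) ≤ 3 ^ (n + 1) * ((H : ℝ) ^ (n + 2) / (m : ℝ) ^ 2 + (H : ℝ) ^ (n + 1)) := by
      apply mul_le_mul_of_nonneg_left _ (by positivity)
      have : 0 ≤ (H : ℝ) ^ (n + 2) / (m : ℝ) ^ 2 := by positivity
      linarith
    have h5 : |1 / (m : ℝ) * RR n H u - 1 / (m : ℝ) * RR n H y| ≤
        1 / (m : ℝ) * (C2 * ((H : ℝ) ^ (n + 2) * ρ + (H : ℝ) ^ (n + 1))) := by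
      rw [← mul_sub, abs_mul, abs_of_pos hinv0]
      exact mul_le_mul_of_nonneg_left h3 hinv0.le
    have a1 := abs_le.1 h1
    have a2 := abs_le.1 h2
    have a5 := abs_le.1 h5
    have hfin : (2 * C1 + 3 ^ (n + 1) + C2) * ((H : ℝ) ^ (n + 2) / (m : ℝ) ^ 2 + (H : ℝ) ^ (n + 1)) =
        2 * C1 * ((H : ℝ) ^ (n + 2) / (m : ℝ) ^ 2 + (H : ℝ) ^ (n + 1)) +
        3 ^ (n + 1) * ((H : ℝ) ^ (n + 2) / (m : ℝ) ^ 2 + (H : ℝ) ^ (n + 1)) +
        C2 * ((H : ℝ) ^ (n + 2) / (m : ℝ) ^ 2 + (H : ℝ) ^ (n + 1)) := by ring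
    rw [hfin, abs_le]
    constructor <;> linarith [a1.1, a1.2, a2.1, a2.2, a5.1, a5.2]
  -- sum over the arcs
  have htot : (Zc n H (Set.Ico (k : ℝ) (k + 1)) : ℝ) =
      ∑ a ∈ range m, (Zc n H (Set.Ico ((k : ℝ) + (a : ℝ) / m) (k + ((a : ℝ) + 1) / m)) : ℝ) := by
    have h1 := Zc_arcs n H k m hm m
    rw [div_self hm0.ne'] at h1
    rw [h1]
    push_cast
    rfl
  have h1 : |∑ a ∈ range m, (1 / (m : ℝ) * RR n H (k + (a : ℝ) / m) -
      (Zc n H (Set.Ico ((k : ℝ) + (a : ℝ) / m) (k + ((a : ℝ) + 1) / m)) : ℝ))| ≤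
      m * ((2 * C1 + 3 ^ (n + 1) + C2) * ((H : ℝ) ^ (n + 2) / (m : ℝ) ^ 2 + (H : ℝ) ^ (n + 1))) := by
    refine (Finset.abs_sum_le_sum_abs _ _).trans ((Finset.sum_le_sum harc).trans (le_of_eq ?_))
    rw [Finset.sum_const, Finset.card_range, nsmul_eq_mul]
  rw [Finset.sum_sub_distrib, ← Finset.mul_sum, ← htot] at h1
  have h2 : ∑ a ∈ range m, RR n H (k + (a : ℝ) / m) - m * (Zc n H (Set.Ico (k : ℝ) (k + 1)) : ℝ) =
      m * (1 / (m : ℝ) * ∑ a ∈ range m, RR n H (k + (a : ℝ) / m) - (Zc n H (Set.Ico (k : ℝ) (k + 1)) : ℝ)) := by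
    field_simp
  rw [h2, abs_mul, abs_of_pos hm0]
  refine (mul_le_mul_of_nonneg_left h1 hm0.le).trans (le_of_eq ?_)
  field_simp

/-- sums over the residues prime to `q` -/
theorem coprime_sum (f : ℕ → ℝ) (q : ℕ) (hq : 1 ≤ q) : ∑ p ∈ (range q).filter (fun p => Nat.Coprime p q), f p =
    ∑ e ∈ q.divisors, mu e * ∑ a ∈ range (q / e), f (e * a) := by
  classical
  have h1 : ∀ p, (if Nat.Coprime p q then (1 : ℝ) else 0) = ∑ e ∈ q.divisors, if e ∣ p then mu e else 0 := by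
    intro p
    have h2 : q.divisors.filter (fun e => e ∣ p) = (Nat.gcd p q).divisors := by
      ext e
      rw [mem_filter, Nat.mem_divisors, Nat.mem_divisors, Nat.dvd_gcd_iff]
      constructor
      · rintro ⟨⟨h3, h4⟩, h5⟩
        exact ⟨⟨h5, h3⟩, Nat.gcd_ne_zero_right h4⟩
      · rintro ⟨⟨h3, h4⟩, h5⟩
        exact ⟨⟨h4, by omega⟩, h3⟩
    rw [← Finset.sum_filter, h2, sum_moebius _ (Nat.gcd_ne_zero_right (by omega))]
  rw [Finset.sum_filter]
  have h2 : ∀ p ∈ range q, (if Nat.Coprime p q then f p else 0) = ∑ e ∈ q.divisors, if e ∣ p then mu e * f p else 0 := by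
    intro p _
    have h3 : (if Nat.Coprime p q then f p else 0) = (if Nat.Coprime p q then (1 : ℝ) else 0) * f p := by
      split_ifs <;> simp
    rw [h3, h1, Finset.sum_mul]
    refine Finset.sum_congr rfl fun e _ => ?_
    split_ifs <;> simp
  rw [Finset.sum_congr rfl h2, Finset.sum_comm]
  refine Finset.sum_congr rfl fun e he => ?_
  rw [Nat.mem_divisors] at he
  have he0 : 0 < e := Nat.pos_of_dvd_of_pos he.1 (by omega)
  rw [← Finset.sum_filter, ← Finset.mul_sum]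
  congr 1
  have h4 : (range q).filter (fun p => e ∣ p) = (range (q / e)).image (fun a => e * a) := by
    ext p
    rw [mem_filter, mem_image, mem_range]
    constructor
    · rintro ⟨h5, a, rfl⟩
      refine ⟨a, ?_, rfl⟩
      rw [mem_range, Nat.lt_div_iff_mul_lt' he.1]
      exact h5
    · rintro ⟨a, ha, rfl⟩
      rw [mem_range, Nat.lt_div_iff_mul_lt' he.1] at ha
      exact ⟨ha, Dvd.intro a rfl⟩
  rw [h4, Finset.sum_image (by
    intro a _ b _ h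
    exact Nat.eq_of_mul_eq_mul_left he0 h)]

/-- the sum over the reduced fractions with denominator `q` -/
theorem red_sum (n : ℕ) (k : ℤ) : ∃ C : ℝ, 0 < C ∧ ∀ H : ℕ, 1 ≤ H → ∀ q : ℕ, 1 ≤ q →
    |∑ p ∈ (range q).filter (fun p => Nat.Coprime p q), RR n H (k + (p : ℝ) / q) -
      Nat.totient q * (Zc n H (Set.Ico (k : ℝ) (k + 1)) : ℝ)| ≤
      C * ((H : ℝ) ^ (n + 2) * Real.sqrt q + (q : ℝ) ^ 2 * (H : ℝ) ^ (n + 1)) := by
  obtain ⟨C, hC, harc⟩ := arc_sum n k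
  obtain ⟨D, hD, hdiv⟩ := Pool.Agent.H510R2.divisor_bound (1 / 2) (by norm_num)
  refine ⟨C * (D + 2), by positivity, ?_⟩
  intro H hH q hq
  have hq0 : (0 : ℝ) < q := by exact_mod_cast hq
  have hH1 : (1 : ℝ) ≤ H := by exact_mod_cast hH
  set N : ℝ := (Zc n H (Set.Ico (k : ℝ) (k + 1)) : ℝ) with hN
  rw [coprime_sum (fun p => RR n H (k + (p : ℝ) / q)) q hq, totient_eq q hq, Finset.sum_mul, ← Finset.sum_sub_distrib]
  refine (Finset.abs_sum_le_sum_abs _ _).trans ?_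
  have h1 : ∀ e ∈ q.divisors, |mu e * ∑ a ∈ range (q / e), RR n H (k + ((e * a : ℕ) : ℝ) / q) -
      mu e * ((q / e : ℕ) : ℝ) * N| ≤ C * (H : ℝ) ^ (n + 2) + C * (H : ℝ) ^ (n + 1) * ((q : ℝ) ^ 2 * (1 / (e : ℝ) ^ 2)) := by
    intro e he
    rw [Nat.mem_divisors] at he
    obtain ⟨s, hs⟩ := he.1
    have he0 : 0 < e := Nat.pos_of_dvd_of_pos he.1 (by omega)
    have he0' : (0 : ℝ) < e := by exact_mod_cast he0
    have hqe : q / e = s := by rw [hs]; exact Nat.mul_div_cancel_left s he0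
    have hs0 : 1 ≤ s := by
      rcases Nat.eq_zero_or_pos s with h | h
      · rw [h] at hs; omega
      · exact h
    have hs0' : (0 : ℝ) < s := by exact_mod_cast hs0
    rw [hqe]
    have h2 : ∀ a : ℕ, ((e * a : ℕ) : ℝ) / q = (a : ℝ) / s := by
      intro a
      rw [hs]
      push_cast
      field_simp
    have h3 : mu e * ∑ a ∈ range s, RR n H (k + ((e * a : ℕ) : ℝ) / q) - mu e * (s : ℝ) * N =
        mu e * (∑ a ∈ range s, RR n H (k + (a : ℝ) / s) - s * N) := by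
      rw [mul_sub]
      congr 1
      · congr 1
        exact Finset.sum_congr rfl fun a _ => by rw [h2]
      · ring
    rw [h3, abs_mul]
    have h4 := harc H hH s hs0
    refine (mul_le_mul (abs_mu_le e) h4 (abs_nonneg _) zero_le_one).trans (le_of_eq ?_)
    have h5 : (q : ℝ) = e * s := by rw [hs]; push_cast; rfl
    rw [h5]
    field_simp
  refine (Finset.sum_le_sum h1).trans ?_
  rw [Finset.sum_add_distrib, Finset.sum_const, nsmul_eq_mul, ← Finset.mul_sum, ← Finset.mul_sum]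
  have h2 : (q.divisors.card : ℝ) ≤ D * Real.sqrt q := by
    have := hdiv q hq
    rw [Real.sqrt_eq_rpow]
    exact this
  have h3 : ∑ e ∈ q.divisors, 1 / (e : ℝ) ^ 2 ≤ 2 := by
    refine le_trans ?_ (sum_inv_sq 1 q le_rfl)
    apply Finset.sum_le_sum_of_subset_of_nonneg
    · intro e he
      rw [Nat.mem_divisors] at he
      rw [mem_Icc]
      exact ⟨Nat.pos_of_dvd_of_pos he.1 (by omega), Nat.le_of_dvd (by omega) he.1⟩
    · intro e _ _
      positivity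
  have h4 : (q.divisors.card : ℝ) * (C * (H : ℝ) ^ (n + 2)) ≤ D * Real.sqrt q * (C * (H : ℝ) ^ (n + 2)) :=
    mul_le_mul_of_nonneg_right h2 (by positivity)
  have h5 : C * (H : ℝ) ^ (n + 1) * ((q : ℝ) ^ 2 * ∑ e ∈ q.divisors, 1 / (e : ℝ) ^ 2) ≤
      C * (H : ℝ) ^ (n + 1) * ((q : ℝ) ^ 2 * 2) := by
    apply mul_le_mul_of_nonneg_left _ (by positivity)
    exact mul_le_mul_of_nonneg_left h3 (by positivity)
  refine (add_le_add h4 h5).trans ?_
  have f1 : 0 ≤ C * (H : ℝ) ^ (n + 2) * Real.sqrt q := by positivity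
  have f2 : 0 ≤ C * D * ((q : ℝ) ^ 2 * (H : ℝ) ^ (n + 1)) := by positivity
  have f3 : C * (D + 2) * ((H : ℝ) ^ (n + 2) * Real.sqrt q + (q : ℝ) ^ 2 * (H : ℝ) ^ (n + 1)) =
      D * Real.sqrt q * (C * (H : ℝ) ^ (n + 2)) + C * (H : ℝ) ^ (n + 1) * ((q : ℝ) ^ 2 * 2) +
      2 * (C * (H : ℝ) ^ (n + 2) * Real.sqrt q) + C * D * ((q : ℝ) ^ 2 * (H : ℝ) ^ (n + 1)) := by ring
  rw [f3]
  linarith

end Pool.Agent.D0H53.AP
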