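import Pool.Agent.D0H53.AP.Wm
import Pool.Agent.D0H53.AP.Sum
import Pool.Agent.D0H53.PL.Dis

set_option autoImplicit false

/-!
# The Poisson law for the real roots of the polynomials of bounded height
-/

open Finset Filter Topology

namespace Pool.Agent.D0H53.AP

open Pool.Agent.N965.LN (dn)
open Pool.Agent.D0H53.PL

variable {n : ℕ}

/-- the pairs (vector, root) -/
def Fam (n H : ℕ) (T : Set ℝ) : Set ((ℤ × (Fin n → ℤ)) × ℝ) := {p | p.1 ∈ cbox n H ∧ p.1 ≠ 0 ∧ p.2 ∈ Rc H p.1 T}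

theorem Fam_finite (n H : ℕ) (T : Set ℝ) : (Fam n H T).Finite := by
  classical
  have h1 : (⋃ c ∈ (cbox n H).erase 0, (fun x => (c, x)) '' (Rc H c T)).Finite := by
    apply Set.Finite.biUnion (Finset.finite_toSet _)
    intro c hc
    rw [Finset.mem_coe, Finset.mem_erase] at hc
    exact (Rc_finite H c hc.1 T).image _
  refine h1.subset ?_
  rintro ⟨c, x⟩ ⟨h2, h3, h4⟩
  simp only [Set.mem_iUnion]
  exact ⟨c, Finset.mem_erase.2 ⟨h3, h2⟩, x, h4, rfl⟩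

theorem Fam_ncard (n H : ℕ) (T : Set ℝ) : (Fam n H T).ncard = Zc n H T := by
  classical
  rw [Set.ncard_eq_toFinset_card _ (Fam_finite n H T)]
  rw [Finset.card_eq_sum_card_fiberwise (f := Prod.fst) (t := (cbox n H).erase 0) (by
    intro p hp
    rw [Finset.mem_coe, Set.Finite.mem_toFinset] at hp
    rw [Finset.mem_coe, Finset.mem_erase]
    exact ⟨hp.2.1, hp.1⟩)]
  unfold Zc
  refine Finset.sum_congr rfl fun c hc => ?_
  rw [Finset.mem_erase] at hc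
  have hinj : Set.InjOn (fun x : ℝ => (c, x)) (Rc H c T) := fun x _ y _ h => (Prod.mk.inj h).2
  rw [← hinj.ncard_image, ← Set.ncard_coe_finset]
  congr 1
  ext ⟨c', x⟩
  rw [Finset.mem_coe, Finset.mem_filter, Set.Finite.mem_toFinset, Set.mem_image]
  constructor
  · rintro ⟨⟨-, -, h3⟩, h4⟩
    simp only at h4 h3
    subst h4
    exact ⟨x, h3, rfl⟩
  · rintro ⟨y, hy, h⟩
    obtain ⟨rfl, rfl⟩ := Prod.mk.inj h
    exact ⟨⟨hc.2, hc.1, hy⟩, rfl⟩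

theorem val_bounds {Q1 Q2 : ℕ} (hQ1 : 1 ≤ Q1) (r : Σ _ : ℕ, ℕ) (hr : r ∈ fr Q1 Q2) :
    1 / (r.1 : ℝ) ≤ val r ∧ val r ≤ 1 - 1 / (r.1 : ℝ) := by
  obtain ⟨q, p⟩ := r
  rw [mem_fr] at hr
  simp only at hr
  obtain ⟨⟨h1, h2⟩, h3, h4⟩ := hr
  have hq0 : (0 : ℝ) < q := by exact_mod_cast (by omega : 0 < q)
  have hp : 1 ≤ p := by
    rcases Nat.eq_zero_or_pos p with h | h
    · rw [h, Nat.coprime_zero_left] at h4
      omega
    · exact h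
  unfold Pool.Agent.D0H53.PL.val
  simp only
  constructor
  · apply div_le_div_of_nonneg_right _ hq0.le
    exact_mod_cast hp
  · have e : 1 - 1 / (q : ℝ) = ((q : ℝ) - 1) / q := by field_simp
    rw [e]
    apply div_le_div_of_nonneg_right _ hq0.le
    have : (p : ℝ) + 1 ≤ q := by exact_mod_cast h3
    linarith

/-- closeness modulo one is closeness -/
theorem near_iff {Q1 Q2 : ℕ} (hQ1 : 1 ≤ Q1) (r : Σ _ : ℕ, ℕ) (hr : r ∈ fr Q1 Q2) (ε : ℝ) (hε : ε < 1 / (r.1 : ℝ))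
    (k : ℤ) (x : ℝ) (hx : x ∈ Set.Ico (k : ℝ) (k + 1)) :
    dn (x - val r) ≤ ε ↔ x ∈ Set.Icc ((k : ℝ) + val r - ε) (k + val r + ε) := by
  obtain ⟨h1, h2⟩ := val_bounds hQ1 r hr
  constructor
  · intro h
    set m : ℤ := round (x - val r) with hm
    have h3 : |x - val r - m| ≤ ε := h
    have h4 := abs_le.1 h3
    have h5 : (k : ℝ) - 1 < m := by linarith [hx.1]
    have h6 : (m : ℝ) < k + 1 := by linarith [hx.2]
    have h7 : k - 1 < m := by exact_mod_cast h5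
    have h8 : m < k + 1 := by exact_mod_cast h6
    have h9 : m = k := by omega
    rw [h9] at h4
    constructor <;> linarith
  · intro h
    refine (dn_le _ k).trans ?_
    rw [abs_le]
    constructor <;> linarith [h.1, h.2]

theorem Icc_sub {Q1 Q2 : ℕ} (hQ1 : 1 ≤ Q1) (r : Σ _ : ℕ, ℕ) (hr : r ∈ fr Q1 Q2) (ε : ℝ) (hε : ε < 1 / (r.1 : ℝ))
    (k : ℤ) : Set.Icc ((k : ℝ) + val r - ε) (k + val r + ε) ⊆ Set.Ico (k : ℝ) (k + 1) := by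
  obtain ⟨h1, h2⟩ := val_bounds hQ1 r hr
  intro x hx
  constructor <;> linarith [hx.1, hx.2]

theorem Cn_eq (H : ℕ) (k : ℤ) {Q1 Q2 : ℕ} (hQ1 : 1 ≤ Q1) (δ : ℕ → ℝ) (r : Σ _ : ℕ, ℕ) (hr : r ∈ fr Q1 Q2)
    (hε : δ r.1 / (r.1 : ℝ) ^ 2 < 1 / (r.1 : ℝ)) :
    Cn (Fam_finite n H (Set.Ico (k : ℝ) (k + 1))).toFinset (fun p => p.2) δ r =
      (Zc n H (Set.Icc ((k : ℝ) + val r - δ r.1 / (r.1 : ℝ) ^ 2) (k + val r + δ r.1 / (r.1 : ℝ) ^ 2)) : ℝ) := by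
  classical
  unfold Cn
  rw [← Fam_ncard, ← Set.ncard_coe_finset]
  congr 2
  ext p
  rw [Finset.mem_coe, Finset.mem_filter, Set.Finite.mem_toFinset]
  constructor
  · rintro ⟨⟨h1, h2, h3⟩, h4⟩
    exact ⟨h1, h2, (near_iff hQ1 r hr _ hε k p.2 h3.1).1 h4, h3.2⟩
  · rintro ⟨h1, h2, h3⟩
    have h4 := Icc_sub hQ1 r hr _ hε k h3.1
    exact ⟨⟨h1, h2, h4, h3.2⟩, (near_iff hQ1 r hr _ hε k p.2 h4).2 h3.1⟩

/-- the number of the pairs -/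
theorem total_ge (n : ℕ) (k : ℤ) : ∃ c : ℝ, 0 < c ∧ ∃ H₀ : ℕ, 1 ≤ H₀ ∧ ∀ H : ℕ, H₀ ≤ H →
    c * (H : ℝ) ^ (n + 2) ≤ (Zc n H (Set.Ico (k : ℝ) (k + 1)) : ℝ) := by
  set B : ℝ := |(k : ℝ)| + 2 with hB
  have hB1 : 1 ≤ B := by rw [hB]; linarith [abs_nonneg (k : ℝ)]
  obtain ⟨C1, hC1, hcount⟩ := count_int n B hB1
  obtain ⟨c0, hc0, H₁, hH₁, hge⟩ := RR_ge n B hB1
  set ρ : ℝ := min (1 / 4) (c0 / C1) with hρ
  have hρ0 : 0 < ρ := by positivity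
  have hρ1 : ρ ≤ 1 / 4 := min_le_left _ _
  have hρ2 : C1 * ρ ≤ c0 := by
    have : ρ ≤ c0 / C1 := min_le_right _ _
    rw [le_div_iff₀ hC1] at this
    linarith
  refine ⟨c0 * ρ / 2, by positivity, max H₁ ⌈2 * C1 / (c0 * ρ)⌉₊, le_max_of_le_left hH₁, ?_⟩
  intro H hH
  have hH1 : H₁ ≤ H := (le_max_left _ _).trans hH
  have hH2 : 2 * C1 / (c0 * ρ) ≤ H := Nat.ceil_le.1 ((le_max_right _ _).trans hH)
  have hHp : 1 ≤ H := hH₁.trans hH1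
  have hH0 : (0 : ℝ) < H := by exact_mod_cast hHp
  have hy : |(k : ℝ) + 1 / 2| ≤ |(k : ℝ)| + 1 / 2 := by
    refine (abs_add_le _ _).trans ?_
    rw [abs_of_pos (by norm_num : (0 : ℝ) < 1 / 2)]
  have h1 := hcount H hHp (k + 1 / 2) ρ hρ0.le (by linarith) (by rw [hB]; linarith)
  have h2 := hge H hH1 (k + 1 / 2) (by rw [hB]; linarith)
  have h3 : (Zc n H (Set.Icc ((k : ℝ) + 1 / 2 - ρ) (k + 1 / 2 + ρ)) : ℝ) ≤ (Zc n H (Set.Ico (k : ℝ) (k + 1)) : ℝ) := by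
    have : Set.Icc ((k : ℝ) + 1 / 2 - ρ) (k + 1 / 2 + ρ) ⊆ Set.Ico (k : ℝ) (k + 1) := by
      intro x hx
      constructor <;> linarith [hx.1, hx.2]
    exact_mod_cast Zc_mono n H this
  have h4 := (abs_le.1 h1).1
  have h5 : C1 * ((H : ℝ) ^ (n + 2) * ρ ^ 2) ≤ c0 * ρ * (H : ℝ) ^ (n + 2) := by
    have : C1 * ((H : ℝ) ^ (n + 2) * ρ ^ 2) = (C1 * ρ) * (ρ * (H : ℝ) ^ (n + 2)) := by ring
    rw [this]
    have := mul_le_mul_of_nonneg_right hρ2 (by positivity : 0 ≤ ρ * (H : ℝ) ^ (n + 2))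
    linarith
  have h6 : C1 * (H : ℝ) ^ (n + 1) ≤ c0 * ρ / 2 * (H : ℝ) ^ (n + 2) := by
    rw [div_le_iff₀ (by positivity)] at hH2
    have e : c0 * ρ / 2 * (H : ℝ) ^ (n + 2) = (H * (c0 * ρ)) / 2 * (H : ℝ) ^ (n + 1) := by
      rw [show n + 2 = (n + 1) + 1 by omega, pow_succ]
      ring
    rw [e]
    apply mul_le_mul_of_nonneg_right _ (by positivity)
    linarith
  have h7 : 2 * ρ * (c0 * (H : ℝ) ^ (n + 2)) ≤ 2 * ρ * RR n H (k + 1 / 2) :=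
    mul_le_mul_of_nonneg_left h2 (by positivity)
  have h8 : C1 * ((H : ℝ) ^ (n + 2) * ρ ^ 2 + (H : ℝ) ^ (n + 1)) =
      C1 * ((H : ℝ) ^ (n + 2) * ρ ^ 2) + C1 * (H : ℝ) ^ (n + 1) := by ring
  have h9 : 2 * ρ * (c0 * (H : ℝ) ^ (n + 2)) = 2 * (c0 * ρ * (H : ℝ) ^ (n + 2)) := by ring
  have h10 : c0 * ρ / 2 * (H : ℝ) ^ (n + 2) = (c0 * ρ * (H : ℝ) ^ (n + 2)) / 2 := by ring
  rw [h8] at h4
  rw [h9] at h7
  rw [h10] at h6 ⊢
  linarith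

end Pool.Agent.D0H53.AP
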