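import Pool.Agent.D0H53.AP.Wm

set_option autoImplicit false

/-!
# Factorial moments for a family with a density: a sharper form
-/

open Finset Filter Topology

namespace Pool.Agent.D0H53.AP

open Pool.Agent.N965.LN (dn)
open Pool.Agent.D0H53.PL

theorem num_chains1 {Q1 Q2 : ℕ} {δ : ℕ → ℝ} {t L lam : ℝ} (h : Hyp Q1 Q2 δ t L) (hlam : |lam - 1| ≤ t ^ 2) (j : ℕ) :
    ∑ r ∈ fr Q1 Q2, U Q1 Q2 (fun n => lam * δ n) (fun r => 1 / (r.1 : ℝ)) j r ≤
      (Q2 : ℝ) * (139 * (1 + Real.log Q2)) ^ (j + 1) := by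
  rcases Nat.eq_zero_or_pos Q2 with h0 | hQ
  · subst h0
    have : fr Q1 0 = ∅ := by
      unfold fr
      rw [Finset.Ioc_eq_empty (by omega)]
      simp
    rw [this]
    simp
  have hQ0 : (1 : ℝ) ≤ Q2 := by exact_mod_cast hQ
  have hlog : 0 ≤ Real.log Q2 := Real.log_nonneg hQ0
  have h1 : ∀ r ∈ fr Q1 Q2, U Q1 Q2 (fun n => lam * δ n) (fun r => 1 / (r.1 : ℝ)) j r ≤
      (Q2 : ℝ) * (1 / (r.1 : ℝ) ^ 2 * (139 * (1 + Real.log Q2)) ^ j) := by
    intro r hr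
    have h2 := U_mono Q1 Q2 (fun n => lam * δ n) (fun r => 1 / (r.1 : ℝ))
      (fun r => (Q2 : ℝ) * (1 / (r.1 : ℝ) ^ 2) + 0 * (1 / (r.1 : ℝ) ^ 2)) (by
        intro r hr
        have hr' := mem_fr.1 hr
        have hq0 : (0 : ℝ) < r.1 := by exact_mod_cast (by omega : 0 < r.1)
        have hq1 : (r.1 : ℝ) ≤ Q2 := by exact_mod_cast hr'.1.2
        rw [zero_mul, add_zero, mul_one_div, div_le_div_iff₀ hq0 (by positivity), one_mul, sq]
        exact mul_le_mul_of_nonneg_right hq1 hq0.le) j r hr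
    rw [U_add] at h2
    rw [zero_mul, add_zero] at h2
    refine h2.trans ?_
    exact mul_le_mul_of_nonneg_left (U_inv h hlam j r hr) (by positivity)
  refine (Finset.sum_le_sum h1).trans ?_
  rw [← Finset.mul_sum, ← Finset.sum_mul]
  apply mul_le_mul_of_nonneg_left _ (by positivity)
  rw [pow_succ, mul_comm]
  apply mul_le_mul_of_nonneg_left _ (by positivity)
  have h2 : ∑ r ∈ fr Q1 Q2, 1 / (r.1 : ℝ) ^ 2 ≤ ∑ n ∈ Icc 1 Q2, 1 / (n : ℝ) := by
    unfold fr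
    rw [Finset.sum_sigma]
    have h3 : ∀ n ∈ Ioc Q1 Q2, ∑ _s ∈ (range n).filter (fun p => Nat.Coprime p n), 1 / (n : ℝ) ^ 2 ≤ 1 / (n : ℝ) := by
      intro n hn
      rw [mem_Ioc] at hn
      have hn0 : (0 : ℝ) < n := by exact_mod_cast (by omega : 0 < n)
      rw [Finset.sum_const, nsmul_eq_mul]
      have h4 : ((((range n).filter (fun p => Nat.Coprime p n)).card : ℕ) : ℝ) ≤ n := by
        have := Finset.card_filter_le (range n) (fun p => Nat.Coprime p n)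
        rw [Finset.card_range] at this
        exact_mod_cast this
      calc _ ≤ (n : ℝ) * (1 / (n : ℝ) ^ 2) := mul_le_mul_of_nonneg_right h4 (by positivity)
        _ = 1 / (n : ℝ) := by field_simp
    refine (Finset.sum_le_sum h3).trans ?_
    apply Finset.sum_le_sum_of_subset_of_nonneg
    · intro n hn
      rw [mem_Ioc] at hn
      rw [mem_Icc]
      omega
    · intro n _ _
      positivity
  have h3 := harm_log Q2
  linarith

/-- the factorial moments of a family with a density -/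
theorem moments_q (j : ℕ) (L C : ℝ) (hL : 0 ≤ L) (hC : 0 ≤ C) : ∃ K : ℝ, 0 ≤ K ∧ ∀ (ι : Type) (S : Finset ι)
    (x : ι → ℝ) (Q1 Q2 : ℕ) (δ : ℕ → ℝ) (t : ℝ),
    Hyp Q1 Q2 δ t L → 0 < S.card → ∀ (w : (Σ _ : ℕ, ℕ) → ℝ) (E : ℝ), 0 ≤ E →
    (∀ r ∈ fr Q1 Q2, 0 ≤ w r) → (∀ r ∈ fr Q1 Q2, w r ≤ C * S.card) →
    (∀ r ∈ fr Q1 Q2, ∀ r' ∈ fr Q1 Q2, dn (val r' - val r) ≤ 2 * t ^ 2 / (r.1 : ℝ) ^ 2 →
      |w r' - w r| ≤ C * S.card * t + E) →
    (∀ q, Q1 < q → q ≤ Q2 → |∑ p ∈ (range q).filter (fun p => Nat.Coprime p q), w ⟨q, p⟩ -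
      Nat.totient q * S.card| ≤ C * S.card * Real.sqrt q + E * (q : ℝ) ^ 2) →
    (∀ r ∈ fr Q1 Q2, |Cn S x δ r - w r * vv δ r| ≤ C * S.card * vv δ r ^ 2 + E * (1 / (r.1 : ℝ))) →
    |(∑ i ∈ S, (((Hs Q1 Q2 δ (x i)).card.choose (j + 1) : ℕ) : ℝ)) / S.card -
      Mn Q2 δ Q1 ^ (j + 1) / (j + 1).factorial| ≤
      K * t + K * (E / S.card * ((1 + Q2) + (Q2 : ℝ) * (139 * (1 + Real.log Q2)) ^ (j + 1))) := by
  obtain ⟨KW, hKW, hW⟩ := WT j L C hL hC
  obtain ⟨KT, hKT, hT⟩ := T_main j L hL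
  refine ⟨KW + 2 * C * (L ^ (j + 1) + KT) + 1, by positivity, ?_⟩
  intro ι S x Q1 Q2 δ t h hS w E hE hw0 hwC hww hwq hCn
  have hS0 : (0 : ℝ) < S.card := by exact_mod_cast hS
  have ht0 := h.t0
  have ht1 := h.t1
  have hQ0 : (0 : ℝ) ≤ Q2 := Nat.cast_nonneg _
  have hlogQ : 0 ≤ Real.log Q2 := Real.log_natCast_nonneg Q2
  have hM0 := Mn_nonneg h Q1 le_rfl
  have hF2 : (1 : ℝ) ≤ ((j + 1).factorial : ℝ) := by exact_mod_cast Nat.factorial_pos (j + 1)
  have ht4 : t ^ 4 ≤ t ^ 2 * (1 / 4) := by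
    have h1 : t ^ 4 = t ^ 2 * t ^ 2 := by ring
    rw [h1]
    apply mul_le_mul_of_nonneg_left _ (by positivity)
    nlinarith
  have ht40 : 0 ≤ t ^ 4 := by positivity
  have hup : |(1 + 4 * t ^ 4) - 1| ≤ t ^ 2 := by
    rw [abs_le]; constructor <;> nlinarith [sq_nonneg t]
  have hlo : |(1 - t ^ 4) - 1| ≤ t ^ 2 := by
    rw [abs_le]; constructor <;> nlinarith [sq_nonneg t]
  set N : ℝ := (S.card : ℝ) with hN
  set B : ℝ := (Q2 : ℝ) * (139 * (1 + Real.log Q2)) ^ (j + 1) with hB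
  have hB0 : 0 ≤ B := by positivity
  have hML : Mn Q2 δ Q1 ^ (j + 1) / ((j + 1).factorial : ℝ) ≤ L ^ (j + 1) :=
    (div_le_self (by positivity) hF2).trans (pow_le_pow_left₀ hM0 h.mean _)
  have key : ∀ lam : ℝ, |lam - 1| ≤ t ^ 2 →
      |∑ r ∈ fr Q1 Q2, U Q1 Q2 (fun n => lam * δ n) (Cn S x δ) j r -
        N * (Mn Q2 δ Q1 ^ (j + 1) / (j + 1).factorial)| ≤
        N * ((KW + 2 * C * (L ^ (j + 1) + KT)) * t) + (KW * (E * (1 + Q2)) + E * B) := by
    intro lam hlam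
    have h1 := hW Q1 Q2 δ t lam h hlam w N E hS0.le hE hw0 hwC (fun r hr r' hr' =>
      hww r hr r' (near_small h hlam r hr r' hr').1 (near_small h hlam r hr r' hr').2) hwq
    have h2 := num_chains1 h hlam j
    have hTm := hT Q1 Q2 δ t lam h hlam
    have hTm' : |∑ r ∈ fr Q1 Q2, U Q1 Q2 (fun n => lam * δ n) (vv δ) j r -
      Mn Q2 δ Q1 ^ (j + 1) / ((j + 1).factorial : ℝ)| ≤ KT * t := hTm
    have hTot : ∑ r ∈ fr Q1 Q2, U Q1 Q2 (fun n => lam * δ n) (vv δ) j r ≤ L ^ (j + 1) + KT := by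
      have h1 := (abs_le.1 hTm').2
      have h2 : KT * t ≤ KT := mul_le_of_le_one_right hKT (by linarith)
      linarith
    set A := ∑ r ∈ fr Q1 Q2, U Q1 Q2 (fun n => lam * δ n) (Cn S x δ) j r with hA
    set V' := ∑ r ∈ fr Q1 Q2, U Q1 Q2 (fun n => lam * δ n) (fun r => w r * vv δ r) j r with hV'
    set D := ∑ r ∈ fr Q1 Q2, U Q1 Q2 (fun n => lam * δ n) (vv δ) j r with hD
    set G := ∑ r ∈ fr Q1 Q2, U Q1 Q2 (fun n => lam * δ n) (fun r => 1 / (r.1 : ℝ)) j r with hG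
    have hsq : ∀ r ∈ fr Q1 Q2, C * N * vv δ r ^ 2 ≤ 2 * C * N * t ^ 2 * vv δ r := by
      intro r hr
      have h3 := vv_nonneg h r hr
      have h4 := vv_le h r hr
      have h5 : vv δ r ^ 2 ≤ 2 * t ^ 2 * vv δ r := by
        rw [sq]
        exact mul_le_mul_of_nonneg_right h4 h3
      have h6 := mul_le_mul_of_nonneg_left h5 (by positivity : 0 ≤ C * N)
      linarith
    have h3 : A ≤ 1 * V' + 1 * ((2 * C * N * t ^ 2) * D + E * G) := by
      rw [hA, hV', hD, hG, Finset.mul_sum, Finset.mul_sum, Finset.mul_sum, ← Finset.sum_add_distrib,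
        Finset.mul_sum, ← Finset.sum_add_distrib]
      refine Finset.sum_le_sum fun r hr => ?_
      rw [← U_add, ← U_add]
      apply U_mono _ _ _ _ _ _ j r hr
      intro r hr
      have := (abs_le.1 (hCn r hr)).2
      have := hsq r hr
      linarith
    have h4 : 1 * V' + (-1) * ((2 * C * N * t ^ 2) * D + E * G) ≤ A := by
      rw [hA, hV', hD, hG, Finset.mul_sum, Finset.mul_sum, Finset.mul_sum, ← Finset.sum_add_distrib,
        Finset.mul_sum, ← Finset.sum_add_distrib]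
      refine Finset.sum_le_sum fun r hr => ?_
      rw [← U_add, ← U_add]
      apply U_mono _ _ _ _ _ _ j r hr
      intro r hr
      have := (abs_le.1 (hCn r hr)).1
      have := hsq r hr
      linarith
    have h5 := abs_le.1 h1
    have h6 : E * G ≤ E * B := mul_le_mul_of_nonneg_left h2 hE
    have h7 : (2 * C * N * t ^ 2) * D ≤ N * ((2 * C * (L ^ (j + 1) + KT)) * t) := by
      have h8 : (2 * C * N * t ^ 2) * D ≤ (2 * C * N * t ^ 2) * (L ^ (j + 1) + KT) :=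
        mul_le_mul_of_nonneg_left hTot (by positivity)
      have h9 : t ^ 2 * (2 * C * N * (L ^ (j + 1) + KT)) ≤ t * (2 * C * N * (L ^ (j + 1) + KT)) :=
        mul_le_mul_of_nonneg_right (by nlinarith) (by positivity)
      linarith
    clear_value A V' D G B
    rw [abs_le]
    constructor <;> nlinarith [h5.1, h5.2]
  have h1 := key _ hup
  have h2 := key _ hlo
  rw [sum_choose S x Q1 Q2 δ h j]
  set W := ∑ r ∈ fr Q1 Q2, Wn S x Q1 Q2 δ j r with hW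
  have h3 : W ≤ ∑ r ∈ fr Q1 Q2, U Q1 Q2 (fun n => (1 + 4 * t ^ 4) * δ n) (Cn S x δ) j r :=
    Finset.sum_le_sum fun r hr => Wn_up S x Q1 Q2 δ h j r hr
  have h4 : ∑ r ∈ fr Q1 Q2, U Q1 Q2 (fun n => (1 - t ^ 4) * δ n) (Cn S x δ) j r ≤ W :=
    Finset.sum_le_sum fun r hr => Wn_lo S x Q1 Q2 δ h j r hr
  have h5 := (abs_le.1 h1).2
  have h6 := (abs_le.1 h2).1
  have h7 : |W - N * (Mn Q2 δ Q1 ^ (j + 1) / (j + 1).factorial)| ≤
      N * ((KW + 2 * C * (L ^ (j + 1) + KT)) * t) + (KW * (E * (1 + Q2)) + E * B) := by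
    rw [abs_le]
    constructor <;> linarith
  have h8 : W / N - Mn Q2 δ Q1 ^ (j + 1) / (j + 1).factorial =
      (W - N * (Mn Q2 δ Q1 ^ (j + 1) / (j + 1).factorial)) / N := by
    field_simp
  rw [h8, abs_div, abs_of_pos hS0, div_le_iff₀ hS0]
  refine h7.trans ?_
  have h9 : (KW + 2 * C * (L ^ (j + 1) + KT) + 1) * t * N +
      (KW + 2 * C * (L ^ (j + 1) + KT) + 1) * (E * ((1 + Q2) + B)) =
      ((KW + 2 * C * (L ^ (j + 1) + KT) + 1) * t + (KW + 2 * C * (L ^ (j + 1) + KT) + 1) *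
        (E / N * ((1 + Q2) + B))) * N := by
    field_simp
  rw [← h9]
  have g1 : N * ((KW + 2 * C * (L ^ (j + 1) + KT)) * t) ≤ (KW + 2 * C * (L ^ (j + 1) + KT) + 1) * t * N := by
    have : 0 ≤ t * N := by positivity
    nlinarith
  have g2 : KW * (E * (1 + Q2)) + E * B ≤ (KW + 2 * C * (L ^ (j + 1) + KT) + 1) * (E * ((1 + Q2) + B)) := by
    have g3 : 0 ≤ E * (1 + (Q2 : ℝ)) := by positivity
    have g4 : 0 ≤ E * B := by positivity
    have g5 : 0 ≤ 2 * C * (L ^ (j + 1) + KT) := by positivity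
    have g6 : (KW + 2 * C * (L ^ (j + 1) + KT) + 1) * (E * ((1 + Q2) + B)) =
        KW * (E * (1 + Q2)) + KW * (E * B) + 2 * C * (L ^ (j + 1) + KT) * (E * (1 + Q2)) +
        2 * C * (L ^ (j + 1) + KT) * (E * B) + E * (1 + Q2) + E * B := by ring
    rw [g6]
    have g7 : 0 ≤ KW * (E * B) := by positivity
    have g8 : 0 ≤ 2 * C * (L ^ (j + 1) + KT) * (E * (1 + Q2)) := by positivity
    have g9 : 0 ≤ 2 * C * (L ^ (j + 1) + KT) * (E * B) := by positivity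
    linarith
  linarith

end Pool.Agent.D0H53.AP
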