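import Pool.Agent.D0H53.AP.Law
import Pool.Agent.D0H53.AP.Wq
import Pool.Agent.D0H53.AP.Frd
import Pool.Agent.D0H53.PL.Dis

set_option autoImplicit false

/-!
# The factorial moments of the family for the denominators up to H; the size of the errors
-/

open Finset Filter Topology

namespace Pool.Agent.D0H53.AP

open Pool.Agent.N965.LN (dn)
open Pool.Agent.D0H53.PL

/-- the error term tends to zero -/
theorem err_small1 (C τ κ η : ℝ) (hC : 0 < C) (hκ0 : 0 ≤ κ) (hκ1 : κ ≤ 1) (hτ : 0 < τ) (hτκ : τ - 1 + κ ≤ -τ)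
    (hη : 0 < η) (K : ℕ) : ∃ N₀ : ℕ, ∀ N : ℕ, N₀ ≤ N → 1 ≤ N → ∀ Q : ℕ, (Q : ℝ) ≤ (N : ℝ) ^ κ → ∀ j ≤ K,
      C * (N : ℝ) ^ τ / N * ((Q : ℝ) * (139 * (1 + Real.log Q)) ^ (j + 1)) ≤ η := by
  set θ : ℝ := τ / (2 * (K + 1)) with hθ
  have hθ0 : 0 < θ := by positivity
  set B : ℝ := C * (139 * (1 + 1 / θ)) ^ (K + 1) with hB
  have hB0 : 0 ≤ B := by positivity
  have h1 : Tendsto (fun N : ℕ => B * (N : ℝ) ^ (-(τ / 2))) atTop (𝓝 0) := by
    have h2 := ((tendsto_rpow_neg_atTop (by positivity : 0 < τ / 2)).comp tendsto_natCast_atTop_atTop).const_mul B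
    simpa using h2
  obtain ⟨N₀, hN₀⟩ := Filter.eventually_atTop.1 (h1.eventually (gt_mem_nhds hη))
  refine ⟨N₀, fun N hN hN1 Q hQ j hj => ?_⟩
  have hN0 : (1 : ℝ) ≤ N := by exact_mod_cast hN1
  have hNp : (0 : ℝ) < N := by linarith
  have hQN : (Q : ℝ) ≤ N := by
    refine hQ.trans ?_
    calc (N : ℝ) ^ κ ≤ (N : ℝ) ^ (1 : ℝ) := Real.rpow_le_rpow_of_exponent_le hN0 hκ1
      _ = N := Real.rpow_one _
  have hlogQ : 0 ≤ Real.log Q := Real.log_natCast_nonneg Q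
  have hlog : 1 + Real.log Q ≤ (1 + 1 / θ) * (N : ℝ) ^ θ := by
    refine le_trans ?_ (log_le N hN1 θ hθ0)
    rcases Nat.eq_zero_or_pos Q with h | h
    · rw [h, Nat.cast_zero, Real.log_zero]
      have := Real.log_nonneg hN0
      linarith
    · have := Real.log_le_log (by exact_mod_cast h) hQN
      linarith
  have hpow : (139 * (1 + Real.log Q)) ^ (j + 1) ≤ (139 * (1 + 1 / θ)) ^ (K + 1) * (N : ℝ) ^ (τ / 2) := by
    have e1 : (1 : ℝ) ≤ 139 * (1 + Real.log Q) := by linarith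
    calc (139 * (1 + Real.log Q)) ^ (j + 1) ≤ (139 * (1 + Real.log Q)) ^ (K + 1) :=
          pow_le_pow_right₀ e1 (by omega)
      _ ≤ (139 * ((1 + 1 / θ) * (N : ℝ) ^ θ)) ^ (K + 1) := by
          apply pow_le_pow_left₀ (by linarith)
          linarith
      _ = (139 * (1 + 1 / θ)) ^ (K + 1) * ((N : ℝ) ^ θ) ^ (K + 1) := by rw [← mul_pow]; ring
      _ = _ := by
          rw [← Real.rpow_natCast ((N : ℝ) ^ θ) (K + 1), ← Real.rpow_mul (by linarith)]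
          congr 2
          rw [hθ]
          push_cast
          field_simp
  have h3 : C * (N : ℝ) ^ τ / N * ((Q : ℝ) * (139 * (1 + Real.log Q)) ^ (j + 1)) ≤
      B * (N : ℝ) ^ (-(τ / 2)) := by
    calc C * (N : ℝ) ^ τ / N * ((Q : ℝ) * (139 * (1 + Real.log Q)) ^ (j + 1))
        ≤ C * (N : ℝ) ^ τ / N * ((N : ℝ) ^ κ * ((139 * (1 + 1 / θ)) ^ (K + 1) * (N : ℝ) ^ (τ / 2))) := by
          apply mul_le_mul_of_nonneg_left _ (by positivity)
          exact mul_le_mul hQ hpow (by positivity) (by positivity)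
      _ = B * ((N : ℝ) ^ τ * (N : ℝ) ^ (-1 : ℝ) * (N : ℝ) ^ κ * (N : ℝ) ^ (τ / 2)) := by
          rw [Real.rpow_neg_one, hB]
          ring
      _ = B * (N : ℝ) ^ (τ + -1 + κ + τ / 2) := by
          rw [Real.rpow_add hNp, Real.rpow_add hNp, Real.rpow_add hNp]
      _ ≤ B * (N : ℝ) ^ (-(τ / 2)) := by
          apply mul_le_mul_of_nonneg_left _ hB0
          apply Real.rpow_le_rpow_of_exponent_le hN0
          linarith
  exact h3.trans (hN₀ N hN).le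

/-- two fractions which are close to each other modulo one are close -/
theorem val_close {Q1 Q2 : ℕ} (hQ1 : 1 ≤ Q1) (r r' : Σ _ : ℕ, ℕ) (hr : r ∈ fr Q1 Q2) (hr' : r' ∈ fr Q1 Q2) (t : ℝ)
    (ht0 : 0 ≤ t) (ht1 : t ≤ 1 / 2) (hdn : dn (PL.val r' - PL.val r) ≤ 2 * t ^ 2 / (r.1 : ℝ) ^ 2) :
    |PL.val r' - PL.val r| ≤ t := by
  obtain ⟨h1, h2⟩ := val_bounds hQ1 r hr
  obtain ⟨h1', h2'⟩ := val_bounds hQ1 r' hr'
  have hq := mem_fr.1 hr
  have hq' := mem_fr.1 hr'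
  have hq1 : (1 : ℝ) ≤ r.1 := by exact_mod_cast (by omega : 1 ≤ r.1)
  have hq0 : (0 : ℝ) < r.1 := by linarith
  have hinv' : (0 : ℝ) < 1 / (r'.1 : ℝ) := by
    have : (0 : ℝ) < r'.1 := by exact_mod_cast (by omega : 0 < r'.1)
    positivity
  have ht2 : t ^ 2 ≤ 1 / 4 := by nlinarith
  have hsm : 2 * t ^ 2 / (r.1 : ℝ) ^ 2 < 1 / (r.1 : ℝ) := by
    rw [div_lt_div_iff₀ (by positivity) hq0]
    have h7 := mul_le_mul_of_nonneg_right ht2 hq0.le
    have h8 : (r.1 : ℝ) ≤ (r.1 : ℝ) ^ 2 := by nlinarith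
    linarith
  have hsm2 : 2 * t ^ 2 / (r.1 : ℝ) ^ 2 ≤ t := by
    rw [div_le_iff₀ (by positivity)]
    have : (1 : ℝ) ≤ (r.1 : ℝ) ^ 2 := one_le_pow₀ hq1
    nlinarith
  refine le_trans ?_ hsm2
  set m : ℤ := round (PL.val r' - PL.val r) with hm
  have h3 : |PL.val r' - PL.val r - m| ≤ 2 * t ^ 2 / (r.1 : ℝ) ^ 2 := hdn
  have h4 := abs_le.1 h3
  have h5 : (-1 : ℝ) < m := by linarith
  have h6 : (m : ℝ) < 1 := by linarith
  have h7 : -1 < m := by exact_mod_cast h5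
  have h8 : m < 1 := by exact_mod_cast h6
  have h9 : m = 0 := by omega
  rw [h9] at h3
  simpa using h3

theorem abs_val_le (k : ℤ) {Q1 Q2 : ℕ} (hQ1 : 1 ≤ Q1) (r : Σ _ : ℕ, ℕ) (hr : r ∈ fr Q1 Q2) :
    |(k : ℝ) + PL.val r| ≤ |(k : ℝ)| + 1 := by
  obtain ⟨h1, h2⟩ := val_bounds hQ1 r hr
  have h3 : (0 : ℝ) ≤ 1 / (r.1 : ℝ) := by positivity
  refine (abs_add_le _ _).trans ?_
  rw [abs_of_nonneg (by linarith : 0 ≤ PL.val r)]
  linarith

/-- the number of the members of the family which are close to a fraction -/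
theorem Cn_q (n : ℕ) (k : ℤ) (C1 : ℝ) (hcount : ∀ H : ℕ, 1 ≤ H → ∀ q : ℕ, 1 ≤ q → q ≤ H →
    ∀ P : ℤ, IsCoprime P (q : ℤ) → ∀ ρ : ℝ, 0 ≤ ρ → ρ * (q : ℝ) ^ 2 ≤ 1 → |(P : ℝ) / q| + ρ ≤ |(k : ℝ)| + 2 →
    |(Zc n H (Set.Icc ((P : ℝ) / q - ρ) ((P : ℝ) / q + ρ)) : ℝ) - 2 * ρ * RR n H ((P : ℝ) / q)| ≤
      C1 * ((H : ℝ) ^ (n + 2) * ρ ^ 2 + (H : ℝ) ^ (n + 1) / q)) (hC1 : 0 < C1) (H : ℕ) (hH : 1 ≤ H) {Q1 Q2 : ℕ}
    (hQ1 : 1 ≤ Q1) (hQ2 : Q2 ≤ H) (δ : ℕ → ℝ) (t L : ℝ) (h : Hyp Q1 Q2 δ t L) (r : Σ _ : ℕ, ℕ)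
    (hr : r ∈ fr Q1 Q2) :
    |Cn (Fam_finite n H (Set.Ico (k : ℝ) (k + 1))).toFinset (fun p => p.2) δ r - RR n H (k + PL.val r) * vv δ r| ≤
      C1 * (H : ℝ) ^ (n + 2) * vv δ r ^ 2 + C1 * (H : ℝ) ^ (n + 1) * (1 / (r.1 : ℝ)) := by
  have ht0 := h.t0
  have ht1 := h.t1
  have hq := mem_fr.1 hr
  have hq1 : (1 : ℝ) ≤ r.1 := by exact_mod_cast (by omega : 1 ≤ r.1)
  have hq0 : (0 : ℝ) < r.1 := by linarith
  have hd0 := h.nonneg r.1 hq.1.1 hq.1.2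
  have hd1 := h.small r.1 hq.1.1 hq.1.2
  have ht2 : t ^ 2 ≤ 1 / 4 := by nlinarith
  set ε : ℝ := δ r.1 / (r.1 : ℝ) ^ 2 with hε
  have hε0 : 0 ≤ ε := by positivity
  have hε1 : ε < 1 / (r.1 : ℝ) := by
    rw [hε, div_lt_div_iff₀ (by positivity) hq0]
    have h7 := mul_le_mul_of_nonneg_right (hd1.trans ht2) hq0.le
    have h8 : (r.1 : ℝ) ≤ (r.1 : ℝ) ^ 2 := by nlinarith
    linarith
  have hε2 : ε ≤ 1 := hε1.le.trans (by rw [div_le_one hq0]; exact hq1)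
  have hε3 : ε * (r.1 : ℝ) ^ 2 ≤ 1 := by
    have e : ε * (r.1 : ℝ) ^ 2 = δ r.1 := by rw [hε]; field_simp
    rw [e]
    linarith
  rw [Cn_eq H k hQ1 δ r hr hε1]
  have hcop : Nat.Coprime r.2 r.1 := (mem_fr.1 hr).2.2
  have hP : IsCoprime (k * (r.1 : ℤ) + (r.2 : ℤ)) (r.1 : ℤ) := by
    have h1 : IsCoprime (r.2 : ℤ) (r.1 : ℤ) := Nat.isCoprime_iff_coprime.2 hcop
    rw [add_comm]
    exact h1.add_mul_right_left k
  have hy : (((k * (r.1 : ℤ) + (r.2 : ℤ)) : ℤ) : ℝ) / r.1 = k + PL.val r := by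
    unfold PL.val
    push_cast
    field_simp
  have h3 := hcount H hH r.1 (by omega) (by omega) (k * (r.1 : ℤ) + (r.2 : ℤ)) hP ε hε0 hε3 (by
    rw [hy]; linarith [abs_val_le k hQ1 r hr])
  rw [hy] at h3
  have h4 : RR n H (k + PL.val r) * vv δ r = 2 * ε * RR n H (k + PL.val r) := by
    rw [hε]; unfold vv; ring
  rw [h4]
  refine h3.trans ?_
  have h5 : C1 * ((H : ℝ) ^ (n + 2) * ε ^ 2 + (H : ℝ) ^ (n + 1) / r.1) =
      (C1 * (H : ℝ) ^ (n + 2)) * ε ^ 2 + C1 * (H : ℝ) ^ (n + 1) * (1 / (r.1 : ℝ)) := by ring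
  rw [h5]
  have h6 : ε ^ 2 ≤ vv δ r ^ 2 := by
    have : vv δ r = 2 * ε := by rw [hε]; unfold vv; ring
    rw [this]
    nlinarith
  have h7 := mul_le_mul_of_nonneg_left h6 (by positivity : 0 ≤ C1 * (H : ℝ) ^ (n + 2))
  linarith

/-- the factorial moments of the family -/
theorem alg_moments_q (n : ℕ) (k : ℤ) (j : ℕ) (L : ℝ) (hL : 0 ≤ L) : ∃ K : ℝ, 0 ≤ K ∧ ∃ H₀ : ℕ, 1 ≤ H₀ ∧
    ∀ H : ℕ, H₀ ≤ H → ∀ (Q1 Q2 : ℕ), 1 ≤ Q1 → Q2 ≤ H → ∀ (δ : ℕ → ℝ) (t : ℝ), Hyp Q1 Q2 δ t L →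
    |(∑ p ∈ (Fam_finite n H (Set.Ico (k : ℝ) (k + 1))).toFinset,
        (((Hs Q1 Q2 δ p.2).card.choose (j + 1) : ℕ) : ℝ)) / (Zc n H (Set.Ico (k : ℝ) (k + 1)) : ℝ) -
      Mn Q2 δ Q1 ^ (j + 1) / (j + 1).factorial| ≤
      K * t + K / H * ((1 + Q2) + (Q2 : ℝ) * (139 * (1 + Real.log Q2)) ^ (j + 1)) := by
  classical
  set B : ℝ := |(k : ℝ)| + 2 with hB
  have hB1 : 1 ≤ B := by rw [hB]; linarith [abs_nonneg (k : ℝ)]
  obtain ⟨C1, hC1, hcount⟩ := frac_count n B hB1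
  obtain ⟨C2, hC2, hdiff⟩ := RR_diff n B hB1
  obtain ⟨C3, hC3, hle⟩ := RR_le n B hB1
  obtain ⟨C4, hC4, hred⟩ := red_sum n k
  obtain ⟨c, hc, H₀, hH₀, hge⟩ := total_ge n k
  set C : ℝ := (C1 + C2 + C3 + C4) / c with hC
  have hC0 : 0 ≤ C := by positivity
  set CE : ℝ := C1 + C2 + C4 with hCE
  have hCE0 : 0 ≤ CE := by positivity
  obtain ⟨KM, hKM, hmom⟩ := moments_q j L C hL hC0
  refine ⟨KM + KM * (CE / c), by positivity, H₀, hH₀, ?_⟩
  intro H hH Q1 Q2 hQ1 hQ2H δ t h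
  have hHp : 1 ≤ H := hH₀.trans hH
  have hH1 : (1 : ℝ) ≤ H := by exact_mod_cast hHp
  have hH0 : (0 : ℝ) < H := by linarith
  have ht0 := h.t0
  have ht1 := h.t1
  set N : ℝ := (Zc n H (Set.Ico (k : ℝ) (k + 1)) : ℝ) with hN
  have hNge : c * (H : ℝ) ^ (n + 2) ≤ N := hge H hH
  have hN0 : 0 < N := lt_of_lt_of_le (by positivity) hNge
  set S := (Fam_finite n H (Set.Ico (k : ℝ) (k + 1))).toFinset with hS
  have hcard : S.card = Zc n H (Set.Ico (k : ℝ) (k + 1)) := by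
    rw [hS, ← Set.ncard_eq_toFinset_card _ (Fam_finite n H (Set.Ico (k : ℝ) (k + 1))), Fam_ncard]
  have hcardR : (S.card : ℝ) = N := by rw [hcard]
  have hS0 : 0 < S.card := by
    have : (0 : ℝ) < S.card := by rw [hcardR]; exact hN0
    exact_mod_cast this
  -- comparison of constants
  have hcmp : ∀ X : ℝ, 0 ≤ X → X ≤ C1 + C2 + C3 + C4 → X * (H : ℝ) ^ (n + 2) ≤ C * N := by
    intro X hX0 hX
    calc X * (H : ℝ) ^ (n + 2) = X / c * (c * (H : ℝ) ^ (n + 2)) := by field_simp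
      _ ≤ X / c * N := mul_le_mul_of_nonneg_left hNge (by positivity)
      _ ≤ C * N := by
          apply mul_le_mul_of_nonneg_right _ hN0.le
          rw [hC]
          exact div_le_div_of_nonneg_right hX hc.le
  have hvB : ∀ r ∈ fr Q1 Q2, |(k : ℝ) + PL.val r| ≤ |(k : ℝ)| + 1 := fun r hr => abs_val_le k hQ1 r hr
  have hres := hmom _ S (fun p => p.2) Q1 Q2 δ t h hS0 (fun r => RR n H (k + val r)) (CE * (H : ℝ) ^ (n + 1))
    (by positivity) (fun r _ => RR_nonneg n H _) ?_ ?_ ?_ ?_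
  · rw [hcardR] at hres
    refine hres.trans ?_
    have h1 : CE * (H : ℝ) ^ (n + 1) / N ≤ CE / c / H := by
      calc CE * (H : ℝ) ^ (n + 1) / N ≤ CE * (H : ℝ) ^ (n + 1) / (c * (H : ℝ) ^ (n + 2)) :=
            div_le_div_of_nonneg_left (by positivity) (by positivity) hNge
        _ = CE / c / H := by
            rw [show n + 2 = (n + 1) + 1 by omega, pow_succ (H : ℝ) (n + 1)]
            field_simp
    have hlogQ : 0 ≤ Real.log Q2 := Real.log_natCast_nonneg Q2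
    set X : ℝ := (1 + (Q2 : ℝ)) + (Q2 : ℝ) * (139 * (1 + Real.log Q2)) ^ (j + 1) with hX
    have hX0 : 0 ≤ X := by positivity
    have h2 : KM * (CE * (H : ℝ) ^ (n + 1) / N * X) ≤ KM * (CE / c / H * X) := by
      apply mul_le_mul_of_nonneg_left _ hKM
      exact mul_le_mul_of_nonneg_right h1 hX0
    have h3 : KM * t ≤ (KM + KM * (CE / c)) * t := by
      apply mul_le_mul_of_nonneg_right _ ht0
      have : 0 ≤ KM * (CE / c) := by positivity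
      linarith
    have h4 : KM * (CE / c / H * X) ≤ (KM + KM * (CE / c)) / H * X := by
      have e : KM * (CE / c / H * X) = (KM * (CE / c)) / H * X := by ring
      rw [e]
      apply mul_le_mul_of_nonneg_right _ hX0
      apply div_le_div_of_nonneg_right _ hH0.le
      linarith
    linarith
  · intro r hr
    rw [hcardR]
    refine (hle H hHp _ (by rw [hB]; linarith [hvB r hr])).trans ?_
    exact hcmp C3 hC3.le (by linarith)
  · intro r hr r' hr' hdn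
    rw [hcardR]
    have hclose := val_close hQ1 r r' hr hr' t ht0 ht1 hdn
    have h3 := hdiff H hHp (k + val r') (k + val r) (by rw [hB]; linarith [hvB r' hr']) (by rw [hB]; linarith [hvB r hr])
    have h4 : (k : ℝ) + val r' - (k + val r) = val r' - val r := by ring
    rw [h4] at h3
    refine h3.trans ?_
    have h5 : C2 * ((H : ℝ) ^ (n + 2) * |val r' - val r| + (H : ℝ) ^ (n + 1)) =
        (C2 * (H : ℝ) ^ (n + 2)) * |val r' - val r| + C2 * (H : ℝ) ^ (n + 1) := by ring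
    rw [h5]
    apply add_le_add
    · exact mul_le_mul (hcmp C2 hC2.le (by linarith)) hclose (abs_nonneg _) (by positivity)
    · apply mul_le_mul_of_nonneg_right _ (by positivity)
      rw [hCE]; linarith
  · intro q hq hq'
    rw [hcardR]
    have hq1 : 1 ≤ q := by omega
    have h3 := hred H hHp q hq1
    have h4 : ∀ p, (k : ℝ) + val (⟨q, p⟩ : Σ _ : ℕ, ℕ) = k + (p : ℝ) / q := fun p => rfl
    simp only [h4]
    refine h3.trans ?_
    have h5 : C4 * ((H : ℝ) ^ (n + 2) * Real.sqrt q + (q : ℝ) ^ 2 * (H : ℝ) ^ (n + 1)) =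
        (C4 * (H : ℝ) ^ (n + 2)) * Real.sqrt q + C4 * (H : ℝ) ^ (n + 1) * (q : ℝ) ^ 2 := by ring
    rw [h5]
    apply add_le_add
    · exact mul_le_mul_of_nonneg_right (hcmp C4 hC4.le (by linarith)) (Real.sqrt_nonneg _)
    · apply mul_le_mul_of_nonneg_right _ (by positivity)
      apply mul_le_mul_of_nonneg_right _ (by positivity)
      rw [hCE]; linarith
  · intro r hr
    rw [hcardR]
    have h1 := Cn_q n k C1 hcount hC1 H hHp hQ1 hQ2H δ t L h r hr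
    refine h1.trans (add_le_add ?_ ?_)
    · exact mul_le_mul_of_nonneg_right (hcmp C1 hC1.le (by linarith)) (by positivity)
    · apply mul_le_mul_of_nonneg_right _ (by positivity)
      apply mul_le_mul_of_nonneg_right _ (by positivity)
      rw [hCE]; linarith

end Pool.Agent.D0H53.AP
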