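import Pool.Agent.D0H53.AP.Rt

set_option autoImplicit false

/-!
# Counting roots: linear approximation and boundary layer
-/

open Finset Filter Topology

namespace Pool.Agent.D0H53.AP

variable {n : ℕ}

theorem clamp_neg (H : ℕ) (y : ℝ) : clamp H (-y) = -clamp H y := by
  unfold clamp
  have hH : (0 : ℝ) ≤ H := Nat.cast_nonneg _
  rcases le_total y (-H) with h | h
  · rw [min_eq_left (by linarith : (H : ℝ) ≤ -y), max_eq_right (by linarith), max_eq_left ((min_le_right _ _).trans h)]
    ring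
  · rcases le_total y H with h2 | h2
    · rw [min_eq_right (by linarith : -y ≤ (H : ℝ)), max_eq_right (by linarith), min_eq_right h2, max_eq_right h]
    · rw [min_eq_right (by linarith : -y ≤ (H : ℝ)), max_eq_left (by linarith), min_eq_left h2, max_eq_right (by linarith)]

theorem Rf_neg (H : ℕ) (f : ℝ → ℝ) (T : Set ℝ) : Rf H (fun x => -f x) T = Rf H f T := by
  ext x
  unfold Rf
  constructor
  · rintro ⟨h1, a, h2, h3⟩
    exact ⟨h1, -a, by rwa [abs_neg], by push_cast; linarith⟩
  · rintro ⟨h1, a, h2, h3⟩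
    exact ⟨h1, -a, by rwa [abs_neg], by push_cast; linarith⟩

theorem small_var (H : ℕ) (c : ℤ × (Fin n → ℤ)) (hc : c ≠ 0) (u v s : ℝ) (hs : 0 ≤ s)
    (h : ∀ x ∈ Set.Icc u v, |g c x - g c u| ≤ s) :
    ((Rc H c (Set.Icc u v)).ncard : ℝ) ≤ ((n : ℝ) + 1) * (2 * s + 1) := by
  classical
  set A : Finset ℤ := Icc ⌈-g c u - s⌉ ⌊-g c u + s⌋ with hA
  have h1 : Rc H c (Set.Icc u v) ⊆ ⋃ a ∈ A, {x : ℝ | (a : ℝ) + g c x = 0} := by
    rintro x ⟨hx, a, -, hax⟩
    simp only [Set.mem_iUnion]
    refine ⟨a, ?_, hax⟩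
    have h2 := abs_le.1 (h x hx)
    rw [hA, Finset.mem_Icc, Int.ceil_le, Int.le_floor]
    constructor <;> linarith
  have hfin : (⋃ a ∈ A, {x : ℝ | (a : ℝ) + g c x = 0}).Finite :=
    Set.Finite.biUnion (Finset.finite_toSet _) fun a _ => (roots_le a c hc).1
  have h2 : (Rc H c (Set.Icc u v)).ncard ≤ ∑ a ∈ A, {x : ℝ | (a : ℝ) + g c x = 0}.ncard :=
    (Set.ncard_le_ncard h1 hfin).trans (Finset.set_ncard_biUnion_le _ _)
  have h3 : ∑ a ∈ A, {x : ℝ | (a : ℝ) + g c x = 0}.ncard ≤ A.card * (n + 1) := by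
    refine (Finset.sum_le_sum fun a _ => (roots_le a c hc).2).trans ?_
    rw [Finset.sum_const, smul_eq_mul]
  have h4 : (A.card : ℝ) ≤ 2 * s + 1 := by
    have := (abs_le.1 (int_count (-g c u - s) (-g c u + s) (by linarith))).2
    rw [← hA] at this
    linarith
  calc ((Rc H c (Set.Icc u v)).ncard : ℝ) ≤ ((A.card * (n + 1) : ℕ) : ℝ) := by exact_mod_cast h2.trans h3
    _ = ((n : ℝ) + 1) * A.card := by push_cast; ring
    _ ≤ _ := mul_le_mul_of_nonneg_left h4 (by positivity)

theorem per_c (H : ℕ) (c : ℤ × (Fin n → ℤ)) (hc : c ∈ cbox n H) (hc0 : c ≠ 0) (B u v : ℝ) (hB : 1 ≤ B)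
    (hu : -B ≤ u) (huv : u ≤ v) (hv : v ≤ B) :
    abs (((Rc H c (Set.Icc u v)).ncard : ℝ) - abs (clamp H (g c v) - clamp H (g c u))) ≤
      ((n : ℝ) + 1) * (2 * (KB n B * H * (v - u) ^ 2) + 1) := by
  have hH : (0 : ℝ) ≤ H := Nat.cast_nonneg _
  have hKB : 1 ≤ KB n B := KB_ge B hB
  have hn : (0 : ℝ) ≤ n := Nat.cast_nonneg _
  have hs : 0 ≤ KB n B * H * (v - u) ^ 2 := by positivity
  have habs : ∀ x ∈ Set.Icc u v, |x| ≤ B := fun x hx => abs_le.2 ⟨hu.trans hx.1, hx.2.trans hv⟩
  by_cases hz : ∃ z ∈ Set.Ioo u v, g' c z = 0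
  · obtain ⟨z, hz, hz0⟩ := hz
    have hzI : z ∈ Set.Icc u v := Set.Ioo_subset_Icc_self hz
    have h1 : ∀ x ∈ Set.Icc u v, ‖g' c x‖ ≤ KB n B * H * (v - u) := by
      intro x hx
      have h2 := g'_diff H c hc B x z hB (habs x hx) (habs z hzI)
      rw [hz0, sub_zero] at h2
      refine h2.trans ?_
      apply mul_le_mul_of_nonneg_left _ (by positivity)
      rw [abs_le]
      constructor <;> linarith [hx.1, hx.2, hzI.1, hzI.2]
    have h2 : ∀ x ∈ Set.Icc u v, ∀ y ∈ Set.Icc u v, |g c x - g c y| ≤ KB n B * H * (v - u) ^ 2 := by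
      intro x hx y hy
      have h3 := Convex.norm_image_sub_le_of_norm_hasDerivWithin_le (f := g c) (f' := g' c)
        (fun x _ => (hasDeriv c x).hasDerivWithinAt) h1 (convex_Icc u v) hy hx
      rw [Real.norm_eq_abs, Real.norm_eq_abs] at h3
      refine h3.trans ?_
      have h4 : |x - y| ≤ v - u := by
        rw [abs_le]
        constructor <;> linarith [hx.1, hx.2, hy.1, hy.2]
      have h5 : 0 ≤ KB n B * H * (v - u) := by
        have : 0 ≤ v - u := by linarith
        positivity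
      calc KB n B * H * (v - u) * |x - y| ≤ KB n B * H * (v - u) * (v - u) := mul_le_mul_of_nonneg_left h4 h5
        _ = _ := by ring
    have h3 := small_var H c hc0 u v _ hs fun x hx => h2 x hx u ⟨le_rfl, huv⟩
    have h4 : |clamp H (g c v) - clamp H (g c u)| ≤ KB n B * H * (v - u) ^ 2 :=
      (clamp_lip H _ _).trans (h2 v ⟨huv, le_rfl⟩ u ⟨le_rfl, huv⟩)
    have h5 : (0 : ℝ) ≤ (Rc H c (Set.Icc u v)).ncard := Nat.cast_nonneg _
    have h6 : KB n B * H * (v - u) ^ 2 ≤ ((n : ℝ) + 1) * (2 * (KB n B * H * (v - u) ^ 2) + 1) := by nlinarith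
    rw [abs_le]
    constructor <;> linarith [abs_nonneg (clamp H (g c v) - clamp H (g c u))]
  · push Not at hz
    have hone : (1 : ℝ) ≤ ((n : ℝ) + 1) * (2 * (KB n B * H * (v - u) ^ 2) + 1) := by nlinarith
    refine le_trans ?_ hone
    have hsign : (∀ z ∈ Set.Ioo u v, 0 < g' c z) ∨ (∀ z ∈ Set.Ioo u v, g' c z < 0) := by
      by_contra hcon
      rw [not_or] at hcon
      push Not at hcon
      obtain ⟨⟨z1, hz1, h1⟩, ⟨z2, hz2, h2⟩⟩ := hcon
      have h3 : (0 : ℝ) ∈ Set.uIcc (g' c z1) (g' c z2) := by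
        rw [Set.mem_uIcc]
        left
        exact ⟨h1, h2⟩
      obtain ⟨z, hzz, hz0⟩ := intermediate_value_uIcc (cont_g' c).continuousOn h3
      refine hz z ?_ hz0
      have h4 : Set.uIcc z1 z2 ⊆ Set.Ioo u v := by
        intro w hw
        rw [Set.mem_uIcc] at hw
        rcases hw with hw | hw
        · exact ⟨hz1.1.trans_le hw.1, hw.2.trans_lt hz2.2⟩
        · exact ⟨hz2.1.trans_le hw.1, hw.2.trans_lt hz1.2⟩
      exact h4 hzz
    rcases hsign with hs1 | hs1
    · have h1 : StrictMonoOn (g c) (Set.Icc u v) := by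
        apply strictMonoOn_of_deriv_pos (convex_Icc u v) (cont_g c).continuousOn
        intro x hx
        rw [interior_Icc] at hx
        rw [(hasDeriv c x).deriv]
        exact hs1 x hx
      exact mono_count H (g c) (cont_g c) u v huv h1
    · have h1 : StrictMonoOn (fun x => -g c x) (Set.Icc u v) := by
        apply strictMonoOn_of_deriv_pos (convex_Icc u v) (cont_g c).neg.continuousOn
        intro x hx
        rw [interior_Icc] at hx
        rw [(hasDeriv c x).neg.deriv]
        have := hs1 x hx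
        linarith
      have h2 := mono_count H (fun x => -g c x) (cont_g c).neg u v huv h1
      rw [Rf_neg, clamp_neg, clamp_neg] at h2
      have h3 : |(-clamp H (g c v)) - (-clamp H (g c u))| = |clamp H (g c v) - clamp H (g c u)| := by
        rw [← abs_neg]
        congr 1
        ring
      rw [h3] at h2
      exact h2

/-- the summand of the density -/
noncomputable def rr (H : ℕ) (c : ℤ × (Fin n → ℤ)) (y : ℝ) : ℝ := if |g c y| ≤ H then |g' c y| else 0

theorem rr_nonneg (H : ℕ) (c : ℤ × (Fin n → ℤ)) (y : ℝ) : 0 ≤ rr H c y := by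
  unfold rr
  split_ifs <;> positivity

theorem rr_le (H : ℕ) (c : ℤ × (Fin n → ℤ)) (hc : c ∈ cbox n H) (B y : ℝ) (hB : 1 ≤ B) (hy : |y| ≤ B) :
    rr H c y ≤ KB n B * H := by
  unfold rr
  split_ifs
  · exact g'_le H c hc B y hB hy
  · have := KB_ge (n := n) B hB
    positivity

theorem lin_approx (H : ℕ) (c : ℤ × (Fin n → ℤ)) (hc : c ∈ cbox n H) (B y ρ : ℝ) (hB : 1 ≤ B) (hρ : 0 ≤ ρ)
    (hy : |y| + ρ ≤ B) :
    abs (abs (clamp H (g c (y + ρ)) - clamp H (g c (y - ρ))) - 2 * ρ * rr H c y) ≤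
      2 * (KB n B * H * ρ ^ 2) + if |(|g c y| - (H : ℝ))| ≤ KB n B * H * ρ then 4 * (KB n B * H * ρ) else 0 := by
  have hH : (0 : ℝ) ≤ H := Nat.cast_nonneg _
  have hKB : 1 ≤ KB n B := KB_ge B hB
  have hyB : |y| ≤ B := by linarith
  have hy1 : |y + ρ| ≤ B := (abs_add_le _ _).trans (by rw [abs_of_nonneg hρ]; exact hy)
  have hy2 : |y - ρ| ≤ B := (abs_sub _ _).trans (by rw [abs_of_nonneg hρ]; exact hy)
  have d1 := g_diff H c hc B (y + ρ) y hB hy1 hyB
  have d2 := g_diff H c hc B (y - ρ) y hB hy2 hyB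
  have e1 : |y + ρ - y| = ρ := by rw [add_sub_cancel_left, abs_of_nonneg hρ]
  have e2 : |y - ρ - y| = ρ := by
    have : y - ρ - y = -ρ := by ring
    rw [this, abs_neg, abs_of_nonneg hρ]
  rw [e1] at d1
  rw [e2] at d2
  have hs0 : 0 ≤ KB n B * H * ρ := by positivity
  have hr0 := rr_nonneg H c y
  have hr1 := rr_le H c hc B y hB hyB
  split_ifs with hb
  · have h1 : |clamp H (g c (y + ρ)) - clamp H (g c (y - ρ))| ≤ 2 * (KB n B * H * ρ) := by
      refine (clamp_lip H _ _).trans ?_
      have h2 : g c (y + ρ) - g c (y - ρ) = (g c (y + ρ) - g c y) - (g c (y - ρ) - g c y) := by ring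
      rw [h2]
      refine (abs_sub _ _).trans ?_
      linarith
    have h2 : 2 * ρ * rr H c y ≤ 2 * (KB n B * H * ρ) := by nlinarith
    have h3 : 0 ≤ 2 * ρ * rr H c y := by positivity
    have h4 : 0 ≤ 2 * (KB n B * H * ρ ^ 2) := by positivity
    rw [abs_le]
    constructor <;> linarith [abs_nonneg (clamp H (g c (y + ρ)) - clamp H (g c (y - ρ)))]
  · rw [add_zero]
    rw [not_le, lt_abs] at hb
    have a1 := abs_le.1 d1
    have a2 := abs_le.1 d2
    rcases hb with hb | hb
    · -- outside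
      have h1 : ¬ |g c y| ≤ H := by
        rw [not_le]; linarith
      have h2 : rr H c y = 0 := by unfold rr; rw [if_neg h1]
      have h3 : clamp H (g c (y + ρ)) - clamp H (g c (y - ρ)) = 0 := by
        unfold clamp
        rcases le_total 0 (g c y) with h4 | h4
        · rw [abs_of_nonneg h4] at hb
          rw [min_eq_left (by linarith : (H : ℝ) ≤ g c (y + ρ)), min_eq_left (by linarith : (H : ℝ) ≤ g c (y - ρ))]
          ring
        · rw [abs_of_nonpos h4] at hb
          rw [max_eq_left ((min_le_right _ _).trans (by linarith : g c (y + ρ) ≤ -(H : ℝ))),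
            max_eq_left ((min_le_right _ _).trans (by linarith : g c (y - ρ) ≤ -(H : ℝ)))]
          ring
      rw [h2, h3]
      simp only [abs_zero, mul_zero, sub_zero]
      positivity
    · -- inside
      have h0 : |g c y| ≤ H - KB n B * H * ρ := by linarith
      have h1 : |g c y| ≤ H := by linarith
      have h2 : rr H c y = |g' c y| := by unfold rr; rw [if_pos h1]
      have h3 := abs_le.1 h0
      have h4 : clamp H (g c (y + ρ)) = g c (y + ρ) := by
        unfold clamp
        rw [min_eq_right (by linarith), max_eq_right (by linarith)]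
      have h5 : clamp H (g c (y - ρ)) = g c (y - ρ) := by
        unfold clamp
        rw [min_eq_right (by linarith), max_eq_right (by linarith)]
      rw [h2, h4, h5]
      -- the mean value theorem
      have hder : ∀ x ∈ Set.Icc (y - ρ) (y + ρ), HasDerivWithinAt (fun x => g c x - g' c y * x) (g' c x - g' c y)
          (Set.Icc (y - ρ) (y + ρ)) x := by
        intro x _
        have h6 : HasDerivAt (fun x => g c x - g' c y * x) (g' c x - g' c y) x := by
          have h7 : HasDerivAt (fun x : ℝ => g' c y * x) (g' c y) x := by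
            simpa using (hasDerivAt_id x).const_mul (g' c y)
          exact (hasDeriv c x).sub h7
        exact h6.hasDerivWithinAt
      have hbd : ∀ x ∈ Set.Icc (y - ρ) (y + ρ), ‖g' c x - g' c y‖ ≤ KB n B * H * ρ := by
        intro x hx
        have hxy : |x - y| ≤ ρ := by
          rw [abs_le]
          constructor <;> linarith [hx.1, hx.2]
        have hxB : |x| ≤ B := by
          have h8 : x = (x - y) + y := by ring
          rw [h8]
          refine (abs_add_le _ _).trans ?_
          linarith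
        refine (g'_diff H c hc B x y hB hxB hyB).trans ?_
        exact mul_le_mul_of_nonneg_left hxy (by positivity)
      have h6 := Convex.norm_image_sub_le_of_norm_hasDerivWithin_le hder hbd (convex_Icc (y - ρ) (y + ρ))
        (x := y - ρ) (y := y + ρ) ⟨le_rfl, by linarith⟩ ⟨by linarith, le_rfl⟩
      have e3 : (g c (y + ρ) - g' c y * (y + ρ)) - (g c (y - ρ) - g' c y * (y - ρ)) =
          (g c (y + ρ) - g c (y - ρ)) - 2 * ρ * g' c y := by ring
      rw [e3, Real.norm_eq_abs, Real.norm_eq_abs] at h6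
      have e4 : |y + ρ - (y - ρ)| = 2 * ρ := by
        have : y + ρ - (y - ρ) = 2 * ρ := by ring
        rw [this, abs_of_nonneg (by linarith)]
      rw [e4] at h6
      have e5 : 2 * ρ * |g' c y| = |2 * ρ * g' c y| := by
        rw [abs_mul, abs_of_nonneg (by linarith : 0 ≤ 2 * ρ)]
      rw [e5]
      refine (abs_abs_sub_abs_le_abs_sub _ _).trans (h6.trans (le_of_eq ?_))
      ring

/-- integers in the solution set of a linear inequality -/
theorem int_lin (H : ℕ) (y R0 m s : ℝ) (hy : y ≠ 0) (hs : 0 ≤ s) :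
    (((Icc (-(H : ℤ)) H).filter fun a : ℤ => |(a : ℝ) * y + R0 - m| ≤ s).card : ℝ) ≤ 2 * (s / |y|) + 1 := by
  have hy0 : 0 < |y| := abs_pos.2 hy
  set z : ℝ := (m - R0) / y with hz
  have h1 : ((Icc (-(H : ℤ)) H).filter fun a : ℤ => |(a : ℝ) * y + R0 - m| ≤ s) ⊆
      Icc ⌈z - s / |y|⌉ ⌊z + s / |y|⌋ := by
    intro a ha
    rw [mem_filter] at ha
    have h2 : |(a : ℝ) - z| ≤ s / |y| := by
      rw [le_div_iff₀ hy0, ← abs_mul]
      have h3 : ((a : ℝ) - z) * y = (a : ℝ) * y + R0 - m := by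
        rw [hz]
        field_simp
        ring
      rw [h3]
      exact ha.2
    have h3 := abs_le.1 h2
    rw [Finset.mem_Icc, Int.ceil_le, Int.le_floor]
    constructor <;> linarith
  have h2 : 0 ≤ s / |y| := by positivity
  have h3 := (abs_le.1 (int_count (z - s / |y|) (z + s / |y|) (by linarith))).2
  have h4 : (((Icc (-(H : ℤ)) H).filter fun a : ℤ => |(a : ℝ) * y + R0 - m| ≤ s).card : ℝ) ≤
      ((Icc ⌈z - s / |y|⌉ ⌊z + s / |y|⌋).card : ℝ) := by exact_mod_cast Finset.card_le_card h1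
  linarith

theorem card_cbox (n H : ℕ) : (cbox n H).card = (2 * H + 1) ^ (n + 1) := by
  unfold cbox
  rw [Finset.card_product, Fintype.card_piFinset_const, Int.card_Icc]
  have : ((H : ℤ) + 1 - -(H : ℤ)).toNat = 2 * H + 1 := by omega
  rw [this, pow_succ, mul_comm]

theorem layer (H : ℕ) (y s : ℝ) (hs : 0 ≤ s) :
    (((cbox n H).filter fun c => |(|g c y| - (H : ℝ))| ≤ s).card : ℝ) ≤
      (2 * (H : ℝ) + 1) ^ n * (8 * ((n : ℝ) + 1) * s + 2) := by
  classical
  have hH : (0 : ℝ) ≤ H := Nat.cast_nonneg _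
  have hn : (0 : ℝ) ≤ n := Nat.cast_nonneg _
  rcases lt_or_ge |y| (1 / (2 * ((n : ℝ) + 1))) with hy | hy
  · -- small `y`
    have hy1 : |y| ≤ 1 := by
      refine hy.le.trans ?_
      rw [div_le_one (by positivity)]
      linarith
    have hsmall : ∀ c ∈ cbox n H, |g c y| ≤ H / 2 := by
      intro c hc
      obtain ⟨h1, h2⟩ := cbox_real hc
      unfold g
      refine (abs_add_le _ _).trans ?_
      have h3 : |(c.1 : ℝ) * y| ≤ H * |y| := by
        rw [abs_mul]
        exact mul_le_mul_of_nonneg_right h1 (abs_nonneg _)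
      have h4 : |∑ i : Fin n, (c.2 i : ℝ) * y ^ ((i : ℕ) + 2)| ≤ n * (H * |y|) := by
        refine (Finset.abs_sum_le_sum_abs _ _).trans ?_
        have h5 : ∀ i ∈ (Finset.univ : Finset (Fin n)), |(c.2 i : ℝ) * y ^ ((i : ℕ) + 2)| ≤ H * |y| := by
          intro i _
          rw [abs_mul, abs_pow]
          apply mul_le_mul (h2 i) _ (by positivity) hH
          calc |y| ^ ((i : ℕ) + 2) ≤ |y| ^ 1 := pow_le_pow_of_le_one (abs_nonneg _) hy1 (by omega)
            _ = |y| := pow_one _
        refine (Finset.sum_le_sum h5).trans (le_of_eq ?_)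
        rw [Finset.sum_const, Finset.card_univ, Fintype.card_fin, nsmul_eq_mul]
      have h5 : ((n : ℝ) + 1) * |y| ≤ 1 / 2 := by
        have := mul_le_mul_of_nonneg_left hy.le (by positivity : 0 ≤ (n : ℝ) + 1)
        refine this.trans (le_of_eq ?_)
        field_simp
      have h6 : H * (((n : ℝ) + 1) * |y|) ≤ H * (1 / 2) := mul_le_mul_of_nonneg_left h5 hH
      linarith
    rcases lt_or_ge s (H / 2) with hsH | hsH
    · have h1 : ((cbox n H).filter fun c => |(|g c y| - (H : ℝ))| ≤ s) = ∅ := by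
        rw [Finset.filter_eq_empty_iff]
        intro c hc hcon
        have h2 := hsmall c hc
        have h3 := (abs_le.1 hcon).1
        linarith
      rw [h1]
      simp only [Finset.card_empty, Nat.cast_zero]
      positivity
    · have h1 : (((cbox n H).filter fun c => |(|g c y| - (H : ℝ))| ≤ s).card : ℝ) ≤ (2 * (H : ℝ) + 1) ^ (n + 1) := by
        have h2 := Finset.card_filter_le (cbox n H) (fun c => |(|g c y| - (H : ℝ))| ≤ s)
        rw [card_cbox] at h2
        exact_mod_cast h2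
      refine h1.trans ?_
      rw [pow_succ]
      apply mul_le_mul_of_nonneg_left _ (by positivity)
      have h3 : 0 ≤ (n : ℝ) * s := by positivity
      nlinarith
  · have hy0 : 0 < |y| := lt_of_lt_of_le (by positivity) hy
    have hyne : y ≠ 0 := abs_pos.1 hy0
    have hsy : s / |y| ≤ 2 * ((n : ℝ) + 1) * s := by
      rw [div_le_iff₀ hy0]
      have h1 : 1 ≤ 2 * ((n : ℝ) + 1) * |y| := by
        have := mul_le_mul_of_nonneg_left hy (by positivity : 0 ≤ 2 * ((n : ℝ) + 1))
        have e : 2 * ((n : ℝ) + 1) * (1 / (2 * ((n : ℝ) + 1))) = 1 := by field_simp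
        linarith
      nlinarith
    have h1 : (((cbox n H).filter fun c => |(|g c y| - (H : ℝ))| ≤ s).card : ℝ) =
        ∑ c' ∈ (Fintype.piFinset fun _ : Fin n => Icc (-(H : ℤ)) H),
          (((Icc (-(H : ℤ)) H).filter fun a : ℤ => |(|g (a, c') y| - (H : ℝ))| ≤ s).card : ℝ) := by
      unfold cbox
      rw [Finset.card_filter, Finset.sum_product_right]
      push_cast
      refine Finset.sum_congr rfl fun c' _ => ?_
      rw [Finset.card_filter]
      push_cast
      rfl
    rw [h1]
    have h2 : ∀ c' ∈ (Fintype.piFinset fun _ : Fin n => Icc (-(H : ℤ)) (H : ℤ)),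
        (((Icc (-(H : ℤ)) H).filter fun a : ℤ => |(|g (a, c') y| - (H : ℝ))| ≤ s).card : ℝ) ≤
          8 * ((n : ℝ) + 1) * s + 2 := by
      intro c' _
      set R0 : ℝ := ∑ i : Fin n, (c' i : ℝ) * y ^ ((i : ℕ) + 2) with hR0
      have h3 : ((Icc (-(H : ℤ)) H).filter fun a : ℤ => |(|g (a, c') y| - (H : ℝ))| ≤ s) ⊆
          ((Icc (-(H : ℤ)) H).filter fun a : ℤ => |(a : ℝ) * y + R0 - H| ≤ s) ∪
          ((Icc (-(H : ℤ)) H).filter fun a : ℤ => |(a : ℝ) * y + R0 - (-H)| ≤ s) := by
        intro a ha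
        rw [mem_filter] at ha
        rw [mem_union, mem_filter, mem_filter]
        have h4 : g (a, c') y = (a : ℝ) * y + R0 := rfl
        rw [h4] at ha
        rcases le_total 0 ((a : ℝ) * y + R0) with h5 | h5
        · left
          rw [abs_of_nonneg h5] at ha
          exact ha
        · right
          refine ⟨ha.1, ?_⟩
          rw [abs_of_nonpos h5] at ha
          have h6 : (a : ℝ) * y + R0 - (-H) = -(-((a : ℝ) * y + R0) - H) := by ring
          rw [h6, abs_neg]
          exact ha.2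
      have h4 := (Finset.card_le_card h3).trans (Finset.card_union_le _ _)
      have h5 := int_lin H y R0 H s hyne hs
      have h6 := int_lin H y R0 (-H) s hyne hs
      have h7 : (((Icc (-(H : ℤ)) H).filter fun a : ℤ => |(|g (a, c') y| - (H : ℝ))| ≤ s).card : ℝ) ≤
          (((Icc (-(H : ℤ)) H).filter fun a : ℤ => |(a : ℝ) * y + R0 - H| ≤ s).card : ℝ) +
          (((Icc (-(H : ℤ)) H).filter fun a : ℤ => |(a : ℝ) * y + R0 - (-H)| ≤ s).card : ℝ) := by
        exact_mod_cast h4
      linarith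
    refine (Finset.sum_le_sum h2).trans (le_of_eq ?_)
    rw [Finset.sum_const, Fintype.card_piFinset_const, Int.card_Icc, nsmul_eq_mul]
    have : ((H : ℤ) + 1 - -(H : ℤ)).toNat = 2 * H + 1 := by omega
    rw [this]
    push_cast
    ring

end Pool.Agent.D0H53.AP
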