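import Pool.Agent.D0H53.AP.Law

set_option autoImplicit false

/-!
# Polynomials with integer coefficients; primitive polynomials
-/

open Finset Filter Topology

namespace Pool.Agent.D0H53.AP

open Pool.Agent.D0H53.PL (mu sum_moebius abs_mu_le)

/-- the pairs (polynomial, root) -/
def PP (n H : ℕ) (T : Set ℝ) : Set (Polynomial ℤ × ℝ) :=
  {p | p.1 ≠ 0 ∧ p.1.natDegree ≤ n + 1 ∧ (∀ i, |p.1.coeff i| ≤ (H : ℤ)) ∧ p.2 ∈ T ∧ Polynomial.aeval p.2 p.1 = 0}

/-- the coefficient vector -/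
noncomputable def toV (n : ℕ) (P : Polynomial ℤ) : ℤ × (Fin n → ℤ) := (P.coeff 1, fun i => P.coeff ((i : ℕ) + 2))

theorem aeval_toV (n : ℕ) (P : Polynomial ℤ) (hP : P.natDegree ≤ n + 1) (x : ℝ) :
    Polynomial.aeval x P = (P.coeff 0 : ℝ) + g (toV n P) x := by
  rw [Polynomial.aeval_eq_sum_range' (Nat.lt_succ_of_le hP), Finset.sum_range_succ', Finset.sum_range_succ',
    Finset.sum_range]
  unfold g toV
  simp only [zsmul_eq_mul, pow_zero, mul_one, zero_add, pow_one]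
  have h : ∀ i : Fin n, (P.coeff ((i : ℕ) + 1 + 1) : ℝ) * x ^ ((i : ℕ) + 1 + 1) =
      (P.coeff ((i : ℕ) + 2) : ℝ) * x ^ ((i : ℕ) + 2) := fun i => rfl
  rw [Finset.sum_congr rfl fun i _ => h i]
  ring

theorem ext_toV (n : ℕ) (P P' : Polynomial ℤ) (hP : P.natDegree ≤ n + 1) (hP' : P'.natDegree ≤ n + 1)
    (h0 : P.coeff 0 = P'.coeff 0) (h : toV n P = toV n P') : P = P' := by
  obtain ⟨h1, h2⟩ := Prod.mk.inj h
  ext i
  rcases Nat.lt_or_ge i (n + 2) with hi | hi
  · match i, hi with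
    | 0, _ => exact h0
    | 1, _ => exact h1
    | (j + 2), hi => exact congrFun h2 ⟨j, by omega⟩
  · rw [Polynomial.coeff_eq_zero_of_natDegree_lt (by omega), Polynomial.coeff_eq_zero_of_natDegree_lt (by omega)]

/-- the coefficients of the polynomial of a vector -/
def fV (n : ℕ) (a : ℤ) (c : ℤ × (Fin n → ℤ)) (i : ℕ) : ℤ :=
  if i = 0 then a else if i = 1 then c.1 else if h : i - 2 < n then c.2 ⟨i - 2, h⟩ else 0

/-- the polynomial of a vector -/
noncomputable def ofV (n : ℕ) (a : ℤ) (c : ℤ × (Fin n → ℤ)) : Polynomial ℤ :=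
  ∑ i ∈ range (n + 2), Polynomial.monomial i (fV n a c i)

theorem coeff_ofV (n : ℕ) (a : ℤ) (c : ℤ × (Fin n → ℤ)) (i : ℕ) :
    (ofV n a c).coeff i = if i < n + 2 then fV n a c i else 0 := by
  unfold ofV
  rw [Polynomial.finsetSum_coeff]
  simp only [Polynomial.coeff_monomial, Finset.sum_ite_eq', mem_range]

theorem deg_ofV (n : ℕ) (a : ℤ) (c : ℤ × (Fin n → ℤ)) : (ofV n a c).natDegree ≤ n + 1 := by
  rw [Polynomial.natDegree_le_iff_coeff_eq_zero]
  intro i hi
  rw [coeff_ofV, if_neg (by omega)]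

theorem toV_ofV (n : ℕ) (a : ℤ) (c : ℤ × (Fin n → ℤ)) : toV n (ofV n a c) = c := by
  unfold toV
  refine Prod.ext ?_ (funext fun i => ?_)
  · simp only [coeff_ofV]
    rw [if_pos (by omega)]
    unfold fV
    simp
  · simp only [coeff_ofV]
    have hi := i.2
    rw [if_pos (by omega)]
    unfold fV
    rw [if_neg (by omega), if_neg (by omega), dif_pos (by omega)]
    congr 1

theorem coeff_zero_ofV (n : ℕ) (a : ℤ) (c : ℤ × (Fin n → ℤ)) : (ofV n a c).coeff 0 = a := by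
  rw [coeff_ofV, if_pos (by omega)]
  unfold fV
  simp

theorem toV_maps (n H : ℕ) (T : Set ℝ) (p : Polynomial ℤ × ℝ) (hp : p ∈ PP n H T) :
    (toV n p.1, p.2) ∈ Fam n H T := by
  obtain ⟨h1, h2, h3, h4, h5⟩ := hp
  rw [aeval_toV n p.1 h2] at h5
  refine ⟨?_, ?_, h4, p.1.coeff 0, h3 0, h5⟩
  · rw [mem_cbox]
    exact ⟨h3 1, fun i => h3 _⟩
  · intro h0
    simp only at h0
    apply h1
    have h6 : g (toV n p.1) p.2 = 0 := by
      rw [h0]
      unfold g
      simp
    rw [h6, add_zero] at h5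
    apply ext_toV n p.1 0 h2 (by simp)
    · rw [Polynomial.coeff_zero]
      exact_mod_cast h5
    · rw [h0]
      unfold toV
      simp
      rfl

theorem toV_inj (n H : ℕ) (T : Set ℝ) : Set.InjOn (fun p : Polynomial ℤ × ℝ => (toV n p.1, p.2)) (PP n H T) := by
  rintro ⟨P, x⟩ ⟨-, h2, -, -, h5⟩ ⟨P', x'⟩ ⟨-, h2', -, -, h5'⟩ h
  obtain ⟨h6, h7⟩ := Prod.mk.inj h
  simp only at h2 h5 h2' h5' h6 h7
  subst h7
  rw [aeval_toV n P h2] at h5
  rw [aeval_toV n P' h2'] at h5'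
  have h8 : (P.coeff 0 : ℝ) = (P'.coeff 0 : ℝ) := by
    rw [h6] at h5
    linarith
  rw [Prod.mk.injEq]
  exact ⟨ext_toV n P P' h2 h2' (by exact_mod_cast h8) h6, rfl⟩

theorem PP_finite (n H : ℕ) (T : Set ℝ) : (PP n H T).Finite := by
  apply Set.Finite.of_finite_image _ (toV_inj n H T)
  apply (Fam_finite n H T).subset
  rintro _ ⟨p, hp, rfl⟩
  exact toV_maps n H T p hp

theorem PP_ncard (n H : ℕ) (T : Set ℝ) : (PP n H T).ncard = Zc n H T := by
  rw [← Fam_ncard]
  refine Set.ncard_congr (fun p _ => (toV n p.1, p.2)) (fun p hp => toV_maps n H T p hp)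
    (fun p p' hp hp' h => toV_inj n H T hp hp' h) ?_
  rintro ⟨c, x⟩ ⟨h1, h2, h3, a, h4, h5⟩
  simp only at h1 h2 h3 h5
  rw [mem_cbox] at h1
  refine ⟨(ofV n a c, x), ⟨?_, deg_ofV n a c, ?_, h3, ?_⟩, ?_⟩
  · intro h0
    simp only at h0
    apply h2
    rw [← toV_ofV n a c, h0]
    unfold toV
    simp
    rfl
  · intro i
    simp only [coeff_ofV]
    split_ifs with hi
    · unfold fV
      split_ifs with e1 e2 e3
      · exact h4
      · exact h1.1
      · exact h1.2 _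
      · simp
    · simp
  · simp only
    rw [aeval_toV n _ (deg_ofV n a c), coeff_zero_ofV, toV_ofV]
    exact h5
  · simp only [toV_ofV]

/-! ## primitive polynomials -/

/-- the pairs (primitive polynomial, root) -/
def PQ (n H : ℕ) (T : Set ℝ) : Set (Polynomial ℤ × ℝ) := {p | p ∈ PP n H T ∧ p.1.IsPrimitive}

theorem PQ_finite (n H : ℕ) (T : Set ℝ) : (PQ n H T).Finite := (PP_finite n H T).subset fun _ h => h.1

theorem content_nat (P : Polynomial ℤ) : ((P.content.natAbs : ℕ) : ℤ) = P.content := by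
  have h := Polynomial.normalize_content (p := P)
  rw [← Int.abs_eq_normalize] at h
  rw [Int.natCast_natAbs, h]

theorem content_pos (P : Polynomial ℤ) (hP : P ≠ 0) : 0 < P.content.natAbs := by
  rw [Nat.pos_iff_ne_zero, Int.natAbs_ne_zero]
  intro h
  exact hP (Polynomial.content_eq_zero_iff.1 h)

theorem content_le {H : ℕ} (P : Polynomial ℤ) (hP : P ≠ 0) (h : ∀ i, |P.coeff i| ≤ (H : ℤ)) :
    P.content.natAbs ≤ H := by
  obtain ⟨i, hi⟩ : ∃ i, P.coeff i ≠ 0 := by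
    by_contra hcon
    push Not at hcon
    exact hP (Polynomial.ext fun i => by rw [hcon i, Polynomial.coeff_zero])
  have h1 := Polynomial.content_dvd_coeff (p := P) i
  have h2 : P.content.natAbs ≤ (P.coeff i).natAbs :=
    Nat.le_of_dvd (Int.natAbs_pos.2 hi) (Int.natAbs_dvd_natAbs.2 h1)
  have h3 := h i
  rw [← Int.natCast_natAbs] at h3
  have h4 : (P.coeff i).natAbs ≤ H := by exact_mod_cast h3
  exact h2.trans h4

theorem prim_iff (P : Polynomial ℤ) : P.IsPrimitive ↔ P.content.natAbs = 1 := by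
  constructor
  · intro h
    rw [Polynomial.isPrimitive_iff_content_eq_one.1 h]
    rfl
  · intro h
    rw [Polynomial.isPrimitive_iff_content_eq_one, ← content_nat, h]
    rfl

theorem C_dvd_iff (P : Polynomial ℤ) (m : ℕ) : Polynomial.C (m : ℤ) ∣ P ↔ m ∣ P.content.natAbs := by
  rw [← Polynomial.dvd_content_iff_C_dvd, Int.natCast_dvd]

theorem mult_ncard (n H m : ℕ) (hm : 1 ≤ m) (T : Set ℝ) :
    {p ∈ PP n H T | Polynomial.C (m : ℤ) ∣ p.1}.ncard = (PP n (H / m) T).ncard := by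
  symm
  have hmZ : (0 : ℤ) < m := by exact_mod_cast hm
  have hmR : (m : ℝ) ≠ 0 := by exact_mod_cast (by omega : m ≠ 0)
  have hcoef : ∀ c : ℤ, |(m : ℤ) * c| ≤ (H : ℤ) ↔ |c| ≤ ((H / m : ℕ) : ℤ) := by
    intro c
    rw [abs_mul, Nat.abs_cast, Int.natCast_div, Int.le_ediv_iff_mul_le hmZ, mul_comm]
  have hdeg : ∀ P : Polynomial ℤ, (Polynomial.C (m : ℤ) * P).natDegree = P.natDegree := fun P =>
    Polynomial.natDegree_C_mul hmZ.ne'
  have hev : ∀ (P : Polynomial ℤ) (x : ℝ), Polynomial.aeval x (Polynomial.C (m : ℤ) * P) = 0 ↔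
      Polynomial.aeval x P = 0 := by
    intro P x
    rw [map_mul, Polynomial.aeval_C, mul_eq_zero]
    simp only [algebraMap_int_eq, eq_intCast, Int.cast_natCast]
    constructor
    · rintro (h | h)
      · exact absurd h hmR
      · exact h
    · exact Or.inr
  have hC0 : Polynomial.C (m : ℤ) ≠ 0 := by
    rw [Ne, Polynomial.C_eq_zero]
    exact hmZ.ne'
  refine Set.ncard_congr (fun p _ => (Polynomial.C (m : ℤ) * p.1, p.2)) ?_ ?_ ?_
  · rintro ⟨P, x⟩ ⟨h1, h2, h3, h4, h5⟩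
    simp only at h1 h2 h3 h4 h5
    refine ⟨⟨mul_ne_zero hC0 h1, ?_, ?_, h4, (hev P x).2 h5⟩, Dvd.intro P rfl⟩
    · simp only [hdeg]; exact h2
    · intro i
      simp only [Polynomial.coeff_C_mul]
      exact (hcoef _).2 (h3 i)
  · rintro ⟨P, x⟩ ⟨P', x'⟩ _ _ h
    obtain ⟨h6, h7⟩ := Prod.mk.inj h
    rw [Prod.mk.injEq]
    exact ⟨mul_left_cancel₀ hC0 h6, h7⟩
  · rintro ⟨P, x⟩ ⟨⟨h1, h2, h3, h4, h5⟩, P', h6⟩
    simp only at h1 h2 h3 h4 h5 h6
    subst h6
    refine ⟨(P', x), ⟨?_, ?_, ?_, h4, (hev P' x).1 h5⟩, rfl⟩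
    · rintro rfl
      exact h1 (mul_zero _)
    · rw [hdeg] at h2; exact h2
    · intro i
      have := h3 i
      rw [Polynomial.coeff_C_mul] at this
      exact (hcoef _).1 this

/-- Moebius inversion for the primitive polynomials -/
theorem PQ_moebius (n H : ℕ) (T : Set ℝ) :
    ((PQ n H T).ncard : ℝ) = ∑ m ∈ Icc 1 H, mu m * (Zc n (H / m) T : ℝ) := by
  classical
  set F := (PP_finite n H T).toFinset with hF
  have h1 : ∀ p ∈ F, (if p.1.IsPrimitive then (1 : ℝ) else 0) =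
      ∑ m ∈ Icc 1 H, if Polynomial.C (m : ℤ) ∣ p.1 then mu m else 0 := by
    intro p hp
    rw [hF, Set.Finite.mem_toFinset] at hp
    obtain ⟨h1, -, h3, -, -⟩ := hp
    have hc0 := content_pos p.1 h1
    have hcH := content_le p.1 h1 h3
    have h2 : (Icc 1 H).filter (fun m : ℕ => Polynomial.C (m : ℤ) ∣ p.1) = p.1.content.natAbs.divisors := by
      ext m
      rw [mem_filter, mem_Icc, Nat.mem_divisors, C_dvd_iff]
      constructor
      · rintro ⟨-, h4⟩
        exact ⟨h4, hc0.ne'⟩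
      · rintro ⟨h4, -⟩
        have h5 := Nat.le_of_dvd hc0 h4
        have h6 := Nat.pos_of_dvd_of_pos h4 hc0
        exact ⟨⟨h6, h5.trans hcH⟩, h4⟩
    rw [← Finset.sum_filter, h2, sum_moebius _ hc0.ne', prim_iff]
    split_ifs <;> rfl
  have h2 : ((PQ n H T).ncard : ℝ) = ∑ p ∈ F, if p.1.IsPrimitive then (1 : ℝ) else 0 := by
    rw [Finset.sum_boole, ← Set.ncard_coe_finset]
    congr 2
    ext p
    rw [Finset.mem_coe, Finset.mem_filter, hF, Set.Finite.mem_toFinset]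
    rfl
  rw [h2, Finset.sum_congr rfl h1, Finset.sum_comm]
  refine Finset.sum_congr rfl fun m hm => ?_
  rw [mem_Icc] at hm
  rw [← Finset.sum_filter, Finset.sum_const, nsmul_eq_mul, mul_comm, ← PP_ncard, ← mult_ncard n H m hm.1 T,
    ← Set.ncard_coe_finset]
  congr 3
  ext p
  rw [Finset.mem_coe, Finset.mem_filter, hF, Set.Finite.mem_toFinset]
  rfl

theorem Zc_le_prim (n H : ℕ) (T : Set ℝ) : Zc n H T ≤ ∑ m ∈ Icc 1 H, (PQ n (H / m) T).ncard := by
  classical
  rw [← PP_ncard, Set.ncard_eq_toFinset_card _ (PP_finite n H T)]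
  rw [Finset.card_eq_sum_card_fiberwise (f := fun p => p.1.content.natAbs) (t := Icc 1 H) (by
    intro p hp
    rw [Finset.mem_coe, Set.Finite.mem_toFinset] at hp
    rw [Finset.mem_coe, mem_Icc]
    exact ⟨content_pos p.1 hp.1, content_le p.1 hp.1 hp.2.2.1⟩)]
  refine Finset.sum_le_sum fun m hm => ?_
  rw [mem_Icc] at hm
  rw [← Set.ncard_coe_finset]
  refine Set.ncard_le_ncard_of_injOn (fun p => (p.1.primPart, p.2)) ?_ ?_ (PQ_finite n (H / m) T)
  · rintro ⟨P, x⟩ hp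
    rw [Finset.mem_coe, Finset.mem_filter, Set.Finite.mem_toFinset] at hp
    obtain ⟨⟨h1, h2, h3, h4, h5⟩, h6⟩ := hp
    simp only at h1 h2 h3 h4 h5 h6
    have hmZ : (0 : ℤ) < m := by exact_mod_cast hm.1
    have hcon : P.content = (m : ℤ) := by rw [← content_nat, h6]
    have hdec := P.eq_C_content_mul_primPart
    rw [hcon] at hdec
    refine ⟨⟨P.primPart_ne_zero, ?_, ?_, h4, ?_⟩, P.isPrimitive_primPart⟩
    · simp only [Polynomial.natDegree_primPart]; exact h2
    · intro i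
      simp only
      have h7 := h3 i
      rw [hdec, Polynomial.coeff_C_mul, abs_mul, Nat.abs_cast] at h7
      rw [Int.natCast_div, Int.le_ediv_iff_mul_le hmZ, mul_comm]
      exact h7
    · simp only
      rw [hdec, map_mul, Polynomial.aeval_C, mul_eq_zero] at h5
      rcases h5 with h5 | h5
      · simp only [algebraMap_int_eq, eq_intCast, Int.cast_natCast] at h5
        exact absurd h5 (by exact_mod_cast (by omega : m ≠ 0))
      · exact h5
  · rintro ⟨P, x⟩ hp ⟨P', x'⟩ hp' h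
    rw [Finset.mem_coe, Finset.mem_filter, Set.Finite.mem_toFinset] at hp hp'
    obtain ⟨h6, h7⟩ := Prod.mk.inj h
    have h8 := hp.2
    have h9 := hp'.2
    simp only at h8 h9
    rw [Prod.mk.injEq]
    refine ⟨?_, h7⟩
    rw [P.eq_C_content_mul_primPart, P'.eq_C_content_mul_primPart, h6, ← content_nat P, ← content_nat P', h8, h9]

end Pool.Agent.D0H53.AP
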