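import Pool.Agent.D0H53.AP.Pol
import Pool.Agent.D0H53.AP.Gen

set_option autoImplicit false

/-!
# The Poisson law for the primitive polynomials
-/

open Finset Filter Topology

namespace Pool.Agent.D0H53.AP

open Pool.Agent.D0H53.PL

/-- an upper bound for the number of the pairs -/
theorem Zc_up (n : ℕ) (k : ℤ) : ∃ C : ℝ, 0 < C ∧ ∀ H : ℕ, 1 ≤ H → ∀ T : Set ℝ, T ⊆ Set.Ico (k : ℝ) (k + 1) →
    (Zc n H T : ℝ) ≤ C * (H : ℝ) ^ (n + 2) := by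
  set B : ℝ := |(k : ℝ)| + 2 with hB
  have hB1 : 1 ≤ B := by rw [hB]; linarith [abs_nonneg (k : ℝ)]
  obtain ⟨C1, hC1, hcount⟩ := count_int n B hB1
  obtain ⟨C3, hC3, hle⟩ := RR_le n B hB1
  refine ⟨C3 + 2 * C1, by positivity, ?_⟩
  intro H hH T hT
  have hH1 : (1 : ℝ) ≤ H := by exact_mod_cast hH
  have hy : |(k : ℝ) + 1 / 2| ≤ |(k : ℝ)| + 1 / 2 := by
    refine (abs_add_le _ _).trans ?_
    rw [abs_of_pos (by norm_num : (0 : ℝ) < 1 / 2)]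
  have h1 := hcount H hH (k + 1 / 2) (1 / 2) (by norm_num) (by norm_num) (by rw [hB]; linarith)
  have h2 := hle H hH (k + 1 / 2) (by rw [hB]; linarith)
  have h3 : (Zc n H T : ℝ) ≤ (Zc n H (Set.Icc ((k : ℝ) + 1 / 2 - 1 / 2) (k + 1 / 2 + 1 / 2)) : ℝ) := by
    have : T ⊆ Set.Icc ((k : ℝ) + 1 / 2 - 1 / 2) (k + 1 / 2 + 1 / 2) := by
      intro x hx
      have := hT hx
      constructor <;> linarith [this.1, this.2]
    exact_mod_cast Zc_mono n H this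
  have h4 := (abs_le.1 h1).2
  have h5 : (H : ℝ) ^ (n + 1) ≤ (H : ℝ) ^ (n + 2) := pow_le_pow_right₀ hH1 (by omega)
  have h6 : C1 * ((H : ℝ) ^ (n + 2) * (1 / 2) ^ 2 + (H : ℝ) ^ (n + 1)) ≤ 2 * C1 * (H : ℝ) ^ (n + 2) := by
    have h7 : (H : ℝ) ^ (n + 2) * (1 / 2) ^ 2 + (H : ℝ) ^ (n + 1) ≤ 2 * (H : ℝ) ^ (n + 2) := by
      have : (0 : ℝ) ≤ (H : ℝ) ^ (n + 2) := by positivity
      nlinarith
    have := mul_le_mul_of_nonneg_left h7 hC1.le
    linarith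
  linarith

theorem tail_sum (n : ℕ) (C : ℝ) (hC : 0 ≤ C) (D : ℕ → ℝ) (hD : ∀ h, 1 ≤ h → |D h| ≤ C * (h : ℝ) ^ (n + 2))
    (H M : ℕ) (hM : 1 ≤ M) : ∑ m ∈ Ioc M H, |D (H / m)| ≤ C * (H : ℝ) ^ (n + 2) / M := by
  have hM0 : (0 : ℝ) < M := by exact_mod_cast hM
  rcases Nat.lt_or_ge H M with h | h
  · rw [Finset.Ioc_eq_empty (by omega), Finset.sum_empty]
    positivity
  have hH0 : (0 : ℝ) < H := by exact_mod_cast (by omega : 0 < H)
  have h1 : ∀ m ∈ Ioc M H, |D (H / m)| ≤ C * (H : ℝ) ^ (n + 2) * ((m : ℝ) ^ 2)⁻¹ := by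
    intro m hm
    rw [mem_Ioc] at hm
    have hm0 : 0 < m := by omega
    have hmR : (1 : ℝ) ≤ m := by exact_mod_cast hm0
    have h2 : 1 ≤ H / m := (Nat.one_le_div_iff hm0).2 hm.2
    refine (hD _ h2).trans ?_
    rw [mul_assoc]
    apply mul_le_mul_of_nonneg_left _ hC
    have h3 : ((H / m : ℕ) : ℝ) ≤ (H : ℝ) / m := Nat.cast_div_le
    calc ((H / m : ℕ) : ℝ) ^ (n + 2) ≤ ((H : ℝ) / m) ^ (n + 2) := pow_le_pow_left₀ (Nat.cast_nonneg _) h3 _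
      _ = (H : ℝ) ^ (n + 2) * ((m : ℝ) ^ (n + 2))⁻¹ := by rw [div_pow, div_eq_mul_inv]
      _ ≤ (H : ℝ) ^ (n + 2) * ((m : ℝ) ^ 2)⁻¹ := by
          apply mul_le_mul_of_nonneg_left _ (by positivity)
          apply inv_anti₀ (by positivity)
          exact pow_le_pow_right₀ hmR (by omega)
  refine (Finset.sum_le_sum h1).trans ?_
  rw [← Finset.mul_sum, div_eq_mul_inv]
  apply mul_le_mul_of_nonneg_left _ (by positivity)
  refine (sum_Ioc_inv_sq_le_sub (α := ℝ) (by omega) h).trans ?_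
  have : (0 : ℝ) < (H : ℝ)⁻¹ := by positivity
  linarith

theorem PP_mono (n : ℕ) {H H' : ℕ} (h : H ≤ H') (T : Set ℝ) : PP n H T ⊆ PP n H' T := by
  rintro p ⟨h1, h2, h3, h4, h5⟩
  exact ⟨h1, h2, fun i => (h3 i).trans (by exact_mod_cast h), h4, h5⟩

theorem PQ_mono (n : ℕ) {H H' : ℕ} (h : H ≤ H') (T : Set ℝ) : (PQ n H T).ncard ≤ (PQ n H' T).ncard :=
  Set.ncard_le_ncard (fun _ hp => ⟨PP_mono n h T hp.1, hp.2⟩) (PQ_finite n H' T)

theorem Icc_split (M H : ℕ) (h : M ≤ H) (f : ℕ → ℝ) :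
    ∑ m ∈ Icc 1 H, f m = ∑ m ∈ Icc 1 M, f m + ∑ m ∈ Ioc M H, f m := by
  have h1 : Icc 1 H = Icc 1 M ∪ Ioc M H := by
    ext m
    simp only [mem_union, mem_Icc, mem_Ioc]
    omega
  rw [h1, Finset.sum_union (by
    rw [Finset.disjoint_left]
    intro m hm hm'
    rw [mem_Icc] at hm
    rw [mem_Ioc] at hm'
    omega)]

/-- the number of the pairs (primitive polynomial, root) -/
theorem PQ_ge (n : ℕ) (k : ℤ) : ∃ c : ℝ, 0 < c ∧ ∃ H₀ : ℕ, 1 ≤ H₀ ∧ ∀ H : ℕ, H₀ ≤ H →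
    c * (H : ℝ) ^ (n + 2) ≤ ((PQ n H (Set.Ico (k : ℝ) (k + 1))).ncard : ℝ) := by
  obtain ⟨c, hc, H₀, hH₀, hge⟩ := total_ge n k
  obtain ⟨C, hC, hup⟩ := Zc_up n k
  set M : ℕ := ⌈2 * C / c⌉₊ + 1 with hM
  have hM1 : 1 ≤ M := by omega
  have hM0 : (0 : ℝ) < M := by exact_mod_cast hM1
  have hMC : 2 * C / c ≤ M := by
    rw [hM]
    push_cast
    have := Nat.le_ceil (2 * C / c)
    linarith
  refine ⟨c / (2 * M), by positivity, max H₀ M, le_max_of_le_left hH₀, ?_⟩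
  intro H hH
  have hH0 : H₀ ≤ H := (le_max_left _ _).trans hH
  have hHM : M ≤ H := (le_max_right _ _).trans hH
  have h1 := hge H hH0
  have h2 : (Zc n H (Set.Ico (k : ℝ) (k + 1)) : ℝ) ≤
      ∑ m ∈ Icc 1 H, ((PQ n (H / m) (Set.Ico (k : ℝ) (k + 1))).ncard : ℝ) := by
    exact_mod_cast Zc_le_prim n H (Set.Ico (k : ℝ) (k + 1))
  rw [Icc_split M H hHM] at h2
  have h3 : ∑ m ∈ Icc 1 M, ((PQ n (H / m) (Set.Ico (k : ℝ) (k + 1))).ncard : ℝ) ≤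
      M * ((PQ n H (Set.Ico (k : ℝ) (k + 1))).ncard : ℝ) := by
    refine (Finset.sum_le_card_nsmul _ _ ((PQ n H (Set.Ico (k : ℝ) (k + 1))).ncard : ℝ) ?_).trans (le_of_eq ?_)
    · intro m _
      exact_mod_cast PQ_mono n (Nat.div_le_self H m) _
    · rw [Nat.card_Icc, nsmul_eq_mul, Nat.add_sub_cancel]
  have h4 : ∑ m ∈ Ioc M H, ((PQ n (H / m) (Set.Ico (k : ℝ) (k + 1))).ncard : ℝ) ≤ C * (H : ℝ) ^ (n + 2) / M := by
    have h5 := tail_sum n C hC.le (fun h => ((PQ n h (Set.Ico (k : ℝ) (k + 1))).ncard : ℝ)) (by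
      intro h hh
      rw [Nat.abs_cast]
      refine le_trans ?_ (hup h hh _ (le_refl _))
      rw [← PP_ncard]
      have hsub : PQ n h (Set.Ico (k : ℝ) (k + 1)) ⊆ PP n h (Set.Ico (k : ℝ) (k + 1)) := fun _ hp => hp.1
      exact_mod_cast Set.ncard_le_ncard hsub (PP_finite n h _)) H M hM1
    simpa using h5
  have h5 : C * (H : ℝ) ^ (n + 2) / M ≤ c / 2 * (H : ℝ) ^ (n + 2) := by
    rw [div_le_iff₀ hM0]
    rw [div_le_iff₀ hc] at hMC
    have h6 : C ≤ c / 2 * M := by linarith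
    have := mul_le_mul_of_nonneg_right h6 (by positivity : (0 : ℝ) ≤ (H : ℝ) ^ (n + 2))
    linarith
  have h6 : c / 2 * (H : ℝ) ^ (n + 2) ≤ M * ((PQ n H (Set.Ico (k : ℝ) (k + 1))).ncard : ℝ) := by linarith
  have e : c / (2 * M) * (H : ℝ) ^ (n + 2) = (c / 2 * (H : ℝ) ^ (n + 2)) / M := by field_simp
  rw [e, div_le_iff₀ hM0]
  linarith

theorem pow_window (κ κ' : ℝ) (hκ0 : 0 ≤ κ) (hκ : κ < κ') (M : ℕ) (hM : 1 ≤ M) : ∃ H₀ : ℕ, ∀ H : ℕ, H₀ ≤ H →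
    ∀ m ∈ Icc 1 M, (H : ℝ) ^ κ ≤ ((H / m : ℕ) : ℝ) ^ κ' := by
  have hM0 : (0 : ℝ) < M := by exact_mod_cast hM
  obtain ⟨H₁, hH₁⟩ := Filter.eventually_atTop.1
    ((pow_tendsto (κ' - κ) (by linarith)).eventually_ge_atTop ((2 * (M : ℝ)) ^ κ'))
  refine ⟨max H₁ (2 * M), fun H hH m hm => ?_⟩
  rw [mem_Icc] at hm
  have h1 := hH₁ H ((le_max_left _ _).trans hH)
  have h2 : 2 * M ≤ H := (le_max_right _ _).trans hH
  have h2R : 2 * (M : ℝ) ≤ H := by exact_mod_cast h2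
  have hH0 : (0 : ℝ) < H := by linarith
  have hm0 : (0 : ℝ) < m := by exact_mod_cast hm.1
  have hmM : (m : ℝ) ≤ M := by exact_mod_cast hm.2
  have h3 : (H : ℝ) / (2 * M) ≤ ((H / m : ℕ) : ℝ) := by
    have h4 : H < m * (H / m + 1) := Nat.lt_mul_div_succ H hm.1
    have h5 : (H : ℝ) < m * (((H / m : ℕ) : ℝ) + 1) := by exact_mod_cast h4
    have h6 : (H : ℝ) < M * (((H / m : ℕ) : ℝ) + 1) := lt_of_lt_of_le h5 (by
      apply mul_le_mul_of_nonneg_right hmM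
      positivity)
    rw [div_le_iff₀ (by positivity)]
    nlinarith
  calc (H : ℝ) ^ κ = (H : ℝ) ^ κ' / (H : ℝ) ^ (κ' - κ) := by
        rw [← Real.rpow_sub hH0]
        congr 1
        ring
    _ ≤ (H : ℝ) ^ κ' / (2 * (M : ℝ)) ^ κ' :=
        div_le_div_of_nonneg_left (by positivity) (by positivity) h1
    _ = ((H : ℝ) / (2 * M)) ^ κ' := by rw [Real.div_rpow hH0.le (by positivity)]
    _ ≤ ((H / m : ℕ) : ℝ) ^ κ' := Real.rpow_le_rpow (by positivity) h3 (by linarith)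

/-- the Poisson law for the primitive polynomials -/
theorem prim_law (n : ℕ) (k : ℤ) : LawZ (fun H T => ((PQ n H T).ncard : ℝ)) (Set.Ico (k : ℝ) (k + 1)) := by
  intro κ hκ L hL ε hε
  set I : Set ℝ := Set.Ico (k : ℝ) (k + 1) with hI
  set κ0 : ℝ := max κ 0 with hκ0
  have hκ00 : 0 ≤ κ0 := le_max_right _ _
  have hκ01 : κ0 < 1 := max_lt hκ (by norm_num)
  set κ' : ℝ := (κ0 + 1) / 2 with hκ'
  obtain ⟨c, hc, H₁, hH₁, hge⟩ := PQ_ge n k
  obtain ⟨C, hC, hup⟩ := Zc_up n k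
  set M : ℕ := ⌈2 * C / (ε * c)⌉₊ + 1 with hM
  have hM1 : 1 ≤ M := by omega
  have hM0 : (0 : ℝ) < M := by exact_mod_cast hM1
  have hMC : 2 * C / (ε * c) ≤ M := by
    rw [hM]
    push_cast
    have := Nat.le_ceil (2 * C / (ε * c))
    linarith
  obtain ⟨δ₀, hδ₀, H₂, hH₂, hlaw⟩ := alg_law n k κ' (by rw [hκ']; linarith) L hL (ε * c / (2 * M * C)) (by positivity)
  obtain ⟨H₃, hwin⟩ := pow_window κ0 κ' hκ00 (by rw [hκ']; linarith) M hM1
  refine ⟨δ₀, hδ₀, max (max H₁ (M * H₂)) (max H₃ M), le_max_of_le_left (le_max_of_le_left hH₁), ?_⟩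
  intro H hH Q1 Q2 hQ1 hQ2 δ hanti hnn hsmall hmean y hy0 hyL hyM A
  have hHa : H₁ ≤ H := (le_max_left _ _).trans ((le_max_left _ _).trans hH)
  have hHb : M * H₂ ≤ H := (le_max_right _ _).trans ((le_max_left _ _).trans hH)
  have hHc : H₃ ≤ H := (le_max_left _ _).trans ((le_max_right _ _).trans hH)
  have hHd : M ≤ H := (le_max_right _ _).trans ((le_max_right _ _).trans hH)
  have hH1 : 1 ≤ H := hM1.trans hHd
  have hHR : (1 : ℝ) ≤ H := by exact_mod_cast hH1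
  set X : Set ℝ := XA Q1 Q2 δ A with hX
  set po' : ℝ := (ProbabilityTheory.poissonMeasure y.toNNReal).real A with hpo
  have hpo0 : 0 ≤ po' := MeasureTheory.measureReal_nonneg
  have hpo1 : po' ≤ 1 := MeasureTheory.measureReal_le_one
  set D : ℕ → ℝ := fun h => (Zc n h (I ∩ X) : ℝ) - po' * (Zc n h I : ℝ) with hD
  have hDle : ∀ h, 1 ≤ h → |D h| ≤ C * (h : ℝ) ^ (n + 2) := by
    intro h hh
    have h1 := hup h hh I (le_refl _)
    have h2 : (Zc n h (I ∩ X) : ℝ) ≤ (Zc n h I : ℝ) := by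
      exact_mod_cast Zc_mono n h Set.inter_subset_left
    have h3 : (0 : ℝ) ≤ (Zc n h (I ∩ X) : ℝ) := Nat.cast_nonneg _
    have h4 : (0 : ℝ) ≤ (Zc n h I : ℝ) := Nat.cast_nonneg _
    have h5 : po' * (Zc n h I : ℝ) ≤ (Zc n h I : ℝ) := mul_le_of_le_one_left h4 hpo1
    have h6 : 0 ≤ po' * (Zc n h I : ℝ) := by positivity
    simp only [hD]
    rw [abs_le]
    constructor <;> linarith
  have hmain : ((PQ n H (I ∩ X)).ncard : ℝ) - po' * ((PQ n H I).ncard : ℝ) = ∑ m ∈ Icc 1 H, mu m * D (H / m) := by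
    rw [PQ_moebius, PQ_moebius, Finset.mul_sum, ← Finset.sum_sub_distrib]
    refine Finset.sum_congr rfl fun m _ => ?_
    simp only [hD]
    ring
  have h1 : |∑ m ∈ Icc 1 H, mu m * D (H / m)| ≤ ∑ m ∈ Icc 1 H, |D (H / m)| := by
    refine (Finset.abs_sum_le_sum_abs _ _).trans (Finset.sum_le_sum fun m _ => ?_)
    rw [abs_mul]
    exact mul_le_of_le_one_left (abs_nonneg _) (abs_mu_le m)
  rw [Icc_split M H hHd (fun m => |D (H / m)|)] at h1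
  have h2 := tail_sum n C hC.le D hDle H M hM1
  have h3 : ∑ m ∈ Icc 1 M, |D (H / m)| ≤ M * (ε * c / (2 * M * C) * (C * (H : ℝ) ^ (n + 2))) := by
    refine (Finset.sum_le_card_nsmul _ _ (ε * c / (2 * M * C) * (C * (H : ℝ) ^ (n + 2))) ?_).trans (le_of_eq ?_)
    · intro m hm
      have hm' := mem_Icc.1 hm
      have h4 : H₂ ≤ H / m := by
        rw [Nat.le_div_iff_mul_le hm'.1]
        calc H₂ * m ≤ H₂ * M := Nat.mul_le_mul_left _ hm'.2
          _ = M * H₂ := mul_comm _ _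
          _ ≤ H := hHb
      have h5 : (Q2 : ℝ) ≤ ((H / m : ℕ) : ℝ) ^ κ' := by
        refine hQ2.trans (le_trans ?_ (hwin H hHc m hm))
        exact Real.rpow_le_rpow_of_exponent_le hHR (le_max_left _ _)
      have h6 := hlaw (H / m) h4 Q1 Q2 hQ1 h5 δ hanti hnn hsmall hmean y hy0 hyL hyM A
      refine h6.trans ?_
      apply mul_le_mul_of_nonneg_left _ (by positivity)
      refine (hup (H / m) (hH₂.trans h4) I (le_refl _)).trans ?_
      apply mul_le_mul_of_nonneg_left _ hC.le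
      apply pow_le_pow_left₀ (Nat.cast_nonneg _)
      exact_mod_cast Nat.div_le_self H m
    · rw [Nat.card_Icc, nsmul_eq_mul, Nat.add_sub_cancel]
  have h4 : M * (ε * c / (2 * M * C) * (C * (H : ℝ) ^ (n + 2))) = ε * c / 2 * (H : ℝ) ^ (n + 2) := by
    field_simp
  have h5 : C * (H : ℝ) ^ (n + 2) / M ≤ ε * c / 2 * (H : ℝ) ^ (n + 2) := by
    rw [div_le_iff₀ hM0]
    rw [div_le_iff₀ (by positivity)] at hMC
    have h6 : C ≤ ε * c / 2 * M := by linarith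
    have := mul_le_mul_of_nonneg_right h6 (by positivity : (0 : ℝ) ≤ (H : ℝ) ^ (n + 2))
    linarith
  have h6 := hge H hHa
  have h7 : ε * (c * (H : ℝ) ^ (n + 2)) ≤ ε * ((PQ n H I).ncard : ℝ) := mul_le_mul_of_nonneg_left h6 hε.le
  rw [hmain]
  refine le_trans (h1.trans ?_) h7
  linarith

end Pool.Agent.D0H53.AP
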