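import Mathlib

set_option autoImplicit false

/-!
# Counting the real roots of the polynomials of bounded height in short intervals: one polynomial
-/

open Finset Filter Topology

namespace Pool.Agent.D0H53.AP

variable {n : ℕ}

/-- the polynomial `c₁ x + c₂ x² + …` -/
noncomputable def g (c : ℤ × (Fin n → ℤ)) (x : ℝ) : ℝ := (c.1 : ℝ) * x + ∑ i : Fin n, (c.2 i : ℝ) * x ^ ((i : ℕ) + 2)

/-- its derivative -/
noncomputable def g' (c : ℤ × (Fin n → ℤ)) (x : ℝ) : ℝ :=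
  (c.1 : ℝ) + ∑ i : Fin n, (c.2 i : ℝ) * ((((i : ℕ) + 2 : ℕ) : ℝ) * x ^ ((i : ℕ) + 1))

/-- the coefficient vectors -/
noncomputable def cbox (n H : ℕ) : Finset (ℤ × (Fin n → ℤ)) :=
  (Icc (-(H : ℤ)) H) ×ˢ (Fintype.piFinset fun _ : Fin n => Icc (-(H : ℤ)) H)

theorem mem_cbox {H : ℕ} {c : ℤ × (Fin n → ℤ)} : c ∈ cbox n H ↔ |c.1| ≤ (H : ℤ) ∧ ∀ i, |c.2 i| ≤ (H : ℤ) := by
  unfold cbox
  rw [mem_product, Fintype.mem_piFinset]
  simp only [mem_Icc, abs_le]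

theorem cbox_real {H : ℕ} {c : ℤ × (Fin n → ℤ)} (hc : c ∈ cbox n H) :
    |(c.1 : ℝ)| ≤ H ∧ ∀ i, |(c.2 i : ℝ)| ≤ H := by
  rw [mem_cbox] at hc
  refine ⟨?_, fun i => ?_⟩
  · have := hc.1
    rw [← Int.cast_abs]
    exact_mod_cast this
  · have := hc.2 i
    rw [← Int.cast_abs]
    exact_mod_cast this

/-- the constant -/
noncomputable def KB (n : ℕ) (B : ℝ) : ℝ := 1 + ∑ i : Fin n, (((i : ℕ) + 2 : ℕ) : ℝ) ^ 2 * B ^ ((i : ℕ) + 2)

theorem KB_ge (B : ℝ) (hB : 1 ≤ B) : 1 ≤ KB n B := by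
  unfold KB
  have : 0 ≤ ∑ i : Fin n, (((i : ℕ) + 2 : ℕ) : ℝ) ^ 2 * B ^ ((i : ℕ) + 2) :=
    Finset.sum_nonneg fun i _ => by positivity
  linarith

theorem hasDeriv (c : ℤ × (Fin n → ℤ)) (x : ℝ) : HasDerivAt (g c) (g' c x) x := by
  unfold g g'
  have h1 : HasDerivAt (fun x : ℝ => (c.1 : ℝ) * x) (c.1 : ℝ) x := by
    simpa using (hasDerivAt_id x).const_mul (c.1 : ℝ)
  have h2 : HasDerivAt (fun x : ℝ => ∑ i : Fin n, (c.2 i : ℝ) * x ^ ((i : ℕ) + 2))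
      (∑ i : Fin n, (c.2 i : ℝ) * ((((i : ℕ) + 2 : ℕ) : ℝ) * x ^ ((i : ℕ) + 1))) x := by
    have h3 : ∀ i ∈ (Finset.univ : Finset (Fin n)), HasDerivAt (fun x : ℝ => (c.2 i : ℝ) * x ^ ((i : ℕ) + 2))
        ((c.2 i : ℝ) * ((((i : ℕ) + 2 : ℕ) : ℝ) * x ^ ((i : ℕ) + 1))) x := by
      intro i _
      have := (hasDerivAt_pow ((i : ℕ) + 2) x).const_mul (c.2 i : ℝ)
      simpa using this
    exact HasDerivAt.fun_sum h3
  exact h1.add h2

theorem cont_g' (c : ℤ × (Fin n → ℤ)) : Continuous (g' c) := by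
  unfold g'
  fun_prop

theorem cont_g (c : ℤ × (Fin n → ℤ)) : Continuous (g c) := by
  unfold g
  fun_prop

theorem pow_diff (k : ℕ) (B x y : ℝ) (hB : 1 ≤ B) (hx : |x| ≤ B) (hy : |y| ≤ B) :
    |x ^ k - y ^ k| ≤ k * B ^ k * |x - y| := by
  have h1 := abs_pow_sub_pow_le x y k
  have h2 : max |x| |y| ^ (k - 1) ≤ B ^ k := by
    refine (pow_le_pow_left₀ (le_max_of_le_left (abs_nonneg _)) (max_le hx hy) _).trans ?_
    exact pow_le_pow_right₀ hB (Nat.sub_le _ _)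
  calc |x ^ k - y ^ k| ≤ |x - y| * k * max |x| |y| ^ (k - 1) := h1
    _ ≤ |x - y| * k * B ^ k := mul_le_mul_of_nonneg_left h2 (by positivity)
    _ = _ := by ring

theorem g_diff (H : ℕ) (c : ℤ × (Fin n → ℤ)) (hc : c ∈ cbox n H) (B x y : ℝ) (hB : 1 ≤ B) (hx : |x| ≤ B)
    (hy : |y| ≤ B) : |g c x - g c y| ≤ KB n B * H * |x - y| := by
  obtain ⟨h1, h2⟩ := cbox_real hc
  have hH : (0 : ℝ) ≤ H := Nat.cast_nonneg _
  unfold g KB
  have h3 : (c.1 : ℝ) * x + ∑ i : Fin n, (c.2 i : ℝ) * x ^ ((i : ℕ) + 2) -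
      ((c.1 : ℝ) * y + ∑ i : Fin n, (c.2 i : ℝ) * y ^ ((i : ℕ) + 2)) =
      (c.1 : ℝ) * (x - y) + ∑ i : Fin n, (c.2 i : ℝ) * (x ^ ((i : ℕ) + 2) - y ^ ((i : ℕ) + 2)) := by
    simp only [mul_sub, Finset.sum_sub_distrib]
    ring
  rw [h3]
  refine (abs_add_le _ _).trans ?_
  have h4 : |(c.1 : ℝ) * (x - y)| ≤ H * |x - y| := by
    rw [abs_mul]
    exact mul_le_mul_of_nonneg_right h1 (abs_nonneg _)
  have h5 : |∑ i : Fin n, (c.2 i : ℝ) * (x ^ ((i : ℕ) + 2) - y ^ ((i : ℕ) + 2))| ≤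
      (∑ i : Fin n, (((i : ℕ) + 2 : ℕ) : ℝ) ^ 2 * B ^ ((i : ℕ) + 2)) * H * |x - y| := by
    rw [Finset.sum_mul, Finset.sum_mul]
    refine (Finset.abs_sum_le_sum_abs _ _).trans (Finset.sum_le_sum fun i _ => ?_)
    rw [abs_mul]
    have h6 := pow_diff ((i : ℕ) + 2) B x y hB hx hy
    have h7 : (1 : ℝ) ≤ (((i : ℕ) + 2 : ℕ) : ℝ) := by exact_mod_cast (by omega : 1 ≤ (i : ℕ) + 2)
    have h8 : (((i : ℕ) + 2 : ℕ) : ℝ) ≤ (((i : ℕ) + 2 : ℕ) : ℝ) ^ 2 := by nlinarith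
    calc |(c.2 i : ℝ)| * |x ^ ((i : ℕ) + 2) - y ^ ((i : ℕ) + 2)|
        ≤ H * ((((i : ℕ) + 2 : ℕ) : ℝ) * B ^ ((i : ℕ) + 2) * |x - y|) :=
          mul_le_mul (h2 i) h6 (abs_nonneg _) hH
      _ ≤ H * ((((i : ℕ) + 2 : ℕ) : ℝ) ^ 2 * B ^ ((i : ℕ) + 2) * |x - y|) := by
          apply mul_le_mul_of_nonneg_left _ hH
          apply mul_le_mul_of_nonneg_right _ (abs_nonneg _)
          exact mul_le_mul_of_nonneg_right h8 (by positivity)
      _ = _ := by ring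
  have h6 : (1 + ∑ i : Fin n, (((i : ℕ) + 2 : ℕ) : ℝ) ^ 2 * B ^ ((i : ℕ) + 2)) * H * |x - y| =
      H * |x - y| + (∑ i : Fin n, (((i : ℕ) + 2 : ℕ) : ℝ) ^ 2 * B ^ ((i : ℕ) + 2)) * H * |x - y| := by ring
  rw [h6]
  exact add_le_add h4 h5

theorem g'_diff (H : ℕ) (c : ℤ × (Fin n → ℤ)) (hc : c ∈ cbox n H) (B x y : ℝ) (hB : 1 ≤ B) (hx : |x| ≤ B)
    (hy : |y| ≤ B) : |g' c x - g' c y| ≤ KB n B * H * |x - y| := by
  obtain ⟨h1, h2⟩ := cbox_real hc
  have hH : (0 : ℝ) ≤ H := Nat.cast_nonneg _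
  unfold g' KB
  have h3 : (c.1 : ℝ) + ∑ i : Fin n, (c.2 i : ℝ) * ((((i : ℕ) + 2 : ℕ) : ℝ) * x ^ ((i : ℕ) + 1)) -
      ((c.1 : ℝ) + ∑ i : Fin n, (c.2 i : ℝ) * ((((i : ℕ) + 2 : ℕ) : ℝ) * y ^ ((i : ℕ) + 1))) =
      ∑ i : Fin n, (c.2 i : ℝ) * ((((i : ℕ) + 2 : ℕ) : ℝ) * (x ^ ((i : ℕ) + 1) - y ^ ((i : ℕ) + 1))) := by
    simp only [mul_sub, Finset.sum_sub_distrib]
    ring
  rw [h3]
  have h5 : |∑ i : Fin n, (c.2 i : ℝ) * ((((i : ℕ) + 2 : ℕ) : ℝ) * (x ^ ((i : ℕ) + 1) - y ^ ((i : ℕ) + 1)))| ≤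
      (∑ i : Fin n, (((i : ℕ) + 2 : ℕ) : ℝ) ^ 2 * B ^ ((i : ℕ) + 2)) * H * |x - y| := by
    rw [Finset.sum_mul, Finset.sum_mul]
    refine (Finset.abs_sum_le_sum_abs _ _).trans (Finset.sum_le_sum fun i _ => ?_)
    rw [abs_mul, abs_mul, Nat.abs_cast]
    have h6 := pow_diff ((i : ℕ) + 1) B x y hB hx hy
    have h7 : (((i : ℕ) + 1 : ℕ) : ℝ) ≤ (((i : ℕ) + 2 : ℕ) : ℝ) := by exact_mod_cast (by omega : (i : ℕ) + 1 ≤ (i : ℕ) + 2)
    have h8 : B ^ ((i : ℕ) + 1) ≤ B ^ ((i : ℕ) + 2) := pow_le_pow_right₀ hB (by omega)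
    have h9 : |x ^ ((i : ℕ) + 1) - y ^ ((i : ℕ) + 1)| ≤ (((i : ℕ) + 2 : ℕ) : ℝ) * B ^ ((i : ℕ) + 2) * |x - y| := by
      refine h6.trans ?_
      apply mul_le_mul_of_nonneg_right _ (abs_nonneg _)
      exact mul_le_mul h7 h8 (by positivity) (by positivity)
    calc |(c.2 i : ℝ)| * ((((i : ℕ) + 2 : ℕ) : ℝ) * |x ^ ((i : ℕ) + 1) - y ^ ((i : ℕ) + 1)|)
        ≤ H * ((((i : ℕ) + 2 : ℕ) : ℝ) * ((((i : ℕ) + 2 : ℕ) : ℝ) * B ^ ((i : ℕ) + 2) * |x - y|)) := by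
          apply mul_le_mul (h2 i) _ (by positivity) hH
          exact mul_le_mul_of_nonneg_left h9 (by positivity)
      _ = _ := by ring
  refine h5.trans ?_
  apply mul_le_mul_of_nonneg_right _ (abs_nonneg _)
  apply mul_le_mul_of_nonneg_right _ hH
  linarith

theorem g'_le (H : ℕ) (c : ℤ × (Fin n → ℤ)) (hc : c ∈ cbox n H) (B x : ℝ) (hB : 1 ≤ B) (hx : |x| ≤ B) :
    |g' c x| ≤ KB n B * H := by
  obtain ⟨h1, h2⟩ := cbox_real hc
  have hH : (0 : ℝ) ≤ H := Nat.cast_nonneg _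
  unfold g' KB
  refine (abs_add_le _ _).trans ?_
  have h5 : |∑ i : Fin n, (c.2 i : ℝ) * ((((i : ℕ) + 2 : ℕ) : ℝ) * x ^ ((i : ℕ) + 1))| ≤
      (∑ i : Fin n, (((i : ℕ) + 2 : ℕ) : ℝ) ^ 2 * B ^ ((i : ℕ) + 2)) * H := by
    rw [Finset.sum_mul]
    refine (Finset.abs_sum_le_sum_abs _ _).trans (Finset.sum_le_sum fun i _ => ?_)
    rw [abs_mul, abs_mul, Nat.abs_cast, abs_pow]
    have h7 : (1 : ℝ) ≤ (((i : ℕ) + 2 : ℕ) : ℝ) := by exact_mod_cast (by omega : 1 ≤ (i : ℕ) + 2)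
    have h8 : (((i : ℕ) + 2 : ℕ) : ℝ) ≤ (((i : ℕ) + 2 : ℕ) : ℝ) ^ 2 := by nlinarith
    have h9 : |x| ^ ((i : ℕ) + 1) ≤ B ^ ((i : ℕ) + 2) :=
      (pow_le_pow_left₀ (abs_nonneg _) hx _).trans (pow_le_pow_right₀ hB (by omega))
    calc |(c.2 i : ℝ)| * ((((i : ℕ) + 2 : ℕ) : ℝ) * |x| ^ ((i : ℕ) + 1))
        ≤ H * ((((i : ℕ) + 2 : ℕ) : ℝ) ^ 2 * B ^ ((i : ℕ) + 2)) := by
          apply mul_le_mul (h2 i) _ (by positivity) hH
          exact mul_le_mul h8 h9 (by positivity) (by positivity)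
      _ = _ := by ring
  have h6 : (1 + ∑ i : Fin n, (((i : ℕ) + 2 : ℕ) : ℝ) ^ 2 * B ^ ((i : ℕ) + 2)) * H =
      H + (∑ i : Fin n, (((i : ℕ) + 2 : ℕ) : ℝ) ^ 2 * B ^ ((i : ℕ) + 2)) * H := by ring
  rw [h6]
  exact add_le_add h1 h5

/-- the real polynomial -/
noncomputable def Pc (a : ℤ) (c : ℤ × (Fin n → ℤ)) : Polynomial ℝ :=
  Polynomial.C (a : ℝ) + Polynomial.C (c.1 : ℝ) * Polynomial.X +
    ∑ i : Fin n, Polynomial.C (c.2 i : ℝ) * Polynomial.X ^ ((i : ℕ) + 2)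

theorem eval_Pc (a : ℤ) (c : ℤ × (Fin n → ℤ)) (x : ℝ) : (Pc a c).eval x = a + g c x := by
  unfold Pc g
  rw [Polynomial.eval_add, Polynomial.eval_add, Polynomial.eval_finsetSum]
  simp only [Polynomial.eval_C, Polynomial.eval_mul, Polynomial.eval_X, Polynomial.eval_pow]
  ring

theorem Pc_ne (a : ℤ) (c : ℤ × (Fin n → ℤ)) (hc : c ≠ 0) : Pc a c ≠ 0 := by
  intro h
  apply hc
  have h1 : ∀ k : ℕ, (Pc a c).coeff k = 0 := fun k => by rw [h, Polynomial.coeff_zero]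
  have h2 : ∀ k : ℕ, (Pc a c).coeff k = (if k = 0 then (a : ℝ) else 0) + (if k = 1 then (c.1 : ℝ) else 0) +
      ∑ i : Fin n, (if k = (i : ℕ) + 2 then (c.2 i : ℝ) else 0) := by
    intro k
    unfold Pc
    rw [Polynomial.coeff_add, Polynomial.coeff_add, Polynomial.finsetSum_coeff, Polynomial.coeff_C,
      Polynomial.coeff_C_mul, Polynomial.coeff_X]
    congr 1
    · congr 1
      by_cases hk : k = 1
      · subst hk; simp
      · rw [if_neg (fun h => hk h.symm), if_neg hk, mul_zero]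
    · refine Finset.sum_congr rfl fun i _ => ?_
      rw [Polynomial.coeff_C_mul, Polynomial.coeff_X_pow]
      split_ifs <;> simp
  apply Prod.ext
  · have := h1 1
    rw [h2 1] at this
    have h3 : ∑ i : Fin n, (if 1 = (i : ℕ) + 2 then (c.2 i : ℝ) else 0) = 0 := by
      apply Finset.sum_eq_zero
      intro i _
      rw [if_neg (by omega)]
    rw [h3] at this
    simp only [one_ne_zero, if_false, if_true, zero_add, add_zero] at this
    exact_mod_cast this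
  · funext i
    have := h1 ((i : ℕ) + 2)
    rw [h2] at this
    have h3 : ∑ j : Fin n, (if (i : ℕ) + 2 = (j : ℕ) + 2 then (c.2 j : ℝ) else 0) = c.2 i := by
      rw [Finset.sum_eq_single i]
      · simp
      · intro j _ hj
        rw [if_neg]
        intro h4
        apply hj
        ext
        omega
      · intro h4
        exact absurd (Finset.mem_univ i) h4
    rw [h3, if_neg (by omega), if_neg (by omega)] at this
    simp only [zero_add] at this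
    exact_mod_cast this

theorem Pc_deg (a : ℤ) (c : ℤ × (Fin n → ℤ)) : (Pc a c).natDegree ≤ n + 1 := by
  unfold Pc
  refine (Polynomial.natDegree_add_le _ _).trans (max_le ?_ ?_)
  · refine (Polynomial.natDegree_add_le _ _).trans (max_le ?_ ?_)
    · rw [Polynomial.natDegree_C]; omega
    · exact (Polynomial.natDegree_C_mul_le _ _).trans (Polynomial.natDegree_X_le.trans (by omega))
  · apply Polynomial.natDegree_sum_le_of_forall_le
    intro i _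
    refine (Polynomial.natDegree_C_mul_X_pow_le _ _).trans ?_
    have := i.2
    omega

/-- the points where `f` takes an integral value of absolute value at most `H` -/
def Rf (H : ℕ) (f : ℝ → ℝ) (T : Set ℝ) : Set ℝ := {x | x ∈ T ∧ ∃ a : ℤ, |a| ≤ (H : ℤ) ∧ (a : ℝ) + f x = 0}

/-- the real roots of the polynomials with given `c` -/
def Rc (H : ℕ) (c : ℤ × (Fin n → ℤ)) (T : Set ℝ) : Set ℝ := Rf H (g c) T

theorem roots_le (a : ℤ) (c : ℤ × (Fin n → ℤ)) (hc : c ≠ 0) : {x : ℝ | (a : ℝ) + g c x = 0}.Finite ∧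
    {x : ℝ | (a : ℝ) + g c x = 0}.ncard ≤ n + 1 := by
  classical
  have h1 : {x : ℝ | (a : ℝ) + g c x = 0} = ((Pc a c).roots.toFinset : Set ℝ) := by
    ext x
    rw [Finset.mem_coe, Multiset.mem_toFinset, Polynomial.mem_roots (Pc_ne a c hc), Polynomial.IsRoot, eval_Pc]
    rfl
  rw [h1]
  refine ⟨Finset.finite_toSet _, ?_⟩
  rw [Set.ncard_coe_finset]
  exact (Multiset.toFinset_card_le _).trans ((Polynomial.card_roots' _).trans (Pc_deg a c))

theorem Rc_finite (H : ℕ) (c : ℤ × (Fin n → ℤ)) (hc : c ≠ 0) (T : Set ℝ) : (Rc H c T).Finite := by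
  have h1 : (⋃ a ∈ (Icc (-(H : ℤ)) H : Finset ℤ), {x : ℝ | (a : ℝ) + g c x = 0}).Finite :=
    Set.Finite.biUnion (Finset.finite_toSet _) fun a _ => (roots_le a c hc).1
  refine h1.subset ?_
  rintro x ⟨-, a, ha, hx⟩
  simp only [Set.mem_iUnion]
  refine ⟨a, ?_, hx⟩
  rw [Finset.mem_Icc]
  exact abs_le.1 ha

/-- truncation -/
noncomputable def clamp (H : ℕ) (y : ℝ) : ℝ := max (-(H : ℝ)) (min (H : ℝ) y)

theorem clamp_lip (H : ℕ) (x y : ℝ) : |clamp H x - clamp H y| ≤ |x - y| := by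
  unfold clamp
  refine (abs_max_sub_max_le_max _ _ _ _).trans ?_
  rw [sub_self, abs_zero, max_eq_right (abs_nonneg _)]
  refine (abs_min_sub_min_le_max _ _ _ _).trans ?_
  rw [sub_self, abs_zero, max_eq_right (abs_nonneg _)]

theorem int_count (A B : ℝ) (hAB : A ≤ B) : |((Icc ⌈A⌉ ⌊B⌋).card : ℝ) - (B - A)| ≤ 1 := by
  rw [Int.card_Icc]
  have h1 : A ≤ ⌈A⌉ := Int.le_ceil A
  have h2 : (⌈A⌉ : ℝ) < A + 1 := Int.ceil_lt_add_one A
  have h3 : (⌊B⌋ : ℝ) ≤ B := Int.floor_le B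
  have h4 : B < (⌊B⌋ : ℝ) + 1 := Int.lt_floor_add_one B
  have h5 : (-1 : ℝ) < ((⌊B⌋ + 1 - ⌈A⌉ : ℤ) : ℝ) := by
    push_cast
    linarith
  have h6 : (-1 : ℤ) < ⌊B⌋ + 1 - ⌈A⌉ := by exact_mod_cast h5
  have h7 : (((⌊B⌋ + 1 - ⌈A⌉).toNat : ℕ) : ℤ) = ⌊B⌋ + 1 - ⌈A⌉ := Int.toNat_of_nonneg (by omega)
  have h8 : (((⌊B⌋ + 1 - ⌈A⌉).toNat : ℕ) : ℝ) = (⌊B⌋ : ℝ) + 1 - ⌈A⌉ := by
    have := congrArg (fun z : ℤ => (z : ℝ)) h7
    push_cast at this
    exact this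
  rw [h8, abs_le]
  constructor <;> linarith

/-- an injective continuous function on an interval, increasing case -/
theorem mono_count (H : ℕ) (f : ℝ → ℝ) (hf : Continuous f) (u v : ℝ) (huv : u ≤ v) (hm : StrictMonoOn f (Set.Icc u v)) :
    abs (((Rf H f (Set.Icc u v)).ncard : ℝ) - abs (clamp H (f v) - clamp H (f u))) ≤ 1 := by
  have hfuv : f u ≤ f v := hm.monotoneOn ⟨le_rfl, huv⟩ ⟨huv, le_rfl⟩ huv
  set A : ℝ := max (-(H : ℝ)) (f u) with hA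
  set B : ℝ := min (H : ℝ) (f v) with hB
  have hH : (0 : ℝ) ≤ H := Nat.cast_nonneg _
  -- the set is in bijection with the integers in `[A, B]`
  have hbij : (Rf H f (Set.Icc u v)).ncard = (Icc ⌈A⌉ ⌊B⌋).card := by
    rw [← Set.ncard_coe_finset]
    have himg : (fun x => ⌊f x⌋) '' (Rf H f (Set.Icc u v)) =
        ((Icc ⌈A⌉ ⌊B⌋ : Finset ℤ) : Set ℤ) := by
      ext m
      rw [Finset.mem_coe, Finset.mem_Icc, Int.ceil_le, Int.le_floor]
      constructor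
      · rintro ⟨x, ⟨hx, a, ha, hax⟩, rfl⟩
        have h1 : f x = ((-a : ℤ) : ℝ) := by push_cast; linarith
        have h2 : (fun x => ⌊f x⌋) x = -a := by
          simp only
          rw [h1, Int.floor_intCast]
        rw [h2, ← h1]
        have h3 := hm.monotoneOn ⟨le_rfl, huv⟩ hx hx.1
        have h4 := hm.monotoneOn hx ⟨huv, le_rfl⟩ hx.2
        have h5 := abs_le.1 ha
        have h6 : -(H : ℝ) ≤ f x ∧ f x ≤ H := by
          rw [h1]
          constructor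
          · have : -(H : ℤ) ≤ -a := by omega
            exact_mod_cast this
          · have : -a ≤ (H : ℤ) := by omega
            exact_mod_cast this
        exact ⟨max_le h6.1 h3, le_min h6.2 h4⟩
      · rintro ⟨h1, h2⟩
        have h3 : f u ≤ (m : ℝ) := (le_max_right _ _).trans h1
        have h4 : (m : ℝ) ≤ f v := h2.trans (min_le_right _ _)
        have h5 : -(H : ℝ) ≤ (m : ℝ) := (le_max_left _ _).trans h1
        have h6 : (m : ℝ) ≤ H := h2.trans (min_le_left _ _)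
        obtain ⟨x, hx, hfx⟩ := intermediate_value_Icc huv hf.continuousOn ⟨h3, h4⟩
        refine ⟨x, ⟨hx, -m, ?_, ?_⟩, ?_⟩
        · rw [abs_neg, abs_le]
          constructor
          · exact_mod_cast h5
          · exact_mod_cast h6
        · rw [hfx]; push_cast; ring
        · simp only
          rw [hfx, Int.floor_intCast]
    have hinj : Set.InjOn (fun x => ⌊f x⌋) (Rf H f (Set.Icc u v)) := by
      rintro x ⟨hx, a, -, hax⟩ y ⟨hy, b, -, hby⟩ hxy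
      simp only at hxy
      have h1 : f x = ((-a : ℤ) : ℝ) := by push_cast; linarith
      have h2 : f y = ((-b : ℤ) : ℝ) := by push_cast; linarith
      rw [h1, h2, Int.floor_intCast, Int.floor_intCast] at hxy
      apply hm.injOn hx hy
      rw [h1, h2, hxy]
    rw [← himg, hinj.ncard_image]
  rw [hbij]
  by_cases h1 : f u ≤ H ∧ -(H : ℝ) ≤ f v
  · have h2 : clamp H (f v) - clamp H (f u) = B - A := by
      unfold clamp
      rw [min_eq_right h1.1]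
      rw [max_eq_right (le_min (by linarith) h1.2)]
    have h3 : A ≤ B := by
      rw [hA, hB]
      exact max_le (le_min (by linarith) h1.2) (le_min h1.1 hfuv)
    rw [h2, abs_of_nonneg (by linarith : 0 ≤ B - A)]
    exact int_count A B h3
  · have h2 : clamp H (f v) - clamp H (f u) = 0 := by
      unfold clamp
      rw [not_and_or, not_le, not_le] at h1
      rcases h1 with h1 | h1
      · rw [min_eq_left h1.le, min_eq_left (by linarith)]
        ring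
      · rw [max_eq_left (by exact (min_le_right _ _).trans h1.le), max_eq_left (by
          exact (min_le_right _ _).trans (hfuv.trans h1.le))]
        ring
    have h3 : (Icc ⌈A⌉ ⌊B⌋ : Finset ℤ) = ∅ := by
      rw [Finset.Icc_eq_empty_iff, Int.ceil_le, not_le]
      have h4 : B < A := by
        rw [not_and_or, not_le, not_le] at h1
        rcases h1 with h1 | h1
        · exact (min_le_left _ _).trans_lt (h1.trans_le (le_max_right _ _))
        · exact (min_le_right _ _).trans_lt (h1.trans_le (le_max_left _ _))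
      exact (Int.floor_le B).trans_lt h4
    rw [h2, h3]
    simp

end Pool.Agent.D0H53.AP
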