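import Pool.Agent.D0H53.AP.Alg

set_option autoImplicit false

/-!
# The Poisson law on unions of intervals and on the whole line
-/

open Finset Filter Topology

namespace Pool.Agent.D0H53.AP

open Pool.Agent.D0H53.PL

/-- reversal of the coefficients -/
theorem tail_rev (n H R : ℕ) (hR : 1 ≤ R) :
    Zc n H {x | (R : ℝ) ≤ |x|} ≤ Zc n H (Set.Icc (0 - 1 / (R : ℝ)) (0 + 1 / (R : ℝ))) := by
  have hR0 : (0 : ℝ) < R := by exact_mod_cast hR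
  rw [← PP_ncard, ← PP_ncard]
  refine Set.ncard_le_ncard_of_injOn (fun p => (Polynomial.reflect (n + 1) p.1, p.2⁻¹)) ?_ ?_ (PP_finite n H _)
  · rintro ⟨P, x⟩ ⟨h1, h2, h3, h4, h5⟩
    simp only at h1 h2 h3 h4 h5
    have h4' : (R : ℝ) ≤ |x| := h4
    have hx0 : x ≠ 0 := by
      rintro rfl
      rw [abs_zero] at h4'
      linarith
    refine ⟨?_, ?_, ?_, ?_, ?_⟩
    · simp only
      rw [Ne, Polynomial.reflect_eq_zero_iff]
      exact h1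
    · simp only
      exact Polynomial.natDegree_reflect_le.trans (max_le le_rfl h2)
    · intro i
      simp only [Polynomial.coeff_reflect]
      exact h3 _
    · simp only
      have h6 : |x⁻¹| ≤ 1 / (R : ℝ) := by
        rw [abs_inv, ← one_div]
        exact one_div_le_one_div_of_le hR0 h4'
      have h7 := abs_le.1 h6
      constructor <;> linarith [h7.1, h7.2]
    · simp only
      let _ : Invertible x := invertibleOfNonzero hx0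
      have h6 := (Polynomial.eval₂_reflect_eq_zero_iff (algebraMap ℤ ℝ) x (n + 1) P h2).2 h5
      rw [invOf_eq_inv] at h6
      exact h6
  · rintro ⟨P, x⟩ _ ⟨P', x'⟩ _ h
    obtain ⟨h6, h7⟩ := Prod.mk.inj h
    rw [Prod.mk.injEq]
    refine ⟨?_, inv_injective h7⟩
    have h8 := congrArg (Polynomial.reflect (n + 1)) h6
    rw [Polynomial.reflect_reflect, Polynomial.reflect_reflect] at h8
    exact h8

theorem tail_bound (n : ℕ) : ∃ C : ℝ, 0 < C ∧ ∀ H : ℕ, 1 ≤ H → ∀ R : ℕ, 1 ≤ R →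
    (Zc n H {x | (R : ℝ) ≤ |x|} : ℝ) ≤ C * ((H : ℝ) ^ (n + 2) / R + (H : ℝ) ^ (n + 1)) := by
  obtain ⟨C1, hC1, hcount⟩ := count_int n 1 le_rfl
  obtain ⟨C3, hC3, hle⟩ := RR_le n 1 le_rfl
  refine ⟨2 * C3 + C1, by positivity, ?_⟩
  intro H hH R hR
  have hR0 : (1 : ℝ) ≤ R := by exact_mod_cast hR
  have hρ0 : (0 : ℝ) ≤ 1 / (R : ℝ) := by positivity
  have hρ1 : 1 / (R : ℝ) ≤ 1 := by rw [div_le_one (by linarith)]; exact hR0
  have h1 := hcount H hH 0 (1 / (R : ℝ)) hρ0 hρ1 (by rw [abs_zero]; linarith)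
  have h2 := hle H hH 0 (by rw [abs_zero]; norm_num)
  have h3 : (Zc n H {x | (R : ℝ) ≤ |x|} : ℝ) ≤ (Zc n H (Set.Icc (0 - 1 / (R : ℝ)) (0 + 1 / (R : ℝ))) : ℝ) := by
    exact_mod_cast tail_rev n H R hR
  have h4 := (abs_le.1 h1).2
  have h5 : 2 * (1 / (R : ℝ)) * RR n H 0 ≤ 2 * (1 / (R : ℝ)) * (C3 * (H : ℝ) ^ (n + 2)) :=
    mul_le_mul_of_nonneg_left h2 (by positivity)
  have h6 : (1 / (R : ℝ)) ^ 2 ≤ 1 / (R : ℝ) := by nlinarith
  have h7 : C1 * ((H : ℝ) ^ (n + 2) * (1 / (R : ℝ)) ^ 2 + (H : ℝ) ^ (n + 1)) ≤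
      C1 * ((H : ℝ) ^ (n + 2) * (1 / (R : ℝ)) + (H : ℝ) ^ (n + 1)) := by
    apply mul_le_mul_of_nonneg_left _ hC1.le
    have := mul_le_mul_of_nonneg_left h6 (by positivity : (0 : ℝ) ≤ (H : ℝ) ^ (n + 2))
    linarith
  have h8 : (0 : ℝ) ≤ 2 * C3 * (H : ℝ) ^ (n + 1) := by positivity
  have h9 : (2 * C3 + C1) * ((H : ℝ) ^ (n + 2) / R + (H : ℝ) ^ (n + 1)) =
      2 * (1 / (R : ℝ)) * (C3 * (H : ℝ) ^ (n + 2)) + C1 * ((H : ℝ) ^ (n + 2) * (1 / (R : ℝ)) + (H : ℝ) ^ (n + 1)) +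
      2 * C3 * (H : ℝ) ^ (n + 1) := by ring
  rw [h9]
  linarith

/-! ## gluing -/

theorem law_add {Z : ℕ → Set ℝ → ℝ} {I J : Set ℝ} (hadd : ∀ H T T', Disjoint T T' → Z H (T ∪ T') = Z H T + Z H T')
    (hIJ : Disjoint I J) (hI : LawZ Z I) (hJ : LawZ Z J) : LawZ Z (I ∪ J) := by
  intro κ hκ L hL ε hε
  obtain ⟨δ₁, hδ₁, H₁, hH₁, hlaw₁⟩ := hI κ hκ L hL ε hε
  obtain ⟨δ₂, hδ₂, H₂, hH₂, hlaw₂⟩ := hJ κ hκ L hL ε hε
  refine ⟨min δ₁ δ₂, by positivity, max H₁ H₂, le_max_of_le_left hH₁, ?_⟩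
  intro H hH Q1 Q2 hQ1 hQ2 δ hanti hnn hsmall hmean y hy0 hyL hyM A
  have h1 := hlaw₁ H ((le_max_left _ _).trans hH) Q1 Q2 hQ1 hQ2 δ hanti hnn
    (fun q h h' => (hsmall q h h').trans (min_le_left _ _)) hmean y hy0 hyL (hyM.trans (min_le_left _ _)) A
  have h2 := hlaw₂ H ((le_max_right _ _).trans hH) Q1 Q2 hQ1 hQ2 δ hanti hnn
    (fun q h h' => (hsmall q h h').trans (min_le_right _ _)) hmean y hy0 hyL (hyM.trans (min_le_right _ _)) A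
  rw [Set.union_inter_distrib_right, hadd H I J hIJ,
    hadd H _ _ (hIJ.mono Set.inter_subset_left Set.inter_subset_left)]
  have h3 := abs_le.1 h1
  have h4 := abs_le.1 h2
  rw [abs_le]
  constructor <;> linarith [h3.1, h3.2, h4.1, h4.2]

theorem law_Ico {Z : ℕ → Set ℝ → ℝ} (hadd : ∀ H T T', Disjoint T T' → Z H (T ∪ T') = Z H T + Z H T')
    (h : ∀ k : ℤ, LawZ Z (Set.Ico (k : ℝ) (k + 1))) (a : ℤ) (m : ℕ) :
    LawZ Z (Set.Ico (a : ℝ) (a + (m + 1 : ℕ))) := by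
  induction m with
  | zero =>
    have := h a
    simpa using this
  | succ m ih =>
    have h1 : Set.Ico (a : ℝ) (a + (m + 1 + 1 : ℕ)) =
        Set.Ico (a : ℝ) (a + (m + 1 : ℕ)) ∪ Set.Ico (((a + (m + 1 : ℕ) : ℤ)) : ℝ) (((a + (m + 1 : ℕ) : ℤ)) + 1) := by
      have e1 : (((a + (m + 1 : ℕ) : ℤ)) : ℝ) = (a : ℝ) + (m + 1 : ℕ) := by push_cast; ring
      rw [e1]
      have e2 : (a : ℝ) + (m + 1 + 1 : ℕ) = (a : ℝ) + (m + 1 : ℕ) + 1 := by push_cast; ring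
      rw [e2]
      exact (Set.Ico_union_Ico_eq_Ico (by
        have : (0 : ℝ) ≤ ((m + 1 : ℕ) : ℝ) := Nat.cast_nonneg _
        linarith) (by linarith)).symm
    rw [h1]
    refine law_add hadd ?_ ih (h _)
    rw [Set.disjoint_left]
    intro x hx hx'
    have e1 : (((a + (m + 1 : ℕ) : ℤ)) : ℝ) = (a : ℝ) + (m + 1 : ℕ) := by push_cast; ring
    have h2 := hx.2
    have h3 := hx'.1
    rw [e1] at h3
    linarith

theorem law_univ {Z : ℕ → Set ℝ → ℝ} (hadd : ∀ H T T', Disjoint T T' → Z H (T ∪ T') = Z H T + Z H T')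
    (hnn : ∀ H T, 0 ≤ Z H T) (hmono : ∀ H T T', T ⊆ T' → Z H T ≤ Z H T')
    (h : ∀ k : ℤ, LawZ Z (Set.Ico (k : ℝ) (k + 1))) (G : ℕ → ℝ) (c : ℝ) (hc : 0 < c)
    (hlo : ∃ H₁ : ℕ, ∀ H, H₁ ≤ H → c * G H ≤ Z H Set.univ)
    (htail : ∀ η : ℝ, 0 < η → ∃ R : ℕ, 1 ≤ R ∧ ∃ H₁ : ℕ, ∀ H, H₁ ≤ H → Z H {x | (R : ℝ) ≤ |x|} ≤ η * G H) :
    LawZ Z Set.univ := by
  intro κ hκ L hL ε hε
  obtain ⟨R, hR, H₃, hta⟩ := htail (ε * c / 2) (by positivity)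
  obtain ⟨H₂, hlo⟩ := hlo
  have hbase := law_Ico hadd h (-(R : ℤ)) (2 * R - 1)
  have e0 : (((-(R : ℤ) : ℤ)) : ℝ) + ((2 * R - 1 + 1 : ℕ) : ℝ) = R := by
    have : 2 * R - 1 + 1 = 2 * R := by omega
    rw [this]
    push_cast
    ring
  have e1 : (((-(R : ℤ) : ℤ)) : ℝ) = -(R : ℝ) := by push_cast; ring
  rw [e0, e1] at hbase
  obtain ⟨δ₀, hδ₀, H₁, hH₁, hlaw⟩ := hbase κ hκ L hL (ε / 2) (by positivity)
  refine ⟨δ₀, hδ₀, max H₁ (max H₂ H₃), le_max_of_le_left hH₁, ?_⟩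
  intro H hH Q1 Q2 hQ1 hQ2 δ hanti hnn' hsmall hmean y hy0 hyL hyM A
  have h1 := hlaw H ((le_max_left _ _).trans hH) Q1 Q2 hQ1 hQ2 δ hanti hnn' hsmall hmean y hy0 hyL hyM A
  set X : Set ℝ := XA Q1 Q2 δ A with hX
  set po' : ℝ := (ProbabilityTheory.poissonMeasure y.toNNReal).real A with hpo
  have hpo0 : 0 ≤ po' := MeasureTheory.measureReal_nonneg
  have hpo1 : po' ≤ 1 := MeasureTheory.measureReal_le_one
  set I : Set ℝ := Set.Ico (-(R : ℝ)) R with hI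
  have hdisj : Disjoint I Iᶜ := disjoint_compl_right
  have h2 : Z H (Set.univ ∩ X) = Z H (I ∩ X) + Z H (Iᶜ ∩ X) := by
    rw [← hadd H _ _ (hdisj.mono Set.inter_subset_left Set.inter_subset_left), ← Set.union_inter_distrib_right,
      Set.union_compl_self]
  have h3 : Z H Set.univ = Z H I + Z H Iᶜ := by
    rw [← hadd H _ _ hdisj, Set.union_compl_self]
  have hsub : Iᶜ ⊆ {x | (R : ℝ) ≤ |x|} := by
    intro x hx
    rw [Set.mem_compl_iff, hI, Set.mem_Ico, not_and, not_lt] at hx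
    rcases le_or_gt (-(R : ℝ)) x with h4 | h4
    · exact (hx h4).trans (le_abs_self x)
    · have : (R : ℝ) ≤ -x := by linarith
      exact this.trans (neg_le_abs x)
  have h4 := (hmono H _ _ hsub).trans (hta H ((le_max_right _ _).trans ((le_max_right _ _).trans hH)))
  have h5 := hlo H ((le_max_left _ _).trans ((le_max_right _ _).trans hH))
  have h6 := hmono H (Iᶜ ∩ X) Iᶜ Set.inter_subset_left
  have h7 := hnn H (Iᶜ ∩ X)
  have h8 := hnn H Iᶜ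
  have h9 := hnn H I
  have h10 : 0 ≤ po' * Z H Iᶜ := mul_nonneg hpo0 h8
  have h11 : po' * Z H Iᶜ ≤ Z H Iᶜ := mul_le_of_le_one_left h8 hpo1
  have h12 := abs_le.1 h1
  have h13 : ε * c / 2 * G H ≤ ε / 2 * Z H Set.univ := by
    have := mul_le_mul_of_nonneg_left h5 (by positivity : (0 : ℝ) ≤ ε / 2)
    linarith
  have h14 : ε / 2 * Z H I ≤ ε / 2 * Z H Set.univ := by
    apply mul_le_mul_of_nonneg_left _ (by positivity)
    linarith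
  have h15 : po' * Z H Set.univ = po' * Z H I + po' * Z H Iᶜ := by rw [h3]; ring
  rw [h2, h15, abs_le]
  constructor <;> linarith [h12.1, h12.2]

/-! ## the algebraic numbers -/

theorem Alg_add (d : ℕ) (hd : 1 ≤ d) (H : ℕ) (T T' : Set ℝ) (h : Disjoint T T') :
    ((AlgR d H (T ∪ T')).ncard : ℝ) = ((AlgR d H T).ncard : ℝ) + ((AlgR d H T').ncard : ℝ) := by
  have h1 : AlgR d H (T ∪ T') = AlgR d H T ∪ AlgR d H T' := by
    ext x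
    constructor
    · rintro ⟨h2 | h2, h3⟩
      · exact Or.inl ⟨h2, h3⟩
      · exact Or.inr ⟨h2, h3⟩
    · rintro (⟨h2, h3⟩ | ⟨h2, h3⟩)
      · exact ⟨Or.inl h2, h3⟩
      · exact ⟨Or.inr h2, h3⟩
  have h2 : Disjoint (AlgR d H T) (AlgR d H T') := by
    rw [Set.disjoint_left] at h ⊢
    intro x hx hx'
    exact h hx.1 hx'.1
  rw [h1, Set.ncard_union_eq h2 (AlgR_finite d H hd T) (AlgR_finite d H hd T')]
  push_cast
  rfl

theorem Alg_mono (d : ℕ) (hd : 1 ≤ d) (H : ℕ) (T T' : Set ℝ) (h : T ⊆ T') :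
    ((AlgR d H T).ncard : ℝ) ≤ ((AlgR d H T').ncard : ℝ) := by
  have h1 : AlgR d H T ⊆ AlgR d H T' := fun x hx => ⟨h hx.1, hx.2⟩
  exact_mod_cast Set.ncard_le_ncard h1 (AlgR_finite d H hd T')

theorem Alg_Zc (n H : ℕ) (T : Set ℝ) : (AlgR (n + 1) H T).ncard ≤ Zc n H T := by
  have h1 := two_to_one n H T
  have h2 : (IP n H T).ncard ≤ Zc n H T := by
    rw [← PP_ncard]
    exact Set.ncard_le_ncard (fun _ h => h.1) (PP_finite n H T)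
  omega

theorem Alg_univ (d : ℕ) (hd : 1 ≤ d) : LawZ (fun H T => ((AlgR d H T).ncard : ℝ)) Set.univ := by
  obtain ⟨n, rfl⟩ : ∃ n, d = n + 1 := ⟨d - 1, by omega⟩
  obtain ⟨c, hc, H₀, hH₀, hge⟩ := Alg_ge (n + 1) hd 0
  obtain ⟨C, hC, htail⟩ := tail_bound n
  refine law_univ (Alg_add (n + 1) hd) (fun H T => Nat.cast_nonneg _) (Alg_mono (n + 1) hd) (Alg_law (n + 1) hd)
    (fun H => (H : ℝ) ^ (n + 2)) c hc ⟨H₀, fun H hH => (hge H hH).trans (Alg_mono (n + 1) hd H _ _ (Set.subset_univ _))⟩ ?_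
  intro η hη
  have hR1 : 1 ≤ ⌈2 * C / η⌉₊ := Nat.one_le_ceil_iff.2 (by positivity)
  refine ⟨⌈2 * C / η⌉₊, hR1, max 1 ⌈2 * C / η⌉₊, fun H hH => ?_⟩
  have hH1 : 1 ≤ H := (le_max_left _ _).trans hH
  have hH0 : (0 : ℝ) < H := by exact_mod_cast hH1
  have hR : 2 * C / η ≤ (⌈2 * C / η⌉₊ : ℝ) := Nat.le_ceil _
  have hHR : (⌈2 * C / η⌉₊ : ℝ) ≤ H := by exact_mod_cast (le_max_right _ _).trans hH
  set R : ℕ := ⌈2 * C / η⌉₊ with hRd
  have hR0 : (0 : ℝ) < R := by exact_mod_cast hR1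
  have h1 := htail H hH1 R hR1
  have h2 : ((AlgR (n + 1) H {x | (R : ℝ) ≤ |x|}).ncard : ℝ) ≤ (Zc n H {x | (R : ℝ) ≤ |x|} : ℝ) := by
    exact_mod_cast Alg_Zc n H _
  refine h2.trans (h1.trans ?_)
  have hP : (0 : ℝ) ≤ (H : ℝ) ^ (n + 2) := by positivity
  have h3 : C * ((H : ℝ) ^ (n + 2) / R) ≤ η / 2 * (H : ℝ) ^ (n + 2) := by
    rw [div_le_iff₀ hη] at hR
    rw [mul_div_assoc', div_le_iff₀ hR0]
    have : C ≤ η / 2 * R := by linarith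
    have := mul_le_mul_of_nonneg_right this hP
    linarith
  have h4 : C * (H : ℝ) ^ (n + 1) ≤ η / 2 * (H : ℝ) ^ (n + 2) := by
    rw [div_le_iff₀ hη] at hR
    have h5 : C ≤ η / 2 * H := by
      have := mul_le_mul_of_nonneg_left hHR (by positivity : (0 : ℝ) ≤ η / 2)
      linarith
    have := mul_le_mul_of_nonneg_right h5 (by positivity : (0 : ℝ) ≤ (H : ℝ) ^ (n + 1))
    calc C * (H : ℝ) ^ (n + 1) ≤ η / 2 * H * (H : ℝ) ^ (n + 1) := this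
      _ = η / 2 * (H : ℝ) ^ (n + 2) := by
          rw [show n + 2 = (n + 1) + 1 by omega, pow_succ (H : ℝ) (n + 1)]
          ring
  have h5 : C * ((H : ℝ) ^ (n + 2) / R + (H : ℝ) ^ (n + 1)) =
      C * ((H : ℝ) ^ (n + 2) / R) + C * (H : ℝ) ^ (n + 1) := by ring
  rw [h5]
  linarith

theorem Alg_Ico (d : ℕ) (hd : 1 ≤ d) (a : ℤ) (m : ℕ) :
    LawZ (fun H T => ((AlgR d H T).ncard : ℝ)) (Set.Ico (a : ℝ) (a + (m + 1 : ℕ))) :=
  law_Ico (Alg_add d hd) (Alg_law d hd) a m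

theorem Alg_le (d : ℕ) (hd : 1 ≤ d) : ∃ C : ℝ, 0 < C ∧ ∀ H : ℕ, 1 ≤ H → ∀ T : Set ℝ,
    ((AlgR d H T).ncard : ℝ) ≤ C * (H : ℝ) ^ (d + 1) := by
  obtain ⟨n, rfl⟩ : ∃ n, d = n + 1 := ⟨d - 1, by omega⟩
  obtain ⟨C, hC, htail⟩ := tail_bound n
  obtain ⟨C1, hC1, hcount⟩ := count_int n 1 le_rfl
  obtain ⟨C3, hC3, hle⟩ := RR_le n 1 le_rfl
  refine ⟨2 * C + (2 * C3 + 2 * C1), by positivity, fun H hH T => ?_⟩
  have hHR : (1 : ℝ) ≤ H := by exact_mod_cast hH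
  have h1 := htail H hH 1 le_rfl
  have h2 := hcount H hH 0 1 (by norm_num) le_rfl (by rw [abs_zero]; norm_num)
  have h3 := hle H hH 0 (by rw [abs_zero]; norm_num)
  have h4 := (abs_le.1 h2).2
  have h5 : (H : ℝ) ^ (n + 1) ≤ (H : ℝ) ^ (n + 2) := pow_le_pow_right₀ hHR (by omega)
  have h6 : Zc n H T ≤ Zc n H {x | ((1 : ℕ) : ℝ) ≤ |x|} + Zc n H (Set.Icc (0 - 1 : ℝ) (0 + 1)) := by
    have h7 : T ⊆ {x | ((1 : ℕ) : ℝ) ≤ |x|} ∪ (Set.Icc (0 - 1 : ℝ) (0 + 1) \ {x | ((1 : ℕ) : ℝ) ≤ |x|}) := by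
      intro x _
      by_cases h8 : ((1 : ℕ) : ℝ) ≤ |x|
      · exact Or.inl h8
      · right
        refine ⟨?_, h8⟩
        push_cast at h8
        rw [not_le, abs_lt] at h8
        constructor <;> linarith [h8.1, h8.2]
    refine (Zc_mono n H h7).trans ?_
    rw [Zc_add n H _ _ Set.disjoint_sdiff_right]
    exact Nat.add_le_add_left (Zc_mono n H Set.sdiff_subset) _
  have h6' : (Zc n H T : ℝ) ≤ (Zc n H {x | ((1 : ℕ) : ℝ) ≤ |x|} : ℝ) + (Zc n H (Set.Icc (0 - 1 : ℝ) (0 + 1)) : ℝ) := by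
    exact_mod_cast h6
  have h7 : ((AlgR (n + 1) H T).ncard : ℝ) ≤ (Zc n H T : ℝ) := by exact_mod_cast Alg_Zc n H T
  have h8 : C * ((H : ℝ) ^ (n + 2) / ((1 : ℕ) : ℝ) + (H : ℝ) ^ (n + 1)) ≤ 2 * C * (H : ℝ) ^ (n + 2) := by
    have : (H : ℝ) ^ (n + 2) / ((1 : ℕ) : ℝ) + (H : ℝ) ^ (n + 1) ≤ 2 * (H : ℝ) ^ (n + 2) := by
      rw [Nat.cast_one, div_one]
      linarith
    have := mul_le_mul_of_nonneg_left this hC.le
    linarith
  have h9 : C1 * ((H : ℝ) ^ (n + 2) * 1 ^ 2 + (H : ℝ) ^ (n + 1)) ≤ 2 * C1 * (H : ℝ) ^ (n + 2) := by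
    have : (H : ℝ) ^ (n + 2) * 1 ^ 2 + (H : ℝ) ^ (n + 1) ≤ 2 * (H : ℝ) ^ (n + 2) := by linarith
    have := mul_le_mul_of_nonneg_left this hC1.le
    linarith
  have e : (H : ℝ) ^ (n + 1 + 1) = (H : ℝ) ^ (n + 2) := rfl
  rw [e]
  have h10 := h1.trans h8
  have h11 : (Zc n H (Set.Icc (0 - 1 : ℝ) (0 + 1)) : ℝ) ≤ 2 * (C3 * (H : ℝ) ^ (n + 2)) + 2 * C1 * (H : ℝ) ^ (n + 2) := by
    have h12 := h4.trans h9
    linarith
  have h12 : (2 * C + (2 * C3 + 2 * C1)) * (H : ℝ) ^ (n + 2) =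
      2 * C * (H : ℝ) ^ (n + 2) + (2 * (C3 * (H : ℝ) ^ (n + 2)) + 2 * C1 * (H : ℝ) ^ (n + 2)) := by ring
  rw [h12]
  exact h7.trans (h6'.trans (add_le_add h10 h11))

end Pool.Agent.D0H53.AP
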