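import Pool.Agent.D0H53.PL.Mom

set_option autoImplicit false

/-!
# Factorial moments for a family with a density
-/

open Finset Filter Topology

namespace Pool.Agent.D0H53.AP

open Pool.Agent.N965.LN (dn)
open Pool.Agent.D0H53.PL

/-- the proportion of a short interval -/
noncomputable def vv (δ : ℕ → ℝ) (r : Σ _ : ℕ, ℕ) : ℝ := 2 * δ r.1 / (r.1 : ℝ) ^ 2

theorem vv_nonneg {Q1 Q2 : ℕ} {δ : ℕ → ℝ} {t L : ℝ} (h : Hyp Q1 Q2 δ t L) (r : Σ _ : ℕ, ℕ) (hr : r ∈ fr Q1 Q2) :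
    0 ≤ vv δ r := by
  have hr' := mem_fr.1 hr
  have := h.nonneg r.1 hr'.1.1 hr'.1.2
  unfold vv
  positivity

theorem vv_le {Q1 Q2 : ℕ} {δ : ℕ → ℝ} {t L : ℝ} (h : Hyp Q1 Q2 δ t L) (r : Σ _ : ℕ, ℕ) (hr : r ∈ fr Q1 Q2) :
    vv δ r ≤ 2 * t ^ 2 := by
  have hr' := mem_fr.1 hr
  have h1 := h.small r.1 hr'.1.1 hr'.1.2
  have hq1 : (1 : ℝ) ≤ r.1 := by exact_mod_cast (by omega : 1 ≤ r.1)
  have hq2 : (1 : ℝ) ≤ (r.1 : ℝ) ^ 2 := one_le_pow₀ hq1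
  unfold vv
  rw [div_le_iff₀ (by linarith)]
  have : 0 ≤ 2 * t ^ 2 := by positivity
  nlinarith

theorem U_w {Q1 Q2 : ℕ} (ρ : ℕ → ℝ) (w v : (Σ _ : ℕ, ℕ) → ℝ) (ω : ℝ)
    (hv : ∀ r ∈ fr Q1 Q2, 0 ≤ v r)
    (hw : ∀ r ∈ fr Q1 Q2, ∀ r' ∈ nearS Q1 Q2 ρ r, |w r' - w r| ≤ ω) (j : ℕ) :
    ∀ r ∈ fr Q1 Q2, |U Q1 Q2 ρ (fun r => w r * v r) j r - w r * U Q1 Q2 ρ v j r| ≤ j * ω * U Q1 Q2 ρ v j r := by
  induction j with
  | zero => intro r _; rw [U_zero, U_zero]; simp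
  | succ n ih =>
    intro r hr
    rw [U_succ, U_succ, Finset.mul_sum, Finset.mul_sum, ← Finset.sum_sub_distrib]
    refine (Finset.abs_sum_le_sum_abs _ _).trans (Finset.sum_le_sum fun r' hr' => ?_)
    have hr2 := nearS_sub _ _ _ _ hr'
    have h1 := ih r' hr2
    have h2 := hw r hr r' hr'
    have h3 := U_nonneg Q1 Q2 ρ v hv n r' hr2
    have h4 : U Q1 Q2 ρ (fun r => w r * v r) n r' - w r * U Q1 Q2 ρ v n r' =
        (U Q1 Q2 ρ (fun r => w r * v r) n r' - w r' * U Q1 Q2 ρ v n r') + (w r' - w r) * U Q1 Q2 ρ v n r' := by ring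
    rw [h4]
    refine (abs_add_le _ _).trans ?_
    rw [abs_mul, abs_of_nonneg h3]
    have h5 : |w r' - w r| * U Q1 Q2 ρ v n r' ≤ ω * U Q1 Q2 ρ v n r' := mul_le_mul_of_nonneg_right h2 h3
    push_cast
    linarith

theorem sum_vv {Q1 Q2 : ℕ} {δ : ℕ → ℝ} {t L : ℝ} (h : Hyp Q1 Q2 δ t L) : ∑ r ∈ fr Q1 Q2, vv δ r ≤ 2 * L := by
  unfold fr
  rw [Finset.sum_sigma]
  have h1 : ∀ n ∈ Ioc Q1 Q2, ∑ s ∈ (range n).filter (fun p => Nat.Coprime p n), vv δ ⟨n, s⟩ ≤ 2 * (δ n / n) := by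
    intro n hn
    rw [mem_Ioc] at hn
    have hn0 : (0 : ℝ) < n := by exact_mod_cast (by omega : 0 < n)
    have hd := h.nonneg n hn.1 hn.2
    change ∑ _s ∈ (range n).filter (fun p => Nat.Coprime p n), 2 * δ n / (n : ℝ) ^ 2 ≤ _
    rw [Finset.sum_const, nsmul_eq_mul]
    have h4 : ((((range n).filter (fun p => Nat.Coprime p n)).card : ℕ) : ℝ) ≤ n := by
      have := Finset.card_filter_le (range n) (fun p => Nat.Coprime p n)
      rw [Finset.card_range] at this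
      exact_mod_cast this
    calc _ ≤ (n : ℝ) * (2 * δ n / (n : ℝ) ^ 2) := mul_le_mul_of_nonneg_right h4 (by positivity)
      _ = 2 * (δ n / n) := by field_simp
  refine (Finset.sum_le_sum h1).trans ?_
  rw [← Finset.mul_sum]
  have h2 := h.mean
  unfold Mn at h2
  have h3 : ∑ n ∈ Ioc Q1 Q2, δ n / n ≤ 12 / Real.pi ^ 2 * ∑ n ∈ Ioc Q1 Q2, δ n / n := by
    have h4 : 0 ≤ ∑ n ∈ Ioc Q1 Q2, δ n / n := Finset.sum_nonneg fun n hn => by
      rw [mem_Ioc] at hn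
      exact div_nonneg (h.nonneg n hn.1 hn.2) (Nat.cast_nonneg _)
    have h5 : 1 ≤ 12 / Real.pi ^ 2 := by
      rw [le_div_iff₀ (by positivity)]
      have := Real.pi_lt_d2
      have := Real.pi_pos
      nlinarith
    exact le_mul_of_one_le_left h4 h5
  linarith

theorem sqrt_sum (Q1 Q2 : ℕ) : ∑ n ∈ Ioc Q1 Q2, Real.sqrt n / (n : ℝ) ^ 2 ≤ ∑' n : ℕ, 1 / (n : ℝ) ^ (3 / 2 : ℝ) := by
  have hs : Summable fun n : ℕ => 1 / (n : ℝ) ^ (3 / 2 : ℝ) := Real.summable_one_div_nat_rpow.2 (by norm_num)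
  refine le_trans (le_of_eq ?_) (hs.sum_le_tsum (Ioc Q1 Q2) fun n _ => by positivity)
  refine Finset.sum_congr rfl fun n hn => ?_
  rw [mem_Ioc] at hn
  have hn0 : (0 : ℝ) < n := by exact_mod_cast (by omega : 0 < n)
  rw [div_eq_div_iff (by positivity) (by positivity), one_mul, Real.sqrt_eq_rpow, ← Real.rpow_add hn0,
    ← Real.rpow_natCast]
  norm_num

theorem comb (X0 X1 X2 X3 Y B1 B2 B3 B4 B : ℝ) (h1 : |X0 - X1| ≤ B1) (h2 : |X1 - X2| ≤ B2) (h3 : |X2 - X3| ≤ B3)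
    (h4 : |X3 - Y| ≤ B4) (h : B1 + B2 + B3 + B4 ≤ B) : |X0 - Y| ≤ B := by
  have a1 := abs_le.1 h1
  have a2 := abs_le.1 h2
  have a3 := abs_le.1 h3
  have a4 := abs_le.1 h4
  rw [abs_le]
  constructor <;> linarith [a1.1, a1.2, a2.1, a2.2, a3.1, a3.2, a4.1, a4.2]

/-- the arithmetic of the constants -/
theorem consts (j : ℝ) (C LT KU KT L2 Z Lj N t E Q : ℝ) (hj : 0 ≤ j) (hC : 0 ≤ C) (hLT : 0 ≤ LT) (hKU : 0 ≤ KU)
    (hKT : 0 ≤ KT) (hL2 : 0 ≤ L2) (hZ : 0 ≤ Z) (hLj : 0 ≤ Lj) (hN : 0 ≤ N) (ht0 : 0 ≤ t) (ht1 : t ≤ 1) (hE : 0 ≤ E)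
    (hQ : 0 ≤ Q) :
    j * (C * N * t + E) * LT + C * N * (KU * t * L2) + 2 * t ^ 2 * Lj * (C * N * Z + E * Q) +
      N * ((KU * L2 + KT) * t) ≤
    (j * (C + 1) * LT + C * KU * L2 + 2 * C * Lj * Z + 2 * Lj + KU * L2 + KT) * (N * t) +
      (j * (C + 1) * LT + C * KU * L2 + 2 * C * Lj * Z + 2 * Lj + KU * L2 + KT) * (E * (1 + Q)) := by
  have ht2 : t ^ 2 ≤ t := by nlinarith
  have ht3 : t ^ 2 ≤ 1 := by nlinarith
  have hNt : 0 ≤ N * t := by positivity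
  have hEQ : 0 ≤ E * (1 + Q) := by positivity
  have b3 : 2 * t ^ 2 * Lj * (C * N * Z + E * Q) ≤ 2 * C * Lj * Z * (N * t) + 2 * Lj * (E * Q) := by
    have c1 : t ^ 2 * (2 * C * Lj * Z * N) ≤ t * (2 * C * Lj * Z * N) :=
      mul_le_mul_of_nonneg_right ht2 (by positivity)
    have c2 : t ^ 2 * (2 * Lj * (E * Q)) ≤ 1 * (2 * Lj * (E * Q)) :=
      mul_le_mul_of_nonneg_right ht3 (by positivity)
    linarith
  have e1 : j * C * LT * (N * t) ≤ j * (C + 1) * LT * (N * t) := by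
    apply mul_le_mul_of_nonneg_right _ hNt
    apply mul_le_mul_of_nonneg_right _ hLT
    nlinarith
  have e2 : j * LT * E ≤ j * (C + 1) * LT * (E * (1 + Q)) := by
    have c1 : j * LT ≤ j * (C + 1) * LT := by
      apply mul_le_mul_of_nonneg_right _ hLT
      nlinarith
    have c2 : E ≤ E * (1 + Q) := by nlinarith
    exact mul_le_mul c1 c2 hE (by positivity)
  have e3 : 2 * Lj * (E * Q) ≤ 2 * Lj * (E * (1 + Q)) := by
    apply mul_le_mul_of_nonneg_left _ (by positivity)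
    nlinarith
  have f3 : 0 ≤ 2 * Lj * (N * t) := by positivity
  have f4 : 0 ≤ (C * KU * L2 + 2 * C * Lj * Z + KU * L2 + KT) * (E * (1 + Q)) := by positivity
  have g1 : j * (C * N * t + E) * LT = j * C * LT * (N * t) + j * LT * E := by ring
  have g2 : C * N * (KU * t * L2) = C * KU * L2 * (N * t) := by ring
  have g3 : N * ((KU * L2 + KT) * t) = (KU * L2 + KT) * (N * t) := by ring
  have g4 : (j * (C + 1) * LT + C * KU * L2 + 2 * C * Lj * Z + 2 * Lj + KU * L2 + KT) * (N * t) =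
      j * (C + 1) * LT * (N * t) + C * KU * L2 * (N * t) + 2 * C * Lj * Z * (N * t) + 2 * Lj * (N * t) +
      (KU * L2 + KT) * (N * t) := by ring
  have g5 : (j * (C + 1) * LT + C * KU * L2 + 2 * C * Lj * Z + 2 * Lj + KU * L2 + KT) * (E * (1 + Q)) =
      j * (C + 1) * LT * (E * (1 + Q)) + 2 * Lj * (E * (1 + Q)) +
      (C * KU * L2 + 2 * C * Lj * Z + KU * L2 + KT) * (E * (1 + Q)) := by ring
  rw [g1, g2, g3, g4, g5]
  linarith

/-- the sum over the chains with a density -/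
theorem WT (j : ℕ) (L C : ℝ) (hL : 0 ≤ L) (hC : 0 ≤ C) : ∃ K : ℝ, 0 ≤ K ∧ ∀ (Q1 Q2 : ℕ) (δ : ℕ → ℝ) (t lam : ℝ),
    Hyp Q1 Q2 δ t L → |lam - 1| ≤ t ^ 2 → ∀ (w : (Σ _ : ℕ, ℕ) → ℝ) (N E : ℝ), 0 ≤ N → 0 ≤ E →
    (∀ r ∈ fr Q1 Q2, 0 ≤ w r) → (∀ r ∈ fr Q1 Q2, w r ≤ C * N) →
    (∀ r ∈ fr Q1 Q2, ∀ r' ∈ nearS Q1 Q2 (fun n => lam * δ n) r, |w r' - w r| ≤ C * N * t + E) →
    (∀ q, Q1 < q → q ≤ Q2 → |∑ p ∈ (range q).filter (fun p => Nat.Coprime p q), w ⟨q, p⟩ - Nat.totient q * N| ≤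
      C * N * Real.sqrt q + E * (q : ℝ) ^ 2) →
    |∑ r ∈ fr Q1 Q2, U Q1 Q2 (fun n => lam * δ n) (fun r => w r * vv δ r) j r -
      N * (Mn Q2 δ Q1 ^ (j + 1) / ((j + 1).factorial : ℝ))| ≤ K * (N * t) + K * (E * (1 + Q2)) := by
  obtain ⟨KU, hKU, hU⟩ := U_main j L hL
  obtain ⟨KT, hKT, hT⟩ := T_main j L hL
  set Z : ℝ := ∑' n : ℕ, 1 / (n : ℝ) ^ (3 / 2 : ℝ) with hZ
  have hZ0 : 0 ≤ Z := tsum_nonneg fun n => by positivity
  set K : ℝ := j * (C + 1) * (L ^ (j + 1) + KT) + C * KU * (2 * L) + 2 * C * L ^ j * Z + 2 * L ^ j +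
    KU * (2 * L) + KT with hK
  have hK0 : 0 ≤ K := by positivity
  refine ⟨K, hK0, ?_⟩
  intro Q1 Q2 δ t lam h hlam w N E hN hE hw0 hwC hww hwq
  have ht0 := h.t0
  have ht1 := h.t1
  have hQ0 : (0 : ℝ) ≤ Q2 := Nat.cast_nonneg _
  have hM0 := Mn_nonneg h Q1 le_rfl
  have hF1 : (1 : ℝ) ≤ (j.factorial : ℝ) := by exact_mod_cast Nat.factorial_pos j
  have hF2 : (1 : ℝ) ≤ ((j + 1).factorial : ℝ) := by exact_mod_cast Nat.factorial_pos (j + 1)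
  set ρ : ℕ → ℝ := fun n => lam * δ n with hρ
  have hvv : ∀ r, (2 * δ r.1 / (r.1 : ℝ) ^ 2) = vv δ r := fun r => rfl
  -- the total of the chain sums
  have hTm := hT Q1 Q2 δ t lam h hlam
  have hUr : ∀ r ∈ fr Q1 Q2, |U Q1 Q2 ρ (vv δ) j r - vv δ r * (Mn Q2 δ r.1 ^ j / (j.factorial : ℝ))| ≤
      KU * t * vv δ r := fun r hr => hU Q1 Q2 δ t lam h hlam r hr
  have hTm' : |∑ r ∈ fr Q1 Q2, U Q1 Q2 ρ (vv δ) j r - Mn Q2 δ Q1 ^ (j + 1) / ((j + 1).factorial : ℝ)| ≤ KT * t := hTm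
  have hUn : ∀ r ∈ fr Q1 Q2, 0 ≤ U Q1 Q2 ρ (vv δ) j r := U_nonneg Q1 Q2 ρ (vv δ) (fun r hr => vv_nonneg h r hr) j
  have hML : Mn Q2 δ Q1 ^ (j + 1) / ((j + 1).factorial : ℝ) ≤ L ^ (j + 1) :=
    (div_le_self (by positivity) hF2).trans (pow_le_pow_left₀ hM0 h.mean _)
  have hTot : ∑ r ∈ fr Q1 Q2, U Q1 Q2 ρ (vv δ) j r ≤ L ^ (j + 1) + KT := by
    have h1 := (abs_le.1 hTm').2
    have h2 : KT * t ≤ KT := mul_le_of_le_one_right hKT (by linarith)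
    linarith
  have hsv := sum_vv h
  have hsv0 : 0 ≤ ∑ r ∈ fr Q1 Q2, vv δ r := Finset.sum_nonneg fun r hr => vv_nonneg h r hr
  -- step 1
  have s1 : |∑ r ∈ fr Q1 Q2, U Q1 Q2 ρ (fun r => w r * vv δ r) j r - ∑ r ∈ fr Q1 Q2, w r * U Q1 Q2 ρ (vv δ) j r| ≤
      j * (C * N * t + E) * (L ^ (j + 1) + KT) := by
    rw [← Finset.sum_sub_distrib]
    refine (Finset.abs_sum_le_sum_abs _ _).trans ?_
    refine (Finset.sum_le_sum fun r hr => U_w ρ w (vv δ) (C * N * t + E) (fun r hr => vv_nonneg h r hr) hww j r hr).trans ?_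
    rw [← Finset.mul_sum]
    exact mul_le_mul_of_nonneg_left hTot (by positivity)
  -- step 2
  have s2 : |∑ r ∈ fr Q1 Q2, w r * U Q1 Q2 ρ (vv δ) j r -
      ∑ r ∈ fr Q1 Q2, w r * (vv δ r * (Mn Q2 δ r.1 ^ j / (j.factorial : ℝ)))| ≤ C * N * (KU * t * (2 * L)) := by
    rw [← Finset.sum_sub_distrib]
    refine (Finset.abs_sum_le_sum_abs _ _).trans ?_
    have h1 : ∀ r ∈ fr Q1 Q2, |w r * U Q1 Q2 ρ (vv δ) j r - w r * (vv δ r * (Mn Q2 δ r.1 ^ j / (j.factorial : ℝ)))| ≤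
        C * N * (KU * t * vv δ r) := by
      intro r hr
      rw [← mul_sub, abs_mul, abs_of_nonneg (hw0 r hr)]
      exact mul_le_mul (hwC r hr) (hUr r hr) (abs_nonneg _) (by positivity)
    refine (Finset.sum_le_sum h1).trans ?_
    rw [← Finset.mul_sum, ← Finset.mul_sum]
    apply mul_le_mul_of_nonneg_left _ (by positivity)
    exact mul_le_mul_of_nonneg_left hsv (by positivity)
  -- step 3
  have s3 : |∑ r ∈ fr Q1 Q2, w r * (vv δ r * (Mn Q2 δ r.1 ^ j / (j.factorial : ℝ))) -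
      N * ∑ r ∈ fr Q1 Q2, vv δ r * (Mn Q2 δ r.1 ^ j / (j.factorial : ℝ))| ≤
      2 * t ^ 2 * L ^ j * (C * N * Z + E * Q2) := by
    rw [Finset.mul_sum, ← Finset.sum_sub_distrib]
    unfold fr
    rw [Finset.sum_sigma]
    refine (Finset.abs_sum_le_sum_abs _ _).trans ?_
    have h1 : ∀ q ∈ Ioc Q1 Q2, |∑ s ∈ (range q).filter (fun p => Nat.Coprime p q),
        (w ⟨q, s⟩ * (vv δ ⟨q, s⟩ * (Mn Q2 δ q ^ j / (j.factorial : ℝ))) -
          N * (vv δ ⟨q, s⟩ * (Mn Q2 δ q ^ j / (j.factorial : ℝ))))| ≤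
        2 * t ^ 2 * L ^ j * (C * N * (Real.sqrt q / (q : ℝ) ^ 2) + E) := by
      intro q hq
      rw [mem_Ioc] at hq
      have hq0 : (0 : ℝ) < q := by exact_mod_cast (by omega : 0 < q)
      have hd0 := h.nonneg q hq.1 hq.2
      have hd1 := h.small q hq.1 hq.2
      have hMq := Mn_nonneg h q hq.1.le
      have hMq' := Mn_le h q hq.1.le
      have h2 : ∑ s ∈ (range q).filter (fun p => Nat.Coprime p q),
        (w ⟨q, s⟩ * (vv δ ⟨q, s⟩ * (Mn Q2 δ q ^ j / (j.factorial : ℝ))) -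
          N * (vv δ ⟨q, s⟩ * (Mn Q2 δ q ^ j / (j.factorial : ℝ)))) =
          (2 * δ q / (q : ℝ) ^ 2 * (Mn Q2 δ q ^ j / (j.factorial : ℝ))) *
          (∑ p ∈ (range q).filter (fun p => Nat.Coprime p q), w ⟨q, p⟩ - Nat.totient q * N) := by
        rw [mul_sub, Finset.mul_sum, Finset.sum_sub_distrib]
        congr 1
        · refine Finset.sum_congr rfl fun s _ => ?_
          simp only [vv]
          ring
        · simp only [vv]
          rw [Finset.sum_const, nsmul_eq_mul]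
          have h3 : (((range q).filter (fun p => Nat.Coprime p q)).card : ℝ) = Nat.totient q := by
            rw [Nat.totient_eq_card_coprime]
            congr 2
            ext p
            rw [mem_filter, mem_filter, Nat.coprime_comm]
          rw [h3]
          ring
      rw [h2, abs_mul, abs_of_nonneg (by positivity)]
      have h3 : 2 * δ q / (q : ℝ) ^ 2 * (Mn Q2 δ q ^ j / (j.factorial : ℝ)) ≤ 2 * t ^ 2 / (q : ℝ) ^ 2 * L ^ j := by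
        apply mul_le_mul _ _ (by positivity) (by positivity)
        · apply div_le_div_of_nonneg_right _ (by positivity)
          linarith
        · exact (div_le_self (by positivity) hF1).trans (pow_le_pow_left₀ hMq hMq' _)
      refine (mul_le_mul h3 (hwq q hq.1 hq.2) (abs_nonneg _) (by positivity)).trans (le_of_eq ?_)
      field_simp
    refine (Finset.sum_le_sum h1).trans ?_
    rw [← Finset.mul_sum, Finset.sum_add_distrib, ← Finset.mul_sum, Finset.sum_const, nsmul_eq_mul]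
    apply mul_le_mul_of_nonneg_left _ (by positivity)
    apply add_le_add
    · exact mul_le_mul_of_nonneg_left (sqrt_sum Q1 Q2) (by positivity)
    · rw [mul_comm]
      apply mul_le_mul_of_nonneg_left _ hE
      rw [Nat.card_Ioc]
      exact_mod_cast Nat.sub_le _ _
  -- step 4
  have s4 : |∑ r ∈ fr Q1 Q2, vv δ r * (Mn Q2 δ r.1 ^ j / (j.factorial : ℝ)) -
      Mn Q2 δ Q1 ^ (j + 1) / ((j + 1).factorial : ℝ)| ≤ (KU * (2 * L) + KT) * t := by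
    have h1 : |∑ r ∈ fr Q1 Q2, U Q1 Q2 ρ (vv δ) j r -
        ∑ r ∈ fr Q1 Q2, vv δ r * (Mn Q2 δ r.1 ^ j / (j.factorial : ℝ))| ≤ KU * t * (2 * L) := by
      rw [← Finset.sum_sub_distrib]
      refine (Finset.abs_sum_le_sum_abs _ _).trans ?_
      refine (Finset.sum_le_sum hUr).trans ?_
      rw [← Finset.mul_sum]
      exact mul_le_mul_of_nonneg_left hsv (by positivity)
    have h2 := abs_le.1 h1
    have h3 := abs_le.1 hTm'
    rw [abs_le]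
    constructor <;> nlinarith [h2.1, h2.2, h3.1, h3.2]
  have s5 : |N * ∑ r ∈ fr Q1 Q2, vv δ r * (Mn Q2 δ r.1 ^ j / (j.factorial : ℝ)) -
      N * (Mn Q2 δ Q1 ^ (j + 1) / ((j + 1).factorial : ℝ))| ≤ N * ((KU * (2 * L) + KT) * t) := by
    rw [← mul_sub, abs_mul, abs_of_nonneg hN]
    exact mul_le_mul_of_nonneg_left s4 hN
  refine comb _ _ _ _ _ _ _ _ _ _ s1 s2 s3 s5 ?_
  exact consts j C (L ^ (j + 1) + KT) KU KT (2 * L) Z (L ^ j) N t E Q2 (Nat.cast_nonneg _) hC (by positivity) hKU hKT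
    (by positivity) hZ0 (by positivity) hN ht0 (by linarith) hE hQ0

theorem near_small {Q1 Q2 : ℕ} {δ : ℕ → ℝ} {t L lam : ℝ} (h : Hyp Q1 Q2 δ t L) (hlam : |lam - 1| ≤ t ^ 2)
    (r : Σ _ : ℕ, ℕ) (hr : r ∈ fr Q1 Q2) (r' : Σ _ : ℕ, ℕ) (hr' : r' ∈ nearS Q1 Q2 (fun n => lam * δ n) r) :
    r' ∈ fr Q1 Q2 ∧ dn (val r' - val r) ≤ 2 * t ^ 2 / (r.1 : ℝ) ^ 2 := by
  have h0 := mem_fr.1 hr
  have h1 := h.nonneg r.1 h0.1.1 h0.1.2
  have h2 := h.small r.1 h0.1.1 h0.1.2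
  have ht0 := h.t0
  have ht1 := h.t1
  refine ⟨nearS_sub _ _ _ _ hr', ?_⟩
  unfold nearS at hr'
  rw [mem_filter] at hr'
  refine hr'.2.2.trans ?_
  apply div_le_div_of_nonneg_right _ (by positivity)
  have h3 := (abs_le.1 hlam).2
  have h4 : lam ≤ 2 := by nlinarith
  calc lam * δ r.1 ≤ 2 * δ r.1 := mul_le_mul_of_nonneg_right h4 h1
    _ ≤ 2 * t ^ 2 := by linarith

end Pool.Agent.D0H53.AP
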